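import Mathlib

set_option autoImplicit false

open Real

namespace Pool.Agent.Helper92.Diamond

lemma two_sub_two_cos_ge {x : ℝ} (hx : |x| ≤ 1) : x ^ 2 - 5 / 48 * x ^ 4 ≤ 2 - 2 * cos x := by
  have h := Real.cos_bound hx
  have h2 : |x| ^ 4 = x ^ 4 := by
    rw [← abs_pow, abs_of_nonneg]
    positivity
  rw [h2, abs_le] at h
  linarith [h.2]

/-- Monotonicity of `cos x + x^2/2`. -/
lemma cos_sub_cos_le {a b : ℝ} (ha : 0 ≤ b) (hab : b ≤ a) :
    2 * cos b - 2 * cos a ≤ a ^ 2 - b ^ 2 := by
  have hmono : MonotoneOn (fun x : ℝ => cos x + x ^ 2 / 2) (Set.Ici 0) := by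
    apply monotoneOn_of_deriv_nonneg (convex_Ici 0)
    · fun_prop
    · fun_prop
    · intro x hx
      rw [interior_Ici] at hx
      have hd : deriv (fun x : ℝ => cos x + x ^ 2 / 2) x = -sin x + x := by
        have h1 : HasDerivAt (fun x : ℝ => cos x + x ^ 2 / 2) (-sin x + (2 * x) / 2) x := by
          have h2 := (hasDerivAt_pow 2 x).div_const 2
          have h3 := (hasDerivAt_cos x).add h2
          convert! h3 using 1
          norm_num
        rw [h1.deriv]
        ring
      rw [hd]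
      have := sin_le (le_of_lt hx)
      linarith
  have := hmono (Set.mem_Ici.2 ha) (Set.mem_Ici.2 (ha.trans hab)) hab
  simp only at this
  linarith

lemma sq_pi_le : π ^ 2 ≤ 9.87 := by
  have := pi_lt_d4
  have := pi_pos
  nlinarith

lemma le_sq_pi : 9.869 ≤ π ^ 2 := by
  have := pi_gt_d6
  nlinarith

end Pool.Agent.Helper92.Diamond
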