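import Pool.Agent.Helper92_Diamond.Quad

set_option autoImplicit false

open Finset

namespace Pool.Agent.Helper92.Diamond

/-- The hypothesis that the quadratic form is bounded by `ρ` on nonnegative functions
supported on `A`. -/
def QuadBound (al : W → Fin 4 → Prop) (A : Finset W) (ρ : ℝ) : Prop :=
  ∀ f : W → ℝ, FS f → (∀ x, 0 ≤ f x) → (∀ x, x ∉ A → f x = 0) → Bf al f f ≤ ρ * nsq f

/-- Iterates of the killed kernel. -/
noncomputable def iter (al : W → Fin 4 → Prop) (A : Finset W) : ℕ → W → ℝ
  | 0, x => ind (x ∈ A)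
  | (j + 1), x => ind (x ∈ A) * ((1 / 4) * ∑ i : Fin 4, ind (al x i) * iter al A j (x + dir i))

lemma iter_nonneg (al : W → Fin 4 → Prop) (A : Finset W) (j : ℕ) (x : W) :
    0 ≤ iter al A j x := by
  induction j generalizing x with
  | zero => exact ind_nonneg _
  | succ j ih =>
    unfold iter
    refine mul_nonneg (ind_nonneg _) (mul_nonneg (by norm_num) ?_)
    exact Finset.sum_nonneg fun i _ => mul_nonneg (ind_nonneg _) (ih _)

lemma iter_zero_outside (al : W → Fin 4 → Prop) (A : Finset W) (j : ℕ) (x : W) (hx : x ∉ A) :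
    iter al A j x = 0 := by
  cases j with
  | zero => exact ind_false hx
  | succ j =>
    unfold iter
    rw [ind_false hx, zero_mul]

lemma Ex_le_iter (al : W → Fin 4 → Prop) (A : Finset W) (j : ℕ) (x : W) :
    Ex j x (fun R => ind (R ⊆ A ∧ ∀ y ∈ R, ∀ i, ¬ al y i → y + dir i ∉ R)) ≤ iter al A j x := by
  induction j generalizing x with
  | zero =>
    rw [Ex_zero]
    exact ind_mono fun h => h.1 (by simp)
  | succ j ih =>
    rw [Ex_succ]
    unfold iter
    by_cases hx : x ∈ A
    · rw [ind_true hx, one_mul]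
      refine mul_le_mul_of_nonneg_left (Finset.sum_le_sum fun i _ => ?_) (by norm_num)
      refine le_trans ?_ (mul_le_mul_of_nonneg_left (ih (x + dir i)) (ind_nonneg _))
      rw [← Ex_mul_left]
      refine Ex_mono_on fun R hR => ?_
      by_cases hal : al x i
      · rw [ind_true hal, one_mul]
        refine ind_mono fun h => ⟨fun y hy => h.1 (Finset.mem_insert_of_mem hy), ?_⟩
        intro y hy k hk hcon
        exact h.2 y (Finset.mem_insert_of_mem hy) k hk (Finset.mem_insert_of_mem hcon)
      · rw [ind_false hal, zero_mul, ind_false]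
        intro h
        exact h.2 x (Finset.mem_insert_self _ _) i hal (Finset.mem_insert_of_mem hR.mem)
    · rw [ind_false hx, zero_mul]
      refine mul_nonpos_of_nonneg_of_nonpos (by norm_num) (Finset.sum_nonpos fun i _ => ?_)
      refine le_trans (Ex_mono_on (G := fun _ => 0) fun R hR => ?_) (by rw [Ex_const])
      rw [ind_false]
      intro h
      exact hx (h.1 (Finset.mem_insert_self _ _))

lemma FS_iter (al : W → Fin 4 → Prop) (A : Finset W) (j : ℕ) : FS (iter al A j) :=
  FS.of_finset A fun x hx => iter_zero_outside al A j x hx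

lemma iter_mul_ind (al : W → Fin 4 → Prop) (A : Finset W) (j : ℕ) (x : W) :
    iter al A j x * ind (x ∈ A) = iter al A j x := by
  by_cases hx : x ∈ A
  · rw [ind_true hx, mul_one]
  · rw [iter_zero_outside al A j x hx, zero_mul]

lemma sqrt_nsq_iter_succ {al : W → Fin 4 → Prop} (hal : SymAl al) {A : Finset W} {ρ : ℝ}
    (hρ : 0 ≤ ρ) (H : QuadBound al A ρ) (j : ℕ) :
    Real.sqrt (nsq (iter al A (j + 1))) ≤ ρ * Real.sqrt (nsq (iter al A j)) := by
  have h1 : nsq (iter al A (j + 1)) = Bf al (iter al A (j + 1)) (iter al A j) := by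
    unfold Bf nsq
    rw [← S_mul_left]
    congr 1
    funext x
    have e : iter al A (j + 1) x
        = ind (x ∈ A) * ((1 / 4) * ∑ i : Fin 4, ind (al x i) * iter al A j (x + dir i)) := rfl
    have e2 : iter al A (j + 1) x ^ 2 = (iter al A (j + 1) x * ind (x ∈ A)) *
        ((1 / 4) * ∑ i : Fin 4, ind (al x i) * iter al A j (x + dir i)) := by
      conv_lhs => rw [sq]
      nth_rw 2 [e]
      ring
    rw [e2, iter_mul_ind, mul_left_comm, Finset.mul_sum]
    congr 1
    refine Finset.sum_congr rfl fun i _ => ?_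
    ring
  have h2 : Bf al (iter al A (j + 1)) (iter al A j)
      ≤ ρ * (Real.sqrt (nsq (iter al A (j + 1))) * Real.sqrt (nsq (iter al A j))) := by
    refine Bf_le_mul hal (A := (A : Set W)) hρ ?_ (FS_iter _ _ _) (FS_iter _ _ _) ?_ ?_
    · intro f hf hf0 hfA
      exact H f hf hf0 fun x hx => hfA x (by simpa using hx)
    · intro x hx
      exact iter_zero_outside _ _ _ _ (by simpa using hx)
    · intro x hx
      exact iter_zero_outside _ _ _ _ (by simpa using hx)
  rw [← h1] at h2
  have h3 := Real.mul_self_sqrt (nsq_nonneg (iter al A (j + 1)))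
  have h4 := Real.sqrt_nonneg (nsq (iter al A (j + 1)))
  rcases eq_or_lt_of_le h4 with h0 | hpos
  · rw [← h0]
    exact mul_nonneg hρ (Real.sqrt_nonneg _)
  · have : Real.sqrt (nsq (iter al A (j + 1))) * Real.sqrt (nsq (iter al A (j + 1)))
        ≤ Real.sqrt (nsq (iter al A (j + 1))) * (ρ * Real.sqrt (nsq (iter al A j))) := by
      rw [h3]
      linarith
    exact le_of_mul_le_mul_left this hpos

lemma nsq_iter_zero (al : W → Fin 4 → Prop) (A : Finset W) :
    nsq (iter al A 0) = (A.card : ℝ) := by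
  classical
  unfold nsq S
  rw [tsum_eq_sum (s := A)]
  · rw [Finset.sum_congr rfl (g := fun _ => (1 : ℝ)) fun x hx => by
      unfold iter; rw [ind_true hx, one_pow]]
    simp
  · intro x hx
    unfold iter
    rw [ind_false hx]
    norm_num

lemma iter_le {al : W → Fin 4 → Prop} (hal : SymAl al) {A : Finset W} {ρ : ℝ}
    (hρ : 0 ≤ ρ) (H : QuadBound al A ρ) (j : ℕ) (x : W) :
    iter al A j x ≤ ρ ^ j * Real.sqrt A.card := by
  have h1 : Real.sqrt (nsq (iter al A j)) ≤ ρ ^ j * Real.sqrt A.card := by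
    induction j with
    | zero => rw [nsq_iter_zero, pow_zero, one_mul]
    | succ j ih =>
      refine (sqrt_nsq_iter_succ hal hρ H j).trans ?_
      rw [pow_succ']
      have := mul_le_mul_of_nonneg_left ih hρ
      linarith
  refine le_trans ?_ h1
  rw [Real.le_sqrt (iter_nonneg _ _ _ _) (nsq_nonneg _)]
  exact S_le_of_single (FS_iter al A j).sq (fun y => sq_nonneg _) x

/-- Main spectral estimate for the killed walk. -/
lemma Ex_le_of_quadBound {al : W → Fin 4 → Prop} (hal : SymAl al) {A : Finset W} {ρ : ℝ}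
    (hρ : 0 ≤ ρ) (H : QuadBound al A ρ) (j : ℕ) (x : W) :
    Ex j x (fun R => ind (R ⊆ A ∧ ∀ y ∈ R, ∀ i, ¬ al y i → y + dir i ∉ R))
      ≤ ρ ^ j * Real.sqrt A.card :=
  (Ex_le_iter al A j x).trans (iter_le hal hρ H j x)

/-- Mass of even points. -/
noncomputable def nE (f : W → ℝ) : ℝ := S (fun x => ind (x.1 % 2 = 0) * f x ^ 2)

/-- Mass of odd points. -/
noncomputable def nO (f : W → ℝ) : ℝ := S (fun x => ind (¬ x.1 % 2 = 0) * f x ^ 2)

lemma ind_add_ind_not (p : Prop) : ind p + ind (¬ p) = 1 := by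
  by_cases h : p
  · rw [ind_true h, ind_false (not_not.2 h)]
    norm_num
  · rw [ind_false h, ind_true h]
    norm_num

lemma nsq_eq {f : W → ℝ} (hf : FS f) : nsq f = nE f + nO f := by
  unfold nsq nE nO
  rw [← S_add hf.sq.mul_left hf.sq.mul_left]
  congr 1
  funext x
  rw [← add_mul, ind_add_ind_not, one_mul]

lemma nE_nonneg (f : W → ℝ) : 0 ≤ nE f :=
  S_nonneg fun _ => mul_nonneg (ind_nonneg _) (sq_nonneg _)

lemma nO_nonneg (f : W → ℝ) : 0 ≤ nO f :=
  S_nonneg fun _ => mul_nonneg (ind_nonneg _) (sq_nonneg _)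

lemma par_flip (x : W) (i : Fin 4) : (x + dir i).1 % 2 = 0 ↔ ¬ x.1 % 2 = 0 := by
  have h := (dir_cases i).1
  have e : (x + dir i).1 = x.1 + (dir i).1 := rfl
  rw [e]
  omega

lemma zero_of_nE {f : W → ℝ} (hf : FS f) (h : nE f = 0) (x : W) (hx : x.1 % 2 = 0) : f x = 0 := by
  have h1 := S_le_of_single (F := fun x => ind (x.1 % 2 = 0) * f x ^ 2) hf.sq.mul_left
    (fun _ => mul_nonneg (ind_nonneg _) (sq_nonneg _)) x
  rw [show S (fun x => ind (x.1 % 2 = 0) * f x ^ 2) = 0 from h] at h1
  simp only [ind_true hx, one_mul] at h1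
  have := sq_nonneg (f x)
  exact pow_eq_zero_iff (two_ne_zero) |>.1 (le_antisymm h1 this)

lemma zero_of_nO {f : W → ℝ} (hf : FS f) (h : nO f = 0) (x : W) (hx : ¬ x.1 % 2 = 0) :
    f x = 0 := by
  have h1 := S_le_of_single (F := fun x => ind (¬ x.1 % 2 = 0) * f x ^ 2) hf.sq.mul_left
    (fun _ => mul_nonneg (ind_nonneg _) (sq_nonneg _)) x
  rw [show S (fun x => ind (¬ x.1 % 2 = 0) * f x ^ 2) = 0 from h] at h1
  simp only [ind_true hx, one_mul] at h1
  have := sq_nonneg (f x)
  exact pow_eq_zero_iff (two_ne_zero) |>.1 (le_antisymm h1 this)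

/-- It suffices to bound the form on functions with balanced parity masses. -/
lemma quadBound_of_balanced {al : W → Fin 4 → Prop} {A : Finset W} {ρ : ℝ} (hρ : 0 ≤ ρ)
    (H : ∀ f : W → ℝ, FS f → (∀ x, 0 ≤ f x) → (∀ x, x ∉ A → f x = 0) → nE f = nO f →
      Bf al f f ≤ ρ * nsq f) : QuadBound al A ρ := by
  intro f hf hf0 hfA
  have hprod : (∀ x i, f x * f (x + dir i) = 0) → Bf al f f ≤ ρ * nsq f := by
    intro h
    have : Bf al f f = 0 := by
      unfold Bf
      have : (fun x => ∑ i : Fin 4, ind (al x i) * (f x * f (x + dir i))) = fun _ => (0 : ℝ) := by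
        funext x
        refine Finset.sum_eq_zero fun i _ => ?_
        rw [h, mul_zero]
      rw [this]
      simp [S]
    rw [this]
    exact mul_nonneg hρ (nsq_nonneg f)
  rcases eq_or_lt_of_le (nE_nonneg f) with ha | ha
  · apply hprod
    intro x i
    by_cases hx : x.1 % 2 = 0
    · rw [zero_of_nE hf ha.symm x hx, zero_mul]
    · rw [zero_of_nE hf ha.symm (x + dir i) ((par_flip x i).2 hx), mul_zero]
  rcases eq_or_lt_of_le (nO_nonneg f) with hb | hb
  · apply hprod
    intro x i
    by_cases hx : x.1 % 2 = 0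
    · rw [zero_of_nO hf hb.symm (x + dir i) (fun hc => (par_flip x i).1 hc hx), mul_zero]
    · rw [zero_of_nO hf hb.symm x hx, zero_mul]
  -- scaling
  set a := Real.sqrt (nE f) with hadef
  set b := Real.sqrt (nO f) with hbdef
  have ha0 : 0 < a := Real.sqrt_pos.2 ha
  have hb0 : 0 < b := Real.sqrt_pos.2 hb
  have haa : a * a = nE f := Real.mul_self_sqrt ha.le
  have hbb : b * b = nO f := Real.mul_self_sqrt hb.le
  set s := Real.sqrt (b / a) with hs
  have hs0 : 0 < s := Real.sqrt_pos.2 (by positivity)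
  have hss : s * s = b / a := Real.mul_self_sqrt (by positivity)
  set w : W → ℝ := fun x => if x.1 % 2 = 0 then s else s⁻¹ with hw
  have hw0 : ∀ x, 0 < w x := by
    intro x
    rw [hw]
    by_cases hx : x.1 % 2 = 0
    · simp [hx, hs0]
    · simp [hx, hs0]
  have hww : ∀ x i, w x * w (x + dir i) = 1 := by
    intro x i
    rw [hw]
    by_cases hx : x.1 % 2 = 0
    · have : ¬ (x + dir i).1 % 2 = 0 := fun hc => (par_flip x i).1 hc hx
      simp only [if_pos hx, if_neg this]
      exact mul_inv_cancel₀ hs0.ne'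
    · have : (x + dir i).1 % 2 = 0 := (par_flip x i).2 hx
      simp only [if_neg hx, if_pos this]
      exact inv_mul_cancel₀ hs0.ne'
  set f' : W → ℝ := fun x => w x * f x with hf'
  have hFS : FS f' := hf.mul_left
  have hE : nE f' = a * b := by
    have : nE f' = s * s * nE f := by
      unfold nE
      rw [← S_mul_left]
      congr 1
      funext x
      by_cases hx : x.1 % 2 = 0
      · simp only [hf', hw, if_pos hx]
        ring
      · rw [ind_false hx]
        ring
    rw [this, hss, ← haa]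
    field_simp
  have hO : nO f' = a * b := by
    have : nO f' = (s * s)⁻¹ * nO f := by
      unfold nO
      rw [← S_mul_left]
      congr 1
      funext x
      by_cases hx : x.1 % 2 = 0
      · rw [ind_false (not_not.2 hx)]
        ring
      · simp only [hf', hw, if_neg hx]
        rw [mul_inv]
        ring
    rw [this, hss, ← hbb]
    field_simp
  have hB : Bf al f' f' = Bf al f f := by
    unfold Bf
    congr 2
    funext x
    refine Finset.sum_congr rfl fun i _ => ?_
    have : f' x * f' (x + dir i) = (w x * w (x + dir i)) * (f x * f (x + dir i)) := by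
      simp only [hf']
      ring
    rw [this, hww, one_mul]
  have h := H f' hFS (fun x => mul_nonneg (hw0 x).le (hf0 x))
    (fun x hx => by simp [hf', hfA x hx]) (by rw [hE, hO])
  rw [hB, nsq_eq hFS, hE, hO] at h
  refine h.trans (mul_le_mul_of_nonneg_left ?_ hρ)
  rw [nsq_eq hf, ← haa, ← hbb]
  nlinarith [sq_nonneg (a - b)]

lemma Bf_eq_full {f : W → ℝ} (hf : FS f) :
    Bf (fun _ _ => True) f f = nsq f - (1 / 8) * ∑ i : Fin 4, Q f (dir i) := by
  unfold Bf
  rw [S_sum fun i _ => FS_Bterm (al := fun _ _ => True) (g := f) hf i]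
  have : ∀ i : Fin 4, S (fun x => ind True * (f x * f (x + dir i)))
      = nsq f - (1 / 2) * Q f (dir i) := by
    intro i
    rw [Q_expand hf]
    have : (fun x => ind True * (f x * f (x + dir i))) = fun x => f x * f (x + dir i) := by
      funext x
      rw [ind_true trivial, one_mul]
    rw [this]
    ring
  rw [Finset.sum_congr rfl fun i _ => this i, Finset.sum_sub_distrib, ← Finset.mul_sum]
  simp
  ring

lemma Bf_le_full {al : W → Fin 4 → Prop} {f : W → ℝ} (hf : FS f) (hf0 : ∀ x, 0 ≤ f x) :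
    Bf al f f ≤ nsq f - (1 / 8) * ∑ i : Fin 4, Q f (dir i) := by
  rw [← Bf_eq_full hf]
  unfold Bf
  refine mul_le_mul_of_nonneg_left (S_mono (FS.sum fun i _ => FS_Bterm hf i)
    (FS.sum fun i _ => FS_Bterm (al := fun _ _ => True) (g := f) hf i)
    fun x => Finset.sum_le_sum fun i _ => ?_) (by norm_num)
  refine mul_le_mul_of_nonneg_right ?_ (mul_nonneg (hf0 _) (hf0 _))
  exact ind_mono fun _ => trivial

/-- Sites carrying a forbidden edge are penalised. -/
lemma Bf_le_penalty {al : W → Fin 4 → Prop} {f : W → ℝ} (hf : FS f) (hf0 : ∀ x, 0 ≤ f x) :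
    Bf al f f ≤ nsq f - (1 / 8) * S (fun x => ind (∃ i, ¬ al x i) * f x ^ 2) := by
  have hQ : FS (fun x => ∑ i : Fin 4, (f (x + dir i) - f x) ^ 2) :=
    FS.sum fun i _ => by simpa using hf.Q (dir i) 0
  have hSQ : S (fun x => ∑ i : Fin 4, (f (x + dir i) - f x) ^ 2) = ∑ i : Fin 4, Q f (dir i) := by
    rw [S_sum fun i _ => by simpa using hf.Q (dir i) 0]
    rfl
  have hA : FS (fun x => ∑ i : Fin 4, ind (al x i) * (f x * f (x + dir i))) :=
    FS.sum fun i _ => FS_Bterm hf i
  have hT : FS (fun x => ∑ i : Fin 4, ind True * (f x * f (x + dir i))) :=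
    FS.sum fun i _ => FS_Bterm (al := fun _ _ => True) hf i
  have hP : FS (fun x => ind (∃ i, ¬ al x i) * f x ^ 2) := hf.sq.mul_left
  -- pointwise inequality
  have hpt : ∀ x, (∑ i : Fin 4, ind (al x i) * (f x * f (x + dir i)))
      + (1 / 2) * (ind (∃ i, ¬ al x i) * f x ^ 2)
      ≤ (∑ i : Fin 4, ind True * (f x * f (x + dir i)))
        + (1 / 2) * ∑ i : Fin 4, (f (x + dir i) - f x) ^ 2 := by
    intro x
    have hle : ∀ i : Fin 4, ind (al x i) * (f x * f (x + dir i))
        ≤ ind True * (f x * f (x + dir i)) := fun i =>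
      mul_le_mul_of_nonneg_right (ind_mono fun _ => trivial) (mul_nonneg (hf0 _) (hf0 _))
    by_cases hx : ∃ i, ¬ al x i
    · rw [ind_true hx, one_mul]
      obtain ⟨k, hk⟩ := hx
      have h1 : (∑ i : Fin 4, ind (al x i) * (f x * f (x + dir i))) + f x * f (x + dir k)
          ≤ ∑ i : Fin 4, ind True * (f x * f (x + dir i)) := by
        rw [← Finset.add_sum_erase _ _ (Finset.mem_univ k),
          ← Finset.add_sum_erase (f := fun i => ind True * (f x * f (x + dir i))) _
            (Finset.mem_univ k)]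
        have h3 : ∑ i ∈ Finset.univ.erase k, ind (al x i) * (f x * f (x + dir i))
            ≤ ∑ i ∈ Finset.univ.erase k, ind True * (f x * f (x + dir i)) :=
          Finset.sum_le_sum fun i _ => hle i
        have h4 : ind True * (f x * f (x + dir k)) = f x * f (x + dir k) := by
          rw [ind_true trivial, one_mul]
        rw [ind_false hk, zero_mul, zero_add, h4]
        linarith
      have h2 : (f (x + dir k) - f x) ^ 2 ≤ ∑ i : Fin 4, (f (x + dir i) - f x) ^ 2 :=
        Finset.single_le_sum (f := fun i => (f (x + dir i) - f x) ^ 2)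
          (fun i _ => sq_nonneg _) (Finset.mem_univ k)
      nlinarith [sq_nonneg (f (x + dir k))]
    · rw [ind_false hx, zero_mul, mul_zero, add_zero]
      have h2 : 0 ≤ ∑ i : Fin 4, (f (x + dir i) - f x) ^ 2 :=
        Finset.sum_nonneg fun i _ => sq_nonneg _
      have h3 := Finset.sum_le_sum fun i (_ : i ∈ (Finset.univ : Finset (Fin 4))) => hle i
      linarith
  have hfin := S_mono (hA.add (hP.mul_left (g := fun _ => (1 / 2 : ℝ))))
    (hT.add (hQ.mul_left (g := fun _ => (1 / 2 : ℝ)))) hpt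
  rw [S_add hA (hP.mul_left (g := fun _ => (1 / 2 : ℝ))),
    S_add hT (hQ.mul_left (g := fun _ => (1 / 2 : ℝ))), S_mul_left, S_mul_left, hSQ] at hfin
  have hfull := Bf_eq_full hf
  unfold Bf at hfull ⊢
  linarith

end Pool.Agent.Helper92.Diamond
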