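import Pool.Agent.Helper92_Diamond.Walls
import Pool.Agent.Helper92_Diamond.Spec

set_option autoImplicit false

open Finset Real

namespace Pool.Agent.Helper92.Diamond

/-- The one-dimensional eigenvalue bound. -/
noncomputable def hh (m κ : ℝ) : ℝ := 2 - 2 * cos (π / (m + 3 + 2 * κ))

lemma two_sub_two_cos_le (x : ℝ) : 2 - 2 * cos x ≤ x ^ 2 := by
  have := Real.one_sub_sq_div_two_le_cos (x := x)
  linarith

lemma hh_nonneg (m κ : ℝ) : 0 ≤ hh m κ := by
  unfold hh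
  linarith [cos_le_one (π / (m + 3 + 2 * κ))]

lemma hh_le_four (m κ : ℝ) : hh m κ ≤ 4 := by
  unfold hh
  linarith [neg_one_le_cos (π / (m + 3 + 2 * κ))]

lemma hh_le {m κ : ℝ} (hm : 0 ≤ m) (hκ : 0 < κ) : hh m κ ≤ 1 / κ := by
  unfold hh
  refine (two_sub_two_cos_le _).trans ?_
  rw [div_pow, div_le_div_iff₀ (by positivity) hκ, one_mul]
  have h1 : π ^ 2 ≤ 10 := by
    have := pi_lt_d2
    have := pi_pos
    nlinarith
  have h2 : 24 * κ ≤ (m + 3 + 2 * κ) ^ 2 := by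
    nlinarith [sq_nonneg (3 - 2 * κ)]
  nlinarith

/-- Line inequality in a convenient form. -/
lemma line_fst' {f : W → ℝ} (hf : FS f) (U : ℤ → Finset ℤ) (m κ : ℤ → ℤ → ℝ)
    (hm : ∀ v p, 0 ≤ m v p) (hκ : ∀ v p, 0 < κ v p)
    (h : ∀ x : W, f x ≠ 0 → 2 * (dW (U x.2) x.1 : ℝ) ≤ m x.2 (x.1 % 2) + 1) :
    S (fun x => (hh (m x.2 (x.1 % 2)) (κ x.2 (x.1 % 2))
      - 3 / κ x.2 (x.1 % 2) * ind (x.1 ∉ U x.2)) * f x ^ 2) ≤ Q f (2, 0) := by
  have key := line_fst hf U (fun v p => π / (m v p + 3 + 2 * κ v p)) κ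
    (fun v p => by have := hm v p; have := hκ v p; positivity) hκ (by
      intro x hx
      have h1 := h x hx
      have h2 := hm x.2 (x.1 % 2)
      have h3 := hκ x.2 (x.1 % 2)
      rw [div_mul_eq_mul_div, div_le_div_iff₀ (by positivity) (by norm_num)]
      nlinarith [pi_pos])
  refine le_trans (S_mono hf.sq.mul_left hf.sq.mul_left fun x => ?_) key
  refine mul_le_mul_of_nonneg_right ?_ (sq_nonneg _)
  have h2 := hm x.2 (x.1 % 2)
  have h3 := hκ x.2 (x.1 % 2)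
  unfold coef
  by_cases hx : x.1 ∈ U x.2
  · rw [if_pos hx, ind_false (not_not.2 hx)]
    unfold hh
    linarith
  · rw [if_neg hx, ind_true hx]
    have := hh_le h2 h3
    have e : 3 / κ x.2 (x.1 % 2) = 2 / κ x.2 (x.1 % 2) + 1 / κ x.2 (x.1 % 2) := by ring
    rw [e]
    linarith

lemma line_snd' {f : W → ℝ} (hf : FS f) (U : ℤ → Finset ℤ) (m κ : ℤ → ℤ → ℝ)
    (hm : ∀ v p, 0 ≤ m v p) (hκ : ∀ v p, 0 < κ v p)
    (h : ∀ x : W, f x ≠ 0 → 2 * (dW (U x.1) x.2 : ℝ) ≤ m x.1 (x.2 % 2) + 1) :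
    S (fun x => (hh (m x.1 (x.2 % 2)) (κ x.1 (x.2 % 2))
      - 3 / κ x.1 (x.2 % 2) * ind (x.2 ∉ U x.1)) * f x ^ 2) ≤ Q f (0, 2) := by
  have key := line_snd hf U (fun v p => π / (m v p + 3 + 2 * κ v p)) κ
    (fun v p => by have := hm v p; have := hκ v p; positivity) hκ (by
      intro x hx
      have h1 := h x hx
      have h2 := hm x.1 (x.2 % 2)
      have h3 := hκ x.1 (x.2 % 2)
      rw [div_mul_eq_mul_div, div_le_div_iff₀ (by positivity) (by norm_num)]
      nlinarith [pi_pos])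
  refine le_trans (S_mono hf.sq.mul_left hf.sq.mul_left fun x => ?_) key
  refine mul_le_mul_of_nonneg_right ?_ (sq_nonneg _)
  have h2 := hm x.1 (x.2 % 2)
  have h3 := hκ x.1 (x.2 % 2)
  unfold coef
  by_cases hx : x.2 ∈ U x.1
  · rw [if_pos hx, ind_false (not_not.2 hx)]
    unfold hh
    linarith
  · rw [if_neg hx, ind_true hx]
    have := hh_le h2 h3
    have e : 3 / κ x.1 (x.2 % 2) = 2 / κ x.1 (x.2 % 2) + 1 / κ x.1 (x.2 % 2) := by ring
    rw [e]
    linarith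

/-- Mass on penalised sites. -/
noncomputable def pen (al : W → Fin 4 → Prop) (f : W → ℝ) : ℝ :=
  S (fun x => ind (∃ i, ¬ al x i) * f x ^ 2)

/-- The parity condition for the sublattice. -/
def Par (A : Finset W) : Prop := ∀ x ∈ A, x.1 % 2 = x.2 % 2

/-- Data: every point outside `𝒰 × 𝒱` carries a forbidden edge. -/
def Penal (al : W → Fin 4 → Prop) (A : Finset W) (U V : Finset ℤ) : Prop :=
  ∀ x ∈ A, (x.1 ∉ U ∨ x.2 ∉ V) → ∃ i, ¬ al x i

lemma S_comb3 {F G H : W → ℝ} (hF : FS F) (hG : FS G) (hH : FS H) (a b c : ℝ) :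
    S (fun x => a * F x + b * G x - c * H x) = a * S F + b * S G - c * S H := by
  rw [S_sub (F := fun x => a * F x + b * G x) (G := fun x => c * H x)
    (hF.mul_left.add hG.mul_left) hH.mul_left, S_add hF.mul_left hG.mul_left,
    S_mul_left, S_mul_left, S_mul_left]

lemma not_mem_of_ne {A : Finset W} {f : W → ℝ} (hfA : ∀ x, x ∉ A → f x = 0) {x : W}
    (hx : f x ≠ 0) : x ∈ A := by
  by_contra h
  exact hx (hfA x h)

/-- Base estimate in the first direction. -/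
lemma base_fst {al : W → Fin 4 → Prop} {A : Finset W} {U V : Finset ℤ} (hpen : Penal al A U V)
    {f : W → ℝ} (hf : FS f) (hfA : ∀ x, x ∉ A → f x = 0) {me mo κ : ℝ} (hme : 0 ≤ me)
    (hmo : 0 ≤ mo) (hκ : 0 < κ)
    (he : ∀ u : ℤ, u % 2 = 0 → 2 * (dW U u : ℝ) ≤ me + 1)
    (ho : ∀ u : ℤ, ¬ u % 2 = 0 → 2 * (dW U u : ℝ) ≤ mo + 1) :
    hh me κ * nE f + hh mo κ * nO f - 3 / κ * pen al f ≤ Q f (2, 0) := by
  have key := line_fst' hf (fun _ => U) (fun _ p => if p = 0 then me else mo) (fun _ _ => κ)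
    (fun _ p => by by_cases hp : p = 0 <;> simp [hp, hme, hmo]) (fun _ _ => hκ) (by
      intro x _
      by_cases hp : x.1 % 2 = 0
      · simpa [hp] using he x.1 hp
      · simpa [hp] using ho x.1 hp)
  refine le_trans ?_ key
  unfold nE nO pen
  rw [← S_comb3 hf.sq.mul_left hf.sq.mul_left hf.sq.mul_left]
  refine S_mono ((hf.sq.mul_left.mul_left.add hf.sq.mul_left.mul_left).sub
    hf.sq.mul_left.mul_left) hf.sq.mul_left fun x => ?_
  by_cases hx0 : f x = 0
  · simp [hx0]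
  have hxA := not_mem_of_ne hfA hx0
  have h3 : ind (x.1 ∉ U) ≤ ind (∃ i, ¬ al x i) := ind_mono fun h => hpen x hxA (Or.inl h)
  have hk : 0 < 3 / κ := by positivity
  have h4 := mul_le_mul_of_nonneg_left h3 hk.le
  have hsq := sq_nonneg (f x)
  by_cases hp : x.1 % 2 = 0
  · simp only [hp, if_true]
    rw [ind_true trivial, ind_false (not_not.2 trivial)]
    nlinarith
  · simp only [hp, if_false]
    rw [ind_false (not_false), ind_true not_false]
    nlinarith

lemma base_snd {al : W → Fin 4 → Prop} {A : Finset W} (hpar : Par A) {U V : Finset ℤ}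
    (hpen : Penal al A U V)
    {f : W → ℝ} (hf : FS f) (hfA : ∀ x, x ∉ A → f x = 0) {me mo κ : ℝ} (hme : 0 ≤ me)
    (hmo : 0 ≤ mo) (hκ : 0 < κ)
    (he : ∀ u : ℤ, u % 2 = 0 → 2 * (dW V u : ℝ) ≤ me + 1)
    (ho : ∀ u : ℤ, ¬ u % 2 = 0 → 2 * (dW V u : ℝ) ≤ mo + 1) :
    hh me κ * nE f + hh mo κ * nO f - 3 / κ * pen al f ≤ Q f (0, 2) := by
  have key := line_snd' hf (fun _ => V) (fun _ p => if p = 0 then me else mo) (fun _ _ => κ)
    (fun _ p => by by_cases hp : p = 0 <;> simp [hp, hme, hmo]) (fun _ _ => hκ) (by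
      intro x _
      by_cases hp : x.2 % 2 = 0
      · simpa [hp] using he x.2 hp
      · simpa [hp] using ho x.2 hp)
  refine le_trans ?_ key
  unfold nE nO pen
  rw [← S_comb3 hf.sq.mul_left hf.sq.mul_left hf.sq.mul_left]
  refine S_mono ((hf.sq.mul_left.mul_left.add hf.sq.mul_left.mul_left).sub
    hf.sq.mul_left.mul_left) hf.sq.mul_left fun x => ?_
  by_cases hx0 : f x = 0
  · simp [hx0]
  have hxA := not_mem_of_ne hfA hx0
  have hxp := hpar x hxA
  have h3 : ind (x.2 ∉ V) ≤ ind (∃ i, ¬ al x i) := ind_mono fun h => hpen x hxA (Or.inr h)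
  have hk : 0 < 3 / κ := by positivity
  have h4 := mul_le_mul_of_nonneg_left h3 hk.le
  have hsq := sq_nonneg (f x)
  rw [hxp]
  by_cases hp : x.2 % 2 = 0
  · simp only [hp, if_true]
    rw [ind_true trivial, ind_false (not_not.2 trivial)]
    nlinarith
  · simp only [hp, if_false]
    rw [ind_false (not_false), ind_true not_false]
    nlinarith

/-- From directional energy lower bounds to a bound on the quadratic form. -/
lemma form_le_of_energy {al : W → Fin 4 → Prop} {f : W → ℝ} (hf : FS f) (hf0 : ∀ x, 0 ≤ f x)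
    {κ H : ℝ} (hκ : 0 < κ) (hbal : nE f = nO f)
    (hQ : H * nE f - 6 / κ * pen al f ≤ Q f (2, 0) + Q f (0, 2)) :
    Bf al f f ≤ (1 - H / (16 * (1 + 6 / κ))) * nsq f := by
  have h1 := Bf_le_full (al := al) hf hf0
  have h2 := Bf_le_penalty (al := al) hf hf0
  have h3 := slicing hf
  have hn := nsq_eq hf
  have hk : 0 < 6 / κ := by positivity
  have hpen : S (fun x => ind (∃ i, ¬ al x i) * f x ^ 2) = pen al f := rfl
  rw [hpen] at h2
  set E := nsq f - Bf al f f with hE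
  have hE1 : Q f (2, 0) + Q f (0, 2) ≤ 8 * E := by linarith
  have hE2 : pen al f ≤ 8 * E := by linarith
  have h4 : H * nE f ≤ 8 * E * (1 + 6 / κ) := by nlinarith
  have h5 : nsq f = 2 * nE f := by linarith
  have h6 : H / (16 * (1 + 6 / κ)) * nsq f ≤ E := by
    rw [h5, div_mul_eq_mul_div, div_le_iff₀ (by positivity)]
    linarith
  have : Bf al f f = nsq f - E := by rw [hE]; ring
  rw [this]
  linarith

/-- Faber-Krahn type bound. -/
theorem quadBound_base {al : W → Fin 4 → Prop} {A : Finset W} (hpar : Par A) {U V : Finset ℤ}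
    (hpen : Penal al A U V) {mue muo mve mvo κ : ℝ} (h1 : 0 ≤ mue) (h2 : 0 ≤ muo)
    (h3 : 0 ≤ mve) (h4 : 0 ≤ mvo) (hκ : 0 < κ)
    (hue : ∀ u : ℤ, u % 2 = 0 → 2 * (dW U u : ℝ) ≤ mue + 1)
    (huo : ∀ u : ℤ, ¬ u % 2 = 0 → 2 * (dW U u : ℝ) ≤ muo + 1)
    (hve : ∀ u : ℤ, u % 2 = 0 → 2 * (dW V u : ℝ) ≤ mve + 1)
    (hvo : ∀ u : ℤ, ¬ u % 2 = 0 → 2 * (dW V u : ℝ) ≤ mvo + 1) :
    QuadBound al A (1 - (hh mue κ + hh muo κ + hh mve κ + hh mvo κ) / (16 * (1 + 6 / κ))) := by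
  have hκ6 : 0 < 6 / κ := by positivity
  refine quadBound_of_balanced ?_ ?_
  · rw [sub_nonneg, div_le_one (by positivity)]
    have := hh_le_four mue κ
    have := hh_le_four muo κ
    have := hh_le_four mve κ
    have := hh_le_four mvo κ
    linarith
  · intro f hf hf0 hfA hbal
    refine form_le_of_energy hf hf0 hκ hbal ?_
    have hb1 := base_fst hpen hf hfA h1 h2 hκ hue huo
    have hb2 := base_snd hpar hpen hf hfA h3 h4 hκ hve hvo
    rw [← hbal] at hb1 hb2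
    have e : 6 / κ = 3 / κ + 3 / κ := by ring
    rw [e]
    linarith

end Pool.Agent.Helper92.Diamond
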