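import Pool.Agent.Helper92_Diamond.Wt
import Pool.Agent.Helper92_Diamond.Num
import Pool.Agent.Helper92_Diamond.Upper

set_option autoImplicit false

open Finset Real

namespace Pool.Agent.Helper92.Diamond

lemma hh_lower {m κ : ℝ} (hm : 0 ≤ m) (hκ : 1 ≤ κ) :
    (1 - 1 / κ) * (π ^ 2 / (m + 3 + 2 * κ) ^ 2) ≤ hh m κ := by
  have hq : 0 < m + 3 + 2 * κ := by linarith
  set x := π / (m + 3 + 2 * κ) with hx
  have hx0 : 0 < x := by positivity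
  have hx1 : |x| ≤ 1 := by
    rw [abs_of_pos hx0, hx, div_le_one hq]
    linarith [pi_lt_four]
  have h1 := two_sub_two_cos_ge hx1
  have hx2 : x ^ 2 ≤ 9.87 / (4 * κ) := by
    rw [hx, div_pow, div_le_div_iff₀ (by positivity) (by positivity)]
    have h2 := sq_pi_le
    have h3 : 4 * κ ≤ (m + 3 + 2 * κ) ^ 2 := by nlinarith
    have h4 : 0 < (4 * κ) := by positivity
    calc π ^ 2 * (4 * κ) ≤ 9.87 * (4 * κ) := mul_le_mul_of_nonneg_right h2 h4.le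
      _ ≤ 9.87 * (m + 3 + 2 * κ) ^ 2 := by linarith
  have e : π ^ 2 / (m + 3 + 2 * κ) ^ 2 = x ^ 2 := by rw [hx, div_pow]
  rw [e]
  unfold hh
  rw [← hx]
  refine le_trans ?_ h1
  have h5 : 5 / 48 * x ^ 2 ≤ 1 / κ := by
    have : 9.87 / (4 * κ) = 2.4675 * (1 / κ) := by
      field_simp
      norm_num
    rw [this] at hx2
    have h6 : 0 < 1 / κ := by positivity
    linarith
  have h7 : 0 ≤ x ^ 2 := sq_nonneg _
  nlinarith

lemma fq {q N : ℝ} (hq : 0 < q) (hN : 0 < N) :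
    3 / 2 * N + (q - N) ^ 2 / q ≤ q + N ^ 3 / (2 * q ^ 2) := by
  have h : q + N ^ 3 / (2 * q ^ 2) - (3 / 2 * N + (q - N) ^ 2 / q)
      = N * (q - N) ^ 2 / (2 * q ^ 2) := by
    field_simp
    ring
  have h2 : 0 ≤ N * (q - N) ^ 2 / (2 * q ^ 2) := by positivity
  linarith

/-- Lower bound for the difference of eigenvalue bounds. -/
lemma hh_diff {m κ m' κ' : ℝ} (hp : 4 ≤ m' + 3 + 2 * κ')
    (hpq : m' + 3 + 2 * κ' ≤ m + 3 + 2 * κ) :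
    9 * ((m + 3 + 2 * κ) - (m' + 3 + 2 * κ')) / (m + 3 + 2 * κ) ^ 3
      - 11 / (m' + 3 + 2 * κ') ^ 4 ≤ hh m' κ' - hh m κ := by
  unfold hh
  set p := m' + 3 + 2 * κ' with hpdef
  set q := m + 3 + 2 * κ with hqdef
  have hp0 : 0 < p := by linarith
  have hq0 : 0 < q := by linarith
  have hx0 : 0 < π / p := by positivity
  have hx1 : |π / p| ≤ 1 := by
    rw [abs_of_pos hx0, div_le_one hp0]
    linarith [pi_lt_four]
  have h1 := two_sub_two_cos_ge hx1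
  have h2 := two_sub_two_cos_le (π / q)
  have hpi1 := sq_pi_le
  have hpi2 := le_sq_pi
  have h3 : 5 / 48 * (π / p) ^ 4 ≤ 11 / p ^ 4 := by
    rw [div_pow, ← mul_div_assoc]
    apply div_le_div_of_nonneg_right _ (by positivity)
    have : π ^ 4 = π ^ 2 * π ^ 2 := by ring
    rw [this]
    nlinarith
  have h4 : 9 * (q - p) / q ^ 3 ≤ (π / p) ^ 2 - (π / q) ^ 2 := by
    have e : (π / p) ^ 2 - (π / q) ^ 2 = π ^ 2 * ((q - p) * (q + p)) / (p ^ 2 * q ^ 2) := by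
      field_simp
      ring
    rw [e, div_le_div_iff₀ (by positivity) (by positivity)]
    have h5 : 0 ≤ q - p := by linarith
    have h6 : p ^ 2 * q ^ 2 ≤ (q + p) * q ^ 3 := by
      have h7 : p ^ 2 ≤ (q + p) * q := by nlinarith
      calc p ^ 2 * q ^ 2 ≤ ((q + p) * q) * q ^ 2 := mul_le_mul_of_nonneg_right h7 (by positivity)
        _ = (q + p) * q ^ 3 := by ring
    calc 9 * (q - p) * (p ^ 2 * q ^ 2) ≤ 9 * (q - p) * ((q + p) * q ^ 3) :=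
          mul_le_mul_of_nonneg_left h6 (by positivity)
      _ ≤ π ^ 2 * (q - p) * ((q + p) * q ^ 3) := by
          apply mul_le_mul_of_nonneg_right _ (by positivity)
          apply mul_le_mul_of_nonneg_right _ h5
          linarith
      _ = π ^ 2 * ((q - p) * (q + p)) * q ^ 3 := by ring
  linarith

/-- The loss factor. -/
noncomputable def sfac (κ : ℝ) : ℝ := (1 - 1 / κ) / (1 + 6 / κ)

lemma sfac_ge {κ : ℝ} (hκ : 1 ≤ κ) : 1 - 7 / κ ≤ sfac κ := by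
  unfold sfac
  have h0 : 0 < κ := by linarith
  rw [le_div_iff₀ (by positivity)]
  have e1 : (7 : ℝ) / κ = 7 * (1 / κ) := by ring
  have e2 : (6 : ℝ) / κ = 6 * (1 / κ) := by ring
  rw [e1, e2]
  have : 0 < 1 / κ := by positivity
  nlinarith

lemma sfac_le {κ : ℝ} (hκ : 1 ≤ κ) : sfac κ ≤ 1 := by
  unfold sfac
  have h0 : 0 < κ := by linarith
  rw [div_le_one (by positivity)]
  have : 0 < 1 / κ := by positivity
  have : 0 < 6 / κ := by positivity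
  linarith

lemma sfac_nonneg {κ : ℝ} (hκ : 1 ≤ κ) : 0 ≤ sfac κ := by
  unfold sfac
  have h0 : 0 < κ := by linarith
  apply div_nonneg
  · rw [sub_nonneg, div_le_one h0]
    exact hκ
  · positivity

/-- The time-energy product. -/
lemma tlam {β N κ Δ m1 m2 m3 m4 : ℝ} (hβ : 0 ≤ β) (hN : 0 ≤ N) (hκ : 6 ≤ κ) (hΔ : 0 ≤ Δ)
    (h1 : 0 ≤ m1) (h2 : 0 ≤ m2) (h3 : 0 ≤ m3) (h4 : 0 ≤ m4) :
    β * sfac κ * (N ^ 3 / (2 * (m1 + 3 + 2 * κ) ^ 2) + N ^ 3 / (2 * (m2 + 3 + 2 * κ) ^ 2)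
      + N ^ 3 / (2 * (m3 + 3 + 2 * κ) ^ 2) + N ^ 3 / (2 * (m4 + 3 + 2 * κ) ^ 2))
      + β * N ^ 3 * Δ / 40 ≤
    tN β N * ((hh m1 κ + hh m2 κ + hh m3 κ + hh m4 κ + Δ) / (16 * (1 + 6 / κ))) := by
  have hκ0 : 0 < κ := by linarith
  have hpi : 0 < π ^ 2 := by positivity
  have l1 := hh_lower h1 (show 1 ≤ κ by linarith)
  have l2 := hh_lower h2 (show 1 ≤ κ by linarith)
  have l3 := hh_lower h3 (show 1 ≤ κ by linarith)
  have l4 := hh_lower h4 (show 1 ≤ κ by linarith)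
  have hpos : 0 < 16 * (1 + 6 / κ) := by positivity
  have ht0 : 0 ≤ tN β N / (16 * (1 + 6 / κ)) := by
    unfold tN
    positivity
  have hmain : tN β N / (16 * (1 + 6 / κ)) *
      ((1 - 1 / κ) * (π ^ 2 / (m1 + 3 + 2 * κ) ^ 2) + (1 - 1 / κ) * (π ^ 2 / (m2 + 3 + 2 * κ) ^ 2)
      + (1 - 1 / κ) * (π ^ 2 / (m3 + 3 + 2 * κ) ^ 2) + (1 - 1 / κ) * (π ^ 2 / (m4 + 3 + 2 * κ) ^ 2)
      + Δ) ≤ tN β N / (16 * (1 + 6 / κ)) *
        (hh m1 κ + hh m2 κ + hh m3 κ + hh m4 κ + Δ) :=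
    mul_le_mul_of_nonneg_left (by linarith) ht0
  have e1 : tN β N * ((hh m1 κ + hh m2 κ + hh m3 κ + hh m4 κ + Δ) / (16 * (1 + 6 / κ)))
      = tN β N / (16 * (1 + 6 / κ)) * (hh m1 κ + hh m2 κ + hh m3 κ + hh m4 κ + Δ) := by ring
  rw [e1]
  refine le_trans ?_ hmain
  have e2 : ∀ q : ℝ, 0 < q → β * sfac κ * (N ^ 3 / (2 * q ^ 2))
      = tN β N / (16 * (1 + 6 / κ)) * ((1 - 1 / κ) * (π ^ 2 / q ^ 2)) := by
    intro q hq
    unfold sfac tN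
    have h6 : (1 + 6 / κ) ≠ 0 := by positivity
    field_simp
    ring
  have hq1 : 0 < m1 + 3 + 2 * κ := by linarith
  have hq2 : 0 < m2 + 3 + 2 * κ := by linarith
  have hq3 : 0 < m3 + 3 + 2 * κ := by linarith
  have hq4 : 0 < m4 + 3 + 2 * κ := by linarith
  rw [mul_add, mul_add, mul_add, mul_add, mul_add, mul_add, mul_add, e2 _ hq1, e2 _ hq2,
    e2 _ hq3, e2 _ hq4]
  have e3 : β * N ^ 3 * Δ / 40 ≤ tN β N / (16 * (1 + 6 / κ)) * Δ := by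
    have h7 : β * N ^ 3 / 40 ≤ tN β N / (16 * (1 + 6 / κ)) := by
      rw [div_le_div_iff₀ (by norm_num) hpos]
      unfold tN
      have h8 : 6 / κ ≤ 1 := by rw [div_le_one hκ0]; exact hκ
      have h9 : π ^ 2 ≤ 10 := by linarith [sq_pi_le]
      have h10 : 0 ≤ β * N ^ 3 := by positivity
      have h11 : β * N ^ 3 * (16 * (1 + 6 / κ)) ≤ β * N ^ 3 * 32 :=
        mul_le_mul_of_nonneg_left (by linarith) h10
      refine h11.trans ?_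
      have h12 : 8 * β * N ^ 3 / π ^ 2 * 40 = β * N ^ 3 * (320 / π ^ 2) := by ring
      rw [h12]
      apply mul_le_mul_of_nonneg_left _ h10
      rw [le_div_iff₀ hpi]
      linarith
    calc β * N ^ 3 * Δ / 40 = β * N ^ 3 / 40 * Δ := by ring
      _ ≤ tN β N / (16 * (1 + 6 / κ)) * Δ := mul_le_mul_of_nonneg_right h7 hΔ
  linarith

/-- Main energy inequality. -/
lemma energy_main {β N κ Δ k G m1 m2 m3 m4 : ℝ} (hβ : 0 ≤ β) (hN : 0 < N) (hκ : 6 ≤ κ)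
    (hΔ : 0 ≤ Δ) (h1 : 0 ≤ m1) (h2 : 0 ≤ m2) (h3 : 0 ≤ m3) (h4 : 0 ≤ m4) (hk : 0 ≤ k)
    (hG : m1 + m2 + m3 + m4 + G ≤ k) :
    β * sfac κ * (6 * N + ((m1 + 3 + 2 * κ - N) ^ 2 / (m1 + 3 + 2 * κ)
      + (m2 + 3 + 2 * κ - N) ^ 2 / (m2 + 3 + 2 * κ)
      + (m3 + 3 + 2 * κ - N) ^ 2 / (m3 + 3 + 2 * κ)
      + (m4 + 3 + 2 * κ - N) ^ 2 / (m4 + 3 + 2 * κ)) + G - 12 - 8 * κ)
      + β * N ^ 3 * Δ / 40 ≤
    β * k +
      tN β N * ((hh m1 κ + hh m2 κ + hh m3 κ + hh m4 κ + Δ) / (16 * (1 + 6 / κ))) := by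
  have hmain := tlam hβ hN.le hκ hΔ h1 h2 h3 h4
  have hs0 := sfac_nonneg (show 1 ≤ κ by linarith)
  have hs1 := sfac_le (show 1 ≤ κ by linarith)
  have f1 := fq (q := m1 + 3 + 2 * κ) (by linarith) hN
  have f2 := fq (q := m2 + 3 + 2 * κ) (by linarith) hN
  have f3 := fq (q := m3 + 3 + 2 * κ) (by linarith) hN
  have f4 := fq (q := m4 + 3 + 2 * κ) (by linarith) hN
  have hbs : 0 ≤ β * sfac κ := mul_nonneg hβ hs0
  have hbk : β * sfac κ * k ≤ β * k := by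
    have : β * k * sfac κ ≤ β * k * 1 := mul_le_mul_of_nonneg_left hs1 (mul_nonneg hβ hk)
    linarith
  have hsum : β * sfac κ * (6 * N + ((m1 + 3 + 2 * κ - N) ^ 2 / (m1 + 3 + 2 * κ)
      + (m2 + 3 + 2 * κ - N) ^ 2 / (m2 + 3 + 2 * κ)
      + (m3 + 3 + 2 * κ - N) ^ 2 / (m3 + 3 + 2 * κ)
      + (m4 + 3 + 2 * κ - N) ^ 2 / (m4 + 3 + 2 * κ)) + G - 12 - 8 * κ)
      ≤ β * sfac κ * (k + (N ^ 3 / (2 * (m1 + 3 + 2 * κ) ^ 2) + N ^ 3 / (2 * (m2 + 3 + 2 * κ) ^ 2)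
      + N ^ 3 / (2 * (m3 + 3 + 2 * κ) ^ 2) + N ^ 3 / (2 * (m4 + 3 + 2 * κ) ^ 2))) :=
    mul_le_mul_of_nonneg_left (by linarith) hbs
  rw [mul_add] at hsum
  linarith

end Pool.Agent.Helper92.Diamond
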