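import Pool.Agent.Helper92_Diamond.Walk

set_option autoImplicit false

open Finset

namespace Pool.Agent.Helper92.Diamond

/-- Interior points: all four neighbours belong to the set. -/
def inter (R : Finset W) : Finset W := R.filter (fun x => ∀ i : Fin 4, x + dir i ∈ R)

/-- Inner vertex boundary. -/
def bd (R : Finset W) : Finset W := R.filter (fun x => ∃ i : Fin 4, x + dir i ∉ R)

/-- The set of `u`-coordinates of interior points. -/
def Uset (R : Finset W) : Finset ℤ := (inter R).image Prod.fst

/-- The set of `v`-coordinates of interior points. -/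
def Vset (R : Finset W) : Finset ℤ := (inter R).image Prod.snd

/-- All neighbours of points of `A`. -/
def corners (A : Finset W) : Finset W :=
  A.biUnion (fun x => Finset.univ.image (fun i : Fin 4 => x + dir i))

lemma mem_inter {R : Finset W} {x : W} : x ∈ inter R ↔ x ∈ R ∧ ∀ i : Fin 4, x + dir i ∈ R := by
  simp [inter]

lemma mem_bd {R : Finset W} {x : W} : x ∈ bd R ↔ x ∈ R ∧ ∃ i : Fin 4, x + dir i ∉ R := by
  simp [bd]

lemma mem_corners {A : Finset W} {y : W} :
    y ∈ corners A ↔ ∃ x ∈ A, ∃ i : Fin 4, x + dir i = y := by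
  simp [corners]

lemma card_bd_add_card_inter (R : Finset W) : (bd R).card + (inter R).card = R.card := by
  have h := Finset.card_filter_add_card_filter_not (s := R)
    (p := fun x => ∀ i : Fin 4, x + dir i ∈ R)
  have h2 : R.filter (fun x => ¬ ∀ i : Fin 4, x + dir i ∈ R) = bd R := by
    ext x
    simp [bd]
  rw [h2] at h
  unfold inter
  omega

lemma corners_inter_subset (R : Finset W) : corners (inter R) ⊆ R := by
  intro y hy
  rw [mem_corners] at hy
  obtain ⟨x, hx, i, rfl⟩ := hy
  exact (mem_inter.1 hx).2 i

/-- One-dimensional expansion in the first coordinate. -/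
lemma card_shift_fst (A : Finset W) :
    A.card + (A.image Prod.snd).card ≤
      (A.image (fun x => x + ((1, 0) : W)) ∪ A.image (fun x => x + ((-1, 0) : W))).card := by
  classical
  -- choose the leftmost point on each line
  have hex : ∀ v ∈ A.image Prod.snd, ∃ a : ℤ, (a, v) ∈ A ∧ ∀ b : ℤ, (b, v) ∈ A → a ≤ b := by
    intro v hv
    have hne : ((A.filter (fun x => x.2 = v)).image Prod.fst).Nonempty := by
      rw [Finset.mem_image] at hv
      obtain ⟨x, hx, hxv⟩ := hv
      exact ⟨x.1, Finset.mem_image.2 ⟨x, by simp [hx, hxv], rfl⟩⟩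
    refine ⟨((A.filter (fun x => x.2 = v)).image Prod.fst).min' hne, ?_, ?_⟩
    · have := Finset.min'_mem _ hne
      rw [Finset.mem_image] at this
      obtain ⟨x, hx, hx1⟩ := this
      rw [Finset.mem_filter] at hx
      rw [← hx1, ← hx.2]
      exact hx.1
    · intro b hb
      apply Finset.min'_le
      exact Finset.mem_image.2 ⟨(b, v), by simp [hb], rfl⟩
  choose! m hm1 hm2 using hex
  have hinj : Set.InjOn (fun v => ((m v - 1, v) : W)) (A.image Prod.snd : Finset ℤ) := by
    intro a _ b _ hab
    simpa using congrArg Prod.snd hab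
  have hc1 : (A.image (fun x => x + ((1, 0) : W))).card = A.card :=
    Finset.card_image_of_injective _ (add_left_injective _)
  have hc2 : ((A.image Prod.snd).image (fun v => ((m v - 1, v) : W))).card
      = (A.image Prod.snd).card := Finset.card_image_of_injOn hinj
  have hdisj : Disjoint (A.image (fun x => x + ((1, 0) : W)))
      ((A.image Prod.snd).image (fun v => ((m v - 1, v) : W))) := by
    rw [Finset.disjoint_left]
    intro y hy1 hy2
    rw [Finset.mem_image] at hy1 hy2
    obtain ⟨x, hx, rfl⟩ := hy1
    obtain ⟨v, hv, hv2⟩ := hy2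
    have e1 : m v - 1 = x.1 + 1 := by simpa using congrArg Prod.fst hv2
    have e2 : v = x.2 := by simpa using congrArg Prod.snd hv2
    have := hm2 v hv x.1 (by rw [e2]; exact hx)
    omega
  rw [← hc1, ← hc2, ← Finset.card_union_of_disjoint hdisj]
  apply Finset.card_le_card
  apply Finset.union_subset_union_right
  intro y hy
  rw [Finset.mem_image] at hy
  obtain ⟨v, hv, rfl⟩ := hy
  refine Finset.mem_image.2 ⟨(m v, v), hm1 v hv, ?_⟩
  simp [sub_eq_add_neg]

/-- One-dimensional expansion in the second coordinate. -/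
lemma card_shift_snd (A : Finset W) :
    A.card + (A.image Prod.fst).card ≤
      (A.image (fun x => x + ((0, 1) : W)) ∪ A.image (fun x => x + ((0, -1) : W))).card := by
  classical
  have h := card_shift_fst (A.image Prod.swap)
  have e1 : (A.image Prod.swap).card = A.card :=
    Finset.card_image_of_injective _ Prod.swap_injective
  have e2 : (A.image Prod.swap).image Prod.snd = A.image Prod.fst := by
    rw [Finset.image_image]
    rfl
  rw [e1, e2] at h
  refine h.trans (le_of_eq ?_)
  rw [← Finset.card_image_of_injective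
    (A.image (fun x => x + ((0, 1) : W)) ∪ A.image (fun x => x + ((0, -1) : W)))
    Prod.swap_injective]
  congr 1
  rw [Finset.image_union, Finset.image_image, Finset.image_image, Finset.image_image,
    Finset.image_image]
  rfl

lemma card_corners (A : Finset W) :
    A.card + (A.image Prod.fst).card + (A.image Prod.snd).card ≤ (corners A).card := by
  classical
  set B := A.image (fun x => x + ((1, 0) : W)) ∪ A.image (fun x => x + ((-1, 0) : W)) with hB
  have h1 := card_shift_fst A
  rw [← hB] at h1
  have h2 := card_shift_snd B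
  have h3 : (A.image Prod.fst).card ≤ (B.image Prod.fst).card := by
    have : (A.image (fun x => x + ((1, 0) : W))).image Prod.fst ⊆ B.image Prod.fst :=
      Finset.image_subset_image (by rw [hB]; exact Finset.subset_union_left)
    refine le_trans (le_of_eq ?_) (Finset.card_le_card this)
    rw [Finset.image_image]
    have : (A.image (Prod.fst ∘ fun x => x + ((1, 0) : W)))
        = (A.image Prod.fst).image (fun z => z + 1) := by
      rw [Finset.image_image]
      rfl
    rw [this, Finset.card_image_of_injective _ (add_left_injective _)]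
  have h4 : (B.image (fun x => x + ((0, 1) : W)) ∪ B.image (fun x => x + ((0, -1) : W))).card
      ≤ (corners A).card := by
    apply Finset.card_le_card
    intro y hy
    simp only [hB, Finset.mem_union, Finset.mem_image] at hy
    rw [mem_corners]
    rcases hy with ⟨x, (⟨a, ha, rfl⟩ | ⟨a, ha, rfl⟩), rfl⟩ | ⟨x, (⟨a, ha, rfl⟩ | ⟨a, ha, rfl⟩), rfl⟩
    · exact ⟨a, ha, 0, by simp [dir, add_assoc]⟩
    · exact ⟨a, ha, 3, by simp [dir, add_assoc]⟩
    · exact ⟨a, ha, 2, by simp [dir, add_assoc]⟩
    · exact ⟨a, ha, 1, by simp [dir, add_assoc]⟩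
  omega

lemma card_bd_ge_aux (R : Finset W) :
    (Uset R).card + (Vset R).card + (R \ corners (inter R)).card ≤ (bd R).card := by
  have h1 := card_corners (inter R)
  have h2 := card_bd_add_card_inter R
  have h3 := Finset.card_sdiff_add_card_eq_card (corners_inter_subset R)
  unfold Uset Vset
  omega

/-- The main geometric inequality. -/
lemma card_bd_ge_fst (R : Finset W) :
    (Uset R).card + (Vset R).card +
      ((R.image Prod.fst).filter (fun c => c - 1 ∉ Uset R ∧ c + 1 ∉ Uset R)).card
        ≤ (bd R).card := by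
  classical
  refine le_trans ?_ (card_bd_ge_aux R)
  refine Nat.add_le_add_left ?_ _
  refine le_trans ?_ (Finset.card_image_le (s := R \ corners (inter R)) (f := Prod.fst))
  apply Finset.card_le_card
  intro c hc
  rw [Finset.mem_filter, Finset.mem_image] at hc
  obtain ⟨⟨x, hx, rfl⟩, h1, h2⟩ := hc
  refine Finset.mem_image.2 ⟨x, ?_, rfl⟩
  rw [Finset.mem_sdiff]
  refine ⟨hx, fun hcor => ?_⟩
  rw [mem_corners] at hcor
  obtain ⟨y, hy, i, rfl⟩ := hcor
  have hd := (dir_cases i).1
  have e : (y + dir i).1 = y.1 + (dir i).1 := rfl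
  have hyU : y.1 ∈ Uset R := Finset.mem_image.2 ⟨y, hy, rfl⟩
  rcases hd with hd | hd
  · apply h1
    rw [e, hd]
    simpa using hyU
  · apply h2
    rw [e, hd]
    simpa using hyU

lemma card_bd_ge_snd (R : Finset W) :
    (Uset R).card + (Vset R).card +
      ((R.image Prod.snd).filter (fun c => c - 1 ∉ Vset R ∧ c + 1 ∉ Vset R)).card
        ≤ (bd R).card := by
  classical
  refine le_trans ?_ (card_bd_ge_aux R)
  refine Nat.add_le_add_left ?_ _
  refine le_trans ?_ (Finset.card_image_le (s := R \ corners (inter R)) (f := Prod.snd))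
  apply Finset.card_le_card
  intro c hc
  rw [Finset.mem_filter, Finset.mem_image] at hc
  obtain ⟨⟨x, hx, rfl⟩, h1, h2⟩ := hc
  refine Finset.mem_image.2 ⟨x, ?_, rfl⟩
  rw [Finset.mem_sdiff]
  refine ⟨hx, fun hcor => ?_⟩
  rw [mem_corners] at hcor
  obtain ⟨y, hy, i, rfl⟩ := hcor
  have hd := (dir_cases i).2
  have e : (y + dir i).2 = y.2 + (dir i).2 := rfl
  have hyV : y.2 ∈ Vset R := Finset.mem_image.2 ⟨y, hy, rfl⟩
  rcases hd with hd | hd
  · apply h1
    rw [e, hd]
    simpa using hyV
  · apply h2
    rw [e, hd]
    simpa using hyV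

end Pool.Agent.Helper92.Diamond
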