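import Pool.Agent.Helper92_Diamond.Hole
import Pool.Agent.Helper92_Diamond.Comb

set_option autoImplicit false

open Finset

namespace Pool.Agent.Helper92.Diamond

/-- Membership in the product set. -/
def InP (U V : Finset ℤ) (x : W) : Prop := x.1 ∈ U ∧ x.2 ∈ V

/-- Allowed edges determined by a label function. -/
def alOf (U V : Finset ℤ) (l : W → Fin 4) (x : W) (i : Fin 4) : Prop :=
  ¬ ((¬ InP U V x ∧ l x = i) ∨ (¬ InP U V (x + dir i) ∧ l (x + dir i) = opp i))

lemma alOf_symm (U V : Finset ℤ) (l : W → Fin 4) : SymAl (alOf U V l) := by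
  intro x i
  unfold alOf
  have e : x + dir i + dir (opp i) = x := by
    rw [dir_opp]; abel
  rw [e, opp_opp]
  tauto

lemma alOf_penal (U V : Finset ℤ) (l : W → Fin 4) (A : Finset W) :
    Penal (alOf U V l) A U V := by
  intro x _ hx
  refine ⟨l x, ?_⟩
  unfold alOf
  rw [not_not]
  left
  refine ⟨?_, rfl⟩
  unfold InP
  tauto

/-- Compatibility of a range with a label function. -/
def Compat (U V : Finset ℤ) (l : W → Fin 4) (R : Finset W) : Prop :=
  ∀ x ∈ R, ¬ InP U V x → x + dir (l x) ∉ R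

lemma compat_al {U V : Finset ℤ} {l : W → Fin 4} {R : Finset W} (h : Compat U V l R) :
    ∀ y ∈ R, ∀ i, ¬ alOf U V l y i → y + dir i ∉ R := by
  intro y hy i hi hcon
  unfold alOf at hi
  rw [not_not] at hi
  rcases hi with ⟨h1, h2⟩ | ⟨h1, h2⟩
  · have := h y hy h1
    rw [h2] at this
    exact this hcon
  · have := h _ hcon h1
    rw [h2, dir_opp] at this
    apply this
    simpa using hy

/-- Extension of a label function defined on `A`. -/
noncomputable def extend (A : Finset W) (l : A → Fin 4) (x : W) : Fin 4 := by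
  classical
  exact if h : x ∈ A then l ⟨x, h⟩ else 0

lemma extend_apply (A : Finset W) (l : A → Fin 4) (x : A) : extend A l x.1 = l x := by
  unfold extend
  rw [dif_pos x.2]

lemma count_compat {A : Finset W} {U V : Finset ℤ} {k : ℕ} {R : Finset W} (hRA : R ⊆ A)
    (hint : ∀ y ∈ inter R, y.1 ∈ U ∧ y.2 ∈ V) (hk : (bd R).card ≤ k) :
    (4 : ℝ) ^ A.card ≤ 4 ^ k * ∑ l : A → Fin 4, ind (Compat U V (extend A l) R) := by
  classical
  -- choose good directions
  have hgood : ∀ x : A, ∃ i : Fin 4, (x.1 ∈ R ∧ ¬ InP U V x.1) → x.1 + dir i ∉ R := by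
    intro x
    by_cases hx : x.1 ∈ R ∧ ¬ InP U V x.1
    · by_contra hcon
      push Not at hcon
      have hmem : x.1 ∈ inter R := mem_inter.2 ⟨hx.1, fun i => (hcon i).2⟩
      exact hx.2 (hint _ hmem)
    · exact ⟨0, fun h => absurd h hx⟩
  choose d hd using hgood
  set t : A → Finset (Fin 4) := fun x => if x.1 ∈ R ∧ ¬ InP U V x.1 then {d x} else Finset.univ
    with ht
  have hsub : ∀ l ∈ Fintype.piFinset t, Compat U V (extend A l) R := by
    intro l hl x hx hxP
    rw [Fintype.mem_piFinset] at hl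
    have h1 := hl ⟨x, hRA hx⟩
    rw [ht] at h1
    simp only [hx, hxP, not_false_eq_true, and_self, if_true, Finset.mem_singleton] at h1
    have h2 := extend_apply A l ⟨x, hRA hx⟩
    simp only at h2
    rw [h2, h1]
    exact hd ⟨x, hRA hx⟩ ⟨hx, hxP⟩
  have hcard : (4 : ℕ) ^ (A.card - k) ≤ (Fintype.piFinset t).card := by
    rw [Fintype.card_piFinset]
    have h1 : ∀ x : A, (t x).card = if x.1 ∈ R ∧ ¬ InP U V x.1 then 1 else 4 := by
      intro x
      rw [ht]
      by_cases hx : x.1 ∈ R ∧ ¬ InP U V x.1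
      · simp [hx]
      · simp only [if_neg hx]
        simp
    rw [Finset.prod_congr rfl fun x _ => h1 x, Finset.prod_ite, Finset.prod_const_one, one_mul,
      Finset.prod_const]
    apply Nat.pow_le_pow_right (by norm_num)
    have h2 := Finset.card_filter_add_card_filter_not (s := (Finset.univ : Finset A))
      (p := fun x => x.1 ∈ R ∧ ¬ InP U V x.1)
    rw [Finset.card_univ, Fintype.card_coe] at h2
    have h3 : (Finset.univ.filter (fun x : A => x.1 ∈ R ∧ ¬ InP U V x.1)).card ≤ k := by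
      refine le_trans ?_ hk
      refine Finset.card_le_card_of_injOn (fun x => x.1) ?_ (Subtype.val_injective.injOn)
      intro x hx
      rw [Finset.mem_coe, Finset.mem_filter] at hx
      rw [Finset.mem_coe, mem_bd]
      refine ⟨hx.2.1, ?_⟩
      exact ⟨d x, hd x hx.2⟩
    omega
  have hsum : ((Fintype.piFinset t).card : ℝ)
      ≤ ∑ l : A → Fin 4, ind (Compat U V (extend A l) R) := by
    calc ((Fintype.piFinset t).card : ℝ)
        = ∑ l ∈ Fintype.piFinset t, (1 : ℝ) := by simp
      _ ≤ ∑ l ∈ Fintype.piFinset t, ind (Compat U V (extend A l) R) :=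
          Finset.sum_le_sum fun l hl => by rw [ind_true (hsub l hl)]
      _ ≤ ∑ l : A → Fin 4, ind (Compat U V (extend A l) R) :=
          Finset.sum_le_univ_sum_of_nonneg fun l => ind_nonneg _
  have h4 : (4 : ℝ) ^ A.card ≤ 4 ^ k * (4 : ℝ) ^ (A.card - k) := by
    rw [← pow_add]
    apply pow_le_pow_right₀ (by norm_num)
    omega
  refine h4.trans (mul_le_mul_of_nonneg_left ?_ (by positivity))
  refine le_trans ?_ hsum
  exact_mod_cast hcard

/-- Union bound over labels. -/
theorem Ex_event_le {A : Finset W} {U V : Finset ℤ} {k : ℕ} {ρ : ℝ} (hρ : 0 ≤ ρ)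
    (H : ∀ al : W → Fin 4 → Prop, SymAl al → Penal al A U V → QuadBound al A ρ)
    (j : ℕ) (x : W) (E : Finset W → Prop)
    (hE : ∀ R, RangeProp x R → E R →
      R ⊆ A ∧ (∀ y ∈ inter R, y.1 ∈ U ∧ y.2 ∈ V) ∧ (bd R).card ≤ k) :
    Ex j x (fun R => ind (E R)) ≤ 4 ^ k * (ρ ^ j * Real.sqrt A.card) := by
  classical
  have h1 : Ex j x (fun R => ind (E R)) ≤
      Ex j x (fun R => (4 ^ k / 4 ^ A.card) *
        ∑ l : A → Fin 4, ind (R ⊆ A ∧ Compat U V (extend A l) R)) := by
    refine Ex_mono_on fun R hR => ?_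
    by_cases hER : E R
    · obtain ⟨hRA, hint, hk⟩ := hE R hR hER
      rw [ind_true hER]
      have h2 := count_compat hRA hint hk
      have h3 : ∀ l : A → Fin 4, ind (R ⊆ A ∧ Compat U V (extend A l) R)
          = ind (Compat U V (extend A l) R) := fun l => ind_congr (by simp [hRA])
      rw [Finset.sum_congr rfl fun l _ => h3 l, div_mul_eq_mul_div, le_div_iff₀ (by positivity)]
      linarith
    · rw [ind_false hER]
      exact mul_nonneg (by positivity) (Finset.sum_nonneg fun l _ => ind_nonneg _)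
  refine h1.trans ?_
  rw [Ex_mul_left, Ex_sum]
  have h4 : ∀ l : A → Fin 4, Ex j x (fun R => ind (R ⊆ A ∧ Compat U V (extend A l) R))
      ≤ ρ ^ j * Real.sqrt A.card := by
    intro l
    refine le_trans (Ex_mono fun R => ?_)
      (Ex_le_of_quadBound (alOf_symm U V (extend A l)) hρ
        (H _ (alOf_symm U V _) (alOf_penal U V _ A)) j x)
    exact ind_mono fun h => ⟨h.1, compat_al h.2⟩
  have h5 : ∑ l : A → Fin 4, Ex j x (fun R => ind (R ⊆ A ∧ Compat U V (extend A l) R))
      ≤ 4 ^ A.card * (ρ ^ j * Real.sqrt A.card) := by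
    refine (Finset.sum_le_sum fun l _ => h4 l).trans (le_of_eq ?_)
    rw [Finset.sum_const, Finset.card_univ, Fintype.card_fun, Fintype.card_coe, Fintype.card_fin,
      nsmul_eq_mul]
    push_cast
    ring
  calc (4 ^ k / 4 ^ A.card) *
        ∑ l : A → Fin 4, Ex j x (fun R => ind (R ⊆ A ∧ Compat U V (extend A l) R))
      ≤ (4 ^ k / 4 ^ A.card) * (4 ^ A.card * (ρ ^ j * Real.sqrt A.card)) :=
        mul_le_mul_of_nonneg_left h5 (by positivity)
    _ = 4 ^ k * (ρ ^ j * Real.sqrt A.card) := by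
        field_simp

end Pool.Agent.Helper92.Diamond
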