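import Pool.Agent.Helper92_Diamond.Ev
import Pool.Agent.Helper92_Diamond.Energy
import Pool.Agent.Helper92_Diamond.Labels

set_option autoImplicit false

open Finset Real

namespace Pool.Agent.Helper92.Diamond

lemma class_gen {N κ a m : ℝ} (hm : 0 ≤ m) (hκ : 0 ≤ κ) (hma : m ≤ a + 1) :
    -1 ≤ (m + 3 + 2 * κ - N) ^ 2 / (m + 3 + 2 * κ) + (a - m) := by
  have : 0 ≤ (m + 3 + 2 * κ - N) ^ 2 / (m + 3 + 2 * κ) := by
    apply div_nonneg (sq_nonneg _)
    linarith
  linarith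

lemma class_bad {η N κ a m : ℝ} (hη : 0 < η) (hη1 : η ≤ 1) (hN : 0 < N) (hm : 0 ≤ m)
    (hκ : 0 ≤ κ) (hκN : 3 + 2 * κ ≤ η * N / 4) (hma : m ≤ a + 1)
    (h : ¬ (a ≤ (1 + η) * N ∧ (1 - η) * N ≤ m)) :
    η ^ 2 / 8 * N - 1 ≤ (m + 3 + 2 * κ - N) ^ 2 / (m + 3 + 2 * κ) + (a - m) := by
  have hq : 0 < m + 3 + 2 * κ := by linarith
  have hηN : 0 < η * N := by positivity
  have hη2 : η ^ 2 / 8 * N ≤ η * N / 2 := by nlinarith
  have hdiv : 0 ≤ (m + 3 + 2 * κ - N) ^ 2 / (m + 3 + 2 * κ) := by positivity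
  by_cases h1 : (1 - η) * N ≤ m
  · have h2 : (1 + η) * N < a := by
      by_contra h3
      exact h ⟨not_lt.1 h3, h1⟩
    by_cases h3 : m ≤ (1 + η / 2) * N
    · linarith
    · push Not at h3
      have h4 : η * N / 2 ≤ m + 3 + 2 * κ - N := by linarith
      have h5 : η ^ 2 / 8 * N ≤ (m + 3 + 2 * κ - N) ^ 2 / (m + 3 + 2 * κ) := by
        rw [le_div_iff₀ hq]
        set d := m + 3 + 2 * κ - N with hd
        have e : m + 3 + 2 * κ = N + d := by rw [hd]; ring
        rw [e]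
        have h6 : (η * N) ^ 2 ≤ (2 * d) ^ 2 := pow_le_pow_left₀ hηN.le (by linarith) 2
        have hd0 : 0 < d := by linarith
        have h7 : η * (η * N) * d ≤ 1 * (2 * d) * d := by
          apply mul_le_mul_of_nonneg_right _ hd0.le
          apply mul_le_mul hη1 (by linarith) hηN.le (by norm_num)
        nlinarith
      linarith
  · push Not at h1
    have h4 : η * N / 2 ≤ N - (m + 3 + 2 * κ) := by linarith
    have h5 : η ^ 2 / 8 * N ≤ (m + 3 + 2 * κ - N) ^ 2 / (m + 3 + 2 * κ) := by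
      rw [le_div_iff₀ hq]
      have h6 : (η * N / 2) ^ 2 ≤ (N - (m + 3 + 2 * κ)) ^ 2 :=
        pow_le_pow_left₀ (by positivity) h4 2
      have h7 : m + 3 + 2 * κ ≤ N := by linarith
      have h8 : η ^ 2 / 8 * N * (m + 3 + 2 * κ) ≤ η ^ 2 / 8 * N * N :=
        mul_le_mul_of_nonneg_left h7 (by positivity)
      nlinarith [sq_nonneg (η * N)]
    linarith

/-- Energy lower bound when the class sizes are bad. -/
lemma bad1_energy {η N κ β : ℝ} {k : ℕ} {U V : Finset ℤ} (hη : 0 < η) (hη1 : η ≤ 1) (hN : 0 < N)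
    (hκ : 6 ≤ κ) (hκN : 3 + 2 * κ ≤ η * N / 4) (hβ : 0 ≤ β) (hUV : U.card + V.card ≤ k)
    (hbad : ¬ Good3 η N k U V) :
    β * sfac κ * ((6 + η ^ 2 / 8) * N - 16 - 8 * κ) ≤ β * k + tN β N *
      ((hh (2 * (mE U : ℝ)) κ + hh (2 * (mO U : ℝ)) κ + hh (2 * (mE V : ℝ)) κ
        + hh (2 * (mO V : ℝ)) κ) / (16 * (1 + 6 / κ))) := by
  have hU := card_ev_add_od U
  have hV := card_ev_add_od V
  have hU' : ((ev U).card : ℝ) + (od U).card = U.card := by exact_mod_cast hU
  have hV' : ((ev V).card : ℝ) + (od V).card = V.card := by exact_mod_cast hV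
  have hUV' : (U.card : ℝ) + V.card ≤ k := by exact_mod_cast hUV
  have c1 : 2 * (mE U : ℝ) ≤ (ev U).card + 1 := by exact_mod_cast two_mE_le U
  have c2 : 2 * (mO U : ℝ) ≤ (od U).card + 1 := by exact_mod_cast two_mO_le U
  have c3 : 2 * (mE V : ℝ) ≤ (ev V).card + 1 := by exact_mod_cast two_mE_le V
  have c4 : 2 * (mO V : ℝ) ≤ (od V).card + 1 := by exact_mod_cast two_mO_le V
  have p1 : (0 : ℝ) ≤ 2 * (mE U : ℝ) := by positivity
  have p2 : (0 : ℝ) ≤ 2 * (mO U : ℝ) := by positivity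
  have p3 : (0 : ℝ) ≤ 2 * (mE V : ℝ) := by positivity
  have p4 : (0 : ℝ) ≤ 2 * (mO V : ℝ) := by positivity
  have hκ0 : 0 ≤ κ := by linarith
  have hmain := energy_main (G := (k : ℝ) - (2 * (mE U : ℝ) + 2 * (mO U : ℝ) + 2 * (mE V : ℝ)
    + 2 * (mO V : ℝ))) (Δ := 0) hβ hN hκ le_rfl p1 p2 p3 p4 (Nat.cast_nonneg k) (by linarith)
  rw [mul_zero, zero_div, add_zero, add_zero] at hmain
  refine le_trans ?_ hmain
  apply mul_le_mul_of_nonneg_left _ (mul_nonneg hβ (sfac_nonneg (by linarith)))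
  have g1 := class_gen (N := N) p1 hκ0 c1
  have g2 := class_gen (N := N) p2 hκ0 c2
  have g3 := class_gen (N := N) p3 hκ0 c3
  have g4 := class_gen (N := N) p4 hκ0 c4
  have hηN : 0 < η * N := by positivity
  have hη2 : η ^ 2 / 8 * N ≤ η * N := by nlinarith
  by_cases b1 : ((ev U).card : ℝ) ≤ (1 + η) * N ∧ (1 - η) * N ≤ 2 * (mE U : ℝ)
  · by_cases b2 : ((od U).card : ℝ) ≤ (1 + η) * N ∧ (1 - η) * N ≤ 2 * (mO U : ℝ)
    · by_cases b3 : ((ev V).card : ℝ) ≤ (1 + η) * N ∧ (1 - η) * N ≤ 2 * (mE V : ℝ)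
      · by_cases b4 : ((od V).card : ℝ) ≤ (1 + η) * N ∧ (1 - η) * N ≤ 2 * (mO V : ℝ)
        · have hk : ¬ ((k : ℝ) ≤ (U.card : ℝ) + V.card + η * N) := fun hk =>
            hbad ⟨hk, b1.1, b2.1, b3.1, b4.1, b1.2, b2.2, b3.2, b4.2⟩
          push Not at hk
          linarith
        · have := class_bad hη hη1 hN p4 hκ0 hκN c4 b4
          linarith
      · have := class_bad hη hη1 hN p3 hκ0 hκN c3 b3
        linarith
    · have := class_bad hη hη1 hN p2 hκ0 hκN c2 b2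
      linarith
  · have := class_bad hη hη1 hN p1 hκ0 hκN c1 b1
    linarith

/-- Probability of an event of the first kind. -/
lemma Et_EvA_le {M k : ℕ} {U V : Finset ℤ} {κ t : ℝ} (hκ : 0 < κ) (ht : 0 ≤ t) :
    Et t (fun R => ind (EvA M k U V R)) ≤ 4 ^ k * (2 * M + 1) * exp (-(t *
      ((hh (2 * (mE U : ℝ)) κ + hh (2 * (mO U : ℝ)) κ + hh (2 * (mE V : ℝ)) κ
        + hh (2 * (mO V : ℝ)) κ) / (16 * (1 + 6 / κ))))) := by
  set lam := (hh (2 * (mE U : ℝ)) κ + hh (2 * (mO U : ℝ)) κ + hh (2 * (mE V : ℝ)) κ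
        + hh (2 * (mO V : ℝ)) κ) / (16 * (1 + 6 / κ)) with hlam
  have hlam1 : lam ≤ 1 := by
    rw [hlam, div_le_one (by positivity)]
    have a1 := hh_le_four (2 * (mE U : ℝ)) κ
    have a2 := hh_le_four (2 * (mO U : ℝ)) κ
    have a3 := hh_le_four (2 * (mE V : ℝ)) κ
    have a4 := hh_le_four (2 * (mO V : ℝ)) κ
    have : 0 < 6 / κ := by positivity
    linarith
  have h1 : ∀ j, Ex j 0 (fun R => ind (EvA M k U V R)) ≤ 4 ^ k * (2 * M + 1) * (1 - lam) ^ j := by
    intro j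
    have h2 := Ex_event_le (A := Dm M) (U := U) (V := V) (k := k) (ρ := 1 - lam) (by linarith)
      (fun al _ hpen => quadBound_base (Par_Dm M) hpen (by positivity) (by positivity)
        (by positivity) (by positivity) hκ
        (fun u hu => by
          have := dW_le_mE U u hu
          have : (dW U u : ℝ) ≤ mE U := by exact_mod_cast this
          linarith)
        (fun u hu => by
          have := dW_le_mO U u hu
          have : (dW U u : ℝ) ≤ mO U := by exact_mod_cast this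
          linarith)
        (fun u hu => by
          have := dW_le_mE V u hu
          have : (dW V u : ℝ) ≤ mE V := by exact_mod_cast this
          linarith)
        (fun u hu => by
          have := dW_le_mO V u hu
          have : (dW V u : ℝ) ≤ mO V := by exact_mod_cast this
          linarith))
      j 0 (EvA M k U V) (fun R _ hE => ⟨hE.1, EvA_int hE, hE.2.1.le⟩)
    refine h2.trans ?_
    have h3 := sqrt_card_Dm M (Finset.Subset.refl (Dm M))
    have h4 : 0 ≤ (1 - lam) ^ j := pow_nonneg (by linarith) j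
    calc (4 : ℝ) ^ k * ((1 - lam) ^ j * Real.sqrt (Dm M).card)
        ≤ 4 ^ k * ((1 - lam) ^ j * (2 * M + 1)) := by
          apply mul_le_mul_of_nonneg_left _ (by positivity)
          exact mul_le_mul_of_nonneg_left h3 h4
      _ = 4 ^ k * (2 * M + 1) * (1 - lam) ^ j := by ring
  have h5 := Et_le_of_Ex_le (Bd.ind (EvA M k U V)) ht h1
  refine h5.trans (le_of_eq ?_)
  congr 2
  ring

end Pool.Agent.Helper92.Diamond
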