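import Pool.Agent.Helper92_Diamond.Ev
import Pool.Agent.Helper92_Diamond.Energy
import Pool.Agent.Helper92_Diamond.Labels

set_option autoImplicit false

open Finset Real

namespace Pool.Agent.Helper92.Diamond

lemma card_ev_Icc (a : ℤ) (L : ℕ) : L ≤ 2 * (ev (Finset.Icc a (a + L))).card := by
  classical
  have hinj : Function.Injective (fun i : ℕ => a + a % 2 + 2 * (i : ℤ)) := by
    intro x y hxy
    simpa using hxy
  have hsub : (Finset.range ((L + 1) / 2)).image (fun i : ℕ => a + a % 2 + 2 * (i : ℤ))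
      ⊆ ev (Finset.Icc a (a + L)) := by
    intro z hz
    rw [Finset.mem_image] at hz
    obtain ⟨i, hi, rfl⟩ := hz
    rw [Finset.mem_range] at hi
    unfold ev
    rw [Finset.mem_filter, Finset.mem_Icc]
    omega
  have h := Finset.card_le_card hsub
  rw [Finset.card_image_of_injective _ hinj, Finset.card_range] at h
  omega

lemma card_ev_inter (U J : Finset ℤ) :
    (ev J).card ≤ (ev (U ∩ J)).card + (J \ U).card := by
  classical
  refine le_trans (Finset.card_le_card ?_) (Finset.card_union_le _ _)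
  intro z hz
  unfold ev at hz ⊢
  rw [Finset.mem_filter] at hz
  rw [Finset.mem_union, Finset.mem_filter, Finset.mem_inter, Finset.mem_sdiff]
  by_cases h : z ∈ U
  · exact Or.inl ⟨⟨h, hz.1⟩, hz.2⟩
  · exact Or.inr ⟨hz.1, h⟩

lemma sdiff_card_mono {J J' V : Finset ℤ} (h : J' ⊆ J) : (J' \ V).card ≤ (J \ V).card :=
  Finset.card_le_card (Finset.sdiff_subset_sdiff h (Finset.Subset.refl V))

/-- Counting on one side of a point. -/
lemma card_side_lt {V : Finset ℤ} {b j : ℤ} {l g : ℕ} (hj : j ≤ b + 2 * l)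
    (hg : g + (Finset.Icc b (b + 3 * l) \ V).card ≤ (ev (Finset.Icc (b + 2 * l) (b + 2 * l + l))).card) :
    ((ev V).filter (fun z => z < j)).card ≤ (ev V).card - g := by
  classical
  have h1 := Finset.card_filter_add_card_filter_not (s := ev V) (p := fun z => z < j)
  have h2 : ev (V ∩ Finset.Icc (b + 2 * l) (b + 2 * l + l)) ⊆ (ev V).filter (fun z => ¬ z < j) := by
    intro z hz
    unfold ev at hz ⊢
    rw [Finset.mem_filter, Finset.mem_inter, Finset.mem_Icc] at hz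
    rw [Finset.mem_filter, Finset.mem_filter]
    exact ⟨⟨hz.1.1, hz.2⟩, by omega⟩
  have h3 := Finset.card_le_card h2
  have h4 := card_ev_inter V (Finset.Icc (b + 2 * l) (b + 2 * l + l))
  have h5 : (Finset.Icc (b + 2 * (l : ℤ)) (b + 2 * l + l) \ V).card
      ≤ (Finset.Icc b (b + 3 * l) \ V).card := by
    apply sdiff_card_mono
    intro z hz
    rw [Finset.mem_Icc] at hz ⊢
    omega
  omega

lemma card_side_gt {V : Finset ℤ} {b j : ℤ} {l g : ℕ} (hj : b + l ≤ j)
    (hg : g + (Finset.Icc b (b + 3 * l) \ V).card ≤ (ev (Finset.Icc b (b + l))).card) :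
    ((ev V).filter (fun z => j < z)).card ≤ (ev V).card - g := by
  classical
  have h1 := Finset.card_filter_add_card_filter_not (s := ev V) (p := fun z => j < z)
  have h2 : ev (V ∩ Finset.Icc b (b + l)) ⊆ (ev V).filter (fun z => ¬ j < z) := by
    intro z hz
    unfold ev at hz ⊢
    rw [Finset.mem_filter, Finset.mem_inter, Finset.mem_Icc] at hz
    rw [Finset.mem_filter, Finset.mem_filter]
    exact ⟨⟨hz.1.1, hz.2⟩, by omega⟩
  have h3 := Finset.card_le_card h2
  have h4 := card_ev_inter V (Finset.Icc b (b + l))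
  have h5 : (Finset.Icc b (b + (l : ℤ)) \ V).card
      ≤ (Finset.Icc b (b + 3 * l) \ V).card := by
    apply sdiff_card_mono
    intro z hz
    rw [Finset.mem_Icc] at hz ⊢
    omega
  omega

/-- Event of the second kind. -/
def EvB (M k : ℕ) (U V : Finset ℤ) (a b : ℤ) (l : ℕ) (R : Finset W) : Prop :=
  EvA M k U V R ∧ ∀ x ∈ R, ¬ (x.1 ∈ Finset.Icc a (a + 3 * l) ∧ x.2 ∈ Finset.Icc b (b + 3 * l))

/-- Eigenvalue bound for the second kind. -/
noncomputable def lamB (κ Δ : ℝ) (U V : Finset ℤ) : ℝ :=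
  (hh ((ev U).card : ℝ) κ + hh ((od U).card : ℝ) κ + hh ((ev V).card : ℝ) κ
    + hh ((od V).card : ℝ) κ + Δ) / (16 * (1 + 6 / κ))

/-- Numerical side: the gain. -/
lemma gain_num {N d κ : ℝ} {n1 n2 g : ℕ} {cJ : ℝ} (hd0 : 0 < d) (hd1 : d ≤ 1 / 10)
    (hN : 3000 / d + 4 * κ / d + 100 ≤ N) (hκ : 6 ≤ κ)
    (hg1 : d * N ≤ g) (hg2 : (g : ℝ) ≤ d * N + 1)
    (h1 : (n1 : ℝ) ≤ 3 / 2 * N) (h1' : 3 / 4 * N ≤ n1)
    (h2 : (n2 : ℝ) ≤ 3 / 2 * N) (h2' : 3 / 4 * N ≤ n2) (hcJ : d * N ≤ cJ) :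
    d ^ 4 / 48 / N ^ 2 ≤ d ^ 3 / 48 * (hh ((n1 : ℝ) - g) κ - hh n1 κ) ∧
    d ^ 4 / 48 / N ^ 2 ≤ hh ((n2 - g : ℕ) : ℝ) (d * N / 4) - hh n2 κ
      - 3 / (d * N / 4) * (d ^ 3 / 48 / cJ) := by
  have hκd : 0 < 4 * κ / d := by positivity
  have h3d : 0 < 3000 / d := by positivity
  have hN0 : 0 < N := by linarith
  have hN100 : 100 ≤ N := by linarith
  have hNd : 3000 ≤ N * d := by
    have : 3000 / d ≤ N := by linarith
    rwa [div_le_iff₀ hd0] at this
  have hNκ : 4 * κ ≤ N * d := by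
    have : 4 * κ / d ≤ N := by linarith
    rwa [div_le_iff₀ hd0] at this
  have hdN : d * N ≤ N / 10 := by
    have := mul_le_mul_of_nonneg_right hd1 hN0.le
    linarith
  have hsmall : ∀ p : ℝ, N / 2 ≤ p → 11 / p ^ 4 ≤ d / 16 / N ^ 2 := by
    intro p hp
    have hp0 : 0 < p := by linarith
    have h3 : (N / 2) ^ 4 ≤ p ^ 4 := pow_le_pow_left₀ (by positivity) hp 4
    rw [div_div, div_le_div_iff₀ (by positivity) (by positivity)]
    have h4 : 11 * (16 * N ^ 2) ≤ d * (N / 2) ^ 4 := by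
      have h5 : d * (N / 2) ^ 4 = (N * d) * N * (N ^ 2 / 16) := by ring
      rw [h5]
      have h6 : (3000 : ℝ) * 100 ≤ (N * d) * N := mul_le_mul hNd hN100 (by norm_num) (by positivity)
      have h7 : 0 < N ^ 2 / 16 := by positivity
      have h8 := mul_le_mul_of_nonneg_right h6 h7.le
      linarith
    exact h4.trans (mul_le_mul_of_nonneg_left h3 hd0.le)
  constructor
  · have hd := hh_diff (m := n1) (κ := κ) (m' := (n1 : ℝ) - g) (κ' := κ) (by linarith) (by
      have : (0 : ℝ) ≤ g := Nat.cast_nonneg g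
      linarith)
    have hq : 0 < (n1 : ℝ) + 3 + 2 * κ := by linarith
    have hq2 : (n1 : ℝ) + 3 + 2 * κ ≤ 2 * N := by linarith
    have hs := hsmall ((n1 : ℝ) - g + 3 + 2 * κ) (by linarith)
    have h3 : 9 / 8 * d / N ^ 2 ≤ 9 * ((n1 : ℝ) + 3 + 2 * κ - ((n1 : ℝ) - g + 3 + 2 * κ))
        / ((n1 : ℝ) + 3 + 2 * κ) ^ 3 := by
      have e : (n1 : ℝ) + 3 + 2 * κ - ((n1 : ℝ) - g + 3 + 2 * κ) = g := by ring
      rw [e, div_le_div_iff₀ (by positivity) (by positivity)]
      have h4 : ((n1 : ℝ) + 3 + 2 * κ) ^ 3 ≤ (2 * N) ^ 3 := pow_le_pow_left₀ hq.le hq2 3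
      calc 9 / 8 * d * ((n1 : ℝ) + 3 + 2 * κ) ^ 3 ≤ 9 / 8 * d * (2 * N) ^ 3 :=
            mul_le_mul_of_nonneg_left h4 (by positivity)
        _ = 9 * (d * N) * N ^ 2 := by ring
        _ ≤ 9 * g * N ^ 2 := by
            apply mul_le_mul_of_nonneg_right _ (by positivity)
            linarith
    have h4 : d / N ^ 2 ≤ hh ((n1 : ℝ) - g) κ - hh n1 κ := by
      have e1 : 9 / 8 * d / N ^ 2 - d / 16 / N ^ 2 = 17 / 16 * (d / N ^ 2) := by ring
      have h5 : 0 < d / N ^ 2 := by positivity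
      linarith
    calc d ^ 4 / 48 / N ^ 2 = d ^ 3 / 48 * (d / N ^ 2) := by ring
      _ ≤ _ := mul_le_mul_of_nonneg_left h4 (by positivity)
  · have hgn : g ≤ n2 := by
      have : (g : ℝ) ≤ n2 := by linarith
      exact_mod_cast this
    have hcast : ((n2 - g : ℕ) : ℝ) = (n2 : ℝ) - g := by push_cast [Nat.cast_sub hgn]; ring
    rw [hcast]
    have hd := hh_diff (m := n2) (κ := κ) (m' := (n2 : ℝ) - g) (κ' := d * N / 4) (by linarith)
      (by linarith)
    have hq : 0 < (n2 : ℝ) + 3 + 2 * κ := by linarith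
    have hq2 : (n2 : ℝ) + 3 + 2 * κ ≤ 2 * N := by linarith
    have hs := hsmall ((n2 : ℝ) - g + 3 + 2 * (d * N / 4)) (by linarith)
    have h3 : 9 / 16 * d / N ^ 2 ≤
        9 * ((n2 : ℝ) + 3 + 2 * κ - ((n2 : ℝ) - g + 3 + 2 * (d * N / 4)))
        / ((n2 : ℝ) + 3 + 2 * κ) ^ 3 := by
      rw [div_le_div_iff₀ (by positivity) (by positivity)]
      have h4 : ((n2 : ℝ) + 3 + 2 * κ) ^ 3 ≤ (2 * N) ^ 3 := pow_le_pow_left₀ hq.le hq2 3
      have h5 : d * N / 2 ≤ (n2 : ℝ) + 3 + 2 * κ - ((n2 : ℝ) - g + 3 + 2 * (d * N / 4)) := by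
        linarith
      calc 9 / 16 * d * ((n2 : ℝ) + 3 + 2 * κ) ^ 3 ≤ 9 / 16 * d * (2 * N) ^ 3 :=
            mul_le_mul_of_nonneg_left h4 (by positivity)
        _ = 9 * (d * N / 2) * N ^ 2 := by ring
        _ ≤ _ := by
            apply mul_le_mul_of_nonneg_right _ (by positivity)
            linarith
    have hcJ0 : 0 < cJ := lt_of_lt_of_le (by positivity) hcJ
    have h6 : 3 / (d * N / 4) * (d ^ 3 / 48 / cJ) ≤ d / 4 / N ^ 2 := by
      have h7 : d ^ 3 / 48 / cJ ≤ d ^ 3 / 48 / (d * N) :=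
        div_le_div_of_nonneg_left (by positivity) (by positivity) hcJ
      have h8 : 3 / (d * N / 4) * (d ^ 3 / 48 / cJ) ≤ 3 / (d * N / 4) * (d ^ 3 / 48 / (d * N)) :=
        mul_le_mul_of_nonneg_left h7 (by positivity)
      refine h8.trans (le_of_eq ?_)
      field_simp
      norm_num
    have h9 : d ^ 4 / 48 / N ^ 2 ≤ d / 48 / N ^ 2 := by
      apply div_le_div_of_nonneg_right _ (by positivity)
      apply div_le_div_of_nonneg_right _ (by norm_num)
      have : d ^ 4 = d * d ^ 3 := by ring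
      rw [this]
      have h10 : d ^ 3 ≤ 1 := pow_le_one₀ hd0.le (by linarith)
      exact mul_le_of_le_one_right hd0.le h10
    have e1 : 9 / 16 * d / N ^ 2 - d / 16 / N ^ 2 - d / 4 / N ^ 2 = 1 / 4 * (d / N ^ 2) := by ring
    have e2 : d / 48 / N ^ 2 = 1 / 48 * (d / N ^ 2) := by ring
    have h5 : 0 < d / N ^ 2 := by positivity
    linarith

/-- Spectral bound for the second kind. -/
lemma quadB {N d κ : ℝ} {al : W → Fin 4 → Prop} {A : Finset W} {U V : Finset ℤ} {a b : ℤ}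
    {l : ℕ} {k : ℕ} (hpar : Par A)
    (hpen : Penal al A U V)
    (hq : ∀ x ∈ A, ¬ (x.1 ∈ Finset.Icc a (a + 3 * l) ∧ x.2 ∈ Finset.Icc b (b + 3 * l)))
    (hd0 : 0 < d) (hd1 : d ≤ 1 / 10) (hN : 3000 / d + 4 * κ / d + 100 ≤ N) (hκ : 6 ≤ κ)
    (hl : 4 * d * N ≤ l) (hgood : Good3 (d / 100) N k U V)
    (hU : ((Finset.Icc a (a + 3 * l) \ U).card : ℝ) ≤ 6 * (d / 100) * N)
    (hV : ((Finset.Icc b (b + 3 * l) \ V).card : ℝ) ≤ 6 * (d / 100) * N) :
    QuadBound al A (1 - lamB κ (d ^ 4 / 48 / N ^ 2) U V) := by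
  classical
  have hκd : 0 < 4 * κ / d := by positivity
  have h3d : 0 < 3000 / d := by positivity
  have hN0 : 0 < N := by linarith
  have hNd : 3000 ≤ N * d := by
    have : 3000 / d ≤ N := by linarith
    rwa [div_le_iff₀ hd0] at this
  have hNκ : 4 * κ ≤ N * d := by
    have : 4 * κ / d ≤ N := by linarith
    rwa [div_le_iff₀ hd0] at this
  set g := ⌈d * N⌉₊ with hgdef
  have hg1 : d * N ≤ g := Nat.le_ceil _
  have hg2 : (g : ℝ) ≤ d * N + 1 := (Nat.ceil_lt_add_one (by positivity)).le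
  -- cardinalities of even parts
  have cU : (2 : ℝ) * (ev (Finset.Icc a (a + 3 * l))).card ≥ 3 * l := by
    have := card_ev_Icc a (3 * l)
    push_cast at this
    exact_mod_cast this
  have cJ1 : (l : ℝ) ≤ 2 * (ev (Finset.Icc (b + l) (b + 2 * l))).card := by
    have := card_ev_Icc (b + l) l
    have e : b + (l : ℤ) + l = b + 2 * l := by ring
    rw [e] at this
    exact_mod_cast this
  have cJ2 : (l : ℝ) ≤ 2 * (ev (Finset.Icc (b + 2 * l) (b + 2 * l + l))).card := by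
    have := card_ev_Icc (b + 2 * l) l
    exact_mod_cast this
  have cJ3 : (l : ℝ) ≤ 2 * (ev (Finset.Icc b (b + l))).card := by
    have := card_ev_Icc b l
    exact_mod_cast this
  have hgU : g ≤ (ev (U ∩ Finset.Icc a (a + 3 * l))).card := by
    have h1 := card_ev_inter U (Finset.Icc a (a + 3 * l))
    have h1' : ((ev (Finset.Icc a (a + 3 * l))).card : ℝ) ≤
        (ev (U ∩ Finset.Icc a (a + 3 * l))).card + (Finset.Icc a (a + 3 * l) \ U).card := by
      exact_mod_cast h1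
    have : (g : ℝ) ≤ (ev (U ∩ Finset.Icc a (a + 3 * l))).card := by linarith
    exact_mod_cast this
  have hgV1 : g + (Finset.Icc b (b + 3 * l) \ V).card
      ≤ (ev (Finset.Icc (b + 2 * l) (b + 2 * l + l))).card := by
    have : (g : ℝ) + (Finset.Icc b (b + 3 * l) \ V).card
      ≤ (ev (Finset.Icc (b + 2 * l) (b + 2 * l + l))).card := by linarith
    exact_mod_cast this
  have hgV2 : g + (Finset.Icc b (b + 3 * l) \ V).card ≤ (ev (Finset.Icc b (b + l))).card := by
    have : (g : ℝ) + (Finset.Icc b (b + 3 * l) \ V).card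
      ≤ (ev (Finset.Icc b (b + l))).card := by linarith
    exact_mod_cast this
  have hcJ : d * N ≤ ((ev (Finset.Icc (b + l) (b + 2 * l))).card : ℝ) := by linarith
  have hne : (ev (Finset.Icc (b + (l : ℤ)) (b + 2 * l))).Nonempty := by
    rw [← Finset.card_pos]
    have : (0 : ℝ) < (ev (Finset.Icc (b + (l : ℤ)) (b + 2 * l))).card := by linarith
    exact_mod_cast this
  -- sizes of the classes
  have c1 : 2 * (mE U : ℝ) ≤ (ev U).card + 1 := by exact_mod_cast two_mE_le U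
  have c3 : 2 * (mE V : ℝ) ≤ (ev V).card + 1 := by exact_mod_cast two_mE_le V
  have u1 := hgood.ue
  have u2 := hgood.ve
  have r1 := hgood.rue
  have r2 := hgood.rve
  have hdN : d * N ≤ N / 10 := by
    have := mul_le_mul_of_nonneg_right hd1 hN0.le
    linarith
  obtain ⟨G1, G2⟩ := gain_num (n1 := (ev U).card) (n2 := (ev V).card) (g := g)
    (cJ := ((ev (Finset.Icc (b + l) (b + 2 * l))).card : ℝ)) hd0 hd1 hN hκ hg1 hg2
    (by linarith) (by linarith) (by linarith) (by linarith) hcJ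
  exact quadBound_hole (Jm := Finset.Icc (b + l) (b + 2 * l)) (κ₁ := d * N / 4)
    (θ := d ^ 3 / 48) (g := g) (mB := (ev V).card - g) hpar hpen (by
      intro z hz
      rw [Finset.mem_Icc] at hz ⊢
      omega) hq (by linarith) (by linarith) (by positivity) (by positivity) hgU le_rfl le_rfl
    le_rfl le_rfl hne
    (fun j hj => card_side_lt (by
      have := (Finset.mem_filter.1 hj).1
      rw [Finset.mem_Icc] at this
      exact this.2) hgV1)
    (fun j hj => card_side_gt (by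
      have := (Finset.mem_filter.1 hj).1
      rw [Finset.mem_Icc] at this
      exact this.1) hgV2) G1 G2

/-- Probability of an event of the second kind. -/
lemma Et_EvB_le {M k : ℕ} {U V : Finset ℤ} {a b : ℤ} {l : ℕ} {N d κ t : ℝ} (ht : 0 ≤ t)
    (hd0 : 0 < d) (hd1 : d ≤ 1 / 10) (hN : 3000 / d + 4 * κ / d + 100 ≤ N) (hκ : 6 ≤ κ)
    (hl : 4 * d * N ≤ l) (hgood : Good3 (d / 100) N k U V)
    (hU : ((Finset.Icc a (a + 3 * l) \ U).card : ℝ) ≤ 6 * (d / 100) * N)
    (hV : ((Finset.Icc b (b + 3 * l) \ V).card : ℝ) ≤ 6 * (d / 100) * N) :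
    Et t (fun R => ind (EvB M k U V a b l R)) ≤
      4 ^ k * (2 * M + 1) * exp (-(t * lamB κ (d ^ 4 / 48 / N ^ 2) U V)) := by
  classical
  set A := (Dm M).filter (fun x => ¬ (x.1 ∈ Finset.Icc a (a + 3 * (l : ℤ)) ∧
    x.2 ∈ Finset.Icc b (b + 3 * (l : ℤ)))) with hA
  have hAsub : A ⊆ Dm M := Finset.filter_subset _ _
  have hpar : Par A := fun x hx => Par_Dm M x (hAsub hx)
  have hq : ∀ x ∈ A, ¬ (x.1 ∈ Finset.Icc a (a + 3 * (l : ℤ)) ∧
    x.2 ∈ Finset.Icc b (b + 3 * (l : ℤ))) := fun x hx => (Finset.mem_filter.1 hx).2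
  set lam := lamB κ (d ^ 4 / 48 / N ^ 2) U V with hlam
  have hlam1 : lam ≤ 1 := by
    rw [hlam]
    unfold lamB
    have hκ0 : 0 < κ := by linarith
    rw [div_le_one (by positivity)]
    have a1 := hh_le (m := ((ev U).card : ℝ)) (Nat.cast_nonneg _) hκ0
    have a2 := hh_le (m := ((od U).card : ℝ)) (Nat.cast_nonneg _) hκ0
    have a3 := hh_le (m := ((ev V).card : ℝ)) (Nat.cast_nonneg _) hκ0
    have a4 := hh_le (m := ((od V).card : ℝ)) (Nat.cast_nonneg _) hκ0
    have h6 : 0 < 6 / κ := by positivity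
    have h1 : 1 / κ ≤ 1 := by
      rw [div_le_one hκ0]
      linarith
    have h2 : d ^ 4 / 48 / N ^ 2 ≤ 1 := by
      have hκd : 0 < 4 * κ / d := by positivity
      have h3d : 0 < 3000 / d := by positivity
      have hN1 : 100 ≤ N := by linarith
      have h3 : d ^ 4 ≤ 1 := pow_le_one₀ hd0.le (by linarith)
      rw [div_div, div_le_one (by positivity)]
      have h4 : (1 : ℝ) ≤ N ^ 2 := one_le_pow₀ (by linarith)
      linarith
    linarith
  have h1 : ∀ j, Ex j 0 (fun R => ind (EvB M k U V a b l R))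
      ≤ 4 ^ k * (2 * M + 1) * (1 - lam) ^ j := by
    intro j
    have h2 := Ex_event_le (A := A) (U := U) (V := V) (k := k) (ρ := 1 - lam) (by linarith)
      (fun al _ hpen => quadB hpar hpen hq hd0 hd1 hN hκ hl hgood hU hV)
      j 0 (EvB M k U V a b l) (fun R _ hE => ⟨fun x hx =>
        Finset.mem_filter.2 ⟨hE.1.1 hx, hE.2 x hx⟩, EvA_int hE.1, hE.1.2.1.le⟩)
    refine h2.trans ?_
    have h3 := sqrt_card_Dm M hAsub
    have h4 : 0 ≤ (1 - lam) ^ j := pow_nonneg (by linarith) j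
    calc (4 : ℝ) ^ k * ((1 - lam) ^ j * Real.sqrt A.card)
        ≤ 4 ^ k * ((1 - lam) ^ j * (2 * M + 1)) := by
          apply mul_le_mul_of_nonneg_left _ (by positivity)
          exact mul_le_mul_of_nonneg_left h3 h4
      _ = 4 ^ k * (2 * M + 1) * (1 - lam) ^ j := by ring
  have h5 := Et_le_of_Ex_le (Bd.ind (EvB M k U V a b l)) ht h1
  refine h5.trans (le_of_eq ?_)
  congr 2
  ring

/-- Energy lower bound for the second kind. -/
lemma bad2_energy {N κ β d : ℝ} {k : ℕ} {U V : Finset ℤ} (hN : 0 < N)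
    (hκ : 6 ≤ κ) (hβ : 0 ≤ β) (hUV : U.card + V.card ≤ k) :
    β * sfac κ * (6 * N - 12 - 8 * κ) + β * N * d ^ 4 / 1920 ≤
      β * k + tN β N * lamB κ (d ^ 4 / 48 / N ^ 2) U V := by
  have hU := card_ev_add_od U
  have hV := card_ev_add_od V
  have hU' : ((ev U).card : ℝ) + (od U).card = U.card := by exact_mod_cast hU
  have hV' : ((ev V).card : ℝ) + (od V).card = V.card := by exact_mod_cast hV
  have hUV' : (U.card : ℝ) + V.card ≤ k := by exact_mod_cast hUV
  have p1 : (0 : ℝ) ≤ (ev U).card := by positivity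
  have p2 : (0 : ℝ) ≤ (od U).card := by positivity
  have p3 : (0 : ℝ) ≤ (ev V).card := by positivity
  have p4 : (0 : ℝ) ≤ (od V).card := by positivity
  have hmain := energy_main (G := (k : ℝ) - ((ev U).card + (od U).card + (ev V).card
    + (od V).card : ℝ)) (Δ := d ^ 4 / 48 / N ^ 2) hβ hN hκ (by positivity) p1 p2 p3 p4
    (Nat.cast_nonneg k) (by linarith)
  unfold lamB
  refine le_trans ?_ hmain
  have e : β * N ^ 3 * (d ^ 4 / 48 / N ^ 2) / 40 = β * N * d ^ 4 / 1920 := by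
    field_simp
    ring
  rw [e]
  have q1 : 0 ≤ ((ev U).card + 3 + 2 * κ - N) ^ 2 / ((ev U).card + 3 + 2 * κ) :=
    div_nonneg (sq_nonneg _) (by linarith)
  have q2 : 0 ≤ ((od U).card + 3 + 2 * κ - N) ^ 2 / ((od U).card + 3 + 2 * κ) :=
    div_nonneg (sq_nonneg _) (by linarith)
  have q3 : 0 ≤ ((ev V).card + 3 + 2 * κ - N) ^ 2 / ((ev V).card + 3 + 2 * κ) :=
    div_nonneg (sq_nonneg _) (by linarith)
  have q4 : 0 ≤ ((od V).card + 3 + 2 * κ - N) ^ 2 / ((od V).card + 3 + 2 * κ) :=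
    div_nonneg (sq_nonneg _) (by linarith)
  have := mul_le_mul_of_nonneg_left (show 6 * N - 12 - 8 * κ ≤
    6 * N + (((ev U).card + 3 + 2 * κ - N) ^ 2 / ((ev U).card + 3 + 2 * κ)
      + ((od U).card + 3 + 2 * κ - N) ^ 2 / ((od U).card + 3 + 2 * κ)
      + ((ev V).card + 3 + 2 * κ - N) ^ 2 / ((ev V).card + 3 + 2 * κ)
      + ((od V).card + 3 + 2 * κ - N) ^ 2 / ((od V).card + 3 + 2 * κ))
      + ((k : ℝ) - ((ev U).card + (od U).card + (ev V).card + (od V).card : ℝ)) - 12 - 8 * κ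
    by linarith) (mul_nonneg hβ (sfac_nonneg (show 1 ≤ κ by linarith)))
  linarith

end Pool.Agent.Helper92.Diamond
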