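import Pool.Agent.Helper92_Diamond.Walk

set_option autoImplicit false

open Finset

namespace Pool.Agent.Helper92.Diamond

/-- The diamond (box in rotated coordinates). -/
noncomputable def Dm (m : ℕ) : Finset W :=
  (Finset.Icc (-(m : ℤ)) m ×ˢ Finset.Icc (-(m : ℤ)) m).filter (fun x => x.1 % 2 = x.2 % 2)

lemma mem_Dm {m : ℕ} {x : W} :
    x ∈ Dm m ↔ (-(m : ℤ) ≤ x.1 ∧ x.1 ≤ m) ∧ (-(m : ℤ) ≤ x.2 ∧ x.2 ≤ m) ∧ x.1 % 2 = x.2 % 2 := by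
  unfold Dm
  rw [Finset.mem_filter, Finset.mem_product, Finset.mem_Icc, Finset.mem_Icc]
  tauto

/-- Central points of the box. -/
noncomputable def Cm (m : ℕ) : Finset W :=
  (Dm m).filter (fun y => (-(7 * (m : ℤ)) ≤ 8 * y.1 ∧ 8 * y.1 ≤ 7 * m) ∧
    (-(7 * (m : ℤ)) ≤ 8 * y.2 ∧ 8 * y.2 ≤ 7 * m))

lemma mem_Cm {m : ℕ} {y : W} : y ∈ Cm m ↔ (-(7 * (m : ℤ)) ≤ 8 * y.1 ∧ 8 * y.1 ≤ 7 * m) ∧
    (-(7 * (m : ℤ)) ≤ 8 * y.2 ∧ 8 * y.2 ≤ 7 * m) ∧ y.1 % 2 = y.2 % 2 := by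
  unfold Cm
  rw [Finset.mem_filter, mem_Dm]
  constructor
  · rintro ⟨⟨_, _, h⟩, h1, h2⟩
    exact ⟨h1, h2, h⟩
  · rintro ⟨h1, h2, h⟩
    refine ⟨⟨?_, ?_, h⟩, h1, h2⟩
    · omega
    · omega

lemma Cm_subset (m : ℕ) : Cm m ⊆ Dm m := Finset.filter_subset _ _

lemma card_Dm_le (m : ℕ) : (Dm m).card ≤ (2 * m + 1) ^ 2 := by
  unfold Dm
  refine (Finset.card_filter_le _ _).trans ?_
  rw [Finset.card_product, Int.card_Icc]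
  have : ((m : ℤ) + 1 - -(m : ℤ)).toNat = 2 * m + 1 := by omega
  rw [this, sq]

end Pool.Agent.Helper92.Diamond
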