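import Pool.Agent.Helper92_Diamond.Small

set_option autoImplicit false

open Finset

namespace Pool.Agent.Helper92.Diamond

/-- A covering cell. -/
def Cell (m T : ℕ) (κ : ℝ) (C' : Finset W) : Prop :=
  ∀ x ∈ Dm m, ∀ w ∈ Cm m, Real.exp (-κ) ≤ cov (Dm m) T x C' w

/-- Admissible centers. -/
def Ctr (n m : ℕ) (z : W) : Prop :=
  (-((n : ℤ) - m) ≤ z.1 ∧ z.1 ≤ n - m) ∧ (-((n : ℤ) - m) ≤ z.2 ∧ z.2 ≤ n - m) ∧ z.1 % 2 = z.2 % 2

lemma fst_sub' (x z : W) : (x - z).1 = x.1 - z.1 := rfl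
lemma snd_sub' (x z : W) : (x - z).2 = x.2 - z.2 := rfl

lemma tr_subset_Dm {n m : ℕ} {z : W} (hz : Ctr n m z) : tr z (Dm m) ⊆ Dm n := by
  intro y hy
  rw [mem_tr, mem_Dm, fst_sub', snd_sub'] at hy
  rw [mem_Dm]
  unfold Ctr at hz
  omega

lemma cell_shift {n m T : ℕ} {κ : ℝ} {C' : Finset W} (h : Cell m T κ C') {z x w : W}
    (hz : Ctr n m z) (hx : x - z ∈ Dm m) (hw : w - z ∈ Cm m) :
    Real.exp (-κ) ≤ cov (Dm n) T x (tr z C') w := by
  refine (h _ hx _ hw).trans ?_
  rw [← cov_tr (Dm m) z T (x - z) C' (w - z), sub_add_cancel, sub_add_cancel]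
  exact cov_mono (tr_subset_Dm hz) (Finset.Subset.refl _) _ _ _

lemma zero_mem_Dm (m : ℕ) : (0 : W) ∈ Dm m := by
  rw [mem_Dm]
  simp

lemma zero_mem_Cm (m : ℕ) : (0 : W) ∈ Cm m := by
  rw [mem_Cm]
  simp

lemma chain {n m T : ℕ} {κ : ℝ} {C' : Finset W} (h : Cell m T κ C') (z : ℕ → W) (L : ℕ)
    (hz : ∀ k, k ≤ L → Ctr n m (z k)) (hstep : ∀ k, k < L → z (k + 1) - z k ∈ Cm m) (l : ℕ)
    (hl : l ≤ L) :
    Real.exp (-(l * κ)) ≤
      cov (Dm n) (l * T) (z 0) ((Finset.range l).biUnion (fun k => tr (z k) C')) (z l) := by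
  classical
  induction l with
  | zero =>
    have h0 : z 0 ∈ Dm n := by
      have := hz 0 (by omega)
      unfold Ctr at this
      rw [mem_Dm]
      omega
    simp only [Nat.cast_zero, zero_mul, neg_zero, Real.exp_zero, Finset.range_zero,
      Finset.biUnion_empty]
    rw [cov_stop h0 _ (Finset.empty_subset _)]
  | succ l ih =>
    have h1 := ih (by omega)
    have h2 : Real.exp (-κ) ≤ cov (Dm n) T (z l) (tr (z l) C') (z (l + 1)) :=
      cell_shift h (hz l (by omega)) (by rw [sub_self]; exact zero_mem_Dm m) (hstep l (by omega))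
    have h3 := cov_comp (Dm n) (l * T) T (z 0) (z l) (z (l + 1))
      ((Finset.range l).biUnion (fun k => tr (z k) C')) (tr (z l) C')
    have e1 : (l + 1) * T = l * T + T := by ring
    have e2 : (Finset.range (l + 1)).biUnion (fun k => tr (z k) C')
        = (Finset.range l).biUnion (fun k => tr (z k) C') ∪ tr (z l) C' := by
      rw [Finset.range_add_one, Finset.biUnion_insert, Finset.union_comm]
    rw [e1, e2]
    refine le_trans ?_ h3
    have e3 : Real.exp (-(((l + 1 : ℕ) : ℝ) * κ)) = Real.exp (-(l * κ)) * Real.exp (-κ) := by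
      rw [← Real.exp_add]
      congr 1
      push_cast
      ring
    rw [e3]
    exact mul_le_mul h1 h2 (Real.exp_pos _).le (cov_nonneg _ _ _ _ _)

/-- Chain including the last cell. -/
lemma chain' {n m T : ℕ} {κ : ℝ} {C' : Finset W} (h : Cell m T κ C') (z : ℕ → W) (L : ℕ)
    (hz : ∀ k, k ≤ L → Ctr n m (z k)) (hstep : ∀ k, k < L → z (k + 1) - z k ∈ Cm m) :
    Real.exp (-((L + 1 : ℕ) * κ)) ≤
      cov (Dm n) ((L + 1) * T) (z 0) ((Finset.range (L + 1)).biUnion (fun k => tr (z k) C'))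
        (z L) := by
  classical
  have h1 := chain h z L hz hstep L le_rfl
  have h2 : Real.exp (-κ) ≤ cov (Dm n) T (z L) (tr (z L) C') (z L) :=
    cell_shift h (hz L le_rfl) (by rw [sub_self]; exact zero_mem_Dm m)
      (by rw [sub_self]; exact zero_mem_Cm m)
  have h3 := cov_comp (Dm n) (L * T) T (z 0) (z L) (z L)
    ((Finset.range L).biUnion (fun k => tr (z k) C')) (tr (z L) C')
  have e1 : (L + 1) * T = L * T + T := by ring
  have e2 : (Finset.range (L + 1)).biUnion (fun k => tr (z k) C')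
      = (Finset.range L).biUnion (fun k => tr (z k) C') ∪ tr (z L) C' := by
    rw [Finset.range_add_one, Finset.biUnion_insert, Finset.union_comm]
  rw [e1, e2]
  refine le_trans ?_ h3
  have e3 : Real.exp (-(((L + 1 : ℕ) : ℝ) * κ)) = Real.exp (-(L * κ)) * Real.exp (-κ) := by
    rw [← Real.exp_add]
    congr 1
    push_cast
    ring
  rw [e3]
  exact mul_le_mul h1 h2 (Real.exp_pos _).le (cov_nonneg _ _ _ _ _)

/-- Positions along a side. -/
def alpha (N s : ℤ) (k : ℕ) : ℤ := min (-N + k * s) N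

lemma alpha_zero {N s : ℤ} (hN : 0 ≤ N) : alpha N s 0 = -N := by
  unfold alpha
  push_cast
  rw [zero_mul, add_zero]
  omega

lemma alpha_bounds {N s : ℤ} (hN : 0 ≤ N) (hs : 0 ≤ s) (k : ℕ) :
    -N ≤ alpha N s k ∧ alpha N s k ≤ N := by
  unfold alpha
  have : 0 ≤ (k : ℤ) * s := mul_nonneg (Int.natCast_nonneg k) hs
  constructor
  · exact le_min (by linarith) (by linarith)
  · exact min_le_right _ _

lemma alpha_parity {N s : ℤ} (hs2 : s % 2 = 0) (k : ℕ) : alpha N s k % 2 = N % 2 := by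
  unfold alpha
  obtain ⟨q, hq⟩ : ∃ q, s = 2 * q := ⟨s / 2, by omega⟩
  have e : (k : ℤ) * s = 2 * (k * q) := by rw [hq]; ring
  rw [e]
  rcases min_cases (-N + 2 * ((k : ℤ) * q)) N with ⟨h, _⟩ | ⟨h, _⟩
  · rw [h]; omega
  · rw [h]

lemma alpha_step {N s : ℤ} (hs : 0 ≤ s) (k : ℕ) :
    0 ≤ alpha N s (k + 1) - alpha N s k ∧ alpha N s (k + 1) - alpha N s k ≤ s := by
  unfold alpha
  have e : ((k + 1 : ℕ) : ℤ) * s = k * s + s := by push_cast; ring
  rw [e]
  generalize (k : ℤ) * s = p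
  constructor <;> omega

lemma alpha_last {N s : ℤ} (hs : 0 < s) : alpha N s ((2 * N / s).toNat + 1) = N := by
  unfold alpha
  apply min_eq_right
  have h1 : 2 * N / s ≤ ((2 * N / s).toNat : ℤ) := Int.self_le_toNat _
  have h2 : 2 * N < (2 * N / s + 1) * s := Int.lt_ediv_add_one_mul_self _ hs
  have h3 : (2 * N / s + 1) * s ≤ (((2 * N / s).toNat + 1 : ℕ) : ℤ) * s := by
    apply mul_le_mul_of_nonneg_right _ hs.le
    push_cast
    linarith
  linarith

/-- Some position is close. -/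
lemma alpha_close {N s c a : ℤ} (hN : 0 ≤ N) (hs : 0 < s) (hc : 8 * s ≤ c)
    (h1 : 8 * a ≤ 8 * N + c) (h2 : -(8 * N + c) ≤ 8 * a) :
    ∃ k : ℕ, k ≤ (2 * N / s).toNat + 1 ∧ -c ≤ 8 * (a - alpha N s k) ∧
      8 * (a - alpha N s k) ≤ c := by
  rcases lt_or_ge a (-N) with h | h
  · refine ⟨0, by omega, ?_⟩
    rw [alpha_zero hN]
    omega
  rcases lt_or_ge N a with h' | h'
  · refine ⟨(2 * N / s).toNat + 1, le_rfl, ?_⟩
    rw [alpha_last hs]
    omega
  · have hq0 : 0 ≤ (a + N) / s := Int.ediv_nonneg (by omega) hs.le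
    have hcast : ((((a + N) / s).toNat : ℕ) : ℤ) = (a + N) / s := Int.toNat_of_nonneg hq0
    have e1 : (a + N) / s * s ≤ a + N := Int.ediv_mul_le _ hs.ne'
    have e2 : a + N < ((a + N) / s + 1) * s := Int.lt_ediv_add_one_mul_self _ hs
    refine ⟨((a + N) / s).toNat, ?_, ?_⟩
    · have : (a + N) / s ≤ 2 * N / s := Int.ediv_le_ediv hs (by omega)
      omega
    · have e3 : alpha N s ((a + N) / s).toNat = -N + (a + N) / s * s := by
        unfold alpha
        rw [hcast]
        apply min_eq_left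
        linarith
      rw [e3]
      have e4 : ((a + N) / s + 1) * s = (a + N) / s * s + s := by ring
      rw [e4] at e2
      constructor <;> linarith

/-- The four sides. -/
def side (N s : ℤ) (i : Fin 4) (k : ℕ) : W :=
  ![(alpha N s k, N), (N, -alpha N s k), (-alpha N s k, -N), (-N, alpha N s k)] i

/-- The union of the cells along the four sides. -/
noncomputable def loopSet (N s : ℤ) (C' : Finset W) : Finset W :=
  Finset.univ.biUnion (fun i : Fin 4 =>
    (Finset.range ((2 * N / s).toNat + 1 + 1)).biUnion (fun k => tr (side N s i k) C'))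

lemma mem_loopSet {N s c : ℤ} {C' : Finset W} (hN : 0 ≤ N) (hs : 0 < s) (hs2 : s % 2 = 0)
    (hc : 8 * s ≤ c)
    (hC : ∀ p : W, -c ≤ 8 * p.1 → 8 * p.1 ≤ c → -c ≤ 8 * p.2 → 8 * p.2 ≤ c →
      p.1 % 2 = p.2 % 2 → p ∈ C')
    {y : W} (hy : y.1 % 2 = y.2 % 2) (h1 : 8 * y.1 ≤ 8 * N + c) (h2 : -(8 * N + c) ≤ 8 * y.1)
    (h3 : 8 * y.2 ≤ 8 * N + c) (h4 : -(8 * N + c) ≤ 8 * y.2)
    (h5 : 8 * N - c ≤ 8 * y.1 ∨ 8 * N - c ≤ -(8 * y.1) ∨ 8 * N - c ≤ 8 * y.2 ∨
      8 * N - c ≤ -(8 * y.2)) : y ∈ loopSet N s C' := by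
  unfold loopSet
  rw [Finset.mem_biUnion]
  rcases h5 with h5 | h5 | h5 | h5
  · obtain ⟨k, hk, hk1, hk2⟩ := alpha_close (a := -y.2) hN hs hc (by omega) (by omega)
    refine ⟨1, Finset.mem_univ _, ?_⟩
    rw [Finset.mem_biUnion]
    refine ⟨k, Finset.mem_range.2 (by omega), ?_⟩
    rw [mem_tr]
    have hp := alpha_parity (N := N) hs2 k
    have e : side N s 1 k = (N, -alpha N s k) := rfl
    rw [e]
    apply hC
    all_goals (simp only [fst_sub', snd_sub']; omega)
  · obtain ⟨k, hk, hk1, hk2⟩ := alpha_close (a := y.2) hN hs hc (by omega) (by omega)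
    refine ⟨3, Finset.mem_univ _, ?_⟩
    rw [Finset.mem_biUnion]
    refine ⟨k, Finset.mem_range.2 (by omega), ?_⟩
    rw [mem_tr]
    have hp := alpha_parity (N := N) hs2 k
    have e : side N s 3 k = (-N, alpha N s k) := rfl
    rw [e]
    apply hC
    all_goals (simp only [fst_sub', snd_sub']; omega)
  · obtain ⟨k, hk, hk1, hk2⟩ := alpha_close (a := y.1) hN hs hc (by omega) (by omega)
    refine ⟨0, Finset.mem_univ _, ?_⟩
    rw [Finset.mem_biUnion]
    refine ⟨k, Finset.mem_range.2 (by omega), ?_⟩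
    rw [mem_tr]
    have hp := alpha_parity (N := N) hs2 k
    have e : side N s 0 k = (alpha N s k, N) := rfl
    rw [e]
    apply hC
    all_goals (simp only [fst_sub', snd_sub']; omega)
  · obtain ⟨k, hk, hk1, hk2⟩ := alpha_close (a := -y.1) hN hs hc (by omega) (by omega)
    refine ⟨2, Finset.mem_univ _, ?_⟩
    rw [Finset.mem_biUnion]
    refine ⟨k, Finset.mem_range.2 (by omega), ?_⟩
    rw [mem_tr]
    have hp := alpha_parity (N := N) hs2 k
    have e : side N s 2 k = (-alpha N s k, -N) := rfl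
    rw [e]
    apply hC
    all_goals (simp only [fst_sub', snd_sub']; omega)

/-- Base point on the contour. -/
def bpt (N : ℤ) : W := (-N, N)

lemma loop {n m T : ℕ} {κ : ℝ} {C' : Finset W} (h : Cell m T κ C') (hmn : m ≤ n) {s : ℤ}
    (hs : 0 < s) (hs2 : s % 2 = 0) (hsm : 8 * s ≤ 7 * m) :
    Real.exp (-((4 * ((2 * ((n : ℤ) - m) / s).toNat + 2) : ℕ) * κ)) ≤
      cov (Dm n) (4 * ((2 * ((n : ℤ) - m) / s).toNat + 2) * T) (bpt ((n : ℤ) - m))
        (loopSet ((n : ℤ) - m) s C') (bpt ((n : ℤ) - m)) := by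
  classical
  set N : ℤ := (n : ℤ) - m with hN
  have hN0 : 0 ≤ N := by omega
  set L := (2 * N / s).toNat + 1 with hL
  have hlast : alpha N s L = N := alpha_last hs
  have hfirst : alpha N s 0 = -N := alpha_zero hN0
  have hctr : ∀ i : Fin 4, ∀ k, k ≤ L → Ctr n m (side N s i k) := by
    intro i k _
    have h1 := alpha_bounds hN0 hs.le k
    have h2 := alpha_parity (N := N) hs2 k
    unfold Ctr
    rw [← hN]
    fin_cases i <;> simp only [side] <;> simp <;> omega
  have hstep : ∀ i : Fin 4, ∀ k, k < L → side N s i (k + 1) - side N s i k ∈ Cm m := by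
    intro i k _
    have h1 := alpha_step (N := N) hs.le k
    have h2 := alpha_parity (N := N) hs2 k
    have h3 := alpha_parity (N := N) hs2 (k + 1)
    rw [mem_Cm, fst_sub', snd_sub']
    fin_cases i <;> simp only [side] <;> simp <;> omega
  have hside := fun i : Fin 4 => chain' h (side N s i) L (hctr i) (hstep i)
  set D := fun i : Fin 4 => (Finset.range (L + 1)).biUnion (fun k => tr (side N s i k) C') with hD
  have h0 := hside 0
  have h1 := hside 1
  have h2 := hside 2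
  have h3 := hside 3
  have e0 : side N s 0 0 = (-N, N) := by simp [side, hfirst]
  have e0' : side N s 0 L = (N, N) := by simp [side, hlast]
  have e1 : side N s 1 0 = (N, N) := by simp [side, hfirst]
  have e1' : side N s 1 L = (N, -N) := by simp [side, hlast]
  have e2 : side N s 2 0 = (N, -N) := by simp [side, hfirst]
  have e2' : side N s 2 L = (-N, -N) := by simp [side, hlast]
  have e3 : side N s 3 0 = (-N, -N) := by simp [side, hfirst]
  have e3' : side N s 3 L = (-N, N) := by simp [side, hlast]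
  rw [e0, e0'] at h0
  rw [e1, e1'] at h1
  rw [e2, e2'] at h2
  rw [e3, e3'] at h3
  have c1 := cov_comp (Dm n) ((L + 1) * T) ((L + 1) * T) (-N, N) (N, N) (N, -N) (D 0) (D 1)
  have c2 := cov_comp (Dm n) ((L + 1) * T + (L + 1) * T) ((L + 1) * T) (-N, N) (N, -N) (-N, -N)
    (D 0 ∪ D 1) (D 2)
  have c3 := cov_comp (Dm n) ((L + 1) * T + (L + 1) * T + (L + 1) * T) ((L + 1) * T)
    (-N, N) (-N, -N) (-N, N) (D 0 ∪ D 1 ∪ D 2) (D 3)
  have eT : 4 * ((2 * N / s).toNat + 2) * T
      = (L + 1) * T + (L + 1) * T + (L + 1) * T + (L + 1) * T := by rw [hL]; ring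
  have eD : loopSet N s C' = D 0 ∪ D 1 ∪ D 2 ∪ D 3 := by
    ext y
    unfold loopSet
    rw [Finset.mem_biUnion]
    constructor
    · rintro ⟨i, _, hi⟩
      have hi' : y ∈ D i := hi
      simp only [Finset.mem_union]
      fin_cases i
      · exact Or.inl (Or.inl (Or.inl hi'))
      · exact Or.inl (Or.inl (Or.inr hi'))
      · exact Or.inl (Or.inr hi')
      · exact Or.inr hi'
    · simp only [Finset.mem_union]
      rintro (((hi | hi) | hi) | hi)
      · exact ⟨0, Finset.mem_univ _, hi⟩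
      · exact ⟨1, Finset.mem_univ _, hi⟩
      · exact ⟨2, Finset.mem_univ _, hi⟩
      · exact ⟨3, Finset.mem_univ _, hi⟩
  rw [eT, eD]
  have eE : Real.exp (-((4 * ((2 * N / s).toNat + 2) : ℕ) * κ))
      = Real.exp (-((L + 1 : ℕ) * κ)) * Real.exp (-((L + 1 : ℕ) * κ))
        * Real.exp (-((L + 1 : ℕ) * κ)) * Real.exp (-((L + 1 : ℕ) * κ)) := by
    rw [← Real.exp_add, ← Real.exp_add, ← Real.exp_add]
    congr 1
    rw [hL]
    push_cast
    ring
  rw [eE]
  unfold bpt
  have E0 := (Real.exp_pos (-((L + 1 : ℕ) * κ))).le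
  refine le_trans ?_ c3
  refine mul_le_mul ?_ h3 E0 (cov_nonneg _ _ _ _ _)
  refine le_trans ?_ c2
  refine mul_le_mul ?_ h2 E0 (cov_nonneg _ _ _ _ _)
  refine le_trans ?_ c1
  exact mul_le_mul h0 h1 E0 (cov_nonneg _ _ _ _ _)

end Pool.Agent.Helper92.Diamond
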