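import Mathlib

set_option autoImplicit false

open MeasureTheory ProbabilityTheory Filter Topology
open scoped ENNReal

namespace Pool.Agent.Helper92.Diamond

/-- Law of the waiting times. -/
noncomputable def muT : Measure (ℕ → ℝ) := Measure.infinitePi fun _ : ℕ => expMeasure 1

instance instProbExp : IsProbabilityMeasure (expMeasure 1) :=
  isProbabilityMeasure_expMeasure one_pos

instance instProbMuT : IsProbabilityMeasure muT := by
  unfold muT
  infer_instance

/-- Jump times. -/
noncomputable def Tm (n : ℕ) (τ : ℕ → ℝ) : ℝ := ∑ i ∈ Finset.range n, τ i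

lemma measurable_Tm (n : ℕ) : Measurable (Tm n) := by
  unfold Tm
  fun_prop

lemma measurableSet_Tm_le (n : ℕ) (t : ℝ) : MeasurableSet {τ | Tm n τ ≤ t} :=
  measurableSet_le (measurable_Tm n) measurable_const

/-- The Erlang distribution function. -/
noncomputable def erl (n : ℕ) (t : ℝ) : ℝ :=
  1 - Real.exp (-t) * ∑ i ∈ Finset.range n, t ^ i / (i.factorial : ℝ)

lemma erl_nonneg (n : ℕ) {t : ℝ} (ht : 0 ≤ t) : 0 ≤ erl n t := by
  unfold erl
  have h := Real.sum_le_exp_of_nonneg ht n
  have h2 : Real.exp (-t) * ∑ i ∈ Finset.range n, t ^ i / (i.factorial : ℝ)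
      ≤ Real.exp (-t) * Real.exp t := mul_le_mul_of_nonneg_left h (Real.exp_pos _).le
  rw [← Real.exp_add, neg_add_cancel, Real.exp_zero] at h2
  linarith

lemma continuous_erl (n : ℕ) : Continuous (erl n) := by
  unfold erl
  fun_prop

lemma law_pair (n : ℕ) :
    muT.map (fun τ => (Tm n τ, τ n)) = (muT.map (Tm n)).prod (expMeasure 1) := by
  have hind : iIndepFun (fun (i : ℕ) (ω : ℕ → ℝ) => ω i) muT :=
    iIndepFun_infinitePi (P := fun _ : ℕ => expMeasure 1) (X := fun _ ω => ω)
      (fun _ => measurable_id)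
  have h1 : IndepFun (fun ω : ℕ → ℝ => ∑ i ∈ Finset.range n, ω i) (fun ω : ℕ → ℝ => ω n) muT := by
    have := hind.indepFun_finsetSum_of_notMem (s := Finset.range n) (i := n)
      (fun i => by fun_prop) (by simp)
    have e : (∑ j ∈ Finset.range n, fun ω : ℕ → ℝ => ω j)
        = fun ω : ℕ → ℝ => ∑ i ∈ Finset.range n, ω i := by
      funext ω
      rw [Finset.sum_apply]
    rwa [e] at this
  have h2 := (indepFun_iff_map_prod_eq_prod_map_map (measurable_Tm n).aemeasurable
    (measurable_pi_apply n).aemeasurable).1 h1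
  have h3 : muT.map (fun ω : ℕ → ℝ => ω n) = expMeasure 1 :=
    Measure.infinitePi_map_eval (fun _ : ℕ => expMeasure 1) n
  rw [h3] at h2
  exact h2

lemma step_law (n : ℕ) (t : ℝ) :
    muT {τ | Tm (n + 1) τ ≤ t} = ∫⁻ s, muT {τ | Tm n τ ≤ t - s} ∂(expMeasure 1) := by
  have hmeas : MeasurableSet {p : ℝ × ℝ | p.1 + p.2 ≤ t} :=
    measurableSet_le (by fun_prop) measurable_const
  have h1 : {τ : ℕ → ℝ | Tm (n + 1) τ ≤ t}
      = (fun τ => (Tm n τ, τ n)) ⁻¹' {p : ℝ × ℝ | p.1 + p.2 ≤ t} := by
    ext τ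
    simp [Tm, Finset.sum_range_succ]
  have hm2 : Measurable (fun τ : ℕ → ℝ => (Tm n τ, τ n)) :=
    (measurable_Tm n).prodMk (measurable_pi_apply n)
  rw [h1, ← Measure.map_apply hm2 hmeas, law_pair, Measure.prod_apply_symm hmeas]
  refine lintegral_congr fun s => ?_
  rw [Measure.map_apply (measurable_Tm n)]
  · congr 1
    ext τ
    simp [le_sub_iff_add_le]
  · exact measurable_prodMk_right hmeas

lemma expPDF_eq (s : ℝ) :
    exponentialPDF 1 s = ENNReal.ofReal (if 0 ≤ s then Real.exp (-s) else 0) := by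
  rw [exponentialPDF_eq]
  simp

lemma integral_step (n : ℕ) {t : ℝ} :
    ∫ s in (0 : ℝ)..t, Real.exp (-s) * erl n (t - s) = erl (n + 1) t := by
  set G : ℝ → ℝ := fun s => -Real.exp (-s) + Real.exp (-t) *
    ∑ i ∈ Finset.range n, (t - s) ^ (i + 1) / ((i + 1).factorial : ℝ) with hG
  have hderiv : ∀ s ∈ Set.uIcc 0 t, HasDerivAt G (Real.exp (-s) * erl n (t - s)) s := by
    intro s _
    have h1 : HasDerivAt (fun s : ℝ => -Real.exp (-s)) (Real.exp (-s)) s := by
      have := ((hasDerivAt_neg s).exp).neg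
      convert! this using 1
      ring
    have h2 : ∀ i ∈ Finset.range n,
        HasDerivAt (fun s : ℝ => (t - s) ^ (i + 1) / ((i + 1).factorial : ℝ))
          (-((t - s) ^ i / (i.factorial : ℝ))) s := by
      intro i _
      have h3 : HasDerivAt (fun s : ℝ => t - s) (-1) s := by
        simpa using (hasDerivAt_id s).const_sub t
      have h4 := (h3.pow (i + 1)).div_const ((i + 1).factorial : ℝ)
      convert! h4 using 1
      rw [Nat.factorial_succ]
      push_cast
      have : (i.factorial : ℝ) ≠ 0 := by positivity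
      have : ((i : ℝ) + 1) ≠ 0 := by positivity
      field_simp
    have h3 := (HasDerivAt.fun_sum h2).const_mul (Real.exp (-t))
    have h4 := h1.add h3
    convert! h4 using 1
    unfold erl
    rw [Finset.sum_neg_distrib]
    have e : Real.exp (-s) * Real.exp (-(t - s)) = Real.exp (-t) := by
      rw [← Real.exp_add]
      congr 1
      ring
    rw [mul_sub, mul_one, ← mul_assoc, e]
    ring
  have hcont : Continuous (fun s : ℝ => Real.exp (-s) * erl n (t - s)) := by
    have := continuous_erl n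
    fun_prop
  rw [intervalIntegral.integral_eq_sub_of_hasDerivAt hderiv (hcont.intervalIntegrable 0 t)]
  rw [hG]
  unfold erl
  rw [Finset.sum_range_succ']
  simp
  ring

theorem Tm_cdf (n : ℕ) (t : ℝ) :
    muT {τ | Tm n τ ≤ t} = if 0 ≤ t then ENNReal.ofReal (erl n t) else 0 := by
  induction n generalizing t with
  | zero =>
    by_cases ht : 0 ≤ t
    · rw [if_pos ht]
      have : {τ : ℕ → ℝ | Tm 0 τ ≤ t} = Set.univ := by
        ext τ
        simp [Tm, ht]
      rw [this, measure_univ]
      simp [erl]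
    · rw [if_neg ht]
      have : {τ : ℕ → ℝ | Tm 0 τ ≤ t} = ∅ := by
        ext τ
        simp [Tm]
        exact lt_of_not_ge ht
      rw [this, measure_empty]
  | succ n ih =>
    rw [step_law]
    have hexp : (expMeasure 1) = volume.withDensity (exponentialPDF 1) := rfl
    have hpdf : Measurable (exponentialPDF 1) := by
      unfold exponentialPDF
      exact (measurable_exponentialPDFReal 1).ennreal_ofReal
    have hfun : Measurable (fun s : ℝ => if 0 ≤ t - s then ENNReal.ofReal (erl n (t - s)) else 0) := by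
      apply Measurable.ite
      · exact measurableSet_le measurable_const (by fun_prop)
      · exact (((continuous_erl n).measurable).comp (by fun_prop)).ennreal_ofReal
      · exact measurable_const
    have h1 : ∫⁻ s, muT {τ | Tm n τ ≤ t - s} ∂(expMeasure 1)
        = ∫⁻ s, exponentialPDF 1 s *
          (if 0 ≤ t - s then ENNReal.ofReal (erl n (t - s)) else 0) := by
      simp_rw [ih]
      rw [hexp, lintegral_withDensity_eq_lintegral_mul _ hpdf hfun]
      rfl
    rw [h1]
    have h2 : ∀ s : ℝ, exponentialPDF 1 s *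
        (if 0 ≤ t - s then ENNReal.ofReal (erl n (t - s)) else 0)
        = (Set.Icc 0 t).indicator (fun s => ENNReal.ofReal (Real.exp (-s) * erl n (t - s))) s := by
      intro s
      rw [expPDF_eq]
      by_cases hs : s ∈ Set.Icc 0 t
      · rw [Set.indicator_of_mem hs, if_pos hs.1, if_pos (by linarith [hs.2]),
          ← ENNReal.ofReal_mul (Real.exp_pos _).le]
      · rw [Set.indicator_of_notMem hs]
        rw [Set.mem_Icc, not_and_or] at hs
        rcases hs with hs | hs
        · rw [if_neg hs]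
          simp
        · rw [if_neg (by linarith : ¬ 0 ≤ t - s), mul_zero]
    simp_rw [h2]
    rw [lintegral_indicator measurableSet_Icc]
    by_cases ht : 0 ≤ t
    · rw [if_pos ht, ← integral_step n, intervalIntegral.integral_of_le ht,
        ← integral_Icc_eq_integral_Ioc]
      have hcont : Continuous (fun s : ℝ => Real.exp (-s) * erl n (t - s)) := by
        have := continuous_erl n
        fun_prop
      rw [ofReal_integral_eq_lintegral_ofReal]
      · exact hcont.continuousOn.integrableOn_Icc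
      · rw [Filter.EventuallyLE, ae_restrict_iff' measurableSet_Icc]
        filter_upwards with s hs
        exact mul_nonneg (Real.exp_pos _).le (erl_nonneg n (by linarith [hs.2]))
    · rw [if_neg ht, Set.Icc_eq_empty ht]
      simp

lemma ae_pos : ∀ᵐ τ ∂muT, ∀ i, 0 < τ i := by
  rw [ae_all_iff]
  intro i
  have h3 : muT.map (fun ω : ℕ → ℝ => ω i) = expMeasure 1 :=
    Measure.infinitePi_map_eval (fun _ : ℕ => expMeasure 1) i
  have h4 : ∀ᵐ x ∂(expMeasure 1), 0 < x := by
    rw [ae_iff]
    have : {a : ℝ | ¬ 0 < a} = Set.Iic 0 := by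
      ext a
      simp
    rw [this, ← ofReal_cdf, cdf_expMeasure_eq one_pos]
    simp
  rw [← h3] at h4
  exact ae_of_ae_map (measurable_pi_apply i).aemeasurable h4

lemma tendsto_erl (t : ℝ) : Tendsto (fun n => erl n t) atTop (𝓝 0) := by
  have h1 : HasSum (fun i : ℕ => t ^ i / (i.factorial : ℝ)) (Real.exp t) := by
    have := NormedSpace.expSeries_div_hasSum_exp t
    rwa [← Real.exp_eq_exp_ℝ] at this
  have h2 := h1.tendsto_sum_nat
  have h3 := (h2.const_mul (Real.exp (-t))).const_sub 1
  have e : 1 - Real.exp (-t) * Real.exp t = 0 := by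
    rw [← Real.exp_add, neg_add_cancel, Real.exp_zero, sub_self]
  rw [e] at h3
  exact h3

lemma ae_exists_gt (t : ℝ) : ∀ᵐ τ ∂muT, ∃ n, t < Tm n τ := by
  rw [ae_iff]
  have h0 : muT {a : ℕ → ℝ | ¬ ∃ n, t < Tm n a} ≤ 0 := by
    have hle : ∀ n, muT {a : ℕ → ℝ | ¬ ∃ n, t < Tm n a} ≤ ENNReal.ofReal (erl n t) := by
      intro n
      have h1 : muT {a : ℕ → ℝ | ¬ ∃ n, t < Tm n a} ≤ muT {τ | Tm n τ ≤ t} := by
        apply measure_mono
        intro τ hτ
        have h2 : ¬ ∃ n, t < Tm n τ := hτ
        push Not at h2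
        exact h2 n
      refine h1.trans ?_
      rw [Tm_cdf]
      split_ifs
      · exact le_rfl
      · exact bot_le
    have h2 : Tendsto (fun n => ENNReal.ofReal (erl n t)) atTop (𝓝 0) := by
      have := ENNReal.tendsto_ofReal (tendsto_erl t)
      rwa [ENNReal.ofReal_zero] at this
    exact ge_of_tendsto' h2 hle
  exact le_antisymm h0 bot_le

/-- Event of having exactly `j` jumps by time `t`. -/
def Aj (t : ℝ) (j : ℕ) : Set (ℕ → ℝ) := {τ | Tm j τ ≤ t ∧ t < Tm (j + 1) τ}

lemma measurableSet_Aj (t : ℝ) (j : ℕ) : MeasurableSet (Aj t j) :=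
  (measurableSet_Tm_le j t).inter (measurableSet_lt measurable_const (measurable_Tm (j + 1)))

lemma muT_Aj {t : ℝ} (ht : 0 ≤ t) (j : ℕ) :
    muT (Aj t j) = ENNReal.ofReal (Real.exp (-t) * (t ^ j / (j.factorial : ℝ))) := by
  have h1 : Aj t j = {τ | Tm j τ ≤ t} \ {τ | Tm (j + 1) τ ≤ t} := by
    ext τ
    simp [Aj]
  have h2 := measure_sdiff_add_inter (μ := muT) {τ | Tm j τ ≤ t} (measurableSet_Tm_le (j + 1) t)
  have h3 : muT ({τ | Tm j τ ≤ t} ∩ {τ | Tm (j + 1) τ ≤ t}) = muT {τ | Tm (j + 1) τ ≤ t} := by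
    apply measure_congr
    filter_upwards [ae_pos] with τ hτ
    apply propext
    show (Tm j τ ≤ t ∧ Tm (j + 1) τ ≤ t) ↔ Tm (j + 1) τ ≤ t
    constructor
    · exact fun h => h.2
    · intro h
      refine ⟨?_, h⟩
      have : Tm (j + 1) τ = Tm j τ + τ j := by
        unfold Tm
        rw [Finset.sum_range_succ]
      linarith [hτ j]
  rw [h3, Tm_cdf, Tm_cdf, if_pos ht, if_pos ht, ← h1] at h2
  have h4 : erl j t = erl (j + 1) t + Real.exp (-t) * (t ^ j / (j.factorial : ℝ)) := by
    unfold erl
    rw [Finset.sum_range_succ]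
    ring
  have h5 : 0 ≤ Real.exp (-t) * (t ^ j / (j.factorial : ℝ)) := by positivity
  rw [h4, ENNReal.ofReal_add (erl_nonneg _ ht) h5, add_comm] at h2
  exact (ENNReal.add_right_inj ENNReal.ofReal_ne_top).1 h2

end Pool.Agent.Helper92.Diamond
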