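import Pool.Agent.Helper92_Diamond.Hole
import Pool.Agent.Helper92_Diamond.Comb
import Pool.Agent.Helper92_Diamond.Box

set_option autoImplicit false

open Finset

namespace Pool.Agent.Helper92.Diamond

/-- Longest even run (as a `dW`). -/
noncomputable def mE (U : Finset ℤ) : ℕ := (ev U).sup (dW U)

/-- Longest odd run (as a `dW`). -/
noncomputable def mO (U : Finset ℤ) : ℕ := (od U).sup (dW U)

lemma dW_le_mE (U : Finset ℤ) (u : ℤ) (hu : u % 2 = 0) : dW U u ≤ mE U := by
  by_cases h : u ∈ U
  · exact Finset.le_sup (f := dW U) (Finset.mem_filter.2 ⟨h, hu⟩)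
  · rw [dW_eq_zero h]
    exact Nat.zero_le _

lemma dW_le_mO (U : Finset ℤ) (u : ℤ) (hu : ¬ u % 2 = 0) : dW U u ≤ mO U := by
  by_cases h : u ∈ U
  · exact Finset.le_sup (f := dW U) (Finset.mem_filter.2 ⟨h, hu⟩)
  · rw [dW_eq_zero h]
    exact Nat.zero_le _

lemma two_mE_le (U : Finset ℤ) : 2 * mE U ≤ (ev U).card + 1 := by
  rcases (ev U).eq_empty_or_nonempty with h | h
  · unfold mE
    rw [h]
    simp
  · obtain ⟨u, hu, hu2⟩ := Finset.exists_mem_eq_sup (ev U) h (dW U)
    unfold mE
    rw [hu2]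
    exact dW_le_ev U u (Finset.mem_filter.1 hu).2

lemma two_mO_le (U : Finset ℤ) : 2 * mO U ≤ (od U).card + 1 := by
  rcases (od U).eq_empty_or_nonempty with h | h
  · unfold mO
    rw [h]
    simp
  · obtain ⟨u, hu, hu2⟩ := Finset.exists_mem_eq_sup (od U) h (dW U)
    unfold mO
    rw [hu2]
    exact dW_le_od U u (Finset.mem_filter.1 hu).2

lemma card_ev_add_od (U : Finset ℤ) : (ev U).card + (od U).card = U.card := by
  unfold ev od
  exact Finset.card_filter_add_card_filter_not (s := U) (p := fun z => z % 2 = 0)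

/-- Neighbouring positions of a set. -/
noncomputable def shadow (E : Finset ℤ) : Finset ℤ :=
  E.image (fun z => z + 1) ∪ E.image (fun z => z - 1)

lemma mem_shadow {E : Finset ℤ} {c : ℤ} : c ∈ shadow E ↔ c - 1 ∈ E ∨ c + 1 ∈ E := by
  unfold shadow
  rw [Finset.mem_union, Finset.mem_image, Finset.mem_image]
  constructor
  · rintro (⟨z, hz, rfl⟩ | ⟨z, hz, rfl⟩)
    · left; simpa using hz
    · right; simpa using hz
  · rintro (h | h)
    · left; exact ⟨c - 1, h, by ring⟩
    · right; exact ⟨c + 1, h, by ring⟩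

lemma card_shadow_le (E : Finset ℤ) : (shadow E).card ≤ 2 * E.card := by
  unfold shadow
  have h1 := Finset.card_union_le (E.image (fun z => z + 1)) (E.image (fun z => z - 1))
  have h2 := Finset.card_image_le (s := E) (f := fun z : ℤ => z + 1)
  have h3 := Finset.card_image_le (s := E) (f := fun z : ℤ => z - 1)
  omega

/-- Shadow of a set containing a long run. -/
lemma card_shadow_run (E : Finset ℤ) (u : ℤ) (d : ℕ) (hd : 1 ≤ d)
    (hrun : ∀ i : ℤ, |i| < d → u + 2 * i ∈ E) :
    (shadow E).card + 2 * d ≤ 2 * E.card + 2 := by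
  classical
  set run := (Finset.Ioo (-(d : ℤ)) (d : ℤ)).image (fun i : ℤ => u + 2 * i) with hrundef
  have hinj : Function.Injective (fun i : ℤ => u + 2 * i) := by
    intro a b hab
    simpa using hab
  have hcard : run.card = 2 * d - 1 := by
    rw [hrundef, Finset.card_image_of_injective _ hinj, Int.card_Ioo]
    omega
  have hsub : run ⊆ E := by
    intro z hz
    rw [hrundef, Finset.mem_image] at hz
    obtain ⟨i, hi, rfl⟩ := hz
    rw [Finset.mem_Ioo] at hi
    exact hrun i (abs_lt.2 hi)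
  have hsh : shadow E ⊆ ((Finset.Ico (-(d : ℤ)) (d : ℤ)).image (fun i : ℤ => u + 2 * i + 1)) ∪
      shadow (E \ run) := by
    intro c hc
    rw [mem_shadow] at hc
    rw [Finset.mem_union, mem_shadow, Finset.mem_image]
    by_cases h1 : c - 1 ∈ run
    · left
      rw [hrundef, Finset.mem_image] at h1
      obtain ⟨i, hi, h2⟩ := h1
      rw [Finset.mem_Ioo] at hi
      exact ⟨i, Finset.mem_Ico.2 (by omega), by omega⟩
    by_cases h2 : c + 1 ∈ run
    · left
      rw [hrundef, Finset.mem_image] at h2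
      obtain ⟨i, hi, h2⟩ := h2
      rw [Finset.mem_Ioo] at hi
      exact ⟨i - 1, Finset.mem_Ico.2 (by omega), by omega⟩
    · right
      rcases hc with h | h
      · exact Or.inl (Finset.mem_sdiff.2 ⟨h, h1⟩)
      · exact Or.inr (Finset.mem_sdiff.2 ⟨h, h2⟩)
  have h1 := Finset.card_le_card hsh
  have h2 := Finset.card_union_le
    ((Finset.Ico (-(d : ℤ)) (d : ℤ)).image (fun i : ℤ => u + 2 * i + 1)) (shadow (E \ run))
  have h3 := Finset.card_image_le (s := Finset.Ico (-(d : ℤ)) (d : ℤ))
    (f := fun i : ℤ => u + 2 * i + 1)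
  rw [Int.card_Ico] at h3
  have h4 := card_shadow_le (E \ run)
  have h5 := Finset.card_sdiff_add_card_eq_card hsub
  omega

lemma card_shadow_ev (U : Finset ℤ) : (shadow (ev U)).card + 2 * mE U ≤ 2 * (ev U).card + 2 := by
  rcases (ev U).eq_empty_or_nonempty with h | h
  · unfold mE
    rw [h]
    simp [shadow]
  · obtain ⟨u, hu, hu2⟩ := Finset.exists_mem_eq_sup (ev U) h (dW U)
    have hu' := Finset.mem_filter.1 hu
    unfold mE
    rw [hu2]
    refine card_shadow_run (ev U) u (dW U u) (one_le_dW hu'.1) fun i hi => ?_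
    exact Finset.mem_filter.2 ⟨dW_mem_run hi, by omega⟩

lemma card_shadow_od (U : Finset ℤ) : (shadow (od U)).card + 2 * mO U ≤ 2 * (od U).card + 2 := by
  rcases (od U).eq_empty_or_nonempty with h | h
  · unfold mO
    rw [h]
    simp [shadow]
  · obtain ⟨u, hu, hu2⟩ := Finset.exists_mem_eq_sup (od U) h (dW U)
    have hu' := Finset.mem_filter.1 hu
    unfold mO
    rw [hu2]
    refine card_shadow_run (od U) u (dW U u) (one_le_dW hu'.1) fun i hi => ?_
    exact Finset.mem_filter.2 ⟨dW_mem_run hi, by omega⟩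

lemma Uset_subset (R : Finset W) : Uset R ⊆ R.image Prod.fst :=
  Finset.image_subset_image (Finset.filter_subset _ _)

lemma Vset_subset (R : Finset W) : Vset R ⊆ R.image Prod.snd :=
  Finset.image_subset_image (Finset.filter_subset _ _)

lemma image_subset_shadow (I U : Finset ℤ) :
    I ⊆ shadow (ev U) ∪ shadow (od U) ∪ I.filter (fun c => c - 1 ∉ U ∧ c + 1 ∉ U) := by
  intro c hc
  rw [Finset.mem_union, Finset.mem_union, mem_shadow, mem_shadow, Finset.mem_filter]
  unfold ev od
  simp only [Finset.mem_filter]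
  by_cases h1 : c - 1 ∈ U
  · by_cases h2 : (c - 1) % 2 = 0
    · exact Or.inl (Or.inl (Or.inl ⟨h1, h2⟩))
    · exact Or.inl (Or.inr (Or.inl ⟨h1, h2⟩))
  by_cases h2 : c + 1 ∈ U
  · by_cases h3 : (c + 1) % 2 = 0
    · exact Or.inl (Or.inl (Or.inr ⟨h2, h3⟩))
    · exact Or.inl (Or.inr (Or.inr ⟨h2, h3⟩))
  · exact Or.inr ⟨hc, h1, h2⟩

/-- The projection is not much bigger than `Uset`. -/
lemma card_image_fst_le (R : Finset W) :
    ((R.image Prod.fst) \ Uset R).card + (Vset R).card + 2 * mE (Uset R) + 2 * mO (Uset R)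
      ≤ (bd R).card + 4 := by
  classical
  have h1 := Finset.card_le_card (image_subset_shadow (R.image Prod.fst) (Uset R))
  have h2 := Finset.card_union_le (shadow (ev (Uset R)) ∪ shadow (od (Uset R)))
    ((R.image Prod.fst).filter (fun c => c - 1 ∉ Uset R ∧ c + 1 ∉ Uset R))
  have h3 := Finset.card_union_le (shadow (ev (Uset R))) (shadow (od (Uset R)))
  have h4 := card_shadow_ev (Uset R)
  have h5 := card_shadow_od (Uset R)
  have h6 := card_bd_ge_fst R
  have h7 := Finset.card_sdiff_add_card_eq_card (Uset_subset R)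
  have h8 := card_ev_add_od (Uset R)
  omega

lemma card_image_snd_le (R : Finset W) :
    ((R.image Prod.snd) \ Vset R).card + (Uset R).card + 2 * mE (Vset R) + 2 * mO (Vset R)
      ≤ (bd R).card + 4 := by
  classical
  have h1 := Finset.card_le_card (image_subset_shadow (R.image Prod.snd) (Vset R))
  have h2 := Finset.card_union_le (shadow (ev (Vset R)) ∪ shadow (od (Vset R)))
    ((R.image Prod.snd).filter (fun c => c - 1 ∉ Vset R ∧ c + 1 ∉ Vset R))
  have h3 := Finset.card_union_le (shadow (ev (Vset R))) (shadow (od (Vset R)))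
  have h4 := card_shadow_ev (Vset R)
  have h5 := card_shadow_od (Vset R)
  have h6 := card_bd_ge_snd R
  have h7 := Finset.card_sdiff_add_card_eq_card (Vset_subset R)
  have h8 := card_ev_add_od (Vset R)
  omega

lemma card_image_fst_le' (R : Finset W) : (R.image Prod.fst).card ≤ 2 * (bd R).card := by
  classical
  have h1 := Finset.card_le_card (image_subset_shadow (R.image Prod.fst) (Uset R))
  have h2 := Finset.card_union_le (shadow (ev (Uset R)) ∪ shadow (od (Uset R)))
    ((R.image Prod.fst).filter (fun c => c - 1 ∉ Uset R ∧ c + 1 ∉ Uset R))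
  have h3 := Finset.card_union_le (shadow (ev (Uset R))) (shadow (od (Uset R)))
  have h4 := card_shadow_le (ev (Uset R))
  have h5 := card_shadow_le (od (Uset R))
  have h6 := card_bd_ge_fst R
  have h8 := card_ev_add_od (Uset R)
  omega

lemma card_image_snd_le' (R : Finset W) : (R.image Prod.snd).card ≤ 2 * (bd R).card := by
  classical
  have h1 := Finset.card_le_card (image_subset_shadow (R.image Prod.snd) (Vset R))
  have h2 := Finset.card_union_le (shadow (ev (Vset R)) ∪ shadow (od (Vset R)))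
    ((R.image Prod.snd).filter (fun c => c - 1 ∉ Vset R ∧ c + 1 ∉ Vset R))
  have h3 := Finset.card_union_le (shadow (ev (Vset R))) (shadow (od (Vset R)))
  have h4 := card_shadow_le (ev (Vset R))
  have h5 := card_shadow_le (od (Vset R))
  have h6 := card_bd_ge_snd R
  have h8 := card_ev_add_od (Vset R)
  omega

/-- A range with small boundary is contained in a box. -/
lemma range_subset {R : Finset W} (hR : RangeProp 0 R) {K : ℕ} (hK : (bd R).card ≤ K) :
    R ⊆ Dm (2 * K) := by
  classical
  intro y hy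
  have hpar := hR.par y hy
  have hz1 : (0 : W).1 = 0 := rfl
  have hz2 : (0 : W).2 = 0 := rfl
  rw [hz1, hz2] at hpar
  have h1 : y.1.natAbs + 1 ≤ (R.image Prod.fst).card := by
    have hsub : (Finset.Icc (min 0 y.1) (max 0 y.1)) ⊆ R.image Prod.fst := by
      intro c hc
      rw [Finset.mem_Icc] at hc
      obtain ⟨z, hz, hzc⟩ := hR.fst y hy c (by rw [hz1]; omega)
      exact Finset.mem_image.2 ⟨z, hz, hzc⟩
    have := Finset.card_le_card hsub
    rw [Int.card_Icc] at this
    omega
  have h2 : y.2.natAbs + 1 ≤ (R.image Prod.snd).card := by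
    have hsub : (Finset.Icc (min 0 y.2) (max 0 y.2)) ⊆ R.image Prod.snd := by
      intro c hc
      rw [Finset.mem_Icc] at hc
      obtain ⟨z, hz, hzc⟩ := hR.snd y hy c (by rw [hz2]; omega)
      exact Finset.mem_image.2 ⟨z, hz, hzc⟩
    have := Finset.card_le_card hsub
    rw [Int.card_Icc] at this
    omega
  have h3 := card_image_fst_le' R
  have h4 := card_image_snd_le' R
  rw [mem_Dm]
  push_cast
  omega

/-- Goodness of the class sizes. -/
structure Good3 (η N : ℝ) (k : ℕ) (U V : Finset ℤ) : Prop where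
  hk : (k : ℝ) ≤ (U.card : ℝ) + V.card + η * N
  ue : ((ev U).card : ℝ) ≤ (1 + η) * N
  uo : ((od U).card : ℝ) ≤ (1 + η) * N
  ve : ((ev V).card : ℝ) ≤ (1 + η) * N
  vo : ((od V).card : ℝ) ≤ (1 + η) * N
  rue : (1 - η) * N ≤ 2 * (mE U : ℝ)
  ruo : (1 - η) * N ≤ 2 * (mO U : ℝ)
  rve : (1 - η) * N ≤ 2 * (mE V : ℝ)
  rvo : (1 - η) * N ≤ 2 * (mO V : ℝ)

lemma Good3.fst_le {η N : ℝ} {R : Finset W} (h : Good3 η N (bd R).card (Uset R) (Vset R)) :
    (((R.image Prod.fst) \ Uset R).card : ℝ) ≤ 5 * η * N + 4 := by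
  have h1 := card_image_fst_le R
  have h2 := card_ev_add_od (Uset R)
  have h1' : (((R.image Prod.fst) \ Uset R).card : ℝ) + (Vset R).card + 2 * mE (Uset R)
      + 2 * mO (Uset R) ≤ (bd R).card + 4 := by exact_mod_cast h1
  have h2' : ((ev (Uset R)).card : ℝ) + (od (Uset R)).card = (Uset R).card := by exact_mod_cast h2
  have := h.hk
  have := h.ue
  have := h.uo
  have := h.rue
  have := h.ruo
  linarith

lemma Good3.snd_le {η N : ℝ} {R : Finset W} (h : Good3 η N (bd R).card (Uset R) (Vset R)) :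
    (((R.image Prod.snd) \ Vset R).card : ℝ) ≤ 5 * η * N + 4 := by
  have h1 := card_image_snd_le R
  have h2 := card_ev_add_od (Vset R)
  have h1' : (((R.image Prod.snd) \ Vset R).card : ℝ) + (Uset R).card + 2 * mE (Vset R)
      + 2 * mO (Vset R) ≤ (bd R).card + 4 := by exact_mod_cast h1
  have h2' : ((ev (Vset R)).card : ℝ) + (od (Vset R)).card = (Vset R).card := by exact_mod_cast h2
  have := h.hk
  have := h.ve
  have := h.vo
  have := h.rve
  have := h.rvo
  linarith

end Pool.Agent.Helper92.Diamond
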