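import Pool.Agent.Helper92_Diamond.Walk

set_option autoImplicit false

open Finset

namespace Pool.Agent.Helper92.Diamond

/-- Probability that the `j`-step walk from `x` stays in `A`. -/
noncomputable def stay (A : Finset W) (j : ℕ) (x : W) : ℝ := Ex j x (fun R => ind (R ⊆ A))

/-- Probability that the `j`-step walk from `x` stays in `A` and visits all of `C`. -/
noncomputable def stc (A : Finset W) (j : ℕ) (x : W) (C : Finset W) : ℝ :=
  Ex j x (fun R => ind (R ⊆ A ∧ C ⊆ R))

/-- Probability that there is a time `≤ j` at which the walk from `x` is at `w`, has stayed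
in `A` and has visited all of `C`. -/
noncomputable def cov (A : Finset W) : ℕ → W → Finset W → W → ℝ
  | 0, x, C, w => ind (x ∈ A ∧ C ⊆ {x} ∧ x = w)
  | (j + 1), x, C, w => by
      classical
      exact if x ∈ A then
        (if C ⊆ {x} ∧ x = w then 1
          else (1 / 4) * ∑ i : Fin 4, cov A j (x + dir i) (C.erase x) w)
        else 0

lemma cov_zero (A : Finset W) (x : W) (C : Finset W) (w : W) :
    cov A 0 x C w = ind (x ∈ A ∧ C ⊆ {x} ∧ x = w) := rfl

lemma cov_of_not_mem {A : Finset W} {x : W} (hx : x ∉ A) (j : ℕ) (C : Finset W) (w : W) :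
    cov A j x C w = 0 := by
  cases j with
  | zero => exact ind_false (fun h => hx h.1)
  | succ j => simp [cov, hx]

lemma cov_stop {A : Finset W} {x : W} (hx : x ∈ A) (j : ℕ) {C : Finset W} (hC : C ⊆ {x}) :
    cov A j x C x = 1 := by
  cases j with
  | zero => exact ind_true ⟨hx, hC, rfl⟩
  | succ j => simp [cov, hx, hC]

lemma cov_step {A : Finset W} {x : W} (hx : x ∈ A) (j : ℕ) {C : Finset W} {w : W}
    (h : ¬ (C ⊆ {x} ∧ x = w)) :
    cov A (j + 1) x C w = (1 / 4) * ∑ i : Fin 4, cov A j (x + dir i) (C.erase x) w := by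
  simp only [cov, if_pos hx, if_neg h]

lemma cov_nonneg (A : Finset W) (j : ℕ) (x : W) (C : Finset W) (w : W) : 0 ≤ cov A j x C w := by
  induction j generalizing x C with
  | zero => exact ind_nonneg _
  | succ j ih =>
    by_cases hx : x ∈ A
    · by_cases h : C ⊆ {x} ∧ x = w
      · obtain ⟨h1, rfl⟩ := h
        rw [cov_stop hx _ h1]
        norm_num
      · rw [cov_step hx j h]
        exact mul_nonneg (by norm_num) (Finset.sum_nonneg fun i _ => ih _ _)
    · rw [cov_of_not_mem hx]

lemma quarter_sum_le_one {g : Fin 4 → ℝ} (h : ∀ i, g i ≤ 1) : (1 / 4) * ∑ i : Fin 4, g i ≤ 1 := by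
  have : ∑ i : Fin 4, g i ≤ ∑ _i : Fin 4, (1 : ℝ) := Finset.sum_le_sum fun i _ => h i
  simp at this
  linarith

lemma cov_le_one (A : Finset W) (j : ℕ) (x : W) (C : Finset W) (w : W) : cov A j x C w ≤ 1 := by
  induction j generalizing x C with
  | zero => exact ind_le_one _
  | succ j ih =>
    by_cases hx : x ∈ A
    · by_cases h : C ⊆ {x} ∧ x = w
      · obtain ⟨h1, rfl⟩ := h
        rw [cov_stop hx _ h1]
      · rw [cov_step hx j h]
        exact quarter_sum_le_one fun i => ih _ _
    · rw [cov_of_not_mem hx]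
      norm_num

/-- Monotonicity in the set to be covered and in the domain. -/
lemma cov_mono {A A' : Finset W} (hA : A ⊆ A') {C C' : Finset W} (hC : C' ⊆ C) (j : ℕ) (x w : W) :
    cov A j x C w ≤ cov A' j x C' w := by
  induction j generalizing x C C' with
  | zero =>
    rw [cov_zero, cov_zero]
    exact ind_mono fun h => ⟨hA h.1, hC.trans h.2.1, h.2.2⟩
  | succ j ih =>
    by_cases hx : x ∈ A
    · by_cases h' : C' ⊆ {x} ∧ x = w
      · obtain ⟨h1, rfl⟩ := h'
        rw [cov_stop (hA hx) _ h1]
        exact cov_le_one _ _ _ _ _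
      · have h : ¬ (C ⊆ {x} ∧ x = w) := fun h => h' ⟨hC.trans h.1, h.2⟩
        rw [cov_step hx j h, cov_step (hA hx) j h']
        refine mul_le_mul_of_nonneg_left (Finset.sum_le_sum fun i _ => ?_) (by norm_num)
        exact ih (Finset.erase_subset_erase x hC) _
    · rw [cov_of_not_mem hx]
      exact cov_nonneg _ _ _ _ _

/-- Composition of coverings. -/
lemma cov_comp (A : Finset W) (j₁ j₂ : ℕ) (x w₁ w₂ : W) (C₁ C₂ : Finset W) :
    cov A j₁ x C₁ w₁ * cov A j₂ w₁ C₂ w₂ ≤ cov A (j₁ + j₂) x (C₁ ∪ C₂) w₂ := by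
  classical
  have hstop : ∀ (j : ℕ) (x : W) (C₁ C₂ : Finset W), C₁ ⊆ {x} →
      cov A j x C₂ w₂ ≤ cov A j x (C₁ ∪ C₂) w₂ := by
    intro j x C₁ C₂ h1
    have herase : (C₁ ∪ C₂).erase x = C₂.erase x := by
      ext y
      simp only [Finset.mem_erase, Finset.mem_union]
      constructor
      · rintro ⟨h2, h3 | h3⟩
        · exact absurd (Finset.mem_singleton.1 (h1 h3)) h2
        · exact ⟨h2, h3⟩
      · rintro ⟨h2, h3⟩
        exact ⟨h2, Or.inr h3⟩
    have hiff : (C₁ ∪ C₂) ⊆ {x} ↔ C₂ ⊆ {x} := by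
      constructor
      · exact fun h => (Finset.subset_union_right).trans h
      · exact fun h => Finset.union_subset h1 h
    cases j with
    | zero =>
      rw [cov_zero, cov_zero]
      exact ind_mono fun h => ⟨h.1, hiff.2 h.2.1, h.2.2⟩
    | succ j =>
      by_cases hx : x ∈ A
      · by_cases h : C₂ ⊆ {x} ∧ x = w₂
        · obtain ⟨h2, rfl⟩ := h
          rw [cov_stop hx _ h2, cov_stop hx _ (hiff.2 h2)]
        · have h' : ¬ ((C₁ ∪ C₂) ⊆ {x} ∧ x = w₂) := fun h2 => h ⟨hiff.1 h2.1, h2.2⟩
          rw [cov_step hx j h, cov_step hx j h', herase]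
      · rw [cov_of_not_mem hx, cov_of_not_mem hx]
  induction j₁ generalizing x C₁ C₂ with
  | zero =>
    rw [zero_add, cov_zero]
    by_cases h : x ∈ A ∧ C₁ ⊆ {x} ∧ x = w₁
    · rw [ind_true h, one_mul]
      obtain ⟨_, h2, rfl⟩ := h
      exact hstop _ _ _ _ h2
    · rw [ind_false h, zero_mul]
      exact cov_nonneg _ _ _ _ _
  | succ j₁ ih =>
    by_cases hx : x ∈ A
    · by_cases h : C₁ ⊆ {x} ∧ x = w₁
      · obtain ⟨h1, rfl⟩ := h
        rw [cov_stop hx _ h1, one_mul]
        -- need monotonicity in time, proved below by a separate induction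
        have htime : ∀ (j k : ℕ) (x : W) (C : Finset W),
            cov A j x C w₂ ≤ cov A (k + j) x C w₂ := by
          intro j k
          induction j with
          | zero =>
            intro x C
            rw [cov_zero]
            by_cases h : x ∈ A ∧ C ⊆ {x} ∧ x = w₂
            · obtain ⟨h1, h2, rfl⟩ := h
              rw [cov_stop h1 _ h2]
              exact ind_le_one _
            · rw [ind_false h]
              exact cov_nonneg _ _ _ _ _
          | succ j ihj =>
            intro x C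
            by_cases hx : x ∈ A
            · by_cases h : C ⊆ {x} ∧ x = w₂
              · obtain ⟨h1, rfl⟩ := h
                rw [cov_stop hx _ h1, cov_stop hx _ h1]
              · rw [cov_step hx j h, ← add_assoc, cov_step hx _ h]
                exact mul_le_mul_of_nonneg_left
                  (Finset.sum_le_sum fun i _ => ihj _ _) (by norm_num)
            · rw [cov_of_not_mem hx, cov_of_not_mem hx]
        exact (htime j₂ (j₁ + 1) x C₂).trans (hstop _ _ _ _ h1)
      · rw [cov_step hx j₁ h]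
        have e : j₁ + 1 + j₂ = (j₁ + j₂) + 1 := by ring
        rw [e]
        by_cases h' : (C₁ ∪ C₂) ⊆ {x} ∧ x = w₂
        · obtain ⟨h1, rfl⟩ := h'
          rw [cov_stop hx _ h1]
          refine mul_le_one₀ (quarter_sum_le_one fun i => cov_le_one _ _ _ _ _)
            (cov_nonneg _ _ _ _ _) (cov_le_one _ _ _ _ _)
        · rw [cov_step hx _ h', mul_assoc, Finset.sum_mul]
          refine mul_le_mul_of_nonneg_left (Finset.sum_le_sum fun i _ => ?_) (by norm_num)
          refine (ih (x + dir i) (C₁.erase x) C₂).trans (cov_mono (Finset.Subset.refl A) ?_ _ _ _)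
          intro y hy
          rw [Finset.mem_erase, Finset.mem_union] at hy
          rw [Finset.mem_union, Finset.mem_erase]
          rcases hy.2 with h3 | h3
          · exact Or.inl ⟨hy.1, h3⟩
          · exact Or.inr h3
    · rw [cov_of_not_mem hx, zero_mul]
      exact cov_nonneg _ _ _ _ _

lemma cov_mono_time {A : Finset W} {j k : ℕ} (h : j ≤ k) (x : W) (C : Finset W) (w : W) :
    cov A j x C w ≤ cov A k x C w := by
  obtain ⟨d, rfl⟩ := Nat.exists_eq_add_of_le h
  by_cases hw : w ∈ A
  · have := cov_comp A j d x w w C ∅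
    rw [cov_stop hw _ (Finset.empty_subset _), mul_one, Finset.union_empty] at this
    exact this
  · -- if `w ∉ A` both sides vanish
    have h0 : ∀ (j : ℕ) (x : W) (C : Finset W), cov A j x C w = 0 := by
      intro j
      induction j with
      | zero =>
        intro x C
        rw [cov_zero]
        apply ind_false
        rintro ⟨h1, _, rfl⟩
        exact hw h1
      | succ j ih =>
        intro x C
        by_cases hx : x ∈ A
        · have h : ¬ (C ⊆ {x} ∧ x = w) := by
            rintro ⟨_, rfl⟩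
            exact hw hx
          rw [cov_step hx j h]
          simp [ih]
        · exact cov_of_not_mem hx _ _ _
    rw [h0, h0]

lemma stay_zero (A : Finset W) (x : W) : stay A 0 x = ind (x ∈ A) := by
  unfold stay
  rw [Ex_zero]
  exact ind_congr (by simp)

lemma stay_succ_mem {A : Finset W} {x : W} (hx : x ∈ A) (j : ℕ) :
    stay A (j + 1) x = (1 / 4) * ∑ i : Fin 4, stay A j (x + dir i) := by
  unfold stay
  rw [Ex_succ]
  congr 1
  refine Finset.sum_congr rfl fun i _ => ?_
  congr 1
  funext R
  exact ind_congr (by rw [Finset.insert_subset_iff]; simp [hx])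

lemma stay_not_mem {A : Finset W} {x : W} (hx : x ∉ A) (j : ℕ) : stay A j x = 0 := by
  unfold stay
  have : Ex j x (fun R => ind (R ⊆ A)) = Ex j x (fun _ => 0) :=
    Ex_congr_on fun R hR => ind_false fun h => hx (h hR.mem)
  rw [this, Ex_const]

lemma stay_nonneg (A : Finset W) (j : ℕ) (x : W) : 0 ≤ stay A j x :=
  Ex_nonneg fun _ => ind_nonneg _

lemma stay_le_one (A : Finset W) (j : ℕ) (x : W) : stay A j x ≤ 1 :=
  Ex_le_one_on fun _ _ => ind_le_one _

lemma stay_succ_le (A : Finset W) (j : ℕ) (x : W) : stay A (j + 1) x ≤ stay A j x := by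
  induction j generalizing x with
  | zero =>
    by_cases hx : x ∈ A
    · rw [stay_zero, ind_true hx]
      exact stay_le_one _ _ _
    · rw [stay_not_mem hx, stay_not_mem hx]
  | succ j ih =>
    by_cases hx : x ∈ A
    · rw [stay_succ_mem hx, stay_succ_mem hx]
      exact mul_le_mul_of_nonneg_left (Finset.sum_le_sum fun i _ => ih _) (by norm_num)
    · rw [stay_not_mem hx, stay_not_mem hx]

lemma stay_anti (A : Finset W) {j k : ℕ} (h : j ≤ k) (x : W) : stay A k x ≤ stay A j x := by
  obtain ⟨d, rfl⟩ := Nat.exists_eq_add_of_le h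
  induction d with
  | zero => exact le_rfl
  | succ d ih => exact (stay_succ_le A (j + d) x).trans (ih (by omega))

lemma stc_zero (A : Finset W) (x : W) (C : Finset W) :
    stc A 0 x C = ind (x ∈ A ∧ C ⊆ {x}) := by
  unfold stc
  rw [Ex_zero]
  exact ind_congr (by simp)

lemma stc_succ_mem {A : Finset W} {x : W} (hx : x ∈ A) (j : ℕ) (C : Finset W) :
    stc A (j + 1) x C = (1 / 4) * ∑ i : Fin 4, stc A j (x + dir i) (C.erase x) := by
  unfold stc
  rw [Ex_succ]
  congr 1
  refine Finset.sum_congr rfl fun i _ => ?_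
  congr 1
  funext R
  refine ind_congr ?_
  rw [Finset.insert_subset_iff]
  constructor
  · rintro ⟨⟨_, h2⟩, h3⟩
    refine ⟨h2, fun y hy => ?_⟩
    rw [Finset.mem_erase] at hy
    have := h3 hy.2
    rw [Finset.mem_insert] at this
    exact this.resolve_left hy.1
  · rintro ⟨h2, h3⟩
    refine ⟨⟨hx, h2⟩, fun y hy => ?_⟩
    rw [Finset.mem_insert]
    by_cases h : y = x
    · exact Or.inl h
    · exact Or.inr (h3 (Finset.mem_erase.2 ⟨h, hy⟩))

lemma stc_not_mem {A : Finset W} {x : W} (hx : x ∉ A) (j : ℕ) (C : Finset W) :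
    stc A j x C = 0 := by
  unfold stc
  have : Ex j x (fun R => ind (R ⊆ A ∧ C ⊆ R)) = Ex j x (fun _ => 0) :=
    Ex_congr_on fun R hR => ind_false fun h => hx (h.1 hR.mem)
  rw [this, Ex_const]

lemma stc_nonneg (A : Finset W) (j : ℕ) (x : W) (C : Finset W) : 0 ≤ stc A j x C :=
  Ex_nonneg fun _ => ind_nonneg _

lemma stc_le_one (A : Finset W) (j : ℕ) (x : W) (C : Finset W) : stc A j x C ≤ 1 :=
  Ex_le_one_on fun _ _ => ind_le_one _

/-- Union bound for covering. -/
lemma stc_ge (A : Finset W) (j : ℕ) (x : W) (C : Finset W) :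
    stay A j x - ∑ y ∈ C, stay (A.erase y) j x ≤ stc A j x C := by
  unfold stay stc
  rw [← Ex_sum, ← Ex_sub]
  refine Ex_mono fun R => ?_
  by_cases hRA : R ⊆ A
  · rw [ind_true hRA]
    by_cases hC : C ⊆ R
    · rw [ind_true ⟨hRA, hC⟩]
      have : 0 ≤ ∑ y ∈ C, ind (R ⊆ A.erase y) := Finset.sum_nonneg fun _ _ => ind_nonneg _
      linarith
    · rw [ind_false (fun h => hC h.2)]
      obtain ⟨y, hy, hyR⟩ := Finset.not_subset.1 hC
      have h1 : ind (R ⊆ A.erase y) ≤ ∑ y ∈ C, ind (R ⊆ A.erase y) :=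
        Finset.single_le_sum (f := fun y => ind (R ⊆ A.erase y)) (fun _ _ => ind_nonneg _) hy
      have h2 : R ⊆ A.erase y := fun z hz =>
        Finset.mem_erase.2 ⟨fun h => hyR (h ▸ hz), hRA hz⟩
      rw [ind_true h2] at h1
      linarith
  · rw [ind_false hRA]
    have : 0 ≤ ∑ y ∈ C, ind (R ⊆ A.erase y) := Finset.sum_nonneg fun _ _ => ind_nonneg _
    have := ind_nonneg (R ⊆ A ∧ C ⊆ R)
    linarith

/-- Hitting a point. -/
lemma hit_ge (A : Finset W) (j : ℕ) (x w : W) :
    stay A j x - stay (A.erase w) j x ≤ cov A j x ∅ w := by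
  induction j generalizing x with
  | zero =>
    rw [stay_zero, stay_zero, cov_zero]
    by_cases hx : x ∈ A
    · by_cases hw : x = w
      · have h0 : ind (x ∈ A ∧ (∅ : Finset W) ⊆ {x} ∧ x = w) = 1 :=
          ind_true ⟨hx, Finset.empty_subset _, hw⟩
        have h1 := ind_nonneg (x ∈ A.erase w)
        have h2 := ind_le_one (x ∈ A)
        rw [h0]
        linarith
      · have h0 : ind (x ∈ A.erase w) = 1 := ind_true (Finset.mem_erase.2 ⟨hw, hx⟩)
        have h1 : ind (x ∈ A) = 1 := ind_true hx
        have h2 := ind_nonneg (x ∈ A ∧ (∅ : Finset W) ⊆ {x} ∧ x = w)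
        rw [h0, h1]
        linarith
    · rw [ind_false hx]
      have := ind_nonneg (x ∈ A.erase w)
      have := ind_nonneg (x ∈ A ∧ (∅ : Finset W) ⊆ {x} ∧ x = w)
      linarith
  | succ j ih =>
    by_cases hx : x ∈ A
    · by_cases hw : x = w
      · subst hw
        rw [cov_stop hx _ (Finset.empty_subset _)]
        have := stay_le_one A (j + 1) x
        have := stay_nonneg (A.erase x) (j + 1) x
        linarith
      · rw [cov_step hx j (fun h => hw h.2), stay_succ_mem hx,
          stay_succ_mem (Finset.mem_erase.2 ⟨hw, hx⟩), ← mul_sub, ← Finset.sum_sub_distrib]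
        refine mul_le_mul_of_nonneg_left (Finset.sum_le_sum fun i _ => ?_) (by norm_num)
        have := ih (x + dir i)
        simpa using this
    · rw [stay_not_mem hx]
      have := stay_nonneg (A.erase w) (j + 1) x
      have := cov_nonneg A (j + 1) x ∅ w
      linarith

/-- Cover first, then hit `w`. -/
lemma cov_ge_stc_mul {A : Finset W} {T' : ℕ} {w : W} {q : ℝ} (hq0 : 0 ≤ q) (hq1 : q ≤ 1)
    (hq : ∀ x ∈ A, q ≤ cov A T' x ∅ w) (T : ℕ) (x : W) (C : Finset W) :
    stc A T x C * q ≤ cov A (T + T') x C w := by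
  classical
  induction T generalizing x C with
  | zero =>
    rw [stc_zero, zero_add]
    by_cases h : x ∈ A ∧ C ⊆ {x}
    · rw [ind_true h, one_mul]
      have h1 := hq x h.1
      have h2 := cov_comp A 0 T' x x w C ∅
      rw [cov_stop h.1 _ h.2, one_mul, Finset.union_empty, zero_add] at h2
      exact h1.trans h2
    · rw [ind_false h, zero_mul]
      exact cov_nonneg _ _ _ _ _
  | succ T ih =>
    by_cases hx : x ∈ A
    · have e : T + 1 + T' = (T + T') + 1 := by ring
      rw [e]
      by_cases h : C ⊆ {x} ∧ x = w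
      · obtain ⟨h1, rfl⟩ := h
        rw [cov_stop hx _ h1]
        exact mul_le_one₀ (stc_le_one _ _ _ _) hq0 hq1
      · rw [cov_step hx _ h, stc_succ_mem hx, mul_assoc, Finset.sum_mul]
        exact mul_le_mul_of_nonneg_left (Finset.sum_le_sum fun i _ => ih _ _) (by norm_num)
    · rw [stc_not_mem hx, zero_mul]
      exact cov_nonneg _ _ _ _ _

/-- After covering, stay. -/
lemma stc_ge_cov_mul (A : Finset W) (w : W) (T j : ℕ) (x : W) (C : Finset W) :
    cov A T x C w * stay A (T + j) w ≤ stc A (T + j) x C := by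
  classical
  have hstay : ∀ (n : ℕ) (x : W) (C : Finset W), C ⊆ {x} → stay A n x = stc A n x C := by
    intro n x C hC
    unfold stay stc
    refine Ex_congr_on fun R hR => ind_congr ?_
    constructor
    · exact fun h => ⟨h, hC.trans (Finset.singleton_subset_iff.2 hR.mem)⟩
    · exact fun h => h.1
  induction T generalizing x C with
  | zero =>
    rw [zero_add, cov_zero]
    by_cases h : x ∈ A ∧ C ⊆ {x} ∧ x = w
    · obtain ⟨h1, h2, rfl⟩ := h
      rw [ind_true ⟨h1, h2, rfl⟩, one_mul, hstay j x C h2]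
    · rw [ind_false h, zero_mul]
      exact stc_nonneg _ _ _ _
  | succ T ih =>
    by_cases hx : x ∈ A
    · by_cases h : C ⊆ {x} ∧ x = w
      · obtain ⟨h1, rfl⟩ := h
        rw [cov_stop hx _ h1, one_mul, hstay _ x C h1]
      · have e : T + 1 + j = (T + j) + 1 := by ring
        rw [cov_step hx _ h, e, stc_succ_mem hx, mul_assoc, Finset.sum_mul]
        refine mul_le_mul_of_nonneg_left (Finset.sum_le_sum fun i _ => ?_) (by norm_num)
        refine le_trans ?_ (ih (x + dir i) (C.erase x))
        exact mul_le_mul_of_nonneg_left (stay_succ_le A (T + j) w) (cov_nonneg _ _ _ _ _)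
    · rw [cov_of_not_mem hx, zero_mul]
      exact stc_nonneg _ _ _ _

end Pool.Agent.Helper92.Diamond
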