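import Pool.Agent.Helper92_Diamond.Local

set_option autoImplicit false

open Finset Real

namespace Pool.Agent.Helper92.Diamond

lemma poly_le_exp (c : ℝ) (hc : 0 < c) (A : ℝ) (k : ℕ) :
    ∃ r0 : ℝ, 1 ≤ r0 ∧ ∀ r : ℝ, r0 ≤ r → A * r ^ k ≤ exp (c * r) := by
  refine ⟨max 1 (A * (k + 1).factorial / c ^ (k + 1)), le_max_left _ _, fun r hr => ?_⟩
  have h1 : 1 ≤ r := (le_max_left _ _).trans hr
  have h2 : A * (k + 1).factorial / c ^ (k + 1) ≤ r := (le_max_right _ _).trans hr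
  have h3 := pow_div_factorial_le_exp (c * r) (by positivity) (k + 1)
  refine le_trans ?_ h3
  rw [le_div_iff₀ (by positivity)]
  rw [div_le_iff₀ (by positivity)] at h2
  have h4 : 0 ≤ r ^ k := by positivity
  calc A * r ^ k * ((k + 1).factorial : ℝ) = (A * (k + 1).factorial) * r ^ k := by ring
    _ ≤ (r * c ^ (k + 1)) * r ^ k := mul_le_mul_of_nonneg_right h2 h4
    _ = (c * r) ^ (k + 1) := by ring

lemma one_sub_ge_exp {x : ℝ} (h0 : 0 ≤ x) (h1 : x ≤ 1 / 2) : exp (-(2 * x)) ≤ 1 - x := by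
  rw [exp_neg, inv_le_comm₀ (exp_pos _) (by linarith)]
  have h2 := add_one_le_exp (2 * x)
  refine le_trans ?_ h2
  rw [inv_le_comm₀ (by linarith) (by linarith), ← one_div, div_le_iff₀ (by linarith)]
  nlinarith

theorem local_cover : ∃ (m₀ : ℕ) (K : ℝ), 1 ≤ m₀ ∧ 1 ≤ K ∧ ∀ m : ℕ, m₀ ≤ m → ∀ r : ℝ, 0 ≤ r →
    r ^ 4 = m → ∃ T : ℕ, (T : ℝ) ≤ K * r ^ 11 ∧ ∀ x ∈ Dm m, ∀ w ∈ Cm m,
      exp (-(K * r ^ 3)) ≤ cov (Dm m) T x (Cm m) w := by
  have hc0 : 0 < cgap / 32 := by unfold cgap; norm_num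
  obtain ⟨r1, hr1, H1⟩ := poly_le_exp (cgap / 32) hc0 216 20
  obtain ⟨r2, hr2, H2⟩ := poly_le_exp 1 one_pos 64 16
  refine ⟨10 ^ 20 + ⌈r1 ^ 4⌉₊ + ⌈r2 ^ 4⌉₊, 21, ?_, by norm_num, ?_⟩
  · have : 1 ≤ 10 ^ 20 := by norm_num
    omega
  intro m hm r hr0 hrm
  have hm20 : 10 ^ 20 ≤ m := by omega
  have hle1 : r1 ≤ r := by
    have h1 : r1 ^ 4 ≤ r ^ 4 := by
      rw [hrm]
      refine (Nat.le_ceil _).trans ?_
      have : ⌈r1 ^ 4⌉₊ ≤ m := by omega
      exact_mod_cast this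
    exact le_of_pow_le_pow_left₀ (by norm_num) hr0 h1
  have hle2 : r2 ≤ r := by
    have h1 : r2 ^ 4 ≤ r ^ 4 := by
      rw [hrm]
      refine (Nat.le_ceil _).trans ?_
      have : ⌈r2 ^ 4⌉₊ ≤ m := by omega
      exact_mod_cast this
    exact le_of_pow_le_pow_left₀ (by norm_num) hr0 h1
  have hr1' : 1 ≤ r := hr1.trans hle1
  have hrpos : 0 < r := by linarith
  have P1 := H1 r hle1
  have P2 := H2 r hle2
  have hsqrt : Real.sqrt m = r ^ 2 := by
    rw [← hrm, show r ^ 4 = (r ^ 2) ^ 2 by ring, Real.sqrt_sq (by positivity)]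
  have hr4 : 1 ≤ r ^ 4 := one_le_pow₀ hr1'
  have hmr1 : (2 * (m : ℝ) + 1) ≤ 3 * r ^ 4 := by rw [← hrm]; linarith
  have hmr2 : ((m : ℝ) + 1) ≤ 2 * r ^ 4 := by rw [← hrm]; linarith
  have hmpos : (0 : ℝ) < m := by rw [← hrm]; positivity
  set T := ⌈r ^ 11⌉₊ with hT
  have hT1 : r ^ 11 ≤ T := Nat.le_ceil _
  have hr11 : 1 ≤ r ^ 11 := one_le_pow₀ hr1'
  have hT2 : (T : ℝ) ≤ 2 * r ^ 11 := by
    have := Nat.ceil_lt_add_one (show 0 ≤ r ^ 11 by positivity)
    linarith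
  have hρ0 := rho_nonneg m
  have hρ1 := rho_le_one m
  set q := rho m ^ T * (1 / (2 * ((m : ℝ) + 1) ^ 2)) with hq
  have hq0 : 0 ≤ q := by positivity
  have hq1 : q ≤ 1 := by
    refine mul_le_one₀ (pow_le_one₀ hρ0 hρ1) (by positivity) ?_
    rw [div_le_one (by positivity)]
    nlinarith
  -- bound for the sum over missed points
  have hmiss : ∀ x ∈ Dm m, ∑ y ∈ Cm m, stay ((Dm m).erase y) T x ≤ q := by
    intro x _
    have h1 : ∀ y ∈ Cm m, stay ((Dm m).erase y) T x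
        ≤ rho m ^ T * exp (-(cgap / 32 * r)) * (2 * m + 1) := by
      intro y hy
      refine (stay_erase_le hm20 hy T x).trans ?_
      rw [mul_pow, ← exp_nat_mul, hsqrt]
      refine mul_le_mul_of_nonneg_right ?_ (by positivity)
      refine mul_le_mul_of_nonneg_left ?_ (by positivity)
      apply exp_le_exp.2
      rw [← hrm]
      have e : (T : ℝ) * -(cgap / (32 * ((r ^ 4) ^ 2 * r ^ 2))) = -(cgap / 32 * (T / r ^ 10)) := by
        field_simp
      rw [e, neg_le_neg_iff]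
      refine mul_le_mul_of_nonneg_left ?_ hc0.le
      rw [le_div_iff₀ (by positivity)]
      calc r * r ^ 10 = r ^ 11 := by ring
        _ ≤ (T : ℝ) := hT1
    refine (Finset.sum_le_sum h1).trans ?_
    rw [Finset.sum_const, nsmul_eq_mul]
    have hcard : ((Cm m).card : ℝ) ≤ (2 * m + 1) ^ 2 := by
      have : (Cm m).card ≤ (2 * m + 1) ^ 2 :=
        (Finset.card_le_card (Cm_subset m)).trans (card_Dm_le m)
      exact_mod_cast this
    have h2 : ((Cm m).card : ℝ) * (rho m ^ T * exp (-(cgap / 32 * r)) * (2 * m + 1))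
        ≤ (2 * m + 1) ^ 2 * (rho m ^ T * exp (-(cgap / 32 * r)) * (2 * m + 1)) :=
      mul_le_mul_of_nonneg_right hcard (by positivity)
    refine h2.trans ?_
    have e : (2 * (m : ℝ) + 1) ^ 2 * (rho m ^ T * exp (-(cgap / 32 * r)) * (2 * m + 1))
        = rho m ^ T * (exp (-(cgap / 32 * r)) * (2 * m + 1) ^ 3) := by ring
    rw [e, hq]
    refine mul_le_mul_of_nonneg_left ?_ (by positivity)
    rw [exp_neg, inv_mul_eq_div, div_le_div_iff₀ (exp_pos _) (by positivity), one_mul]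
    refine le_trans ?_ P1
    have h3 : (2 * (m : ℝ) + 1) ^ 3 ≤ (3 * r ^ 4) ^ 3 := pow_le_pow_left₀ (by positivity) hmr1 3
    have h4 : ((m : ℝ) + 1) ^ 2 ≤ (2 * r ^ 4) ^ 2 := pow_le_pow_left₀ (by positivity) hmr2 2
    calc (2 * (m : ℝ) + 1) ^ 3 * (2 * ((m : ℝ) + 1) ^ 2)
        ≤ (3 * r ^ 4) ^ 3 * (2 * (2 * r ^ 4) ^ 2) := by
          apply mul_le_mul h3 _ (by positivity) (by positivity)
          linarith
      _ = 216 * r ^ 20 := by ring
  have hstay : ∀ x ∈ Dm m, 2 * q ≤ stay (Dm m) T x := by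
    intro x hx
    refine le_trans (le_of_eq ?_) (stay_ge m T hx)
    rw [hq]
    field_simp
  have hhit : ∀ w ∈ Cm m, ∀ x ∈ Dm m, q ≤ cov (Dm m) T x ∅ w := by
    intro w hw x hx
    have h1 := hit_ge (Dm m) T x w
    have h2 := hmiss x hx
    have h3 : stay ((Dm m).erase w) T x ≤ ∑ y ∈ Cm m, stay ((Dm m).erase y) T x :=
      Finset.single_le_sum (f := fun y => stay ((Dm m).erase y) T x)
        (fun y _ => stay_nonneg _ _ _) hw
    have h4 := hstay x hx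
    linarith
  refine ⟨T + T, ?_, ?_⟩
  · push_cast
    nlinarith [show 0 < r ^ 11 by positivity]
  intro x hx w hw
  have h1 := cov_ge_stc_mul hq0 hq1 (hhit w hw) T x (Cm m)
  refine le_trans ?_ h1
  have h2 : q ≤ stc (Dm m) T x (Cm m) := by
    have h3 := stc_ge (Dm m) T x (Cm m)
    have h4 := hmiss x hx
    have h5 := hstay x hx
    linarith
  refine le_trans ?_ (mul_le_mul_of_nonneg_right h2 hq0)
  -- lower bound on `q * q`
  have hrho : exp (-(5 / r ^ 8)) ≤ rho m := by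
    have h3 := rho_ge m (by omega)
    have h4 : 5 / 2 / (m : ℝ) ^ 2 ≤ 1 / 2 := by
      have h5 : (10 : ℝ) ≤ m := by
        have : 10 ≤ m := le_trans (by norm_num) hm20
        exact_mod_cast this
      rw [div_le_iff₀ (by positivity)]
      nlinarith
    have h5 := one_sub_ge_exp (x := 5 / 2 / (m : ℝ) ^ 2) (by positivity) h4
    refine le_trans (le_of_eq ?_) (h5.trans h3)
    congr 1
    rw [← hrm]
    ring
  have hrT : exp (-(20 * r ^ 3)) ≤ rho m ^ T * rho m ^ T := by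
    have h3 : exp (-(5 / r ^ 8)) ^ T ≤ rho m ^ T := pow_le_pow_left₀ (exp_pos _).le hrho T
    have h4 : exp (-(10 * r ^ 3)) ≤ exp (-(5 / r ^ 8)) ^ T := by
      rw [← exp_nat_mul]
      apply exp_le_exp.2
      rw [mul_neg, neg_le_neg_iff]
      calc (T : ℝ) * (5 / r ^ 8) ≤ 2 * r ^ 11 * (5 / r ^ 8) :=
            mul_le_mul_of_nonneg_right hT2 (by positivity)
        _ = 10 * r ^ 3 := by
            field_simp
            ring
    have h5 := h4.trans h3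
    calc exp (-(20 * r ^ 3)) = exp (-(10 * r ^ 3)) * exp (-(10 * r ^ 3)) := by
          rw [← exp_add]
          congr 1
          ring
      _ ≤ rho m ^ T * rho m ^ T := mul_le_mul h5 h5 (exp_pos _).le (by positivity)
  have hpoly : exp (-(r ^ 3)) ≤ (1 / (2 * ((m : ℝ) + 1) ^ 2)) * (1 / (2 * ((m : ℝ) + 1) ^ 2)) := by
    rw [exp_neg, one_div_mul_one_div, ← one_div]
    apply one_div_le_one_div_of_le (by positivity)
    have h3 : ((m : ℝ) + 1) ^ 2 ≤ (2 * r ^ 4) ^ 2 := pow_le_pow_left₀ (by positivity) hmr2 2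
    have h4 : 2 * ((m : ℝ) + 1) ^ 2 * (2 * ((m : ℝ) + 1) ^ 2)
        ≤ 2 * (2 * r ^ 4) ^ 2 * (2 * (2 * r ^ 4) ^ 2) := by
      apply mul_le_mul (by linarith) (by linarith) (by positivity) (by positivity)
    refine h4.trans ?_
    have h5 : 2 * (2 * r ^ 4) ^ 2 * (2 * (2 * r ^ 4) ^ 2) = 64 * r ^ 16 := by ring
    rw [h5]
    refine P2.trans (exp_le_exp.2 ?_)
    rw [one_mul]
    calc r = r ^ 1 := (pow_one r).symm
      _ ≤ r ^ 3 := pow_le_pow_right₀ hr1' (by norm_num)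
  calc exp (-(21 * r ^ 3)) = exp (-(20 * r ^ 3)) * exp (-(r ^ 3)) := by
        rw [← exp_add]
        congr 1
        ring
    _ ≤ (rho m ^ T * rho m ^ T) *
        ((1 / (2 * ((m : ℝ) + 1) ^ 2)) * (1 / (2 * ((m : ℝ) + 1) ^ 2))) :=
        mul_le_mul hrT hpoly (exp_pos _).le (by positivity)
    _ = q * q := by rw [hq]; ring

end Pool.Agent.Helper92.Diamond
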