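import Pool.Agent.Helper92_Diamond.Chain
import Pool.Agent.Helper92_Diamond.Local2

set_option autoImplicit false

open Finset

namespace Pool.Agent.Helper92.Diamond

/-- Outer strip at scale `m`. -/
noncomputable def Strip (n m : ℕ) : Finset W :=
  (Dm n).filter (fun y => 8 * (n : ℤ) - 15 * m ≤ 8 * y.1 ∨ 8 * (n : ℤ) - 15 * m ≤ -(8 * y.1) ∨
    8 * (n : ℤ) - 15 * m ≤ 8 * y.2 ∨ 8 * (n : ℤ) - 15 * m ≤ -(8 * y.2))

/-- Standard spacing. -/
def sp (m : ℕ) : ℤ := 2 * ((m / 4 : ℕ) : ℤ)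

/-- Number of cells in a loop. -/
def cells (n m : ℕ) : ℕ := 4 * ((2 * ((n : ℤ) - m) / sp m).toNat + 2)

lemma cells_le {n m : ℕ} (hm : 4 ≤ m) (hmn : m ≤ n) :
    (cells n m : ℝ) ≤ 40 * (n / m) := by
  have hs : (m : ℤ) ≤ 4 * sp m := by unfold sp; omega
  have hs0 : 0 < sp m := by unfold sp; omega
  have hN : 0 ≤ 2 * ((n : ℤ) - m) := by omega
  have h1 : (((2 * ((n : ℤ) - m) / sp m).toNat : ℕ) : ℤ) = 2 * ((n : ℤ) - m) / sp m :=
    Int.toNat_of_nonneg (Int.ediv_nonneg hN hs0.le)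
  have h2 : 2 * ((n : ℤ) - m) / sp m * sp m ≤ 2 * ((n : ℤ) - m) := Int.ediv_mul_le _ hs0.ne'
  have h3 : (((2 * ((n : ℤ) - m) / sp m).toNat : ℕ) : ℤ) * m ≤ 8 * n := by
    rw [h1]
    have h4 : 0 ≤ 2 * ((n : ℤ) - m) / sp m := Int.ediv_nonneg hN hs0.le
    nlinarith
  have h4 : (((2 * ((n : ℤ) - m) / sp m).toNat : ℕ) : ℝ) * m ≤ 8 * n := by exact_mod_cast h3
  have hm0 : (0 : ℝ) < m := by
    have : 0 < m := by omega
    exact_mod_cast this
  have hmn' : (m : ℝ) ≤ n := by exact_mod_cast hmn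
  rw [← mul_div_assoc, le_div_iff₀ hm0]
  unfold cells
  push_cast
  linarith

/-- Nonneg comparison of exponentials. -/
lemma exp_neg_le {a b : ℝ} (h : a ≤ b) : Real.exp (-b) ≤ Real.exp (-a) :=
  Real.exp_le_exp.2 (by linarith)

/-- Loop at the smallest scale. -/
lemma base_loop {n m T : ℕ} {κ : ℝ} (hκ : 0 ≤ κ) (hm : 4 ≤ m) (hmn : m ≤ n)
    (h : Cell m T κ (Dm m)) :
    ∃ T' : ℕ, (T' : ℝ) ≤ 40 * (n / m) * T ∧
      Real.exp (-(40 * (n / m) * κ)) ≤
        cov (Dm n) T' (bpt ((n : ℤ) - m)) (Strip n m) (bpt ((n : ℤ) - m)) := by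
  have hs0 : 0 < sp m := by unfold sp; omega
  have hs2 : sp m % 2 = 0 := by unfold sp; omega
  have hs3 : 8 * sp m ≤ 7 * m := by unfold sp; omega
  have hl := loop h hmn hs0 hs2 hs3
  have hc := cells_le hm hmn
  refine ⟨cells n m * T, ?_, ?_⟩
  · push_cast
    exact mul_le_mul_of_nonneg_right hc (Nat.cast_nonneg T)
  · refine (exp_neg_le (mul_le_mul_of_nonneg_right hc hκ)).trans (hl.trans ?_)
    refine cov_mono (Finset.Subset.refl _) ?_ _ _ _
    intro y hy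
    unfold Strip at hy
    rw [Finset.mem_filter, mem_Dm] at hy
    refine mem_loopSet (c := 8 * m) (by omega) hs0 hs2 (by omega) ?_ hy.1.2.2 (by omega)
      (by omega) (by omega) (by omega) (by omega)
    intro p h1 h2 h3 h4 h5
    rw [mem_Dm]
    omega

/-- Doubling step. -/
lemma double_step {n m T T0 : ℕ} {κ κ0 : ℝ} (hκ : 0 ≤ κ) (hm : 4 ≤ m) (hmn : 2 * m ≤ n)
    (h : Cell (2 * m) T κ (Cm (2 * m)))
    (h0 : Real.exp (-κ0) ≤
      cov (Dm n) T0 (bpt ((n : ℤ) - m)) (Strip n m) (bpt ((n : ℤ) - m))) :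
    ∃ T' : ℕ, (T' : ℝ) ≤ T0 + 42 * (n / ((2 * m : ℕ) : ℝ)) * T ∧
      Real.exp (-(κ0 + 42 * (n / ((2 * m : ℕ) : ℝ)) * κ)) ≤
        cov (Dm n) T' (bpt ((n : ℤ) - (2 * m : ℕ))) (Strip n (2 * m))
          (bpt ((n : ℤ) - (2 * m : ℕ))) := by
  classical
  have hs0 : 0 < sp (2 * m) := by unfold sp; omega
  have hs2 : sp (2 * m) % 2 = 0 := by unfold sp; omega
  have hs3 : 8 * sp (2 * m) ≤ 7 * ((2 * m : ℕ) : ℤ) := by unfold sp; omega
  have hl := loop h hmn hs0 hs2 hs3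
  have hc := cells_le (n := n) (m := 2 * m) (by omega) hmn
  have hm0 : (0 : ℝ) < ((2 * m : ℕ) : ℝ) := by
    have : 0 < 2 * m := by omega
    exact_mod_cast this
  have hmn' : ((2 * m : ℕ) : ℝ) ≤ n := by exact_mod_cast hmn
  have hge1 : 1 ≤ (n : ℝ) / ((2 * m : ℕ) : ℝ) := by rw [le_div_iff₀ hm0]; linarith
  set b := bpt ((n : ℤ) - (2 * m : ℕ)) with hb
  set b' := bpt ((n : ℤ) - m) with hb'
  have hctr : Ctr n (2 * m) b := by
    unfold Ctr
    rw [hb]
    unfold bpt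
    simp only
    omega
  have hd1 : b' - b ∈ Cm (2 * m) := by
    rw [mem_Cm, fst_sub', snd_sub', hb, hb']
    unfold bpt
    simp only
    push_cast
    omega
  have hd0 : b - b ∈ Dm (2 * m) := by rw [sub_self]; exact zero_mem_Dm _
  have hd0' : b - b ∈ Cm (2 * m) := by rw [sub_self]; exact zero_mem_Cm _
  have g1 : Real.exp (-κ) ≤ cov (Dm n) T b (tr b (Cm (2 * m))) b' := cell_shift h hctr hd0 hd1
  have g2 : Real.exp (-κ) ≤ cov (Dm n) T b' (tr b (Cm (2 * m))) b :=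
    cell_shift h hctr (Cm_subset _ hd1) hd0'
  set X := tr b (Cm (2 * m)) with hX
  set Lp := loopSet ((n : ℤ) - (2 * m : ℕ)) (sp (2 * m)) (Cm (2 * m)) with hLp
  have c1 := cov_comp (Dm n) (cells n (2 * m) * T) T b b b' Lp X
  have c2 := cov_comp (Dm n) (cells n (2 * m) * T + T) T0 b b' b' (Lp ∪ X) (Strip n m)
  have c3 := cov_comp (Dm n) (cells n (2 * m) * T + T + T0) T b b' b (Lp ∪ X ∪ Strip n m) X
  refine ⟨cells n (2 * m) * T + T + T0 + T, ?_, ?_⟩
  · push_cast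
    push_cast at hc hge1
    have hT : (0 : ℝ) ≤ T := Nat.cast_nonneg T
    have h1 := mul_le_mul_of_nonneg_right hc hT
    have h2 := mul_le_mul_of_nonneg_right hge1 hT
    linarith
  · have hsub : Strip n (2 * m) ⊆ Lp ∪ X ∪ Strip n m ∪ X := by
      intro y hy
      rw [Finset.mem_union, Finset.mem_union, Finset.mem_union]
      unfold Strip at hy
      rw [Finset.mem_filter] at hy
      by_cases hyS : y ∈ Strip n m
      · exact Or.inl (Or.inr hyS)
      · left; left; left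
        unfold Strip at hyS
        rw [Finset.mem_filter, not_and] at hyS
        have hyS' := hyS hy.1
        have hyD := mem_Dm.1 hy.1
        have hy2 := hy.2
        push_cast at hy2
        refine mem_loopSet (c := 14 * m) (by omega) hs0 hs2 (by omega) ?_ hyD.2.2 (by push_cast; omega)
          (by push_cast; omega) (by push_cast; omega) (by push_cast; omega) (by push_cast; omega)
        intro p h1 h2 h3 h4 h5
        rw [mem_Cm]
        push_cast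
        omega
    refine le_trans ?_ (cov_mono (Finset.Subset.refl _) hsub _ _ _)
    refine le_trans ?_ c3
    have E0 := (Real.exp_pos (-κ)).le
    have hcell : Real.exp (-(cells n (2 * m) * κ)) ≤ cov (Dm n) (cells n (2 * m) * T) b Lp b := hl
    have hfin : Real.exp (-(κ0 + 42 * (n / ((2 * m : ℕ) : ℝ)) * κ)) ≤
        Real.exp (-(cells n (2 * m) * κ)) * Real.exp (-κ) * Real.exp (-κ0) * Real.exp (-κ) := by
      rw [← Real.exp_add, ← Real.exp_add, ← Real.exp_add]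
      apply Real.exp_le_exp.2
      have h1 := mul_le_mul_of_nonneg_right hc hκ
      have h2 := mul_le_mul_of_nonneg_right hge1 hκ
      linarith
    refine hfin.trans ?_
    refine mul_le_mul ?_ g2 E0 (cov_nonneg _ _ _ _ _)
    refine le_trans ?_ c2
    refine mul_le_mul ?_ h0 (Real.exp_pos _).le (cov_nonneg _ _ _ _ _)
    refine le_trans ?_ c1
    exact mul_le_mul hcell g1 E0 (cov_nonneg _ _ _ _ _)

/-- The fourth root of two. -/
noncomputable def gam : ℝ := Real.sqrt (Real.sqrt 2)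

lemma gam_pos : 0 < gam := Real.sqrt_pos.2 (Real.sqrt_pos.2 (by norm_num))

lemma gam_pow : gam ^ 4 = 2 := by
  unfold gam
  have h1 : Real.sqrt (Real.sqrt 2) ^ 2 = Real.sqrt 2 := Real.sq_sqrt (Real.sqrt_nonneg _)
  have h2 : Real.sqrt 2 ^ 2 = 2 := Real.sq_sqrt (by norm_num)
  calc Real.sqrt (Real.sqrt 2) ^ 4 = (Real.sqrt (Real.sqrt 2) ^ 2) ^ 2 := by ring
    _ = 2 := by rw [h1, h2]

lemma gam_ge : 1.18 ≤ gam := by
  by_contra h
  push Not at h
  have := pow_le_pow_left₀ gam_pos.le h.le 4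
  rw [gam_pow] at this
  norm_num at this

/-- Multi-scale induction. -/
lemma scales {m₀ : ℕ} {K : ℝ} (hm₀ : 4 ≤ m₀) (hK : 1 ≤ K)
    (H : ∀ m : ℕ, m₀ ≤ m → ∀ r : ℝ, 0 ≤ r →
      r ^ 4 = m → ∃ T : ℕ, (T : ℝ) ≤ K * r ^ 11 ∧ Cell m T (K * r ^ 3) (Cm m))
    {T₀ : ℕ} {κ₀ : ℝ} (hκ₀ : 0 ≤ κ₀) (H0 : Cell m₀ T₀ κ₀ (Dm m₀)) {r₁ : ℝ} (hr₁ : 1 ≤ r₁)
    (hr₁' : r₁ ^ 4 = m₀) (n l : ℕ) (hn : m₀ * 2 ^ l ≤ n) :
    ∃ T : ℕ, (T : ℝ) ≤ (40 * T₀ + 84 * K) * n * (r₁ * gam ^ l) ^ 7 ∧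
      Real.exp (-((40 * κ₀ + 300 * K) * n - 300 * K * n / (r₁ * gam ^ l))) ≤
        cov (Dm n) T (bpt ((n : ℤ) - (m₀ * 2 ^ l : ℕ))) (Strip n (m₀ * 2 ^ l))
          (bpt ((n : ℤ) - (m₀ * 2 ^ l : ℕ))) := by
  have hg1 : (1 : ℝ) ≤ gam := by linarith [gam_ge]
  have hg0 := gam_pos
  have hn0 : (0 : ℝ) ≤ n := Nat.cast_nonneg n
  have hT₀ : (0 : ℝ) ≤ T₀ := Nat.cast_nonneg T₀
  induction l with
  | zero =>
    rw [pow_zero, mul_one] at hn
    obtain ⟨T', hT', hcov⟩ := base_loop hκ₀ hm₀ hn H0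
    have hm0 : (1 : ℝ) ≤ m₀ := by
      have : 1 ≤ m₀ := by omega
      exact_mod_cast this
    have hdiv : (n : ℝ) / m₀ ≤ n := div_le_self hn0 hm0
    refine ⟨T', ?_, ?_⟩
    · rw [pow_zero, mul_one]
      have h1 : 40 * ((n : ℝ) / m₀) * T₀ ≤ 40 * n * T₀ := by
        apply mul_le_mul_of_nonneg_right _ hT₀
        linarith
      have h2 : (1 : ℝ) ≤ r₁ ^ 7 := one_le_pow₀ hr₁
      have h3 : 0 ≤ (40 * (T₀ : ℝ) + 84 * K) * n := by positivity
      have h4 : (40 * (T₀ : ℝ) + 84 * K) * n ≤ (40 * T₀ + 84 * K) * n * r₁ ^ 7 := by nlinarith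
      have h5 : 0 ≤ 84 * K * (n : ℝ) := by positivity
      linarith
    · rw [pow_zero, mul_one, pow_zero, mul_one]
      refine le_trans (exp_neg_le ?_) hcov
      have h1 : 40 * ((n : ℝ) / m₀) * κ₀ ≤ 40 * n * κ₀ := by
        apply mul_le_mul_of_nonneg_right _ hκ₀
        linarith
      have h2 : 300 * K * n / r₁ ≤ 300 * K * n := div_le_self (by positivity) hr₁
      linarith
  | succ l ih =>
    have hpow : m₀ * 2 ^ (l + 1) = 2 * (m₀ * 2 ^ l) := by ring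
    rw [hpow] at hn
    obtain ⟨T0, hT0, hcov0⟩ := ih (by omega)
    set m := m₀ * 2 ^ l with hm
    set r := r₁ * gam ^ l with hr
    have hr0 : 1 ≤ r := by
      have : (1 : ℝ) ≤ gam ^ l := one_le_pow₀ hg1
      rw [hr]
      nlinarith
    have hmm : m₀ ≤ m := by
      rw [hm]
      exact Nat.le_mul_of_pos_right _ (by positivity)
    have hr4 : r ^ 4 = m := by
      rw [hr, hm, mul_pow, ← pow_mul, mul_comm l 4, pow_mul, gam_pow, hr₁']
      push_cast
      ring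
    have hr' : r₁ * gam ^ (l + 1) = r * gam := by rw [hr]; ring
    have hrg4 : (r * gam) ^ 4 = ((2 * m : ℕ) : ℝ) := by
      rw [mul_pow, hr4, gam_pow]
      push_cast
      ring
    obtain ⟨T, hT, hcell⟩ := H (2 * m) (by omega) (r * gam) (by positivity) hrg4
    have hKr : 0 ≤ K * (r * gam) ^ 3 := by positivity
    obtain ⟨T', hT', hcov⟩ := double_step hKr (by omega) hn hcell hcov0
    rw [hr', hpow]
    refine ⟨T', ?_, ?_⟩
    · refine hT'.trans ?_
      rw [← hrg4]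
      have hrg0 : 0 < r * gam := by positivity
      have h1 : 42 * ((n : ℝ) / (r * gam) ^ 4) * T ≤ 42 * (n / (r * gam) ^ 4) * (K * (r * gam) ^ 11) :=
        mul_le_mul_of_nonneg_left hT (by positivity)
      have h2 : 42 * ((n : ℝ) / (r * gam) ^ 4) * (K * (r * gam) ^ 11) = 42 * K * n * (r * gam) ^ 7 := by
        field_simp
      have h3 : 2 * r ^ 7 ≤ (r * gam) ^ 7 := by
        rw [mul_pow]
        have h4 : (2 : ℝ) ≤ gam ^ 7 := by
          calc (2 : ℝ) = gam ^ 4 := gam_pow.symm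
            _ ≤ gam ^ 7 := pow_le_pow_right₀ hg1 (by norm_num)
        have h5 : 0 < r ^ 7 := by positivity
        nlinarith
      have h6 : (40 * (T₀ : ℝ) + 84 * K) * n * r ^ 7 ≤ (40 * T₀ + 84 * K) * n * ((r * gam) ^ 7 / 2) := by
        apply mul_le_mul_of_nonneg_left _ (by positivity)
        linarith
      have h7 : 0 ≤ 40 * (T₀ : ℝ) * n * (r * gam) ^ 7 := by positivity
      have h8 : (40 * (T₀ : ℝ) + 84 * K) * n * ((r * gam) ^ 7 / 2)
          = (40 * T₀ + 84 * K) * n * (r * gam) ^ 7 - (20 * (T₀ * n * (r * gam) ^ 7)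
            + 42 * K * n * (r * gam) ^ 7) := by ring
      have h9 : 0 ≤ (T₀ : ℝ) * n * (r * gam) ^ 7 := by positivity
      linarith
    · refine le_trans (exp_neg_le ?_) hcov
      rw [← hrg4]
      have h1 : 42 * ((n : ℝ) / (r * gam) ^ 4) * (K * (r * gam) ^ 3) = 42 * K * n / (r * gam) := by
        field_simp
      rw [h1]
      have h2 : 300 * K * n / (r * gam) + 42 * K * n / (r * gam) ≤ 300 * K * n / r := by
        rw [← add_div, div_le_div_iff₀ (by positivity) (by positivity)]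
        have h3 : (300 * K * n + 42 * K * n) * r ≤ 300 * K * n * (r * 1.18) := by
          have : 0 ≤ K * n * r := by positivity
          linarith
        refine h3.trans ?_
        apply mul_le_mul_of_nonneg_left _ (by positivity)
        apply mul_le_mul_of_nonneg_left gam_ge (by positivity)
      linarith

/-- Full covering of the diamond. -/
theorem full_cover : ∃ (n₀ : ℕ) (K : ℝ), 1 ≤ n₀ ∧ 1 ≤ K ∧ ∀ n : ℕ, n₀ ≤ n →
    ∃ T : ℕ, (T : ℝ) ^ 4 ≤ K * (n : ℝ) ^ 11 ∧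
      Real.exp (-(K * n)) ≤ cov (Dm n) T 0 (Dm n) 0 := by
  classical
  obtain ⟨m₁, K, hm₁, hK, H⟩ := local_cover
  set m₀ := m₁ + 4 with hm₀
  have H' : ∀ m : ℕ, m₀ ≤ m → ∀ r : ℝ, 0 ≤ r →
      r ^ 4 = m → ∃ T : ℕ, (T : ℝ) ≤ K * r ^ 11 ∧ Cell m T (K * r ^ 3) (Cm m) := by
    intro m hm r hr hrm
    obtain ⟨T, hT, h⟩ := H m (by omega) r hr hrm
    exact ⟨T, hT, h⟩
  obtain ⟨T₀, κ₀, hκ₀, h0⟩ := small_cover m₀
  have H0 : Cell m₀ T₀ κ₀ (Dm m₀) := fun x hx w hw => h0 x hx w (Cm_subset _ hw)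
  have hroot : ∀ k : ℕ, Real.sqrt (Real.sqrt k) ^ 4 = k := by
    intro k
    have h1 : Real.sqrt (Real.sqrt k) ^ 2 = Real.sqrt k := Real.sq_sqrt (Real.sqrt_nonneg _)
    have h2 : Real.sqrt (k : ℝ) ^ 2 = k := Real.sq_sqrt (Nat.cast_nonneg k)
    calc Real.sqrt (Real.sqrt (k : ℝ)) ^ 4 = (Real.sqrt (Real.sqrt (k : ℝ)) ^ 2) ^ 2 := by ring
      _ = (k : ℝ) := by rw [h1, h2]
  have hroot1 : ∀ k : ℕ, 1 ≤ k → 1 ≤ Real.sqrt (Real.sqrt k) := by
    intro k hk
    rw [Real.one_le_sqrt, Real.one_le_sqrt]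
    exact_mod_cast hk
  set r₁ := Real.sqrt (Real.sqrt m₀) with hr₁
  have hr₁1 : 1 ≤ r₁ := hroot1 m₀ (by omega)
  set A := 40 * (T₀ : ℝ) + 84 * K + 2 * K with hA
  set B := 40 * κ₀ + 300 * K + 2 * K with hB
  have hT₀0 : (0 : ℝ) ≤ T₀ := Nat.cast_nonneg T₀
  refine ⟨m₀, max (A ^ 4) B, by omega, ?_, ?_⟩
  · refine le_trans ?_ (le_max_right _ _)
    rw [hB]
    linarith
  intro n hn
  -- choose the top scale
  obtain ⟨l, hl1, hl2⟩ : ∃ l : ℕ, m₀ * 2 ^ l ≤ n ∧ n < 2 * (m₀ * 2 ^ l) := by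
    have hex : ∃ k : ℕ, n < m₀ * 2 ^ k := by
      refine ⟨n, ?_⟩
      have h1 : n < 2 ^ n := Nat.lt_two_pow_self
      have h2 : 1 * 2 ^ n ≤ m₀ * 2 ^ n := Nat.mul_le_mul_right _ (by omega)
      omega
    have hpos : Nat.find hex ≠ 0 := by
      intro h
      have := Nat.find_spec hex
      rw [h, pow_zero, mul_one] at this
      omega
    obtain ⟨l, hl⟩ := Nat.exists_eq_succ_of_ne_zero hpos
    refine ⟨l, ?_, ?_⟩
    · have := Nat.find_min hex (m := l) (by omega)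
      omega
    · have := Nat.find_spec hex
      rw [hl, Nat.succ_eq_add_one, pow_succ] at this
      calc n < m₀ * (2 ^ l * 2) := this
        _ = 2 * (m₀ * 2 ^ l) := by ring
  obtain ⟨T1, hT1, hcov1⟩ := scales (by omega) hK H' hκ₀ H0 hr₁1 (hroot m₀) n l hl1
  set m := m₀ * 2 ^ l with hm
  set r := r₁ * gam ^ l with hr
  set R := Real.sqrt (Real.sqrt n) with hR
  have hR4 : R ^ 4 = n := hroot n
  have hR1 : 1 ≤ R := hroot1 n (by omega)
  have hg1 : (1 : ℝ) ≤ gam := by linarith [gam_ge]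
  have hr1 : 1 ≤ r := by
    have : (1 : ℝ) ≤ gam ^ l := one_le_pow₀ hg1
    rw [hr]
    nlinarith
  have hr4 : r ^ 4 = m := by
    rw [hr, hm, mul_pow, ← pow_mul, mul_comm l 4, pow_mul, gam_pow, hroot m₀]
    push_cast
    ring
  have hrR : r ≤ R := by
    have : r ^ 4 ≤ R ^ 4 := by
      rw [hr4, hR4]
      exact_mod_cast hl1
    exact le_of_pow_le_pow_left₀ (by norm_num) (by linarith) this
  obtain ⟨T2, hT2, hcell⟩ := H' n hn R (by linarith) hR4
  have hb : bpt ((n : ℤ) - m) ∈ Cm n := by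
    rw [mem_Cm]
    unfold bpt
    simp only
    omega
  set b := bpt ((n : ℤ) - m) with hbdef
  have hctr : Ctr n n 0 := by
    unfold Ctr
    simp
  have g1 : Real.exp (-(K * R ^ 3)) ≤ cov (Dm n) T2 0 (Cm n) b := hcell 0 (zero_mem_Dm n) b hb
  have g2 : Real.exp (-(K * R ^ 3)) ≤ cov (Dm n) T2 b (Cm n) 0 :=
    hcell b (Cm_subset n hb) 0 (zero_mem_Cm n)
  have c1 := cov_comp (Dm n) T2 T1 0 b b (Cm n) (Strip n m)
  have c2 := cov_comp (Dm n) (T2 + T1) T2 0 b 0 (Cm n ∪ Strip n m) (Cm n)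
  have hn0 : (0 : ℝ) ≤ n := Nat.cast_nonneg n
  refine ⟨T2 + T1 + T2, ?_, ?_⟩
  · have h1 : (((T2 + T1 + T2 : ℕ)) : ℝ) ≤ A * R ^ 11 := by
      push_cast
      have h2 : (40 * (T₀ : ℝ) + 84 * K) * n * r ^ 7 ≤ (40 * T₀ + 84 * K) * n * R ^ 7 := by
        apply mul_le_mul_of_nonneg_left _ (by positivity)
        exact pow_le_pow_left₀ (by linarith) hrR 7
      have h3 : (40 * (T₀ : ℝ) + 84 * K) * n * R ^ 7 = (40 * T₀ + 84 * K) * R ^ 11 := by
        rw [← hR4]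
        ring
      rw [hA]
      have h4 : (40 * (T₀ : ℝ) + 84 * K + 2 * K) * R ^ 11
          = (40 * T₀ + 84 * K) * R ^ 11 + K * R ^ 11 + K * R ^ 11 := by ring
      linarith
    have h5 : (((T2 + T1 + T2 : ℕ)) : ℝ) ^ 4 ≤ (A * R ^ 11) ^ 4 :=
      pow_le_pow_left₀ (Nat.cast_nonneg _) h1 4
    have h6 : (A * R ^ 11) ^ 4 = A ^ 4 * (n : ℝ) ^ 11 := by
      rw [← hR4]
      ring
    rw [h6] at h5
    refine h5.trans (mul_le_mul_of_nonneg_right (le_max_left _ _) (by positivity))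
  · have hsub : Dm n ⊆ Cm n ∪ Strip n m ∪ Cm n := by
      intro y hy
      rw [Finset.mem_union, Finset.mem_union]
      by_cases hyC : y ∈ Cm n
      · exact Or.inl (Or.inl hyC)
      · left; right
        unfold Strip
        rw [Finset.mem_filter]
        refine ⟨hy, ?_⟩
        rw [mem_Cm] at hyC
        rw [mem_Dm] at hy
        omega
    refine le_trans ?_ (cov_mono (Finset.Subset.refl _) hsub _ _ _)
    refine le_trans ?_ c2
    have hfin : Real.exp (-(max (A ^ 4) B * n)) ≤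
        Real.exp (-(K * R ^ 3)) *
          Real.exp (-((40 * κ₀ + 300 * K) * n - 300 * K * n / r)) * Real.exp (-(K * R ^ 3)) := by
      rw [← Real.exp_add, ← Real.exp_add]
      apply Real.exp_le_exp.2
      have h1 : B * n ≤ max (A ^ 4) B * n := mul_le_mul_of_nonneg_right (le_max_right _ _) hn0
      have h2 : 0 ≤ 300 * K * n / r := by positivity
      have h3 : R ^ 3 ≤ n := by
        rw [← hR4]
        exact pow_le_pow_right₀ hR1 (by norm_num)
      have h4 : K * R ^ 3 ≤ K * n := mul_le_mul_of_nonneg_left h3 (by linarith)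
      rw [hB] at h1
      linarith
    refine hfin.trans ?_
    refine mul_le_mul ?_ g2 (Real.exp_pos _).le (cov_nonneg _ _ _ _ _)
    refine le_trans ?_ c1
    exact mul_le_mul g1 hcov1 (Real.exp_pos _).le (cov_nonneg _ _ _ _ _)

end Pool.Agent.Helper92.Diamond
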