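import Pool.Agent.Helper92_Diamond.Comb2

set_option autoImplicit false

open Finset Real

namespace Pool.Agent.Helper92.Diamond

lemma Par_Dm (m : ℕ) : Par (Dm m) := fun _ hx => (mem_Dm.1 hx).2.2

/-- Event with prescribed data. -/
def EvA (M k : ℕ) (U V : Finset ℤ) (R : Finset W) : Prop :=
  R ⊆ Dm M ∧ (bd R).card = k ∧ Uset R = U ∧ Vset R = V

lemma EvA_int {M k : ℕ} {U V : Finset ℤ} {R : Finset W} (h : EvA M k U V R) :
    ∀ y ∈ inter R, y.1 ∈ U ∧ y.2 ∈ V := by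
  intro y hy
  rw [← h.2.2.1, ← h.2.2.2]
  exact ⟨Finset.mem_image.2 ⟨y, hy, rfl⟩, Finset.mem_image.2 ⟨y, hy, rfl⟩⟩

lemma sqrt_card_Dm (M : ℕ) {A : Finset W} (hA : A ⊆ Dm M) : Real.sqrt A.card ≤ 2 * M + 1 := by
  rw [Real.sqrt_le_left (by positivity)]
  have h1 : A.card ≤ (2 * M + 1) ^ 2 := (Finset.card_le_card hA).trans (card_Dm_le M)
  exact_mod_cast h1

end Pool.Agent.Helper92.Diamond
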