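import Pool.Agent.Helper92_Diamond.Pois
import Pool.Agent.Helper92_Diamond.Comb

set_option autoImplicit false

open Finset Real

namespace Pool.Agent.Helper92.Diamond

/-- Boltzmann weight. -/
noncomputable def wt (β : ℝ) (R : Finset W) : ℝ := exp (-(β * (bd R).card))

lemma wt_pos (β : ℝ) (R : Finset W) : 0 < wt β R := exp_pos _

lemma wt_le_one {β : ℝ} (hβ : 0 ≤ β) (R : Finset W) : wt β R ≤ 1 := by
  unfold wt
  rw [exp_le_one_iff]
  have : 0 ≤ β * ((bd R).card : ℝ) := by positivity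
  linarith

lemma Bd_wt {β : ℝ} (hβ : 0 ≤ β) : Bd (wt β) :=
  Bd.of_le_one (fun R => (wt_pos β R).le) (wt_le_one hβ)

/-- The time corresponding to the size `N`. -/
noncomputable def tN (β N : ℝ) : ℝ := 8 * β * N ^ 3 / π ^ 2

end Pool.Agent.Helper92.Diamond
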