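import Pool.Agent.Helper92_Diamond.Rng
import Pool.Agent.Helper92_Diamond.Clock
import Pool.Agent.Helper92_Diamond.Wt

set_option autoImplicit false

open MeasureTheory ProbabilityTheory Filter Topology
open scoped ENNReal

namespace Pool.Agent.Helper92.Diamond

open Model

/-- Law of the directions. -/
noncomputable def muA : Measure (ℕ → Fin 4) :=
  Measure.infinitePi fun _ : ℕ => uniformOn (Set.univ : Set (Fin 4))

instance instProbMuA : IsProbabilityMeasure muA := by
  unfold muA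
  infer_instance

lemma Pr_eq : Pr = muA.prod muT := rfl

instance instProbPr : IsProbabilityMeasure Pr := by
  rw [Pr_eq]
  infer_instance

lemma uniform_singleton (x : Fin 4) :
    uniformOn (Set.univ : Set (Fin 4)) {x} = ENNReal.ofReal (1 / 4) := by
  rw [uniformOn_univ, Measure.count_singleton, Fintype.card_fin]
  rw [ENNReal.ofReal_div_of_pos (by norm_num)]
  simp

lemma muA_cyl (j : ℕ) (c : Fin j → Fin 4) :
    muA {a | ∀ i : Fin j, a i = c i} = ENNReal.ofReal ((1 / 4) ^ j) := by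
  have h1 : {a : ℕ → Fin 4 | ∀ i : Fin j, a i = c i}
      = Set.pi (Finset.range j : Finset ℕ) (fun i => {ext4 j c i}) := by
    ext a
    simp only [Set.mem_ofPred_eq, Set.mem_pi, Finset.coe_range, Set.mem_Iio,
      Set.mem_singleton_iff]
    constructor
    · intro h i hi
      rw [ext4, dif_pos hi]
      exact h ⟨i, hi⟩
    · intro h i
      have := h i i.2
      rw [ext4, dif_pos i.2] at this
      exact this
  rw [h1]
  unfold muA
  rw [Measure.infinitePi_pi _ (fun i _ => measurableSet_singleton _)]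
  simp only [uniform_singleton, Finset.prod_const, Finset.card_range]
  rw [ENNReal.ofReal_pow (by norm_num)]

lemma lintegral_muA (j : ℕ) (h : (Fin j → Fin 4) → ℝ≥0∞) :
    ∫⁻ a, h (fun i : Fin j => a i) ∂muA = ∑ c : Fin j → Fin 4, h c * ENNReal.ofReal ((1 / 4) ^ j) := by
  have hm : Measurable (fun (a : ℕ → Fin 4) (i : Fin j) => a i) := by
    rw [measurable_pi_iff]
    exact fun i => measurable_pi_apply _
  have h1 := lintegral_map (μ := muA) (f := h) (g := fun (a : ℕ → Fin 4) (i : Fin j) => a i)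
    (measurable_of_finite h) hm
  rw [← h1, lintegral_fintype]
  refine Finset.sum_congr rfl fun c _ => ?_
  congr 1
  rw [Measure.map_apply hm (measurableSet_singleton c), ← muA_cyl j c]
  congr 1
  ext a
  simp only [Set.mem_preimage, Set.mem_singleton_iff, Set.mem_ofPred_eq]
  exact funext_iff

lemma measurable_rng {β : Type*} [MeasurableSpace β] (j : ℕ) (h : Finset W → β) :
    Measurable (fun a : ℕ → Fin 4 => h (rngN j 0 a)) := by
  have hm : Measurable (fun (a : ℕ → Fin 4) (i : Fin j) => a i) := by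
    rw [measurable_pi_iff]
    exact fun i => measurable_pi_apply _
  have e : (fun a : ℕ → Fin 4 => h (rngN j 0 a))
      = (fun c : Fin j → Fin 4 => h (rngN j 0 (ext4 j c))) ∘
        (fun (a : ℕ → Fin 4) (i : Fin j) => a i) := by
    funext a
    simp only [Function.comp]
    congr 1
    apply rngN_congr
    intro i hi
    rw [ext4, dif_pos hi]
  rw [e]
  exact (measurable_of_finite _).comp hm

/-- Good clock sequences. -/
def GoodClock (t : ℝ) (τ : ℕ → ℝ) : Prop := (∀ i, 0 < τ i) ∧ ∃ n, t < Tm n τ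

lemma ae_goodClock (t : ℝ) : ∀ᵐ ω ∂Pr, GoodClock t ω.2 := by
  have h1 : ∀ᵐ τ ∂muT, GoodClock t τ := by
    filter_upwards [ae_pos, ae_exists_gt t] with τ h1 h2
    exact ⟨h1, h2⟩
  rw [Pr_eq]
  exact Measure.quasiMeasurePreserving_snd.ae h1

lemma Tm_strictMono {τ : ℕ → ℝ} (h : ∀ i, 0 < τ i) : StrictMono (fun n => Tm n τ) := by
  apply strictMono_nat_of_lt_succ
  intro n
  unfold Tm
  rw [Finset.sum_range_succ]
  linarith [h n]

lemma exists_Aj {t : ℝ} (ht : 0 ≤ t) {τ : ℕ → ℝ} (h : GoodClock t τ) : ∃ j, τ ∈ Aj t j := by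
  classical
  have hex := h.2
  have h0 : Nat.find hex ≠ 0 := by
    intro h0
    have := Nat.find_spec hex
    rw [h0] at this
    simp [Tm] at this
    linarith
  obtain ⟨j, hj⟩ := Nat.exists_eq_succ_of_ne_zero h0
  refine ⟨j, ?_, ?_⟩
  · have := Nat.find_min hex (m := j) (by omega)
    exact not_lt.1 this
  · have := Nat.find_spec hex
    rw [hj] at this
    exact this

lemma Aj_unique {t : ℝ} {τ : ℕ → ℝ} (h : ∀ i, 0 < τ i) {i j : ℕ} (hi : τ ∈ Aj t i)
    (hj : τ ∈ Aj t j) : i = j := by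
  have hmono := Tm_strictMono h
  by_contra hne
  rcases lt_or_gt_of_ne hne with hlt | hgt
  · have h1 : Tm (i + 1) τ ≤ Tm j τ := hmono.monotone (by omega)
    exact absurd hi.2 (not_lt.2 (h1.trans hj.1))
  · have h1 : Tm (j + 1) τ ≤ Tm i τ := hmono.monotone (by omega)
    exact absurd hj.2 (not_lt.2 (h1.trans hi.1))

/-- Identification of the range. -/
lemma walkRange_eq {t : ℝ} (ω : Sample) (h : ∀ i, 0 < ω.2 i) {j : ℕ} (hj : ω.2 ∈ Aj t j) :
    walkRange ω t = pull (rngN j 0 ω.1) := by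
  have hmono := Tm_strictMono h
  have hjt : ∀ n, jumpTime ω n = Tm n ω.2 := fun _ => rfl
  rw [pull_rngN]
  ext v
  unfold walkRange X
  simp only [Set.mem_ofPred_eq, hjt]
  constructor
  · rintro ⟨s, hs0, hst, rfl⟩
    refine ⟨sSup {n : ℕ | Tm n ω.2 ≤ s}, ?_, rfl⟩
    apply csSup_le
    · exact ⟨0, by simpa [Tm] using hs0⟩
    · intro n hn
      have hn' : Tm n ω.2 ≤ s := hn
      by_contra hcon
      push Not at hcon
      have h1 : Tm (j + 1) ω.2 ≤ Tm n ω.2 := hmono.monotone (by omega)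
      exact absurd hj.2 (not_lt.2 (h1.trans (hn'.trans hst)))
  · rintro ⟨k, hk, rfl⟩
    refine ⟨Tm k ω.2, ?_, ?_, ?_⟩
    · unfold Tm
      exact Finset.sum_nonneg fun i _ => (h i).le
    · exact (hmono.monotone hk).trans hj.1
    · have h1 : sSup {n : ℕ | Tm n ω.2 ≤ Tm k ω.2} = k := by
        have h2 : {n : ℕ | Tm n ω.2 ≤ Tm k ω.2} = Set.Iic k := by
          ext n
          simp only [Set.mem_ofPred_eq, Set.mem_Iic]
          exact hmono.le_iff_le
        rw [h2, csSup_Iic]
      rw [h1]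
      rfl

/-- The discretised functional. -/
noncomputable def Hfun (t : ℝ) (G : Set (ℤ × ℤ) → ℝ≥0∞) (ω : Sample) : ℝ≥0∞ :=
  ∑' j : ℕ, G (pull (rngN j 0 ω.1)) * (Aj t j).indicator 1 ω.2

lemma measurable_term (t : ℝ) (G : Set (ℤ × ℤ) → ℝ≥0∞) (j : ℕ) :
    Measurable (fun ω : Sample => G (pull (rngN j 0 ω.1)) * (Aj t j).indicator 1 ω.2) := by
  apply Measurable.mul
  · exact (measurable_rng j (fun R => G (pull R))).comp measurable_fst
  · exact (measurable_one.indicator (measurableSet_Aj t j)).comp measurable_snd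

lemma measurable_Hfun (t : ℝ) (G : Set (ℤ × ℤ) → ℝ≥0∞) : Measurable (Hfun t G) :=
  Measurable.tsum fun j => measurable_term t G j

lemma walkRange_ae {t : ℝ} (ht : 0 ≤ t) (G : Set (ℤ × ℤ) → ℝ≥0∞) :
    (fun ω => G (walkRange ω t)) =ᵐ[Pr] Hfun t G := by
  filter_upwards [ae_goodClock t] with ω hω
  obtain ⟨j, hj⟩ := exists_Aj ht hω
  unfold Hfun
  rw [tsum_eq_single j]
  · rw [Set.indicator_of_mem hj, walkRange_eq ω hω.1 hj]
    simp
  · intro i hi
    rw [Set.indicator_of_notMem, mul_zero]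
    intro hi2
    exact hi (Aj_unique hω.1 hi2 hj)

lemma lintegral_walkRange {t : ℝ} (ht : 0 ≤ t) (G : Set (ℤ × ℤ) → ℝ≥0∞) :
    ∫⁻ ω, G (walkRange ω t) ∂Pr = ∑' j : ℕ,
      (∑ c : Fin j → Fin 4, G (pull (rngN j 0 (ext4 j c))) * ENNReal.ofReal ((1 / 4) ^ j)) *
        ENNReal.ofReal (pw t j) := by
  rw [lintegral_congr_ae (walkRange_ae ht G)]
  unfold Hfun
  rw [lintegral_tsum fun j => (measurable_term t G j).aemeasurable]
  congr 1
  funext j
  rw [Pr_eq, lintegral_prod_mul (f := fun a => G (pull (rngN j 0 a)))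
    (g := fun τ => (Aj t j).indicator 1 τ)
    (measurable_rng j (fun R => G (pull R))).aemeasurable
    ((measurable_one.indicator (measurableSet_Aj t j)).aemeasurable)]
  congr 1
  · have h1 := lintegral_muA j (fun c => G (pull (rngN j 0 (ext4 j c))))
    rw [← h1]
    refine lintegral_congr fun a => ?_
    congr 2
    apply rngN_congr
    intro i hi
    rw [ext4, dif_pos hi]
  · rw [lintegral_indicator_one (measurableSet_Aj t j), muT_Aj ht]
    rfl

lemma lintegral_ofReal_walkRange {t : ℝ} (ht : 0 ≤ t) {F : Set (ℤ × ℤ) → ℝ}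
    (hF0 : ∀ G, 0 ≤ F G) (hF : Bd (fun R => F (pull R))) :
    ∫⁻ ω, ENNReal.ofReal (F (walkRange ω t)) ∂Pr = ENNReal.ofReal (Et t (fun R => F (pull R))) := by
  rw [lintegral_walkRange ht (fun G => ENNReal.ofReal (F G))]
  unfold Et
  rw [ENNReal.ofReal_tsum_of_nonneg (fun j => mul_nonneg (pw_nonneg ht j)
    (Ex_nonneg fun R => hF0 _)) (hF.summable ht)]
  congr 1
  funext j
  rw [mul_comm (pw t j), ENNReal.ofReal_mul (Ex_nonneg fun R => hF0 _)]
  congr 1
  rw [Ex_eq_sum, Finset.mul_sum, ENNReal.ofReal_sum_of_nonneg]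
  · refine Finset.sum_congr rfl fun c _ => ?_
    rw [mul_comm ((1 / 4 : ℝ) ^ j), ENNReal.ofReal_mul (hF0 _)]
  · intro c _
    exact mul_nonneg (by positivity) (hF0 _)

lemma Et_congr_on {F G : Finset W → ℝ} {t : ℝ} (h : ∀ R, RangeProp 0 R → F R = G R) :
    Et t F = Et t G := by
  unfold Et
  congr 1
  funext j
  rw [Ex_congr_on h]

/-- Weight of a set of lattice points. -/
noncomputable def wS (β : ℝ) (G : Set (ℤ × ℤ)) : ℝ :=
  Real.exp (-β * ((innerBoundary G).ncard : ℝ))

lemma wS_pos (β : ℝ) (G : Set (ℤ × ℤ)) : 0 < wS β G := Real.exp_pos _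

lemma wS_le_one {β : ℝ} (hβ : 0 ≤ β) (G : Set (ℤ × ℤ)) : wS β G ≤ 1 := by
  unfold wS
  rw [Real.exp_le_one_iff]
  have : 0 ≤ β * ((innerBoundary G).ncard : ℝ) := by positivity
  linarith

lemma wS_pull {β : ℝ} {R : Finset W} (hR : RangeProp 0 R) : wS β (pull R) = wt β R := by
  unfold wS wt
  rw [ncard_innerBoundary_pull hR]
  congr 1
  ring

lemma Bd_wS {β : ℝ} (hβ : 0 ≤ β) : Bd (fun R => wS β (pull R)) :=
  Bd.of_le_one (fun _ => (wS_pos β _).le) (fun _ => wS_le_one hβ _)

lemma Et_wS (β t : ℝ) : Et t (fun R => wS β (pull R)) = Et t (wt β) :=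
  Et_congr_on fun _ hR => wS_pull hR

lemma aemeasurable_walkRange {t : ℝ} (ht : 0 ≤ t) (G : Set (ℤ × ℤ) → ℝ≥0∞) :
    AEMeasurable (fun ω => G (walkRange ω t)) Pr :=
  ⟨Hfun t G, measurable_Hfun t G, walkRange_ae ht G⟩

lemma aemeasurable_wS {β t : ℝ} (ht : 0 ≤ t) :
    AEMeasurable (fun ω => wS β (walkRange ω t)) Pr := by
  have h := (aemeasurable_walkRange ht (fun G => ENNReal.ofReal (wS β G))).ennreal_toReal
  refine h.congr (Eventually.of_forall fun ω => ?_)
  exact ENNReal.toReal_ofReal (wS_pos β _).le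

lemma integral_wS {β t : ℝ} (hβ : 0 ≤ β) (ht : 0 ≤ t) :
    ∫ ω, wS β (walkRange ω t) ∂Pr = Et t (wt β) := by
  rw [integral_eq_lintegral_of_nonneg_ae (Eventually.of_forall fun ω => (wS_pos β _).le)
    (aemeasurable_wS ht).aestronglyMeasurable,
    lintegral_ofReal_walkRange ht (fun G => (wS_pos β G).le) (Bd_wS hβ), Et_wS,
    ENNReal.toReal_ofReal (Et_nonneg ht fun R => (wt_pos β R).le)]

lemma integrable_wS {β t : ℝ} (hβ : 0 ≤ β) (ht : 0 ≤ t) :
    Integrable (fun ω => wS β (walkRange ω t)) Pr := by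
  refine Integrable.of_bound (aemeasurable_wS ht).aestronglyMeasurable 1
    (Eventually.of_forall fun ω => ?_)
  rw [Real.norm_eq_abs, abs_of_pos (wS_pos β _)]
  exact wS_le_one hβ _

lemma isProbabilityMeasure_gibbs {β t : ℝ} (hβ : 0 ≤ β) (ht : 0 ≤ t) :
    IsProbabilityMeasure (gibbs β t) := by
  unfold gibbs
  exact isProbabilityMeasure_tilted (integrable_wS hβ ht)

/-- Gibbs probability of an event of the range. -/
lemma gibbs_apply {β t : ℝ} (hβ : 0 ≤ β) (ht : 0 ≤ t) (Q : Set (ℤ × ℤ) → Prop) :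
    gibbs β t {ω | Q (walkRange ω t)} =
      ENNReal.ofReal (Et t (fun R => ind (Q (pull R)) * wt β R) / Et t (wt β)) := by
  classical
  set B : Set Sample := {ω | Q (walkRange ω t)} with hB
  have hnull : NullMeasurableSet B Pr := by
    have h1 := aemeasurable_walkRange ht (fun G => ENNReal.ofReal (ind (Q G)))
    have h2 := h1.nullMeasurableSet_preimage (measurableSet_singleton (1 : ℝ≥0∞))
    have h3 : (fun ω => ENNReal.ofReal (ind (Q (walkRange ω t)))) ⁻¹' {1} = B := by
      ext ω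
      rw [Set.mem_preimage, Set.mem_singleton_iff, hB, Set.mem_ofPred_eq]
      by_cases hQ : Q (walkRange ω t)
      · rw [ind_true hQ]
        simp [hQ]
      · rw [ind_false hQ]
        simp [hQ]
    rwa [h3] at h2
  have h0 : gibbs β t B = ∫⁻ ω in B, ENNReal.ofReal (wS β (walkRange ω t) / Et t (wt β)) ∂Pr := by
    unfold gibbs
    rw [tilted_apply]
    have : ∫ ω, Real.exp (-β * ((innerBoundary (walkRange ω t)).ncard : ℝ)) ∂Pr
        = Et t (wt β) := integral_wS hβ ht
    rw [this]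
    rfl
  rw [h0, ← lintegral_indicator₀ hnull]
  have h1 : ∀ ω, B.indicator (fun ω => ENNReal.ofReal (wS β (walkRange ω t) / Et t (wt β))) ω
      = ENNReal.ofReal (ind (Q (walkRange ω t)) * wS β (walkRange ω t) / Et t (wt β)) := by
    intro ω
    by_cases hQ : Q (walkRange ω t)
    · rw [Set.indicator_of_mem (show ω ∈ B from hQ), ind_true hQ, one_mul]
    · rw [Set.indicator_of_notMem (show ω ∉ B from hQ), ind_false hQ]
      simp
  simp_rw [h1]
  have hZ : 0 ≤ Et t (wt β) := Et_nonneg ht fun R => (wt_pos β R).le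
  rw [lintegral_ofReal_walkRange (F := fun G => ind (Q G) * wS β G / Et t (wt β)) ht]
  · congr 1
    have h2 : Et t (fun R => ind (Q (pull R)) * wS β (pull R) / Et t (wt β))
        = Et t (fun R => (Et t (wt β))⁻¹ * (ind (Q (pull R)) * wt β R)) := by
      refine Et_congr_on fun R hR => ?_
      rw [wS_pull hR]
      ring
    rw [h2, Et_mul_left]
    ring
  · intro G
    exact div_nonneg (mul_nonneg (ind_nonneg _) (wS_pos β G).le) hZ
  · have h3 : Bd (fun R => ind (Q (pull R)) * wS β (pull R)) :=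
      Bd.of_le_one (fun R => mul_nonneg (ind_nonneg _) (wS_pos β _).le)
        (fun R => mul_le_one₀ (ind_le_one _) (wS_pos β _).le (wS_le_one hβ _))
    have h4 := h3.mul_left (Et t (wt β))⁻¹
    have e : (fun R => ind (Q (pull R)) * wS β (pull R) / Et t (wt β))
        = fun R => (Et t (wt β))⁻¹ * (ind (Q (pull R)) * wS β (pull R)) := by
      funext R
      ring
    rw [e]
    exact h4

end Pool.Agent.Helper92.Diamond
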