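import Pool.Agent.Helper92_Diamond.Wt
import Pool.Agent.Helper92_Diamond.Cover

set_option autoImplicit false

open Finset Real

namespace Pool.Agent.Helper92.Diamond

lemma card_bd_Dm (n : ℕ) : (bd (Dm n)).card ≤ 4 * (n + 1) := by
  classical
  have hsub : bd (Dm n) ⊆
      ((Finset.range (n + 1)).image (fun k : ℕ => (((n : ℤ), -(n : ℤ) + 2 * k) : W))) ∪
      ((Finset.range (n + 1)).image (fun k : ℕ => ((-(n : ℤ), -(n : ℤ) + 2 * k) : W))) ∪
      ((Finset.range (n + 1)).image (fun k : ℕ => ((-(n : ℤ) + 2 * k, (n : ℤ)) : W))) ∪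
      ((Finset.range (n + 1)).image (fun k : ℕ => ((-(n : ℤ) + 2 * k, -(n : ℤ)) : W))) := by
    intro y hy
    rw [mem_bd] at hy
    obtain ⟨hy, i, hi⟩ := hy
    have hd := dir_cases i
    rw [mem_Dm] at hy hi
    have e1 : (y + dir i).1 = y.1 + (dir i).1 := rfl
    have e2 : (y + dir i).2 = y.2 + (dir i).2 := rfl
    rw [e1, e2] at hi
    simp only [Finset.mem_union, Finset.mem_image, Finset.mem_range]
    have hcases : y.1 = n ∨ y.1 = -(n : ℤ) ∨ y.2 = n ∨ y.2 = -(n : ℤ) := by omega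
    rcases hcases with h | h | h | h
    · left; left; left
      exact ⟨((y.2 + n) / 2).toNat, by omega, by ext <;> simp only <;> omega⟩
    · left; left; right
      exact ⟨((y.2 + n) / 2).toNat, by omega, by ext <;> simp only <;> omega⟩
    · left; right
      exact ⟨((y.1 + n) / 2).toNat, by omega, by ext <;> simp only <;> omega⟩
    · right
      exact ⟨((y.1 + n) / 2).toNat, by omega, by ext <;> simp only <;> omega⟩
  refine (Finset.card_le_card hsub).trans ?_
  refine (Finset.card_union_le _ _).trans ?_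
  have h1 := Finset.card_union_le
    (((Finset.range (n + 1)).image (fun k : ℕ => (((n : ℤ), -(n : ℤ) + 2 * k) : W))) ∪
      ((Finset.range (n + 1)).image (fun k : ℕ => ((-(n : ℤ), -(n : ℤ) + 2 * k) : W))))
    ((Finset.range (n + 1)).image (fun k : ℕ => ((-(n : ℤ) + 2 * k, (n : ℤ)) : W)))
  have h2 := Finset.card_union_le
    ((Finset.range (n + 1)).image (fun k : ℕ => (((n : ℤ), -(n : ℤ) + 2 * k) : W)))
    ((Finset.range (n + 1)).image (fun k : ℕ => ((-(n : ℤ), -(n : ℤ) + 2 * k) : W)))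
  have c1 := Finset.card_image_le (s := Finset.range (n + 1))
    (f := fun k : ℕ => (((n : ℤ), -(n : ℤ) + 2 * k) : W))
  have c2 := Finset.card_image_le (s := Finset.range (n + 1))
    (f := fun k : ℕ => ((-(n : ℤ), -(n : ℤ) + 2 * k) : W))
  have c3 := Finset.card_image_le (s := Finset.range (n + 1))
    (f := fun k : ℕ => ((-(n : ℤ) + 2 * k, (n : ℤ)) : W))
  have c4 := Finset.card_image_le (s := Finset.range (n + 1))
    (f := fun k : ℕ => ((-(n : ℤ) + 2 * k, -(n : ℤ)) : W))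
  rw [Finset.card_range] at c1 c2 c3 c4
  omega

theorem lower_Z : ∃ K : ℝ, 1 ≤ K ∧ ∀ β : ℝ, 0 < β → ∃ N₀ : ℝ, ∀ N : ℝ, N₀ ≤ N →
    exp (-((6 * β + K) * N + (8 * β + K))) / 2 ≤ Et (tN β N) (wt β) := by
  obtain ⟨n₀, K, hn₀, hK, hcov⟩ := full_cover
  refine ⟨K, hK, fun β hβ => ?_⟩
  refine ⟨n₀ + 5 + 1 / (2 * β) + K * 2 ^ 11 * (π ^ 2 / (2 * β)) ^ 4, fun N hN => ?_⟩
  have hβ' : 0 < 1 / (2 * β) := by positivity
  have hK' : 0 < K * 2 ^ 11 * (π ^ 2 / (2 * β)) ^ 4 := by
    have := pi_pos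
    positivity
  have hn₀' : (1 : ℝ) ≤ n₀ := by exact_mod_cast hn₀
  have hN5 : 5 ≤ N := by linarith
  have hN1 : 1 / (2 * β) ≤ N := by linarith
  have hN2 : K * 2 ^ 11 * (π ^ 2 / (2 * β)) ^ 4 ≤ N := by linarith
  have hN0 : (n₀ : ℝ) ≤ N := by linarith
  set n := ⌈N⌉₊ with hn
  have hnN : N ≤ n := Nat.le_ceil N
  have hnN' : (n : ℝ) < N + 1 := Nat.ceil_lt_add_one (by linarith)
  have hnn : n₀ ≤ n := by
    have : (n₀ : ℝ) ≤ n := hN0.trans hnN
    exact_mod_cast this
  obtain ⟨T, hT, hc⟩ := hcov n hnn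
  set t := tN β N with ht
  have hpi2 : 0 < π ^ 2 := by positivity
  have ht0 : 0 ≤ t := by
    rw [ht]
    unfold tN
    positivity
  -- bound on `T`
  have hTt : (T : ℝ) ≤ t / 4 := by
    have h1 : (T : ℝ) ^ 4 ≤ (t / 4) ^ 4 := by
      refine hT.trans ?_
      have h2 : (n : ℝ) ^ 11 ≤ (2 * N) ^ 11 := by
        apply pow_le_pow_left₀ (Nat.cast_nonneg n)
        linarith
      have h3 : K * (n : ℝ) ^ 11 ≤ K * (2 * N) ^ 11 :=
        mul_le_mul_of_nonneg_left h2 (by linarith)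
      refine h3.trans ?_
      have h4 : (t / 4) ^ 4 = N ^ 12 * (2 * β / π ^ 2) ^ 4 := by
        rw [ht]
        unfold tN
        ring
      rw [h4]
      have h5 : K * 2 ^ 11 * (π ^ 2 / (2 * β)) ^ 4 * (2 * β / π ^ 2) ^ 4 = K * 2 ^ 11 := by
        rw [mul_assoc, ← mul_pow]
        have : π ^ 2 / (2 * β) * (2 * β / π ^ 2) = 1 := by
          field_simp
        rw [this, one_pow, mul_one]
      have h6 : K * 2 ^ 11 ≤ N * (2 * β / π ^ 2) ^ 4 := by
        rw [← h5]
        exact mul_le_mul_of_nonneg_right hN2 (by positivity)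
      calc K * (2 * N) ^ 11 = (K * 2 ^ 11) * N ^ 11 := by ring
        _ ≤ (N * (2 * β / π ^ 2) ^ 4) * N ^ 11 :=
            mul_le_mul_of_nonneg_right h6 (by positivity)
        _ = N ^ 12 * (2 * β / π ^ 2) ^ 4 := by ring
    exact le_of_pow_le_pow_left₀ (by norm_num) (by positivity) h1
  have ht4 : 2 * β * N + 1 ≤ t / 4 := by
    have h1 : t / 4 = 2 * β * N * (N ^ 2 / π ^ 2) := by
      rw [ht]
      unfold tN
      ring
    rw [h1]
    have h2 : 2 ≤ N ^ 2 / π ^ 2 := by
      rw [le_div_iff₀ hpi2]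
      have : π ^ 2 ≤ 9.87 := sq_pi_le
      nlinarith
    have h3 : 1 ≤ 2 * β * N := by
      rw [div_le_iff₀ (by positivity)] at hN1
      linarith
    nlinarith
  -- the main lower bound
  set c := exp (-(4 * β * (n + 1) + K * n)) with hcdef
  have hmain := Et_ge_of_le_Ex (F := wt β) (t := t) (c := c) (ρ := rho n) (T := T)
    (Bd_wt hβ.le) (fun R => (wt_pos β R).le) ht0 (exp_pos _).le (rho_nonneg n) (rho_le_one n)
    (by
      intro j hj
      obtain ⟨d, rfl⟩ := Nat.exists_eq_add_of_le hj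
      have h1 := stc_ge_cov_mul (Dm n) 0 T d 0 (Dm n)
      have h2 := stay_ge_zero n (T + d)
      have h3 : exp (-(K * n)) * rho n ^ (T + d) ≤ stc (Dm n) (T + d) 0 (Dm n) :=
        le_trans (mul_le_mul hc h2 (pow_nonneg (rho_nonneg n) _) (cov_nonneg _ _ _ _ _)) h1
      have h4 : exp (-(4 * β * (n + 1))) * stc (Dm n) (T + d) 0 (Dm n) ≤ Ex (T + d) 0 (wt β) := by
        unfold stc
        rw [← Ex_mul_left]
        refine Ex_mono fun R => ?_
        by_cases hR : R ⊆ Dm n ∧ Dm n ⊆ R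
        · rw [ind_true hR, mul_one]
          have : R = Dm n := Finset.Subset.antisymm hR.1 hR.2
          rw [this]
          unfold wt
          apply exp_le_exp.2
          have h5 : ((bd (Dm n)).card : ℝ) ≤ 4 * (n + 1) := by exact_mod_cast card_bd_Dm n
          nlinarith
        · rw [ind_false hR, mul_zero]
          exact (wt_pos β R).le
      have h5 : c = exp (-(4 * β * (n + 1))) * exp (-(K * n)) := by
        rw [hcdef, ← exp_add]
        congr 1
        ring
      rw [h5, mul_assoc]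
      exact (mul_le_mul_of_nonneg_left h3 (exp_pos _).le).trans h4)
  refine le_trans ?_ hmain
  have hE1 : exp (-(2 * β * N)) ≤ exp (-(t * (1 - rho n))) := by
    apply exp_le_exp.2
    rw [neg_le_neg_iff]
    have h1 := two_sub_two_cos_le (π / ((n : ℝ) + 1))
    have h2 : 1 - rho n ≤ (π / ((n : ℝ) + 1)) ^ 2 / 4 := by
      rw [rho_eq]
      linarith
    have h3 : t * (1 - rho n) ≤ t * ((π / ((n : ℝ) + 1)) ^ 2 / 4) :=
      mul_le_mul_of_nonneg_left h2 ht0
    refine h3.trans ?_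
    have h4 : t * ((π / ((n : ℝ) + 1)) ^ 2 / 4) = 2 * β * N * (N ^ 2 / ((n : ℝ) + 1) ^ 2) := by
      rw [ht]
      unfold tN
      field_simp
      ring
    rw [h4]
    have h5 : N ^ 2 / ((n : ℝ) + 1) ^ 2 ≤ 1 := by
      rw [div_le_one (by positivity)]
      apply pow_le_pow_left₀ (by linarith)
      linarith
    have h6 : 0 ≤ 2 * β * N := by positivity
    nlinarith
  have hE2 : exp (T - t / 2) ≤ exp (-(2 * β * N)) / 2 := by
    have h1 : exp (T - t / 2) ≤ exp (-(2 * β * N) - 1) := by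
      apply exp_le_exp.2
      linarith
    refine h1.trans ?_
    rw [exp_sub]
    apply div_le_div_of_nonneg_left (exp_pos _).le (by norm_num)
    linarith [add_one_le_exp (1 : ℝ)]
  have hc0 : exp (-(4 * β * (N + 2) + K * (N + 1))) ≤ c := by
    rw [hcdef]
    apply exp_le_exp.2
    nlinarith
  have hfin : exp (-(2 * β * N)) / 2 ≤ exp (-(t * (1 - rho n))) - exp (T - t / 2) := by linarith
  calc exp (-((6 * β + K) * N + (8 * β + K))) / 2
      = exp (-(4 * β * (N + 2) + K * (N + 1))) * (exp (-(2 * β * N)) / 2) := by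
        rw [← mul_div_assoc, ← exp_add]
        congr 2
        ring
    _ ≤ c * (exp (-(t * (1 - rho n))) - exp (T - t / 2)) :=
        mul_le_mul hc0 hfin (by positivity) (exp_pos _).le

end Pool.Agent.Helper92.Diamond
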