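import Pool.Agent.Helper92_Diamond.Good
import Pool.Agent.Helper92_Diamond.Bad1
import Pool.Agent.Helper92_Diamond.Bad2

set_option autoImplicit false

open Finset Real

namespace Pool.Agent.Helper92.Diamond

/-- Weights of the first kind. -/
noncomputable def c1 (β η N : ℝ) (i : ℕ × Finset ℤ × Finset ℤ) : ℝ :=
  ind (i.2.1.card + i.2.2.card ≤ i.1 ∧ ¬ Good3 η N i.1 i.2.1 i.2.2) * exp (-(β * i.1))

/-- Weights of the second kind. -/
noncomputable def c2 (β η N : ℝ) (l : ℕ) (i : (ℕ × Finset ℤ × Finset ℤ) × ℤ × ℤ) : ℝ :=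
  ind (i.1.2.1.card + i.1.2.2.card ≤ i.1.1 ∧ Good3 η N i.1.1 i.1.2.1 i.1.2.2 ∧
    ((Finset.Icc i.2.1 (i.2.1 + 3 * l) \ i.1.2.1).card : ℝ) ≤ 6 * η * N ∧
    ((Finset.Icc i.2.2 (i.2.2 + 3 * l) \ i.1.2.2).card : ℝ) ≤ 6 * η * N) * exp (-(β * i.1.1))

lemma c1_nonneg (β η N : ℝ) (i : ℕ × Finset ℤ × Finset ℤ) : 0 ≤ c1 β η N i :=
  mul_nonneg (ind_nonneg _) (exp_pos _).le

lemma c2_nonneg (β η N : ℝ) (l : ℕ) (i : (ℕ × Finset ℤ × Finset ℤ) × ℤ × ℤ) :
    0 ≤ c2 β η N l i :=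
  mul_nonneg (ind_nonneg _) (exp_pos _).le

/-- Window of coordinates. -/
noncomputable def QQ (M : ℕ) : Finset ℤ := Finset.Icc (-(M : ℤ)) M

/-- First index set. -/
noncomputable def s1 (K : ℕ) : Finset (ℕ × Finset ℤ × Finset ℤ) :=
  Finset.range (K + 1) ×ˢ ((QQ (2 * K)).powerset ×ˢ (QQ (2 * K)).powerset)

/-- Second index set. -/
noncomputable def s2 (K : ℕ) : Finset ((ℕ × Finset ℤ × Finset ℤ) × ℤ × ℤ) :=
  s1 K ×ˢ (QQ (2 * K) ×ˢ QQ (2 * K))

lemma image_subset_QQ {M : ℕ} {R : Finset W} (h : R ⊆ Dm M) :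
    R.image Prod.fst ⊆ QQ M ∧ R.image Prod.snd ⊆ QQ M := by
  constructor
  · intro c hc
    rw [Finset.mem_image] at hc
    obtain ⟨y, hy, rfl⟩ := hc
    have := mem_Dm.1 (h hy)
    unfold QQ
    rw [Finset.mem_Icc]
    exact this.1
  · intro c hc
    rw [Finset.mem_image] at hc
    obtain ⟨y, hy, rfl⟩ := hc
    have := mem_Dm.1 (h hy)
    unfold QQ
    rw [Finset.mem_Icc]
    exact this.2.1

/-- Pointwise union bound. -/
lemma pointwise_bound {β d N : ℝ} (hβ : 0 ≤ β) (hd0 : 0 < d) (hN : 400 / d ≤ N)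
    {R : Finset W} (hR : RangeProp 0 R) :
    ind (¬ GoodR d N R) * wt β R ≤ exp (-(7 * β * N)) +
      (∑ i ∈ s1 ⌊7 * N⌋₊, c1 β (d / 100) N i *
        ind (EvA (2 * ⌊7 * N⌋₊) i.1 i.2.1 i.2.2 R)) +
      ∑ i ∈ s2 ⌊7 * N⌋₊, c2 β (d / 100) N ⌈4 * d * N⌉₊ i *
        ind (EvB (2 * ⌊7 * N⌋₊) i.1.1 i.1.2.1 i.1.2.2 i.2.1 i.2.2 ⌈4 * d * N⌉₊ R) := by
  classical
  set K := ⌊7 * N⌋₊ with hK
  set l := ⌈4 * d * N⌉₊ with hl
  have hS1 : 0 ≤ ∑ i ∈ s1 K, c1 β (d / 100) N i * ind (EvA (2 * K) i.1 i.2.1 i.2.2 R) :=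
    Finset.sum_nonneg fun i _ => mul_nonneg (c1_nonneg _ _ _ _) (ind_nonneg _)
  have hS2 : 0 ≤ ∑ i ∈ s2 K, c2 β (d / 100) N l i *
      ind (EvB (2 * K) i.1.1 i.1.2.1 i.1.2.2 i.2.1 i.2.2 l R) :=
    Finset.sum_nonneg fun i _ => mul_nonneg (c2_nonneg _ _ _ _ _) (ind_nonneg _)
  have hE := (exp_pos (-(7 * β * N))).le
  by_cases hG : GoodR d N R
  · rw [ind_false (not_not.2 hG), zero_mul]
    linarith
  rw [ind_true hG, one_mul]
  set k := (bd R).card with hk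
  by_cases hbig : 7 * N < k
  · have : wt β R ≤ exp (-(7 * β * N)) := by
      unfold wt
      apply exp_le_exp.2
      rw [neg_le_neg_iff]
      have := mul_le_mul_of_nonneg_left hbig.le hβ
      linarith
    linarith
  push Not at hbig
  have hd400 : 0 < 400 / d := by positivity
  have hN0 : 0 < N := by linarith
  have hkK : k ≤ K := Nat.le_floor hbig
  have hsub : R ⊆ Dm (2 * K) := range_subset hR hkK
  obtain ⟨hI1, hI2⟩ := image_subset_QQ hsub
  have hcardUV : (Uset R).card + (Vset R).card ≤ k := by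
    have := card_bd_ge_fst R
    omega
  have hUQ : Uset R ⊆ QQ (2 * K) := (Uset_subset R).trans hI1
  have hVQ : Vset R ⊆ QQ (2 * K) := (Vset_subset R).trans hI2
  have hmem1 : ((k, Uset R, Vset R) : ℕ × Finset ℤ × Finset ℤ) ∈ s1 K := by
    unfold s1
    rw [Finset.mem_product, Finset.mem_product, Finset.mem_range, Finset.mem_powerset,
      Finset.mem_powerset]
    exact ⟨by omega, hUQ, hVQ⟩
  have hEvA : EvA (2 * K) k (Uset R) (Vset R) R := ⟨hsub, rfl, rfl, rfl⟩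
  by_cases hG3 : Good3 (d / 100) N k (Uset R) (Vset R)
  · -- second kind
    have hnd : ¬ Dense l R := fun h => hG ⟨hG3, h⟩
    unfold Dense at hnd
    push Not at hnd
    obtain ⟨a, b, ha, hb, hab⟩ := hnd
    have haQ : a ∈ QQ (2 * K) := hI1 (ha (Finset.mem_Icc.2 (by omega)))
    have hbQ : b ∈ QQ (2 * K) := hI2 (hb (Finset.mem_Icc.2 (by omega)))
    have hmem2 : (((k, Uset R, Vset R), a, b) : (ℕ × Finset ℤ × Finset ℤ) × ℤ × ℤ) ∈ s2 K := by
      unfold s2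
      rw [Finset.mem_product, Finset.mem_product]
      exact ⟨hmem1, haQ, hbQ⟩
    have hNd : 400 ≤ d * N := by
      rw [div_le_iff₀ hd0] at hN
      linarith
    have hJ1 : ((Finset.Icc a (a + 3 * l) \ Uset R).card : ℝ) ≤ 6 * (d / 100) * N := by
      have h1 : (Finset.Icc a (a + 3 * (l : ℤ)) \ Uset R).card
          ≤ ((R.image Prod.fst) \ Uset R).card := sdiff_card_mono ha
      have h1' : ((Finset.Icc a (a + 3 * (l : ℤ)) \ Uset R).card : ℝ)
          ≤ ((R.image Prod.fst) \ Uset R).card := by exact_mod_cast h1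
      have h2 := hG3.fst_le
      linarith
    have hJ2 : ((Finset.Icc b (b + 3 * l) \ Vset R).card : ℝ) ≤ 6 * (d / 100) * N := by
      have h1 : (Finset.Icc b (b + 3 * (l : ℤ)) \ Vset R).card
          ≤ ((R.image Prod.snd) \ Vset R).card := sdiff_card_mono hb
      have h1' : ((Finset.Icc b (b + 3 * (l : ℤ)) \ Vset R).card : ℝ)
          ≤ ((R.image Prod.snd) \ Vset R).card := by exact_mod_cast h1
      have h2 := hG3.snd_le
      linarith
    have hEvB : EvB (2 * K) k (Uset R) (Vset R) a b l R :=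
      ⟨hEvA, fun x hx h => hab x hx h.1 h.2⟩
    have hterm : wt β R ≤ c2 β (d / 100) N l ((k, Uset R, Vset R), a, b) *
        ind (EvB (2 * K) k (Uset R) (Vset R) a b l R) := by
      unfold c2
      rw [ind_true hEvB, mul_one, ind_true ⟨hcardUV, hG3, hJ1, hJ2⟩, one_mul]
      exact le_rfl
    have := Finset.single_le_sum (f := fun i => c2 β (d / 100) N l i *
      ind (EvB (2 * K) i.1.1 i.1.2.1 i.1.2.2 i.2.1 i.2.2 l R))
      (fun i _ => mul_nonneg (c2_nonneg _ _ _ _ _) (ind_nonneg _)) hmem2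
    simp only at this
    linarith
  · have hterm : wt β R ≤ c1 β (d / 100) N (k, Uset R, Vset R) *
        ind (EvA (2 * K) k (Uset R) (Vset R) R) := by
      unfold c1
      rw [ind_true hEvA, mul_one, ind_true ⟨hcardUV, hG3⟩, one_mul]
      exact le_rfl
    have := Finset.single_le_sum (f := fun i => c1 β (d / 100) N i *
      ind (EvA (2 * K) i.1 i.2.1 i.2.2 R))
      (fun i _ => mul_nonneg (c1_nonneg _ _ _ _) (ind_nonneg _)) hmem1
    simp only at this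
    linarith

lemma card_s1 (K : ℕ) : ((s1 K).card : ℝ) ≤ exp (K + (8 * K + 2)) := by
  have h1 : (s1 K).card = (K + 1) * (2 ^ (4 * K + 1) * 2 ^ (4 * K + 1)) := by
    unfold s1 QQ
    rw [Finset.card_product, Finset.card_product, Finset.card_range, Finset.card_powerset,
      Int.card_Icc]
    have : (((2 * K : ℕ) : ℤ) + 1 - -((2 * K : ℕ) : ℤ)).toNat = 4 * K + 1 := by omega
    rw [this]
  rw [h1, exp_add]
  push_cast
  have h2 : (K : ℝ) + 1 ≤ exp K := add_one_le_exp _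
  have h3 : (2 : ℝ) ^ (4 * K + 1) * 2 ^ (4 * K + 1) ≤ exp (8 * K + 2) := by
    have h4 : (2 : ℝ) ≤ exp 1 := by linarith [add_one_le_exp (1 : ℝ)]
    calc (2 : ℝ) ^ (4 * K + 1) * 2 ^ (4 * K + 1) = 2 ^ (8 * K + 2) := by
          rw [← pow_add]
          congr 1
          ring
      _ ≤ exp 1 ^ (8 * K + 2) := pow_le_pow_left₀ (by norm_num) h4 _
      _ = exp (8 * K + 2) := by
          rw [← exp_nat_mul]
          congr 1
          push_cast
          ring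
  exact mul_le_mul h2 h3 (by positivity) (exp_pos _).le

lemma card_s2 (K : ℕ) : ((s2 K).card : ℝ) = (s1 K).card * (4 * K + 1) ^ 2 := by
  have h1 : (s2 K).card = (s1 K).card * ((4 * K + 1) * (4 * K + 1)) := by
    unfold s2 QQ
    rw [Finset.card_product, Finset.card_product, Int.card_Icc]
    have : (((2 * K : ℕ) : ℤ) + 1 - -((2 * K : ℕ) : ℤ)).toNat = 4 * K + 1 := by omega
    rw [this]
  rw [h1]
  push_cast
  ring

/-- Numerical step for the first family. -/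
lemma energy_const1 {β N κ c₀ d s : ℝ} (hβ : 0 < β) (hN0 : 0 < N) (hκ0 : 0 < κ)
    (hκc : 49 / κ ≤ c₀ / 2) (hκN2 : 16 + 8 * κ ≤ c₀ / 4 * N) (hc₀pos : 0 < c₀) (hc₀le : c₀ ≤ 1)
    (hsge : 1 - 7 / κ ≤ s) (hs0 : 0 ≤ s) (hη8 : c₀ ≤ d ^ 2 / 8) :
    (6 + c₀ / 4) * β * N ≤ β * s * ((6 + d ^ 2 / 8) * N - 16 - 8 * κ) := by
  have hcN : 0 < c₀ * N := mul_pos hc₀pos hN0
  have hcN1 : c₀ * N ≤ 1 * N := mul_le_mul_of_nonneg_right hc₀le hN0.le
  have h1 : (6 + c₀) * N - 16 - 8 * κ ≤ (6 + d ^ 2 / 8) * N - 16 - 8 * κ := by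
    have := mul_le_mul_of_nonneg_right (show 6 + c₀ ≤ 6 + d ^ 2 / 8 by linarith) hN0.le
    linarith
  have h2 : β * s * ((6 + c₀) * N - 16 - 8 * κ) ≤
      β * s * ((6 + d ^ 2 / 8) * N - 16 - 8 * κ) :=
    mul_le_mul_of_nonneg_left h1 (mul_nonneg hβ.le hs0)
  refine le_trans ?_ h2
  have h3 : 0 ≤ (6 + c₀) * N - 16 - 8 * κ := by linarith
  have h4 : (1 - 7 / κ) * ((6 + c₀) * N - 16 - 8 * κ) ≤
      s * ((6 + c₀) * N - 16 - 8 * κ) := mul_le_mul_of_nonneg_right hsge h3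
  have h5 : (6 + c₀ / 4) * N ≤ (1 - 7 / κ) * ((6 + c₀) * N - 16 - 8 * κ) := by
    have h6 : 7 / κ * ((6 + c₀) * N - 16 - 8 * κ) ≤ 7 / κ * (7 * N) := by
      apply mul_le_mul_of_nonneg_left _ (by positivity)
      linarith
    have h7 : 7 / κ * (7 * N) = 49 / κ * N := by ring
    have h8 : 49 / κ * N ≤ c₀ / 2 * N := mul_le_mul_of_nonneg_right hκc hN0.le
    linarith
  calc (6 + c₀ / 4) * β * N = β * ((6 + c₀ / 4) * N) := by ring
    _ ≤ β * (s * ((6 + c₀) * N - 16 - 8 * κ)) :=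
        mul_le_mul_of_nonneg_left (h5.trans h4) hβ.le
    _ = β * s * ((6 + c₀) * N - 16 - 8 * κ) := by ring

/-- Numerical step for the second family. -/
lemma energy_const2 {β N κ c₀ D s : ℝ} (hβ : 0 < β) (hN0 : 0 < N) (hκ0 : 0 < κ)
    (hκc : 49 / κ ≤ c₀ / 2) (hκN2 : 16 + 8 * κ ≤ c₀ / 4 * N) (hc₀pos : 0 < c₀) (hc₀le : c₀ ≤ 1)
    (hsge : 1 - 7 / κ ≤ s) (hd4 : c₀ ≤ D / 1920) :
    (6 + c₀ / 4) * β * N ≤ β * s * (6 * N - 12 - 8 * κ) + β * N * D / 1920 := by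
  have hcN : 0 < c₀ * N := mul_pos hc₀pos hN0
  have hcN1 : c₀ * N ≤ 1 * N := mul_le_mul_of_nonneg_right hc₀le hN0.le
  have h3 : 0 ≤ 6 * N - 12 - 8 * κ := by linarith
  have h4 : (1 - 7 / κ) * (6 * N - 12 - 8 * κ) ≤
      s * (6 * N - 12 - 8 * κ) := mul_le_mul_of_nonneg_right hsge h3
  have h5 : (6 + c₀ / 4) * N ≤ (1 - 7 / κ) * (6 * N - 12 - 8 * κ) + N * c₀ := by
    have h6 : 7 / κ * (6 * N - 12 - 8 * κ) ≤ 7 / κ * (7 * N) := by
      apply mul_le_mul_of_nonneg_left _ (by positivity)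
      linarith
    have h7 : 7 / κ * (7 * N) = 49 / κ * N := by ring
    have h8 : 49 / κ * N ≤ c₀ / 2 * N := mul_le_mul_of_nonneg_right hκc hN0.le
    linarith
  have h9 : N * c₀ ≤ N * D / 1920 := by
    have := mul_le_mul_of_nonneg_left hd4 hN0.le
    linarith
  calc (6 + c₀ / 4) * β * N = β * ((6 + c₀ / 4) * N) := by ring
    _ ≤ β * (s * (6 * N - 12 - 8 * κ) + N * D / 1920) :=
        mul_le_mul_of_nonneg_left (by linarith) hβ.le
    _ = β * s * (6 * N - 12 - 8 * κ) + β * N * D / 1920 := by ring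

lemma four_le_exp_two : (4 : ℝ) ≤ exp 2 := by
  have h4 : (2 : ℝ) ≤ exp 1 := by linarith [add_one_le_exp (1 : ℝ)]
  have : exp (2 : ℝ) = exp 1 * exp 1 := by
    rw [← exp_add]
    norm_num
  rw [this]
  have := mul_le_mul h4 h4 (by norm_num) (exp_pos 1).le
  linarith

lemma entropy_aux1 (K : ℕ) : (1 : ℝ) + (4 * K + 1) ^ 2 ≤ exp 1 * exp (8 * K) := by
  have h2 : (4 : ℝ) * K + 1 ≤ exp (4 * K) := add_one_le_exp _
  have h7 : (4 * (K : ℝ) + 1) ^ 2 ≤ exp (8 * K) := by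
    have : exp (8 * (K : ℝ)) = exp (4 * K) ^ 2 := by
      rw [← exp_nat_mul]
      congr 1
      push_cast
      ring
    rw [this]
    exact pow_le_pow_left₀ (by positivity) h2 2
  have h8 : (1 : ℝ) ≤ exp (8 * K) := one_le_exp (by positivity)
  have h9 : (2 : ℝ) ≤ exp 1 := by linarith [add_one_le_exp (1 : ℝ)]
  have := mul_le_mul_of_nonneg_right h9 (exp_pos (8 * (K : ℝ))).le
  linarith

lemma entropy_count (K : ℕ) (E : ℝ) (hE : 0 ≤ E) :
    ((s1 K).card : ℝ) * ((4 : ℝ) ^ K * (2 * ((2 * K : ℕ) : ℝ) + 1) * E) +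
      (s2 K).card * ((4 : ℝ) ^ K * (2 * ((2 * K : ℕ) : ℝ) + 1) * E) ≤ exp (3 + 23 * K) * E := by
  rw [card_s2]
  have h1 := card_s1 K
  have h2 : (4 : ℝ) * K + 1 ≤ exp (4 * K) := add_one_le_exp _
  have h3 : (4 : ℝ) ^ K ≤ exp (2 * K) := by
    calc (4 : ℝ) ^ K ≤ exp 2 ^ K := pow_le_pow_left₀ (by norm_num) four_le_exp_two K
      _ = exp (2 * K) := by
          rw [← exp_nat_mul]
          congr 1
          ring
  have h6 := entropy_aux1 K
  have e1 : ((2 * K : ℕ) : ℝ) = 2 * K := by push_cast; ring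
  rw [e1]
  have e2 : ((s1 K).card : ℝ) * ((4 : ℝ) ^ K * (2 * (2 * K) + 1) * E)
      + (s1 K).card * (4 * K + 1) ^ 2 * ((4 : ℝ) ^ K * (2 * (2 * K) + 1) * E)
      = ((s1 K).card * (1 + (4 * K + 1) ^ 2) * ((4 : ℝ) ^ K * (4 * K + 1))) * E := by ring
  rw [e2]
  apply mul_le_mul_of_nonneg_right _ hE
  have h10 : ((s1 K).card : ℝ) * (1 + (4 * K + 1) ^ 2) * ((4 : ℝ) ^ K * (4 * K + 1)) ≤
      exp (K + (8 * K + 2)) * (exp 1 * exp (8 * K)) * (exp (2 * K) * exp (4 * K)) := by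
    apply mul_le_mul _ _ (by positivity) (by positivity)
    · exact mul_le_mul h1 h6 (by positivity) (by positivity)
    · exact mul_le_mul h3 h2 (by positivity) (by positivity)
  refine h10.trans (le_of_eq ?_)
  rw [← exp_add, ← exp_add, ← exp_add, ← exp_add]
  congr 1
  ring

/-- Upper bound for the bad event. -/
theorem upper_bad {d : ℝ} (hd0 : 0 < d) (hd1 : d ≤ 1 / 10) : ∃ c : ℝ, 0 < c ∧ ∀ β : ℝ, 0 < β →
    ∃ N₀ : ℝ, ∀ N : ℝ, N₀ ≤ N →
    Et (tN β N) (fun R => ind (¬ GoodR d N R) * wt β R) ≤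
      exp (-(7 * β * N)) + exp (161 * N + 3 - (6 + c) * β * N) := by
  set c₀ := d ^ 4 / 80000 with hc₀
  have hc₀pos : 0 < c₀ := by positivity
  have hc₀le : c₀ ≤ 1 := by
    rw [hc₀]
    have : d ^ 4 ≤ 1 := pow_le_one₀ hd0.le (by linarith)
    linarith
  set κ := 98 / c₀ + 7 with hκdef
  have h98 : 0 < 98 / c₀ := by positivity
  have hκ6 : 6 ≤ κ := by linarith
  have hκ0 : 0 < κ := by linarith
  have hκc : 49 / κ ≤ c₀ / 2 := by
    rw [div_le_div_iff₀ hκ0 (by norm_num)]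
    have : c₀ * κ = 98 + 7 * c₀ := by
      rw [hκdef]
      field_simp
    linarith
  refine ⟨c₀ / 4, by positivity, fun β hβ => ?_⟩
  refine ⟨3000 / d + 4 * κ / d + 100 + 400 / d + 4 * (3 + 2 * κ) / (d / 100)
    + 4 * (16 + 8 * κ) / c₀, fun N hN => ?_⟩
  have t1 : 0 < 3000 / d := by positivity
  have t2 : 0 < 4 * κ / d := by positivity
  have t3 : 0 < 400 / d := by positivity
  have t4 : 0 < 4 * (3 + 2 * κ) / (d / 100) := by positivity
  have t5 : 0 < 4 * (16 + 8 * κ) / c₀ := by positivity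
  have hN1 : 3000 / d + 4 * κ / d + 100 ≤ N := by linarith
  have hN2 : 400 / d ≤ N := by linarith
  have hN3 : 4 * (3 + 2 * κ) / (d / 100) ≤ N := by linarith
  have hN4 : 4 * (16 + 8 * κ) / c₀ ≤ N := by linarith
  have hN0 : 0 < N := by linarith
  have hκN : 3 + 2 * κ ≤ d / 100 * N / 4 := by
    rw [div_le_iff₀ (by positivity)] at hN3
    linarith
  have hκN2 : 16 + 8 * κ ≤ c₀ / 4 * N := by
    rw [div_le_iff₀ hc₀pos] at hN4
    linarith
  have hsge := sfac_ge (show 1 ≤ κ by linarith)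
  have hsle := sfac_le (show 1 ≤ κ by linarith)
  have hs0 := sfac_nonneg (show 1 ≤ κ by linarith)
  have hη8 : c₀ ≤ (d / 100) ^ 2 / 8 := by
    rw [hc₀]
    have h1 : d ^ 2 ≤ 1 := pow_le_one₀ hd0.le (by linarith)
    have h2 : d ^ 4 = d ^ 2 * d ^ 2 := by ring
    rw [h2]
    nlinarith [sq_nonneg d]
  have hd4 : c₀ ≤ d ^ 4 / 1920 := by
    rw [hc₀]
    have : 0 < d ^ 4 := by positivity
    linarith
  -- energies
  have hEn1 : (6 + c₀ / 4) * β * N ≤
      β * sfac κ * ((6 + (d / 100) ^ 2 / 8) * N - 16 - 8 * κ) :=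
    energy_const1 hβ hN0 hκ0 hκc hκN2 hc₀pos hc₀le hsge hs0 hη8
  have hEn2 : (6 + c₀ / 4) * β * N ≤
      β * sfac κ * (6 * N - 12 - 8 * κ) + β * N * d ^ 4 / 1920 :=
    energy_const2 hβ hN0 hκ0 hκc hκN2 hc₀pos hc₀le hsge hd4
  set K := ⌊7 * N⌋₊ with hK
  set l := ⌈4 * d * N⌉₊ with hl
  set t := tN β N with ht
  have ht0 : 0 ≤ t := by
    rw [ht]
    unfold tN
    positivity
  have hK7 : (K : ℝ) ≤ 7 * N := Nat.floor_le (by positivity)
  set B := (4 : ℝ) ^ K * (2 * ((2 * K : ℕ) : ℝ) + 1) * exp (-((6 + c₀ / 4) * β * N)) with hB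
  have hB0 : 0 ≤ B := by positivity
  have hbd1 : ∀ i ∈ s1 K, Bd (fun R => c1 β (d / 100) N i *
      ind (EvA (2 * K) i.1 i.2.1 i.2.2 R)) := fun i _ => (Bd.ind _).mul_left _
  have hbd2 : ∀ i ∈ s2 K, Bd (fun R => c2 β (d / 100) N l i *
      ind (EvB (2 * K) i.1.1 i.1.2.1 i.1.2.2 i.2.1 i.2.2 l R)) := fun i _ => (Bd.ind _).mul_left _
  have hterm1 : ∀ i ∈ s1 K, Et t (fun R => c1 β (d / 100) N i *
      ind (EvA (2 * K) i.1 i.2.1 i.2.2 R)) ≤ B := by
    intro i hi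
    rw [Et_mul_left]
    unfold c1
    by_cases hcond : i.2.1.card + i.2.2.card ≤ i.1 ∧ ¬ Good3 (d / 100) N i.1 i.2.1 i.2.2
    · rw [ind_true hcond, one_mul]
      have h1 := Et_EvA_le (M := 2 * K) (k := i.1) (U := i.2.1) (V := i.2.2) hκ0 ht0
      have h2 := bad1_energy (β := β) (κ := κ) (η := d / 100) (by positivity) (by linarith) hN0
        hκ6 hκN hβ.le hcond.1 hcond.2
      have hik : i.1 ≤ K := by
        unfold s1 at hi
        rw [Finset.mem_product, Finset.mem_range] at hi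
        omega
      refine (mul_le_mul_of_nonneg_left h1 (exp_pos _).le).trans ?_
      rw [hB, mul_left_comm, ← exp_add]
      apply mul_le_mul _ _ (exp_pos _).le (by positivity)
      · apply mul_le_mul_of_nonneg_right _ (by positivity)
        exact pow_le_pow_right₀ (by norm_num) hik
      · apply exp_le_exp.2
        rw [← ht] at h2
        linarith
    · rw [ind_false hcond, zero_mul, zero_mul]
      exact hB0
  have hterm2 : ∀ i ∈ s2 K, Et t (fun R => c2 β (d / 100) N l i *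
      ind (EvB (2 * K) i.1.1 i.1.2.1 i.1.2.2 i.2.1 i.2.2 l R)) ≤ B := by
    intro i hi
    rw [Et_mul_left]
    unfold c2
    by_cases hcond : i.1.2.1.card + i.1.2.2.card ≤ i.1.1 ∧
      Good3 (d / 100) N i.1.1 i.1.2.1 i.1.2.2 ∧
      ((Finset.Icc i.2.1 (i.2.1 + 3 * l) \ i.1.2.1).card : ℝ) ≤ 6 * (d / 100) * N ∧
      ((Finset.Icc i.2.2 (i.2.2 + 3 * l) \ i.1.2.2).card : ℝ) ≤ 6 * (d / 100) * N
    · rw [ind_true hcond, one_mul]
      have h1 := Et_EvB_le (M := 2 * K) (k := i.1.1) (U := i.1.2.1) (V := i.1.2.2) (a := i.2.1)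
        (b := i.2.2) (l := l) (N := N) (κ := κ) ht0 hd0 hd1 hN1 hκ6 (Nat.le_ceil _)
        hcond.2.1 hcond.2.2.1 hcond.2.2.2
      have h2 := bad2_energy (β := β) (κ := κ) (d := d) hN0 hκ6 hβ.le hcond.1
      have hik : i.1.1 ≤ K := by
        unfold s2 s1 at hi
        rw [Finset.mem_product, Finset.mem_product, Finset.mem_range] at hi
        omega
      refine (mul_le_mul_of_nonneg_left h1 (exp_pos _).le).trans ?_
      rw [hB, mul_left_comm, ← exp_add]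
      apply mul_le_mul _ _ (exp_pos _).le (by positivity)
      · apply mul_le_mul_of_nonneg_right _ (by positivity)
        exact pow_le_pow_right₀ (by norm_num) hik
      · apply exp_le_exp.2
        rw [← ht] at h2
        linarith
    · rw [ind_false hcond, zero_mul, zero_mul]
      exact hB0
  have hsum1 := Finset.sum_le_card_nsmul (s1 K) _ B hterm1
  have hsum2 := Finset.sum_le_card_nsmul (s2 K) _ B hterm2
  rw [nsmul_eq_mul] at hsum1 hsum2
  have hEt : Et t (fun R => ind (¬ GoodR d N R) * wt β R) ≤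
      exp (-(7 * β * N)) + (s1 K).card * B + (s2 K).card * B := by
    have hb0 : Bd (fun R => ind (¬ GoodR d N R) * wt β R) := by
      refine Bd.of_le_one (fun R => mul_nonneg (ind_nonneg _) (wt_pos β R).le) fun R => ?_
      exact mul_le_one₀ (ind_le_one _) (wt_pos β R).le (wt_le_one hβ.le R)
    refine (Et_mono_on hb0 (((Bd.const _).add (Bd.sum hbd1)).add (Bd.sum hbd2)) ht0
      fun R hR => pointwise_bound hβ.le hd0 hN2 hR).trans ?_
    rw [Et_add ((Bd.const _).add (Bd.sum hbd1)) (Bd.sum hbd2) ht0,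
      Et_add (Bd.const _) (Bd.sum hbd1) ht0, Et_const, Et_sum hbd1 ht0, Et_sum hbd2 ht0]
    linarith
  refine hEt.trans ?_
  rw [add_assoc]
  apply add_le_add le_rfl
  -- entropy count
  have hcount : ((s1 K).card : ℝ) * B + (s2 K).card * B ≤
      exp (3 + 23 * K) * exp (-((6 + c₀ / 4) * β * N)) := by
    rw [hB]
    exact entropy_count K _ (exp_pos _).le
  refine hcount.trans ?_
  rw [← exp_add]
  apply exp_le_exp.2
  linarith

end Pool.Agent.Helper92.Diamond
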