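import Pool.Agent.Helper92_Diamond.Geo2
import Pool.Agent.Helper92_Diamond.Law
import Pool.Agent.Helper92_Diamond.Union
import Pool.Agent.Helper92_Diamond.LowerZ

set_option autoImplicit false

open MeasureTheory ProbabilityTheory Filter Topology
open scoped ENNReal

namespace Pool.Agent.Helper92.Diamond

open Model

/-- Quantitative estimate on the Gibbs probability of a bad shape. -/
lemma gibbs_bad_le {d : ℝ} (hd0 : 0 < d) (hd1 : d ≤ 1 / 130) : ∃ β₀ : ℝ, 0 < β₀ ∧
    ∀ β : ℝ, β₀ ≤ β → ∃ N₀ C : ℝ, ∀ N : ℝ, N₀ ≤ N → ∀ ε : ℝ≥0∞, ENNReal.ofReal (26 * d) < ε →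
      gibbs β (tN β N) {ω | ε ≤ hausTrans (scaled (walkRange ω (tN β N))) diamond} ≤
        ENNReal.ofReal (C * Real.exp (-N)) := by
  obtain ⟨c, hc, hub⟩ := upper_bad hd0 (show d ≤ 1 / 10 by linarith)
  obtain ⟨K, hK, hlb⟩ := lower_Z
  have hKc : 0 < (162 + K) / c := by positivity
  refine ⟨K + 1 + (162 + K) / c, by linarith, fun β hβ => ?_⟩
  have hβ0 : 0 < β := by linarith
  have hβK : K + 1 ≤ β := by linarith
  have hβc : 162 + K ≤ c * β := by
    have : (162 + K) / c ≤ β := by linarith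
    rw [div_le_iff₀ hc] at this
    linarith
  obtain ⟨N₁, h1⟩ := hub β hβ0
  obtain ⟨N₂, h2⟩ := hlb β hβ0
  refine ⟨max (max N₁ N₂) (100 / d), 2 * Real.exp (8 * β + K) * (1 + Real.exp 3), ?_⟩
  intro N hN ε hε
  have hN1 : N₁ ≤ N := (le_max_left _ _).trans ((le_max_left _ _).trans hN)
  have hN2 : N₂ ≤ N := (le_max_right _ _).trans ((le_max_left _ _).trans hN)
  have hN3 : 100 / d ≤ N := (le_max_right _ _).trans hN
  have h100 : 0 < 100 / d := by positivity
  have hN0 : 0 < N := by linarith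
  have hu := h1 N hN1
  have hl := h2 N hN2
  set t := tN β N with ht
  have ht0 : 0 ≤ t := by
    rw [ht]
    unfold tN
    positivity
  rw [gibbs_apply hβ0.le ht0 (fun G => ε ≤ hausTrans (scaled G) diamond)]
  apply ENNReal.ofReal_le_ofReal
  have hZ0 : 0 < Et t (wt β) := lt_of_lt_of_le (by positivity) hl
  rw [div_le_iff₀ hZ0]
  have hbad : Et t (fun R => ind (ε ≤ hausTrans (scaled (pull R)) diamond) * wt β R) ≤
      Et t (fun R => ind (¬ GoodR d N R) * wt β R) := by
    refine Et_mono_on ?_ ?_ ht0 fun R hR => ?_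
    · exact Bd.of_le_one (fun R => mul_nonneg (ind_nonneg _) (wt_pos β R).le)
        (fun R => mul_le_one₀ (ind_le_one _) (wt_pos β R).le (wt_le_one hβ0.le R))
    · exact Bd.of_le_one (fun R => mul_nonneg (ind_nonneg _) (wt_pos β R).le)
        (fun R => mul_le_one₀ (ind_le_one _) (wt_pos β R).le (wt_le_one hβ0.le R))
    · refine mul_le_mul_of_nonneg_right (ind_mono fun h hG => ?_) (wt_pos β R).le
      exact absurd (lt_of_le_of_lt (geo_good hd0 hd1 hN3 hR hG) hε) (not_lt.2 h)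
  refine hbad.trans (hu.trans ?_)
  have hC0 : 0 ≤ 2 * Real.exp (8 * β + K) * (1 + Real.exp 3) * Real.exp (-N) := by positivity
  refine le_trans ?_ (mul_le_mul_of_nonneg_left hl hC0)
  have e1 : 2 * Real.exp (8 * β + K) * (1 + Real.exp 3) * Real.exp (-N) *
      (Real.exp (-((6 * β + K) * N + (8 * β + K))) / 2)
      = Real.exp (-((6 * β + K + 1) * N)) + Real.exp (3 - (6 * β + K + 1) * N) := by
    have e2 : Real.exp (3 - (6 * β + K + 1) * N)
        = Real.exp 3 * Real.exp (-((6 * β + K + 1) * N)) := by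
      rw [← Real.exp_add, sub_eq_add_neg]
    have e3 : Real.exp (-((6 * β + K + 1) * N))
        = Real.exp (8 * β + K) * Real.exp (-N) * Real.exp (-((6 * β + K) * N + (8 * β + K))) := by
      rw [← Real.exp_add, ← Real.exp_add]
      congr 1
      ring
    rw [e2, e3]
    ring
  rw [e1]
  apply add_le_add
  · apply Real.exp_le_exp.2
    rw [neg_le_neg_iff]
    have : (6 * β + K + 1) * N ≤ (7 * β) * N := mul_le_mul_of_nonneg_right (by linarith) hN0.le
    linarith
  · apply Real.exp_le_exp.2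
    have : (162 + K) * N ≤ c * β * N := mul_le_mul_of_nonneg_right hβc hN0.le
    nlinarith

/-- The size corresponding to a time. -/
noncomputable def NT (β t : ℝ) : ℝ := (Real.pi ^ 2 * t / (8 * β)) ^ (1 / 3 : ℝ)

lemma tN_NT {β t : ℝ} (hβ : 0 < β) (ht : 0 ≤ t) : tN β (NT β t) = t := by
  unfold tN NT
  have h0 : 0 ≤ Real.pi ^ 2 * t / (8 * β) := by positivity
  have h1 : ((Real.pi ^ 2 * t / (8 * β)) ^ (1 / 3 : ℝ)) ^ 3 = Real.pi ^ 2 * t / (8 * β) := by
    rw [← Real.rpow_natCast, ← Real.rpow_mul h0]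
    norm_num
  rw [h1]
  have := Real.pi_ne_zero
  field_simp

lemma tendsto_NT {β : ℝ} (hβ : 0 < β) : Tendsto (NT β) atTop atTop := by
  unfold NT
  have h1 : Tendsto (fun t : ℝ => Real.pi ^ 2 * t / (8 * β)) atTop atTop := by
    have : (fun t : ℝ => Real.pi ^ 2 * t / (8 * β)) = fun t => (Real.pi ^ 2 / (8 * β)) * t := by
      funext t
      ring
    rw [this]
    exact tendsto_id.const_mul_atTop (by positivity)
  exact (tendsto_rpow_atTop (by norm_num)).comp h1

/-- Unconditional concentration of the rescaled range near the diamond. -/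
theorem shape_concentration (ε : ℝ≥0∞) (hε : 0 < ε) : ∃ β₀ : ℝ, ∀ β : ℝ, β₀ ≤ β →
    Tendsto (fun t : ℝ => gibbs β t {ω | ε ≤ hausTrans (scaled (walkRange ω t)) diamond})
      atTop (𝓝 0) := by
  obtain ⟨e, he0, heε⟩ : ∃ e : ℝ, 0 < e ∧ ENNReal.ofReal e ≤ ε := by
    by_cases htop : ε = ⊤
    · exact ⟨1, one_pos, by rw [htop]; exact le_top⟩
    · refine ⟨ε.toReal, ENNReal.toReal_pos hε.ne' htop, ?_⟩
      rw [ENNReal.ofReal_toReal htop]
  set d := min (1 / 130) (e / 52) with hd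
  have hd0 : 0 < d := lt_min (by norm_num) (by positivity)
  have hd1 : d ≤ 1 / 130 := min_le_left _ _
  have hde : 26 * d < e := by
    have : d ≤ e / 52 := min_le_right _ _
    linarith
  have hdε : ENNReal.ofReal (26 * d) < ε :=
    lt_of_lt_of_le ((ENNReal.ofReal_lt_ofReal_iff he0).2 hde) heε
  obtain ⟨β₀, hβ₀, H⟩ := gibbs_bad_le hd0 hd1
  refine ⟨β₀, fun β hβ => ?_⟩
  have hβ0 : 0 < β := lt_of_lt_of_le hβ₀ hβ
  obtain ⟨N₀, C, hC⟩ := H β hβ
  have hlim : Tendsto (fun t : ℝ => ENNReal.ofReal (C * Real.exp (-(NT β t)))) atTop (𝓝 0) := by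
    have h1 : Tendsto (fun t : ℝ => Real.exp (-(NT β t))) atTop (𝓝 0) :=
      Real.tendsto_exp_neg_atTop_nhds_zero.comp (tendsto_NT hβ0)
    have h2 := ENNReal.tendsto_ofReal (h1.const_mul C)
    rwa [mul_zero, ENNReal.ofReal_zero] at h2
  refine tendsto_of_tendsto_of_tendsto_of_le_of_le' tendsto_const_nhds hlim
    (Eventually.of_forall fun t => bot_le) ?_
  filter_upwards [(tendsto_NT hβ0).eventually_ge_atTop N₀, eventually_ge_atTop 0] with t ht1 ht0
  have := hC (NT β t) ht1 ε hdε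
  rwa [tN_NT hβ0 ht0] at this

lemma hausTrans_triangle_aux {A S : Set Plane} {ε : ℝ≥0∞} (h1 : hausTrans A S < ε)
    (h2 : hausTrans A diamond < ε) : hausTrans S diamond ≤ ε + ε := by
  unfold hausTrans at h1 h2
  rw [iInf_lt_iff] at h1 h2
  obtain ⟨z1, hz1⟩ := h1
  obtain ⟨z2, hz2⟩ := h2
  unfold hausTrans
  refine iInf_le_of_le (-z1 + z2) ?_
  have hiso : Isometry (fun p : Plane => z1 + p) := isometry_add_left z1
  have e1 : Metric.hausdorffEDist S ((fun p : Plane => (-z1 + z2) + p) '' diamond)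
      = Metric.hausdorffEDist ((fun p : Plane => z1 + p) '' S)
        ((fun p : Plane => z2 + p) '' diamond) := by
    rw [← Metric.hausdorffEDist_image hiso (s := S)]
    congr 1
    rw [Set.image_image]
    congr 1
    funext p
    abel
  rw [e1]
  refine (Metric.hausdorffEDist_triangle (t := A)).trans ?_
  rw [Metric.hausdorffEDist_comm (s := (fun p : Plane => z1 + p) '' S)]
  exact add_le_add hz1.le hz2.le

end Pool.Agent.Helper92.Diamond
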