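import Pool.Agent.Helper92_Diamond.Upper
import Pool.Agent.Helper92_Diamond.Box

set_option autoImplicit false

open Finset Real

namespace Pool.Agent.Helper92.Diamond

lemma dW_Icc_le (m : ℕ) (z : ℤ) : 2 * dW (Finset.Icc (-(m : ℤ)) m) z ≤ m + 2 := by
  by_cases hz : z ∈ Finset.Icc (-(m : ℤ)) m
  · rw [Finset.mem_Icc] at hz
    have h1 : dW (Finset.Icc (-(m : ℤ)) m) z ≤ ((m - z) / 2 + 1).toNat := by
      apply dW_le
      right
      rw [Finset.mem_Icc]
      omega
    have h2 : dW (Finset.Icc (-(m : ℤ)) m) z ≤ ((m + z) / 2 + 1).toNat := by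
      apply dW_le
      left
      rw [Finset.mem_Icc]
      omega
    omega
  · rw [dW_eq_zero hz]
    omega

lemma dW_Icc_erase_le (m : ℕ) (c z : ℤ) (hc1 : 8 * c ≤ 7 * m) (hc2 : -(7 * (m : ℤ)) ≤ 8 * c)
    (hp : z % 2 = c % 2) :
    32 * dW ((Finset.Icc (-(m : ℤ)) m).erase c) z ≤ 15 * m + 16 := by
  by_cases hz : z ∈ (Finset.Icc (-(m : ℤ)) m).erase c
  · rw [Finset.mem_erase, Finset.mem_Icc] at hz
    rcases lt_or_gt_of_ne hz.1 with hlt | hgt
    · have h1 : dW ((Finset.Icc (-(m : ℤ)) m).erase c) z ≤ ((c - z) / 2).toNat := by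
        apply dW_le
        right
        have : z + 2 * (((c - z) / 2).toNat : ℤ) = c := by omega
        rw [this]
        exact Finset.notMem_erase _ _
      have h2 : dW ((Finset.Icc (-(m : ℤ)) m).erase c) z ≤ ((m + z) / 2 + 1).toNat := by
        apply dW_le
        left
        rw [Finset.mem_erase, Finset.mem_Icc]
        omega
      omega
    · have h1 : dW ((Finset.Icc (-(m : ℤ)) m).erase c) z ≤ ((z - c) / 2).toNat := by
        apply dW_le
        left
        have : z - 2 * (((z - c) / 2).toNat : ℤ) = c := by omega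
        rw [this]
        exact Finset.notMem_erase _ _
      have h2 : dW ((Finset.Icc (-(m : ℤ)) m).erase c) z ≤ ((m - z) / 2 + 1).toNat := by
        apply dW_le
        right
        rw [Finset.mem_erase, Finset.mem_Icc]
        omega
      omega
  · rw [dW_eq_zero hz]
    omega

/-- Line mass bound by the transverse energy. -/
lemma line_mass {f : W → ℝ} (hf : FS f) (c : ℤ) :
    S (fun x => ind (x.1 = c) * f x ^ 2) ^ 2 ≤ 4 * nsq f * Q f (2, 0) := by
  set w := S (fun x => ind (x.1 = c) * f x ^ 2) with hw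
  have hw0 : 0 ≤ w := S_nonneg fun x => mul_nonneg (ind_nonneg _) (sq_nonneg _)
  -- telescoping
  have hA : FS (fun x => ind (c ≤ x.1) * f x ^ 2) := hf.sq.mul_left
  have hB : FS (fun x => ind (c ≤ x.1) * f (x + ((2, 0) : W)) ^ 2) := (hf.shift _).sq.mul_left
  have h1 : w ≤ S (fun x => ind (c ≤ x.1) * f x ^ 2)
      - S (fun x => ind (c ≤ x.1) * f (x + ((2, 0) : W)) ^ 2) := by
    have h2 : S (fun x => ind (c ≤ x.1) * f (x + ((2, 0) : W)) ^ 2)
        = S (fun x => ind (c + 2 ≤ x.1) * f x ^ 2) := by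
      rw [← S_shift (fun x => ind (c + 2 ≤ x.1) * f x ^ 2) (2, 0)]
      congr 1
      funext x
      have : (x + ((2, 0) : W)).1 = x.1 + 2 := rfl
      rw [this]
      congr 1
      exact ind_congr (by omega)
    rw [h2, ← S_sub hA hf.sq.mul_left, hw]
    refine S_mono hf.sq.mul_left (hA.sub hf.sq.mul_left) fun x => ?_
    have hs := sq_nonneg (f x)
    by_cases hx : x.1 = c
    · rw [ind_true hx, ind_true (by omega : c ≤ x.1), ind_false (by omega : ¬ c + 2 ≤ x.1)]
      linarith
    · rw [ind_false hx]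
      have := ind_mono (p := c + 2 ≤ x.1) (q := c ≤ x.1) (by omega)
      nlinarith
  have h3 : ∀ s : ℝ, 0 < s → w ≤ s / 2 * Q f (2, 0) + 2 / s * nsq f := by
    intro s hs
    refine h1.trans ?_
    rw [← S_sub hA hB]
    have hFSq : FS (fun x => (f (x + ((2, 0) : W)) - f x) ^ 2) := by simpa using hf.Q (2, 0) 0
    have hFSp : FS (fun x => 2 * f (x + ((2, 0) : W)) ^ 2 + 2 * f x ^ 2) :=
      ((hf.shift _).sq.mul_left).add hf.sq.mul_left
    have e : s / 2 * Q f (2, 0) + 2 / s * nsq f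
        = S (fun x => s / 2 * (f (x + ((2, 0) : W)) - f x) ^ 2
          + 1 / (2 * s) * (2 * f (x + ((2, 0) : W)) ^ 2 + 2 * f x ^ 2)) := by
      rw [S_add hFSq.mul_left hFSp.mul_left, S_mul_left, S_mul_left,
        S_add (hf.shift _).sq.mul_left hf.sq.mul_left, S_mul_left, S_mul_left,
        S_shift (fun x => f x ^ 2) (2, 0)]
      unfold Q nsq
      field_simp
      ring
    rw [e]
    refine S_mono (hA.sub hB) (hFSq.mul_left.add hFSp.mul_left) fun x => ?_
    set p := f (x + ((2, 0) : W))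
    set q := f x
    have h5 : ind (c ≤ x.1) * q ^ 2 - ind (c ≤ x.1) * p ^ 2 ≤ |q ^ 2 - p ^ 2| := by
      rw [← mul_sub]
      by_cases hx : c ≤ x.1
      · rw [ind_true hx, one_mul]
        exact le_abs_self _
      · rw [ind_false hx, zero_mul]
        exact abs_nonneg _
    refine h5.trans ?_
    have h6 : |q ^ 2 - p ^ 2| = |p - q| * |p + q| := by
      rw [← abs_mul, ← abs_neg]
      congr 1
      ring
    rw [h6]
    have h7 : |p - q| * |p + q| ≤ s / 2 * (p - q) ^ 2 + 1 / (2 * s) * (p + q) ^ 2 := by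
      have h8 := sq_nonneg (s * |p - q| - |p + q|)
      have h9 : s / 2 * (p - q) ^ 2 + 1 / (2 * s) * (p + q) ^ 2 - |p - q| * |p + q|
          = (s * |p - q| - |p + q|) ^ 2 / (2 * s) := by
        rw [← sq_abs (p - q), ← sq_abs (p + q)]
        field_simp
        ring
      have h10 : 0 ≤ (s * |p - q| - |p + q|) ^ 2 / (2 * s) := by positivity
      linarith
    have h8 : (p + q) ^ 2 ≤ 2 * p ^ 2 + 2 * q ^ 2 := by nlinarith [sq_nonneg (p - q)]
    have h9 : 1 / (2 * s) * (p + q) ^ 2 ≤ 1 / (2 * s) * (2 * p ^ 2 + 2 * q ^ 2) :=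
      mul_le_mul_of_nonneg_left h8 (by positivity)
    linarith
  have hn := nsq_nonneg f
  have hQ := Q_nonneg f (2, 0)
  rcases eq_or_lt_of_le hw0 with h0 | hpos
  · rw [← h0]
    have : 0 ≤ 4 * nsq f * Q f (2, 0) := mul_nonneg (mul_nonneg (by norm_num) hn) hQ
    simpa using this
  rcases eq_or_lt_of_le hn with hn0 | hnpos
  · -- then `w = 0`
    have : ∀ s : ℝ, 0 < s → w ≤ s / 2 * Q f (2, 0) := by
      intro s hs
      have := h3 s hs
      rw [← hn0, mul_zero, add_zero] at this
      exact this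
    exfalso
    have h4 := this (w / (Q f (2, 0) + 1)) (by positivity)
    have h5 : w / (Q f (2, 0) + 1) / 2 * Q f (2, 0) ≤ w / 2 := by
      rw [div_div, div_mul_eq_mul_div, div_le_div_iff₀ (by positivity) (by norm_num)]
      nlinarith
    linarith
  · have h4 := h3 (4 * nsq f / w) (by positivity)
    have e : 4 * nsq f / w / 2 * Q f (2, 0) + 2 / (4 * nsq f / w) * nsq f
        = 2 * nsq f * Q f (2, 0) / w + w / 2 := by
      field_simp
      ring
    rw [e] at h4
    have h5 : w / 2 ≤ 2 * nsq f * Q f (2, 0) / w := by linarith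
    rw [le_div_iff₀ hpos] at h5
    nlinarith

/-- Energy of the line `x.1 = c` in the second direction splits off. -/
lemma Q_split_line {f : W → ℝ} (hf : FS f) (c : ℤ) :
    Q f (0, 2) = S (fun x => ind (x.1 = c) * (f (x + ((0, 2) : W)) - f x) ^ 2)
      + Q (fun x => ind (x.1 ≠ c) * f x) (0, 2) := by
  have hFSq : FS (fun x => (f (x + ((0, 2) : W)) - f x) ^ 2) := by simpa using hf.Q (0, 2) 0
  have h1 : Q (fun x => ind (x.1 ≠ c) * f x) (0, 2)
      = S (fun x => ind (x.1 ≠ c) * (f (x + ((0, 2) : W)) - f x) ^ 2) := by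
    unfold Q
    congr 1
    funext x
    have : (x + ((0, 2) : W)).1 = x.1 := by simp
    simp only [this]
    by_cases hx : x.1 = c
    · rw [ind_false (not_not.2 hx)]
      ring
    · rw [ind_true hx]
      ring
  rw [h1, ← S_add hFSq.mul_left hFSq.mul_left]
  unfold Q
  congr 1
  funext x
  by_cases hx : x.1 = c
  · rw [ind_true hx, ind_false (not_not.2 hx)]
    ring
  · rw [ind_false hx, ind_true hx]
    ring

/-- Base lower bounds on a box. -/
lemma box_base_fst {f : W → ℝ} (hf : FS f) {m : ℕ} (hfA : ∀ x, x ∉ Dm m → f x = 0) :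
    hh (m + 1) 1 * nsq f ≤ Q f (2, 0) := by
  have key := line_fst' hf (fun _ => Finset.Icc (-(m : ℤ)) m) (fun _ _ => (m : ℝ) + 1)
    (fun _ _ => 1) (fun _ _ => by positivity) (fun _ _ => one_pos) (by
      intro x _
      have := dW_Icc_le m x.1
      have h2 : (2 * dW (Finset.Icc (-(m : ℤ)) m) x.1 : ℝ) ≤ m + 2 := by exact_mod_cast this
      linarith)
  refine le_trans (le_of_eq ?_) key
  unfold nsq
  rw [← S_mul_left]
  congr 1
  funext x
  by_cases hx0 : f x = 0
  · simp [hx0]
  have hxA := mem_Dm.1 (not_mem_of_ne hfA hx0)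
  have : x.1 ∈ Finset.Icc (-(m : ℤ)) m := Finset.mem_Icc.2 hxA.1
  rw [ind_false (not_not.2 this)]
  ring

lemma box_base_snd {f : W → ℝ} (hf : FS f) {m : ℕ} (hfA : ∀ x, x ∉ Dm m → f x = 0) :
    hh (m + 1) 1 * nsq f ≤ Q f (0, 2) := by
  have key := line_snd' hf (fun _ => Finset.Icc (-(m : ℤ)) m) (fun _ _ => (m : ℝ) + 1)
    (fun _ _ => 1) (fun _ _ => by positivity) (fun _ _ => one_pos) (by
      intro x _
      have := dW_Icc_le m x.2
      have h2 : (2 * dW (Finset.Icc (-(m : ℤ)) m) x.2 : ℝ) ≤ m + 2 := by exact_mod_cast this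
      linarith)
  refine le_trans (le_of_eq ?_) key
  unfold nsq
  rw [← S_mul_left]
  congr 1
  funext x
  by_cases hx0 : f x = 0
  · simp [hx0]
  have hxA := mem_Dm.1 (not_mem_of_ne hfA hx0)
  have : x.2 ∈ Finset.Icc (-(m : ℤ)) m := Finset.mem_Icc.2 hxA.2.1
  rw [ind_false (not_not.2 this)]
  ring

/-- Mass of a row. -/
noncomputable def row (f : W → ℝ) (v : ℤ) : ℝ := S (fun x => ind (x.2 = v) * f x ^ 2)

/-- Mass of the parity class of `p`. -/
noncomputable def cls (f : W → ℝ) (p : ℤ) : ℝ := S (fun x => ind (x.1 % 2 = p % 2) * f x ^ 2)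

lemma cls_eq {f : W → ℝ} (hbal : nE f = nO f) (p : ℤ) : cls f p = nE f := by
  by_cases hp : p % 2 = 0
  · unfold cls nE
    congr 1
    funext x
    rw [ind_congr (by omega : (x.1 % 2 = p % 2 ↔ x.1 % 2 = 0))]
  · rw [hbal]
    unfold cls nO
    congr 1
    funext x
    rw [ind_congr (by omega : (x.1 % 2 = p % 2 ↔ ¬ x.1 % 2 = 0))]

/-- Cutting along a row `v` in the central part. -/
lemma box_cut_row {f : W → ℝ} (hf : FS f) {m : ℕ} (hfA : ∀ x, x ∉ Dm m → f x = 0) (v : ℤ)
    (hv1 : 8 * v ≤ 7 * m) (hv2 : -(7 * (m : ℤ)) ≤ 8 * v) {κ : ℝ} (hκ : 0 < κ) :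
    hh (m + 1) 1 * nsq f + (hh (15 * m / 16) κ - hh (m + 1) 1) * cls f v - 3 / κ * row f v
      ≤ Q f (0, 2) := by
  have key := line_snd' hf
    (fun u => if u % 2 = v % 2 then (Finset.Icc (-(m : ℤ)) m).erase v
      else Finset.Icc (-(m : ℤ)) m)
    (fun u _ => if u % 2 = v % 2 then 15 * (m : ℝ) / 16 else (m : ℝ) + 1)
    (fun u _ => if u % 2 = v % 2 then κ else 1)
    (fun _ _ => by split_ifs <;> positivity)
    (fun _ _ => by split_ifs <;> first | exact hκ | exact one_pos) (by
      intro x hx0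
      have hxA := mem_Dm.1 (not_mem_of_ne hfA hx0)
      by_cases hp : x.1 % 2 = v % 2
      · simp only [if_pos hp]
        have := dW_Icc_erase_le m v x.2 hv1 hv2 (by omega)
        have h2 : (32 * dW ((Finset.Icc (-(m : ℤ)) m).erase v) x.2 : ℝ) ≤ 15 * m + 16 := by
          exact_mod_cast this
        linarith
      · simp only [if_neg hp]
        have := dW_Icc_le m x.2
        have h2 : (2 * dW (Finset.Icc (-(m : ℤ)) m) x.2 : ℝ) ≤ m + 2 := by exact_mod_cast this
        linarith)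
  refine le_trans ?_ key
  have e : hh (m + 1) 1 * nsq f + (hh (15 * m / 16) κ - hh (m + 1) 1) * cls f v
      - 3 / κ * row f v
      = S (fun x => hh (m + 1) 1 * f x ^ 2
        + (hh (15 * m / 16) κ - hh (m + 1) 1) * (ind (x.1 % 2 = v % 2) * f x ^ 2)
        - 3 / κ * (ind (x.2 = v) * f x ^ 2)) := by
    rw [S_comb3 hf.sq hf.sq.mul_left hf.sq.mul_left]
    rfl
  rw [e]
  refine S_mono ((hf.sq.mul_left.add hf.sq.mul_left.mul_left).sub hf.sq.mul_left.mul_left)
    hf.sq.mul_left fun x => ?_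
  by_cases hx0 : f x = 0
  · simp [hx0]
  have hxA := mem_Dm.1 (not_mem_of_ne hfA hx0)
  have hxI : x.2 ∈ Finset.Icc (-(m : ℤ)) m := Finset.mem_Icc.2 hxA.2.1
  have hs := sq_nonneg (f x)
  by_cases hp : x.1 % 2 = v % 2
  · simp only [if_pos hp, ind_true hp]
    by_cases hx : x.2 = v
    · rw [ind_true hx, ind_true (by rw [hx]; exact Finset.notMem_erase _ _)]
      apply le_of_eq
      ring
    · rw [ind_false hx, ind_false (not_not.2 (Finset.mem_erase.2 ⟨hx, hxI⟩))]
      apply le_of_eq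
      ring
  · simp only [if_neg hp, ind_false hp]
    have hx : ¬ x.2 = v := by
      intro h
      apply hp
      rw [← h]
      exact hxA.2.2
    rw [ind_false hx, ind_false (not_not.2 hxI)]
    apply le_of_eq
    ring

/-- Cutting the rows of a finite set `J` at the column `c`. -/
lemma box_cut_col {f : W → ℝ} (hf : FS f) {m : ℕ} (hfA : ∀ x, x ∉ Dm m → f x = 0) (c : ℤ)
    (hc1 : 8 * c ≤ 7 * m) (hc2 : -(7 * (m : ℤ)) ≤ 8 * c) (J : Finset ℤ)
    (hJ : ∀ v ∈ J, v % 2 = c % 2) {κ : ℝ} (hκ : 0 < κ) :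
    hh (m + 1) 1 * nsq f
      + ∑ v ∈ J, ((hh (15 * m / 16) κ - hh (m + 1) 1) * row f v - 3 / κ * f (c, v) ^ 2)
      ≤ Q f (2, 0) := by
  classical
  have key := line_fst' hf
    (fun v => if v ∈ J then (Finset.Icc (-(m : ℤ)) m).erase c
      else Finset.Icc (-(m : ℤ)) m)
    (fun v _ => if v ∈ J then 15 * (m : ℝ) / 16 else (m : ℝ) + 1)
    (fun v _ => if v ∈ J then κ else 1)
    (fun _ _ => by split_ifs <;> positivity)
    (fun _ _ => by split_ifs <;> first | exact hκ | exact one_pos) (by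
      intro x hx0
      have hxA := mem_Dm.1 (not_mem_of_ne hfA hx0)
      by_cases hp : x.2 ∈ J
      · simp only [if_pos hp]
        have := dW_Icc_erase_le m c x.1 hc1 hc2 (by rw [hxA.2.2]; exact hJ _ hp)
        have h2 : (32 * dW ((Finset.Icc (-(m : ℤ)) m).erase c) x.1 : ℝ) ≤ 15 * m + 16 := by
          exact_mod_cast this
        linarith
      · simp only [if_neg hp]
        have := dW_Icc_le m x.1
        have h2 : (2 * dW (Finset.Icc (-(m : ℤ)) m) x.1 : ℝ) ≤ m + 2 := by exact_mod_cast this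
        linarith)
  refine le_trans ?_ key
  -- rewrite the sum over rows
  have hrow : ∑ v ∈ J, row f v = S (fun x => ind (x.2 ∈ J) * f x ^ 2) := by
    unfold row
    rw [← S_sum fun j _ => hf.sq.mul_left]
    congr 1
    funext x
    rw [← Finset.sum_mul]
    congr 1
    by_cases hx : x.2 ∈ J
    · rw [ind_true hx, Finset.sum_eq_single x.2]
      · exact ind_true rfl
      · intro b _ hb
        exact ind_false (fun h => hb h.symm)
      · intro h
        exact absurd hx h
    · rw [ind_false hx]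
      refine Finset.sum_eq_zero fun j hj => ind_false ?_
      rintro rfl
      exact hx hj
  have hpt : ∑ v ∈ J, f (c, v) ^ 2 = S (fun x => ind (x.2 ∈ J ∧ x.1 = c) * f x ^ 2) := by
    unfold S
    rw [tsum_eq_sum (s := J.image (fun v => ((c, v) : W)))]
    · rw [Finset.sum_image]
      · refine Finset.sum_congr rfl fun v hv => ?_
        rw [ind_true ⟨hv, rfl⟩, one_mul]
      · intro a _ b _ hab
        simpa using congrArg Prod.snd hab
    · intro x hx
      rw [ind_false, zero_mul]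
      rintro ⟨h1, h2⟩
      apply hx
      rw [Finset.mem_image]
      exact ⟨x.2, h1, by ext <;> simp [h2]⟩
  rw [Finset.sum_sub_distrib, ← Finset.mul_sum, ← Finset.mul_sum, hrow, hpt]
  have e : hh (m + 1) 1 * nsq f
      + ((hh (15 * m / 16) κ - hh (m + 1) 1) * S (fun x => ind (x.2 ∈ J) * f x ^ 2)
        - 3 / κ * S (fun x => ind (x.2 ∈ J ∧ x.1 = c) * f x ^ 2))
      = S (fun x => hh (m + 1) 1 * f x ^ 2
        + (hh (15 * m / 16) κ - hh (m + 1) 1) * (ind (x.2 ∈ J) * f x ^ 2)
        - 3 / κ * (ind (x.2 ∈ J ∧ x.1 = c) * f x ^ 2)) := by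
    rw [S_comb3 hf.sq hf.sq.mul_left hf.sq.mul_left]
    unfold nsq
    ring
  rw [e]
  refine S_mono ((hf.sq.mul_left.add hf.sq.mul_left.mul_left).sub hf.sq.mul_left.mul_left)
    hf.sq.mul_left fun x => ?_
  by_cases hx0 : f x = 0
  · simp [hx0]
  have hxA := mem_Dm.1 (not_mem_of_ne hfA hx0)
  have hxI : x.1 ∈ Finset.Icc (-(m : ℤ)) m := Finset.mem_Icc.2 hxA.1
  by_cases hp : x.2 ∈ J
  · simp only [if_pos hp, ind_true hp]
    by_cases hx : x.1 = c
    · rw [ind_true ⟨hp, hx⟩, ind_true (by rw [hx]; exact Finset.notMem_erase _ _)]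
      apply le_of_eq
      ring
    · rw [ind_false (fun h => hx h.2), ind_false (not_not.2 (Finset.mem_erase.2 ⟨hx, hxI⟩))]
      apply le_of_eq
      ring
  · simp only [if_neg hp, ind_false hp]
    rw [ind_false (fun h => hp h.1), ind_false (not_not.2 hxI)]
    apply le_of_eq
    ring

/-- Values on a column near a zero. -/
lemma column_value {f : W → ℝ} (hf : FS f) (c v : ℤ) (σ : ℤ) (hσ : σ = 1 ∨ σ = -1)
    (h0 : f (c, v) = 0) (i : ℕ) :
    f (c, v + 2 * σ * i) ^ 2
      ≤ i * S (fun x => ind (x.1 = c) * (f (x + ((0, 2) : W)) - f x) ^ 2) := by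
  classical
  set e := S (fun x => ind (x.1 = c) * (f (x + ((0, 2) : W)) - f x) ^ 2) with he
  have hFSq : FS (fun x => (f (x + ((0, 2) : W)) - f x) ^ 2) := by simpa using hf.Q (0, 2) 0
  -- telescoping sum
  have htel : f (c, v + 2 * σ * i)
      = ∑ k ∈ Finset.range i, (f (c, v + 2 * σ * ((k : ℕ) + 1)) - f (c, v + 2 * σ * (k : ℕ))) := by
    induction i with
    | zero => simpa using h0
    | succ i ih =>
      rw [Finset.sum_range_succ, ← ih]
      push_cast
      ring
  rw [htel]
  have hcs := sq_sum_le_card_mul_sum_sq (s := Finset.range i)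
    (f := fun k : ℕ => f (c, v + 2 * σ * ((k : ℕ) + 1)) - f (c, v + 2 * σ * (k : ℕ)))
  refine hcs.trans ?_
  rw [Finset.card_range]
  refine mul_le_mul_of_nonneg_left ?_ (by positivity)
  -- distinct edges
  rcases hσ with rfl | rfl
  · have h1 : ∑ k ∈ Finset.range i,
        (f (c, v + 2 * 1 * ((k : ℕ) + 1)) - f (c, v + 2 * 1 * (k : ℕ))) ^ 2
        = ∑ x ∈ (Finset.range i).image (fun k : ℕ => ((c, v + 2 * (k : ℤ)) : W)),
            ind (x.1 = c) * (f (x + ((0, 2) : W)) - f x) ^ 2 := by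
      rw [Finset.sum_image]
      · refine Finset.sum_congr rfl fun k _ => ?_
        rw [ind_true rfl, one_mul]
        have a1 : ((c, v + 2 * (k : ℤ)) : W) + ((0, 2) : W) = (c, v + 2 * 1 * ((k : ℕ) + 1)) := by
          ext
          · simp
          · simp
            ring
        have a2 : ((c, v + 2 * (k : ℤ)) : W) = (c, v + 2 * 1 * (k : ℕ)) := by
          ext
          · simp
          · simp
        rw [a1, a2]
      · intro a _ b _ hab
        simpa using congrArg Prod.snd hab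
    rw [h1, he]
    exact hFSq.mul_left.summable.sum_le_tsum _
      (fun x _ => mul_nonneg (ind_nonneg _) (sq_nonneg _))
  · have h1 : ∑ k ∈ Finset.range i,
        (f (c, v + 2 * (-1) * ((k : ℕ) + 1)) - f (c, v + 2 * (-1) * (k : ℕ))) ^ 2
        = ∑ x ∈ (Finset.range i).image (fun k : ℕ => ((c, v - 2 * ((k : ℤ) + 1)) : W)),
            ind (x.1 = c) * (f (x + ((0, 2) : W)) - f x) ^ 2 := by
      rw [Finset.sum_image]
      · refine Finset.sum_congr rfl fun k _ => ?_
        rw [ind_true rfl, one_mul]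
        have a1 : ((c, v - 2 * ((k : ℤ) + 1)) : W) + ((0, 2) : W)
            = (c, v + 2 * (-1) * (k : ℕ)) := by
          ext
          · simp
          · simp
            ring
        have a2 : ((c, v - 2 * ((k : ℤ) + 1)) : W) = (c, v + 2 * (-1) * ((k : ℕ) + 1)) := by
          ext
          · simp
          · simp
            ring
        rw [a1, a2]
        ring
      · intro a _ b _ hab
        simpa using congrArg Prod.snd hab
    rw [h1, he]
    exact hFSq.mul_left.summable.sum_le_tsum _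
      (fun x _ => mul_nonneg (ind_nonneg _) (sq_nonneg _))

end Pool.Agent.Helper92.Diamond
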