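import Pool.Agent.Helper92_Diamond.Gap
import Pool.Agent.Helper92_Diamond.Num

set_option autoImplicit false

open Finset Real

namespace Pool.Agent.Helper92.Diamond

/-- Numerical facts about the energies. -/
lemma hh_gap {m : ℝ} (hm : 10000 ≤ m) :
    hh (m + 1) 1 ≤ 9.87 / m ^ 2 ∧ 1 / (2 * m ^ 2) ≤ hh (15 * m / 16) (m / 100) - hh (m + 1) 1 := by
  have hm0 : 0 < m := by linarith
  have h1 : hh (m + 1) 1 ≤ 9.87 / m ^ 2 := by
    unfold hh
    refine (two_sub_two_cos_le _).trans ?_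
    rw [div_pow, div_le_div_iff₀ (by positivity) (by positivity)]
    have := sq_pi_le
    nlinarith [sq_nonneg m]
  refine ⟨h1, ?_⟩
  set x := π / (15 * m / 16 + 3 + 2 * (m / 100)) with hx
  have hden1 : 15 * m / 16 + 3 + 2 * (m / 100) ≤ 0.96 * m := by linarith
  have hden2 : 0.95 * m ≤ 15 * m / 16 + 3 + 2 * (m / 100) := by linarith
  have hdpos : 0 < 15 * m / 16 + 3 + 2 * (m / 100) := by linarith
  have hx0 : 0 < x := by positivity
  have hxu : x ≤ 3.4 / m := by
    rw [hx, div_le_div_iff₀ hdpos hm0]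
    have := pi_lt_d4
    nlinarith
  have hx1 : |x| ≤ 1 := by
    rw [abs_of_pos hx0]
    refine hxu.trans ?_
    rw [div_le_one hm0]
    linarith
  have hsq : 10.7 / m ^ 2 ≤ x ^ 2 := by
    rw [hx, div_pow, div_le_div_iff₀ (by positivity) (by positivity)]
    have h2 : (15 * m / 16 + 3 + 2 * (m / 100)) ^ 2 ≤ (0.96 * m) ^ 2 :=
      pow_le_pow_left₀ hdpos.le hden1 2
    have := le_sq_pi
    nlinarith [sq_nonneg m]
  have hq : x ^ 4 ≤ 0.01 / m ^ 2 := by
    have h2 : x ^ 4 ≤ (3.4 / m) ^ 4 := pow_le_pow_left₀ hx0.le hxu 4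
    refine h2.trans ?_
    rw [div_pow, div_le_div_iff₀ (by positivity) (by positivity)]
    have h3 : (m : ℝ) ^ 4 = m ^ 2 * m ^ 2 := by ring
    rw [h3]
    have h4 : (100000000 : ℝ) ≤ m ^ 2 := by nlinarith
    have h5 : 0 < m ^ 2 := by positivity
    nlinarith
  have h2 : x ^ 2 - 5 / 48 * x ^ 4 ≤ hh (15 * m / 16) (m / 100) := by
    unfold hh
    rw [← hx]
    exact two_sub_two_cos_ge hx1
  have e1 : 1 / (2 * m ^ 2) = 0.5 / m ^ 2 := by
    field_simp
    norm_num
  rw [e1]
  have e2 : 10.7 / m ^ 2 - 5 / 48 * (0.01 / m ^ 2) - 9.87 / m ^ 2 ≥ 0.5 / m ^ 2 := by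
    have : 10.7 / m ^ 2 - 5 / 48 * (0.01 / m ^ 2) - 9.87 / m ^ 2 - 0.5 / m ^ 2
        = (10.7 - 5 / 48 * 0.01 - 9.87 - 0.5) / m ^ 2 := by ring
    have h3 : 0 ≤ (10.7 - 5 / 48 * 0.01 - 9.87 - 0.5) / m ^ 2 := by positivity
    linarith
  linarith

/-- The constant in the gap estimate. -/
noncomputable def cgap : ℝ := 1 / 4800000

theorem gap_energy {m : ℕ} (hm : 10 ^ 20 ≤ m) {y : W} (hy1 : 8 * y.1 ≤ 7 * m)
    (hy1' : -(7 * (m : ℤ)) ≤ 8 * y.1) (hy2 : 8 * y.2 ≤ 7 * m)
    (hy2' : -(7 * (m : ℤ)) ≤ 8 * y.2) (hyp : y.1 % 2 = y.2 % 2)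
    {f : W → ℝ} (hf : FS f)
    (hfA : ∀ x, x ∉ Dm m → f x = 0) (hfy : f y = 0) (hbal : nE f = nO f) :
    (4 * hh (m + 1) 1 + cgap / (m ^ 2 * Real.sqrt m)) * nE f ≤ Q f (2, 0) + Q f (0, 2) := by
  classical
  by_contra hcon
  push Not at hcon
  set M : ℝ := (m : ℝ) with hM
  have hMge : (10 : ℝ) ^ 20 ≤ M := by
    rw [hM]
    exact_mod_cast hm
  have hM0 : 0 < M := by linarith [show (0 : ℝ) < 10 ^ 20 by norm_num]
  set s := Real.sqrt M with hs
  have hss : s * s = M := Real.mul_self_sqrt hM0.le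
  have hs10 : (10 : ℝ) ^ 10 ≤ s := by
    rw [hs]
    apply Real.le_sqrt_of_sq_le
    norm_num at hMge ⊢
    exact hMge
  have hs0 : 0 < s := by linarith [show (0 : ℝ) < 10 ^ 10 by norm_num]
  set N := nE f with hN
  have hN0 : 0 ≤ N := nE_nonneg f
  have hnsq : nsq f = 2 * N := by
    rw [nsq_eq hf, ← hbal]
    ring
  set h := hh (M + 1) 1 with hh1
  obtain ⟨hF1, hF2⟩ := hh_gap (m := M) (by
    have : (10000 : ℝ) ≤ 10 ^ 20 := by norm_num
    linarith)
  rw [← hh1] at hF1 hF2
  have hh0 : 0 ≤ h := hh_nonneg _ _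
  have hb1 := box_base_fst hf hfA
  have hb2 := box_base_snd hf hfA
  rw [← hM, ← hh1, hnsq] at hb1 hb2
  set g := cgap / (M ^ 2 * s) with hg
  have hc0 : 0 < cgap := by unfold cgap; norm_num
  have hg0 : 0 < g := by positivity
  -- `N > 0`
  have hNpos : 0 < N := by
    rcases eq_or_lt_of_le hN0 with h0 | h0
    · exfalso
      rw [← h0, mul_zero] at hcon
      have := Q_nonneg f (2, 0)
      have := Q_nonneg f (0, 2)
      linarith
    · exact h0
  have hQ1 : Q f (2, 0) ≤ 2 * h * N + g * N := by linarith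
  have hQ2 : Q f (0, 2) ≤ 2 * h * N + g * N := by linarith
  have hM2 : 0 < M ^ 2 := by positivity
  have hgM : g ≤ 1 / M ^ 2 := by
    rw [hg, div_le_div_iff₀ (by positivity) hM2, one_mul]
    have : cgap ≤ 1 := by unfold cgap; norm_num
    have h2 : 1 ≤ s := by linarith [show (1 : ℝ) ≤ 10 ^ 10 by norm_num]
    have h3 : cgap ≤ s := by linarith
    calc cgap * M ^ 2 ≤ s * M ^ 2 := mul_le_mul_of_nonneg_right h3 hM2.le
      _ = M ^ 2 * s := by ring
  -- mass on the column
  have hw := line_mass hf y.1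
  set w := S (fun x => ind (x.1 = y.1) * f x ^ 2) with hwdef
  have hw0 : 0 ≤ w := S_nonneg fun x => mul_nonneg (ind_nonneg _) (sq_nonneg _)
  have hw13 : w ≤ 13 * N / M := by
    have h1 : w ^ 2 ≤ (13 * N / M) ^ 2 := by
      refine hw.trans ?_
      rw [hnsq]
      have h2 : Q f (2, 0) ≤ 21 / M ^ 2 * N := by
        refine hQ1.trans ?_
        rw [← add_mul]
        apply mul_le_mul_of_nonneg_right _ hN0
        have e : 21 / M ^ 2 = 2 * (9.87 / M ^ 2) + 1.26 * (1 / M ^ 2) := by ring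
        rw [e]
        have : 0 < 1 / M ^ 2 := by positivity
        linarith
      calc 4 * (2 * N) * Q f (2, 0) ≤ 4 * (2 * N) * (21 / M ^ 2 * N) :=
            mul_le_mul_of_nonneg_left h2 (by positivity)
        _ ≤ (13 * N / M) ^ 2 := by
            have e : (13 * N / M) ^ 2 - 4 * (2 * N) * (21 / M ^ 2 * N) = N ^ 2 / M ^ 2 := by
              field_simp
              ring
            have : 0 ≤ N ^ 2 / M ^ 2 := by positivity
            linarith
    exact (sq_le_sq₀ hw0 (by positivity)).1 h1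
  -- energy on the column
  have hsplit := Q_split_line hf y.1
  set e := S (fun x => ind (x.1 = y.1) * (f (x + ((0, 2) : W)) - f x) ^ 2) with he
  have hf' : FS (fun x => ind (x.1 ≠ y.1) * f x) := hf.mul_left
  have hb3 := box_base_snd (f := fun x => ind (x.1 ≠ y.1) * f x) (m := m) hf'
    (fun x hx => by simp [hfA x hx])
  have hn' : nsq (fun x => ind (x.1 ≠ y.1) * f x) = 2 * N - w := by
    rw [← hnsq, hwdef]
    unfold nsq
    rw [← S_sub hf.sq hf.sq.mul_left]
    congr 1
    funext x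
    by_cases hx : x.1 = y.1
    · simp only [ind_false (show ¬ (x.1 ≠ y.1) from fun h => h hx), ind_true hx]
      ring
    · simp only [ind_true (show x.1 ≠ y.1 from hx), ind_false hx]
      ring
  rw [hn', ← hM, ← hh1] at hb3
  have he1 : e ≤ 2 * g * N := by
    have h1 : e ≤ h * w + g * N := by linarith
    have h2 : h * w ≤ 9.87 / M ^ 2 * (13 * N / M) :=
      mul_le_mul hF1 hw13 hw0 (by positivity)
    have h3 : 9.87 / M ^ 2 * (13 * N / M) ≤ g * N := by
      rw [hg]
      rw [div_mul_div_comm, div_mul_eq_mul_div, div_le_div_iff₀ (by positivity) (by positivity)]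
      have h4 : 9.87 * 13 * s ≤ cgap * M := by
        rw [← hss]
        unfold cgap
        have := mul_le_mul_of_nonneg_right hs10 hs0.le
        linarith
      have h5 : 0 < M ^ 2 * N := by positivity
      have h6 := mul_le_mul_of_nonneg_left h4 h5.le
      calc 9.87 * (13 * N) * (M ^ 2 * s) = M ^ 2 * N * (9.87 * 13 * s) := by ring
        _ ≤ M ^ 2 * N * (cgap * M) := h6
        _ = cgap * N * (M ^ 2 * M) := by ring
    linarith
  -- the index range
  set r := Nat.sqrt m with hr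
  have hr1 : (r : ℝ) ≤ s := by
    rw [hs, hM]
    apply Real.le_sqrt_of_sq_le
    have := Nat.sqrt_le' m
    rw [hr]
    exact_mod_cast this
  have hr2 : s / 2 ≤ r := by
    have h1 : s < r + 1 := by
      rw [hs, hM]
      rw [Real.sqrt_lt' (by positivity)]
      have := Nat.lt_succ_sqrt' m
      rw [hr]
      exact_mod_cast this
    have h2 : (2 : ℝ) ≤ s := by linarith [show (2 : ℝ) ≤ 10 ^ 10 by norm_num]
    linarith
  have hrm : (r : ℤ) * 4 ≤ m := by
    have h1 : r * r ≤ m := Nat.sqrt_le m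
    have h2 : 4 ≤ r := by
      have h3 : (4 : ℝ) ≤ r := by linarith [show (8 : ℝ) ≤ 10 ^ 10 by norm_num]
      exact_mod_cast h3
    have : r * 4 ≤ m := (Nat.mul_le_mul_left r h2).trans h1
    exact_mod_cast this
  obtain ⟨σ, hσ, hσv⟩ : ∃ σ : ℤ, (σ = 1 ∨ σ = -1) ∧ ∀ i : ℕ, i < r →
      8 * (y.2 + 2 * σ * i) ≤ 7 * m ∧ -(7 * (m : ℤ)) ≤ 8 * (y.2 + 2 * σ * i) := by
    rcases le_total 0 y.2 with hy | hy
    · refine ⟨-1, Or.inr rfl, fun i hi => ?_⟩
      constructor <;> omega
    · refine ⟨1, Or.inl rfl, fun i hi => ?_⟩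
      constructor <;> omega
  have hval : ∀ i : ℕ, i < r → f (y.1, y.2 + 2 * σ * i) ^ 2 ≤ 2 * cgap * N / M ^ 2 := by
    intro i hi
    have h1 := column_value hf y.1 y.2 σ hσ (by simpa using hfy) i
    refine h1.trans ?_
    rw [← he]
    have h2 : (i : ℝ) ≤ s := by
      have : (i : ℝ) ≤ r := by exact_mod_cast hi.le
      linarith
    have he0 : 0 ≤ e := S_nonneg fun x => mul_nonneg (ind_nonneg _) (sq_nonneg _)
    calc (i : ℝ) * e ≤ s * (2 * g * N) := mul_le_mul h2 he1 he0 hs0.le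
      _ = 2 * cgap * N / M ^ 2 := by
          rw [hg]
          field_simp
  have hκ : (0 : ℝ) < M / 100 := by positivity
  have hκ3 : 3 / (M / 100) = 300 / M := by
    field_simp
    norm_num
  -- either some row is light or all rows are heavy
  by_cases hrow : ∃ i : ℕ, i < r ∧ row f (y.2 + 2 * σ * i) ≤ N / (1000 * M)
  · obtain ⟨i, hi, hrowi⟩ := hrow
    have h1 := box_cut_row hf hfA (y.2 + 2 * σ * i) (hσv i hi).1 (hσv i hi).2 hκ
    rw [cls_eq hbal, ← hM, ← hh1, hnsq, ← hN, hκ3] at h1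
    have h2 : 300 / M * row f (y.2 + 2 * σ * i) ≤ 300 / M * (N / (1000 * M)) :=
      mul_le_mul_of_nonneg_left hrowi (by positivity)
    have h3 : 300 / M * (N / (1000 * M)) = 0.3 * (N / M ^ 2) := by
      field_simp
      norm_num
    have h4 : 1 / (2 * M ^ 2) * N ≤ (hh (15 * M / 16) (M / 100) - h) * N :=
      mul_le_mul_of_nonneg_right hF2 hN0
    have h5 : 1 / (2 * M ^ 2) * N = 0.5 * (N / M ^ 2) := by
      field_simp
      norm_num
    have h6 : g * N < 0.2 * (N / M ^ 2) := by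
      have : g < 0.2 / M ^ 2 := by
        rw [hg, div_lt_div_iff₀ (by positivity) hM2]
        have h7 : cgap < 0.2 := by unfold cgap; norm_num
        have h8 : 1 ≤ s := by linarith [show (1 : ℝ) ≤ 10 ^ 10 by norm_num]
        have h9 : cgap < 0.2 * s := by linarith
        calc cgap * M ^ 2 < 0.2 * s * M ^ 2 := mul_lt_mul_of_pos_right h9 hM2
          _ = 0.2 * (M ^ 2 * s) := by ring
      calc g * N < 0.2 / M ^ 2 * N := mul_lt_mul_of_pos_right this hNpos
        _ = 0.2 * (N / M ^ 2) := by ring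
    linarith
  · push Not at hrow
    set J : Finset ℤ := (Finset.range r).image (fun i : ℕ => y.2 + 2 * σ * (i : ℤ)) with hJ
    have hinj : Set.InjOn (fun i : ℕ => y.2 + 2 * σ * (i : ℤ)) (Finset.range r : Finset ℕ) := by
      intro a _ b _ hab
      have hab' : y.2 + 2 * σ * (a : ℤ) = y.2 + 2 * σ * (b : ℤ) := hab
      rcases hσ with rfl | rfl
      · omega
      · omega
    have h1 := box_cut_col hf hfA y.1 hy1 hy1' J (by
      intro v hv
      rw [hJ, Finset.mem_image] at hv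
      obtain ⟨i, _, rfl⟩ := hv
      rcases hσ with rfl | rfl
      · omega
      · omega) hκ
    rw [← hM, ← hh1, hnsq, hJ, Finset.sum_image hinj, hκ3] at h1
    have h2 : ∀ i ∈ Finset.range r, 3 / 8 / 1000 * (N / M ^ 3) ≤
        ((hh (15 * M / 16) (M / 100) - h) * row f (y.2 + 2 * σ * i)
          - 300 / M * f (y.1, y.2 + 2 * σ * i) ^ 2) := by
      intro i hi
      rw [Finset.mem_range] at hi
      have h3 := hrow i hi
      have h4 := hval i hi
      have h5 : 1 / (2 * M ^ 2) * (N / (1000 * M)) ≤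
          (hh (15 * M / 16) (M / 100) - h) * row f (y.2 + 2 * σ * i) :=
        mul_le_mul hF2 h3.le (by positivity) (le_trans (by positivity) hF2)
      have h6 : 300 / M * f (y.1, y.2 + 2 * σ * i) ^ 2 ≤ 300 / M * (2 * cgap * N / M ^ 2) :=
        mul_le_mul_of_nonneg_left h4 (by positivity)
      have h7 : 1 / (2 * M ^ 2) * (N / (1000 * M)) = 0.5 / 1000 * (N / M ^ 3) := by
        field_simp
        norm_num
      have h8 : 300 / M * (2 * cgap * N / M ^ 2) = 1 / 8 / 1000 * (N / M ^ 3) := by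
        unfold cgap
        field_simp
        norm_num
      have h9 : 0 < N / M ^ 3 := by positivity
      linarith
    have h3 := Finset.card_nsmul_le_sum (Finset.range r) _ _ h2
    rw [Finset.card_range, nsmul_eq_mul] at h3
    have h4 : s / 2 * (3 / 8 / 1000 * (N / M ^ 3)) ≤ r * (3 / 8 / 1000 * (N / M ^ 3)) :=
      mul_le_mul_of_nonneg_right hr2 (by positivity)
    have h5 : g * N < s / 2 * (3 / 8 / 1000 * (N / M ^ 3)) := by
      have e1 : s / 2 * (3 / 8 / 1000 * (N / M ^ 3)) = (3 / 16 / 1000) * (N / (M ^ 2 * s)) := by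
        have : M ^ 3 = M ^ 2 * (s * s) := by rw [hss]; ring
        rw [this]
        field_simp
        norm_num
      rw [e1, hg]
      have e2 : cgap / (M ^ 2 * s) * N = cgap * (N / (M ^ 2 * s)) := by ring
      rw [e2]
      apply mul_lt_mul_of_pos_right _ (by positivity)
      unfold cgap
      norm_num
    linarith

end Pool.Agent.Helper92.Diamond
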