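import Pool.Agent.Helper92_Diamond.Rng

set_option autoImplicit false

open Filter Topology
open scoped ENNReal

namespace Pool.Agent.Helper92.Diamond

open Model

/-- Rotated coordinates in the plane. -/
def pU (p : Plane) : ℝ := p 0 + p 1

/-- Rotated coordinates in the plane. -/
def pV (p : Plane) : ℝ := p 0 - p 1

/-- The point with given rotated coordinates. -/
noncomputable def mkP (a b : ℝ) : Plane := !₂[(a + b) / 2, (a - b) / 2]

lemma pU_mkP (a b : ℝ) : pU (mkP a b) = a := by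
  unfold pU mkP
  simp
  ring

lemma pV_mkP (a b : ℝ) : pV (mkP a b) = b := by
  unfold pV mkP
  simp
  ring

lemma pU_add (p q : Plane) : pU (p + q) = pU p + pU q := by
  unfold pU
  simp
  ring

lemma pV_add (p q : Plane) : pV (p + q) = pV p + pV q := by
  unfold pV
  simp
  ring

lemma pU_smul (c : ℝ) (p : Plane) : pU (c • p) = c * pU p := by
  unfold pU
  simp
  ring

lemma pV_smul (c : ℝ) (p : Plane) : pV (c • p) = c * pV p := by
  unfold pV
  simp
  ring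

lemma pU_toPlane (v : ℤ × ℤ) : pU (toPlane v) = ((rot v).1 : ℝ) := by
  unfold pU toPlane rot
  simp

lemma pV_toPlane (v : ℤ × ℤ) : pV (toPlane v) = ((rot v).2 : ℝ) := by
  unfold pV toPlane rot
  simp

lemma dist_sq (p q : Plane) :
    dist p q = Real.sqrt (((pU p - pU q) ^ 2 + (pV p - pV q) ^ 2) / 2) := by
  rw [EuclideanSpace.dist_eq, Fin.sum_univ_two]
  congr 1
  unfold pU pV
  rw [Real.dist_eq, Real.dist_eq, sq_abs, sq_abs]
  ring

lemma dist_le_of_rot {p q : Plane} {r : ℝ} (h1 : |pU p - pU q| ≤ r) (h2 : |pV p - pV q| ≤ r) :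
    dist p q ≤ r := by
  have hr : 0 ≤ r := (abs_nonneg _).trans h1
  rw [dist_sq]
  apply Real.sqrt_le_iff.2
  refine ⟨hr, ?_⟩
  have e1 : (pU p - pU q) ^ 2 ≤ r ^ 2 := by
    rw [← sq_abs]
    exact pow_le_pow_left₀ (abs_nonneg _) h1 2
  have e2 : (pV p - pV q) ^ 2 ≤ r ^ 2 := by
    rw [← sq_abs]
    exact pow_le_pow_left₀ (abs_nonneg _) h2 2
  linarith

lemma le_dist_of_rot {p q : Plane} {r : ℝ} (hr : 0 ≤ r) (h1 : r ≤ pU p - pU q)
    (h2 : r ≤ pV p - pV q) : r ≤ dist p q := by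
  rw [dist_sq]
  apply Real.le_sqrt_of_sq_le
  have e1 : r ^ 2 ≤ (pU p - pU q) ^ 2 := pow_le_pow_left₀ hr h1 2
  have e2 : r ^ 2 ≤ (pV p - pV q) ^ 2 := pow_le_pow_left₀ hr h2 2
  linarith

lemma mem_diamond_mkP {a b : ℝ} (ha : |a| ≤ 1 / 2) (hb : |b| ≤ 1 / 2) : mkP a b ∈ diamond := by
  show |(a + b) / 2| + |(a - b) / 2| ≤ 1 / 2
  rw [abs_le] at ha hb
  rcases abs_cases ((a + b) / 2) with h1 | h1 <;> rcases abs_cases ((a - b) / 2) with h2 | h2 <;>
    linarith [h1.1, h2.1, ha.1, ha.2, hb.1, hb.2]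

lemma diamond_bounds {w : Plane} (hw : w ∈ diamond) : |pU w| ≤ 1 / 2 ∧ |pV w| ≤ 1 / 2 := by
  have h : |w 0| + |w 1| ≤ 1 / 2 := hw
  unfold pU pV
  constructor
  · exact (abs_add_le _ _).trans h
  · exact (abs_sub _ _).trans h

/-- Geometry of dense subsets of a box. -/
theorem hausTrans_le {R : Finset W} (hRr : (R : Set W) ⊆ Set.range rot) {u0 u1 v0 v1 : ℤ}
    {N δ h : ℝ} (hN : 0 < N) (hδ0 : 0 ≤ δ) (hδ : δ ≤ 1 / 10) (hh : h ≤ δ * N)
    (hbox : ∀ x ∈ R, (u0 ≤ x.1 ∧ x.1 ≤ u1) ∧ (v0 ≤ x.2 ∧ x.2 ≤ v1))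
    (hdense : ∀ s t : ℝ, (u0 : ℝ) ≤ s → s ≤ u1 → (v0 : ℝ) ≤ t → t ≤ v1 →
      ∃ x ∈ R, |(x.1 : ℝ) - s| ≤ h ∧ |(x.2 : ℝ) - t| ≤ h)
    (hu : |((u1 : ℝ) - u0) - 2 * N| ≤ δ * N) (hv : |((v1 : ℝ) - v0) - 2 * N| ≤ δ * N) :
    hausTrans (scaled (pull R)) diamond ≤ ENNReal.ofReal (2 * δ) := by
  rw [abs_le] at hu hv
  have hδN : δ * N ≤ N / 10 := by nlinarith
  set T : Set Plane := toPlane '' (pull R) with hT
  -- upper bound on the diameter
  have hdist : ∀ p ∈ T, ∀ q ∈ T, dist p q ≤ (2 + δ) * N := by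
    rintro p ⟨v, hv', rfl⟩ q ⟨w, hw', rfl⟩
    have b1 := hbox _ hv'
    have b2 := hbox _ hw'
    have c1 : (u0 : ℝ) ≤ (rot v).1 := by exact_mod_cast b1.1.1
    have c2 : ((rot v).1 : ℝ) ≤ u1 := by exact_mod_cast b1.1.2
    have c3 : (v0 : ℝ) ≤ (rot v).2 := by exact_mod_cast b1.2.1
    have c4 : ((rot v).2 : ℝ) ≤ v1 := by exact_mod_cast b1.2.2
    have d1 : (u0 : ℝ) ≤ (rot w).1 := by exact_mod_cast b2.1.1
    have d2 : ((rot w).1 : ℝ) ≤ u1 := by exact_mod_cast b2.1.2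
    have d3 : (v0 : ℝ) ≤ (rot w).2 := by exact_mod_cast b2.2.1
    have d4 : ((rot w).2 : ℝ) ≤ v1 := by exact_mod_cast b2.2.2
    apply dist_le_of_rot
    · rw [pU_toPlane, pU_toPlane, abs_le]
      constructor <;> linarith
    · rw [pV_toPlane, pV_toPlane, abs_le]
      constructor <;> linarith
  have hΔu : Metric.diam T ≤ (2 + δ) * N :=
    Metric.diam_le_of_forall_dist_le (by positivity) hdist
  have hbdd : Bornology.IsBounded T := Metric.isBounded_iff.2 ⟨(2 + δ) * N, fun p hp q hq => hdist p hp q hq⟩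
  -- lower bound on the diameter
  have hΔl : (2 - 3 * δ) * N ≤ Metric.diam T := by
    have hu01 : (u0 : ℝ) ≤ u1 := by linarith
    have hv01 : (v0 : ℝ) ≤ v1 := by linarith
    obtain ⟨x, hx, hx1, hx2⟩ := hdense u0 v0 le_rfl hu01 le_rfl hv01
    obtain ⟨y, hy, hy1, hy2⟩ := hdense u1 v1 hu01 le_rfl hv01 le_rfl
    obtain ⟨p, hp⟩ := hRr hx
    obtain ⟨q, hq⟩ := hRr hy
    have hpT : toPlane p ∈ T := ⟨p, by unfold pull; rw [Set.mem_ofPred_eq, hp]; exact hx, rfl⟩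
    have hqT : toPlane q ∈ T := ⟨q, by unfold pull; rw [Set.mem_ofPred_eq, hq]; exact hy, rfl⟩
    refine le_trans ?_ (Metric.dist_le_diam_of_mem hbdd hqT hpT)
    rw [abs_le] at hx1 hx2 hy1 hy2
    apply le_dist_of_rot
    · linarith
    · rw [pU_toPlane, pU_toPlane, hp, hq]
      linarith
    · rw [pV_toPlane, pV_toPlane, hp, hq]
      linarith
  set Δ := Metric.diam T with hΔ
  have hΔ17 : 17 / 10 * N ≤ Δ := by linarith
  have hΔ0 : 0 < Δ := by linarith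
  set cu : ℝ := ((u0 : ℝ) + u1) / 2 with hcu
  set cv : ℝ := ((v0 : ℝ) + v1) / 2 with hcv
  unfold hausTrans
  refine iInf_le_of_le (mkP (cu / Δ) (cv / Δ)) ?_
  apply Metric.hausdorffEDist_le_of_mem_edist
  · rintro _ ⟨_, ⟨v, hv', rfl⟩, rfl⟩
    have b1 := hbox _ hv'
    have c1 : (u0 : ℝ) ≤ (rot v).1 := by exact_mod_cast b1.1.1
    have c2 : ((rot v).1 : ℝ) ≤ u1 := by exact_mod_cast b1.1.2
    have c3 : (v0 : ℝ) ≤ (rot v).2 := by exact_mod_cast b1.2.1
    have c4 : ((rot v).2 : ℝ) ≤ v1 := by exact_mod_cast b1.2.2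
    have hM : 0 < (2 + δ) * N := by positivity
    have key : ∀ a : ℝ, |a| ≤ (2 + δ) * N / 2 →
        |Δ⁻¹ * a - a / ((2 + δ) * N)| ≤ 2 * δ := by
      intro a ha
      have e : Δ⁻¹ * a - a / ((2 + δ) * N) = a * (((2 + δ) * N - Δ) / (Δ * ((2 + δ) * N))) := by
        field_simp
      have hnn : 0 ≤ ((2 + δ) * N - Δ) / (Δ * ((2 + δ) * N)) :=
        div_nonneg (by linarith) (by positivity)
      rw [e, abs_mul, abs_of_nonneg hnn]
      have h1 : |a| * (((2 + δ) * N - Δ) / (Δ * ((2 + δ) * N))) ≤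
          (2 + δ) * N / 2 * (((2 + δ) * N - Δ) / (Δ * ((2 + δ) * N))) :=
        mul_le_mul_of_nonneg_right ha hnn
      refine h1.trans ?_
      have h2 : (2 + δ) * N / 2 * (((2 + δ) * N - Δ) / (Δ * ((2 + δ) * N)))
          = ((2 + δ) * N - Δ) / (2 * Δ) := by
        field_simp
      rw [h2, div_le_iff₀ (by positivity)]
      nlinarith
    have hau : |((rot v).1 : ℝ) - cu| ≤ (2 + δ) * N / 2 := by
      rw [abs_le, hcu]
      constructor <;> linarith
    have hav : |((rot v).2 : ℝ) - cv| ≤ (2 + δ) * N / 2 := by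
      rw [abs_le, hcv]
      constructor <;> linarith
    refine ⟨_, ⟨mkP ((((rot v).1 : ℝ) - cu) / ((2 + δ) * N))
      ((((rot v).2 : ℝ) - cv) / ((2 + δ) * N)), ?_, rfl⟩, ?_⟩
    · apply mem_diamond_mkP
      · rw [abs_div, abs_of_pos hM, div_le_iff₀ hM]
        linarith
      · rw [abs_div, abs_of_pos hM, div_le_iff₀ hM]
        linarith
    · rw [edist_dist]
      apply ENNReal.ofReal_le_ofReal
      apply dist_le_of_rot
      · rw [pU_smul, pU_add, pU_mkP, pU_mkP, pU_toPlane]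
        have := key _ hau
        refine le_trans (le_of_eq ?_) this
        congr 1
        ring
      · rw [pV_smul, pV_add, pV_mkP, pV_mkP, pV_toPlane]
        have := key _ hav
        refine le_trans (le_of_eq ?_) this
        congr 1
        ring
  · rintro _ ⟨w, hw, rfl⟩
    obtain ⟨hwU, hwV⟩ := diamond_bounds hw
    have hwU' := abs_le.1 hwU
    have hwV' := abs_le.1 hwV
    have hLu : 0 ≤ (u1 : ℝ) - u0 := by linarith
    have hLv : 0 ≤ (v1 : ℝ) - v0 := by linarith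
    obtain ⟨x, hx, hx1, hx2⟩ := hdense (cu + pU w * (u1 - u0)) (cv + pV w * (v1 - v0))
      (by rw [hcu]; nlinarith) (by rw [hcu]; nlinarith) (by rw [hcv]; nlinarith)
      (by rw [hcv]; nlinarith)
    obtain ⟨p, hp⟩ := hRr hx
    have hpT : toPlane p ∈ T := ⟨p, by unfold pull; rw [Set.mem_ofPred_eq, hp]; exact hx, rfl⟩
    refine ⟨_, ⟨toPlane p, hpT, rfl⟩, ?_⟩
    have key : ∀ a c s L : ℝ, |a - (c + s * L)| ≤ h → |s| ≤ 1 / 2 → |L - 2 * N| ≤ δ * N →
        |c / Δ + s - Δ⁻¹ * a| ≤ 2 * δ := by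
      intro a c s L h1 h2 h3
      have e : c / Δ + s - Δ⁻¹ * a = -((a - (c + s * L)) / Δ) - s * ((L - Δ) / Δ) := by
        field_simp
        ring
      rw [e]
      have h4 : |-((a - (c + s * L)) / Δ)| ≤ δ * N / Δ := by
        rw [abs_neg, abs_div, abs_of_pos hΔ0]
        exact div_le_div_of_nonneg_right (h1.trans hh) hΔ0.le
      have h5 : |s * ((L - Δ) / Δ)| ≤ 1 / 2 * (4 * δ * N / Δ) := by
        rw [abs_mul]
        apply mul_le_mul h2 _ (abs_nonneg _) (by norm_num)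
        rw [abs_div, abs_of_pos hΔ0]
        apply div_le_div_of_nonneg_right _ hΔ0.le
        rw [abs_le] at h3 ⊢
        constructor <;> linarith
      have h6 := abs_sub (-((a - (c + s * L)) / Δ)) (s * ((L - Δ) / Δ))
      refine h6.trans ((add_le_add h4 h5).trans ?_)
      have h7 : δ * N / Δ + 1 / 2 * (4 * δ * N / Δ) = 3 * δ * N / Δ := by ring
      rw [h7, div_le_iff₀ hΔ0]
      nlinarith
    rw [edist_dist]
    apply ENNReal.ofReal_le_ofReal
    apply dist_le_of_rot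
    · rw [pU_smul, pU_add, pU_mkP, pU_toPlane, hp]
      exact key _ _ _ _ hx1 hwU (abs_le.2 hu)
    · rw [pV_smul, pV_add, pV_mkP, pV_toPlane, hp]
      exact key _ _ _ _ hx2 hwV (abs_le.2 hv)

end Pool.Agent.Helper92.Diamond
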