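import Pool.Agent.Helper92_Diamond.Comb2

set_option autoImplicit false

open Finset

namespace Pool.Agent.Helper92.Diamond

/-- Every fat rectangle inside the bounding box is visited. -/
def Dense (l : ℕ) (R : Finset W) : Prop :=
  ∀ a b : ℤ, Finset.Icc a (a + 3 * l) ⊆ R.image Prod.fst →
    Finset.Icc b (b + 3 * l) ⊆ R.image Prod.snd →
    ∃ x ∈ R, x.1 ∈ Finset.Icc a (a + 3 * l) ∧ x.2 ∈ Finset.Icc b (b + 3 * l)

/-- The good event. -/
def GoodR (d N : ℝ) (R : Finset W) : Prop :=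
  Good3 (d / 100) N (bd R).card (Uset R) (Vset R) ∧ Dense ⌈4 * d * N⌉₊ R

end Pool.Agent.Helper92.Diamond
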