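import Pool.Agent.Helper92_Diamond.Geo
import Pool.Agent.Helper92_Diamond.Good

set_option autoImplicit false

open Filter Topology
open scoped ENNReal

namespace Pool.Agent.Helper92.Diamond

open Model

/-- The projection of a range is an interval of integers. -/
lemma image_fst_interval {R : Finset W} (hR : RangeProp 0 R) :
    ∃ u0 u1 : ℤ, u0 ≤ u1 ∧ R.image Prod.fst = Finset.Icc u0 u1 := by
  classical
  have hne : (R.image Prod.fst).Nonempty := ⟨_, Finset.mem_image.2 ⟨0, hR.mem, rfl⟩⟩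
  have h0 : (0 : ℤ) ∈ R.image Prod.fst := Finset.mem_image.2 ⟨0, hR.mem, rfl⟩
  refine ⟨(R.image Prod.fst).min' hne, (R.image Prod.fst).max' hne,
    Finset.min'_le_max' _ hne, ?_⟩
  have hmin := Finset.min'_mem _ hne
  have hmax := Finset.max'_mem _ hne
  have h1 := Finset.min'_le _ _ h0
  have h2 := Finset.le_max' _ _ h0
  rw [Finset.mem_image] at hmin hmax
  obtain ⟨y, hy, hy1⟩ := hmin
  obtain ⟨z, hz, hz1⟩ := hmax
  ext c
  rw [Finset.mem_Icc]
  constructor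
  · intro hc
    exact ⟨Finset.min'_le _ _ hc, Finset.le_max' _ _ hc⟩
  · rintro ⟨hc1, hc2⟩
    have hz0 : (0 : W).1 = 0 := rfl
    rcases le_total c 0 with hc | hc
    · obtain ⟨w, hw, hwc⟩ := hR.fst y hy c (by rw [hz0, hy1]; omega)
      exact Finset.mem_image.2 ⟨w, hw, hwc⟩
    · obtain ⟨w, hw, hwc⟩ := hR.fst z hz c (by rw [hz0, hz1]; omega)
      exact Finset.mem_image.2 ⟨w, hw, hwc⟩

lemma image_snd_interval {R : Finset W} (hR : RangeProp 0 R) :
    ∃ u0 u1 : ℤ, u0 ≤ u1 ∧ R.image Prod.snd = Finset.Icc u0 u1 := by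
  classical
  have hne : (R.image Prod.snd).Nonempty := ⟨_, Finset.mem_image.2 ⟨0, hR.mem, rfl⟩⟩
  have h0 : (0 : ℤ) ∈ R.image Prod.snd := Finset.mem_image.2 ⟨0, hR.mem, rfl⟩
  refine ⟨(R.image Prod.snd).min' hne, (R.image Prod.snd).max' hne,
    Finset.min'_le_max' _ hne, ?_⟩
  have hmin := Finset.min'_mem _ hne
  have hmax := Finset.max'_mem _ hne
  have h1 := Finset.min'_le _ _ h0
  have h2 := Finset.le_max' _ _ h0
  rw [Finset.mem_image] at hmin hmax
  obtain ⟨y, hy, hy1⟩ := hmin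
  obtain ⟨z, hz, hz1⟩ := hmax
  ext c
  rw [Finset.mem_Icc]
  constructor
  · intro hc
    exact ⟨Finset.min'_le _ _ hc, Finset.le_max' _ _ hc⟩
  · rintro ⟨hc1, hc2⟩
    have hz0 : (0 : W).2 = 0 := rfl
    rcases le_total c 0 with hc | hc
    · obtain ⟨w, hw, hwc⟩ := hR.snd y hy c (by rw [hz0, hy1]; omega)
      exact Finset.mem_image.2 ⟨w, hw, hwc⟩
    · obtain ⟨w, hw, hwc⟩ := hR.snd z hz c (by rw [hz0, hz1]; omega)
      exact Finset.mem_image.2 ⟨w, hw, hwc⟩

/-- Lengths of the projections. -/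
lemma length_fst {η N : ℝ} {R : Finset W} (h : Good3 η N (bd R).card (Uset R) (Vset R))
    {u0 u1 : ℤ} (hu : u0 ≤ u1) (hI : R.image Prod.fst = Finset.Icc u0 u1) :
    2 * (1 - η) * N - 3 ≤ (u1 : ℝ) - u0 ∧ (u1 : ℝ) - u0 ≤ (2 + 7 * η) * N + 3 := by
  have h1 := h.fst_le
  have h2 := Finset.card_sdiff_add_card_eq_card (Uset_subset R)
  have h3 : ((R.image Prod.fst).card : ℤ) = u1 - u0 + 1 := by
    rw [hI, Int.card_Icc]
    omega
  have h4 : ((R.image Prod.fst).card : ℝ) = (u1 : ℝ) - u0 + 1 := by exact_mod_cast h3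
  have h5 : (((R.image Prod.fst) \ Uset R).card : ℝ) + (Uset R).card = (R.image Prod.fst).card := by
    exact_mod_cast h2
  have h6 : ((ev (Uset R)).card : ℝ) + (od (Uset R)).card = (Uset R).card := by
    exact_mod_cast card_ev_add_od (Uset R)
  have h7 : 2 * (mE (Uset R) : ℝ) ≤ (ev (Uset R)).card + 1 := by exact_mod_cast two_mE_le (Uset R)
  have h8 : 2 * (mO (Uset R) : ℝ) ≤ (od (Uset R)).card + 1 := by exact_mod_cast two_mO_le (Uset R)
  have h9 : (0 : ℝ) ≤ ((R.image Prod.fst) \ Uset R).card := by positivity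
  have := h.ue
  have := h.uo
  have := h.rue
  have := h.ruo
  constructor <;> linarith

lemma length_snd {η N : ℝ} {R : Finset W} (h : Good3 η N (bd R).card (Uset R) (Vset R))
    {u0 u1 : ℤ} (hu : u0 ≤ u1) (hI : R.image Prod.snd = Finset.Icc u0 u1) :
    2 * (1 - η) * N - 3 ≤ (u1 : ℝ) - u0 ∧ (u1 : ℝ) - u0 ≤ (2 + 7 * η) * N + 3 := by
  have h1 := h.snd_le
  have h2 := Finset.card_sdiff_add_card_eq_card (Vset_subset R)
  have h3 : ((R.image Prod.snd).card : ℤ) = u1 - u0 + 1 := by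
    rw [hI, Int.card_Icc]
    omega
  have h4 : ((R.image Prod.snd).card : ℝ) = (u1 : ℝ) - u0 + 1 := by exact_mod_cast h3
  have h5 : (((R.image Prod.snd) \ Vset R).card : ℝ) + (Vset R).card = (R.image Prod.snd).card := by
    exact_mod_cast h2
  have h6 : ((ev (Vset R)).card : ℝ) + (od (Vset R)).card = (Vset R).card := by
    exact_mod_cast card_ev_add_od (Vset R)
  have h7 : 2 * (mE (Vset R) : ℝ) ≤ (ev (Vset R)).card + 1 := by exact_mod_cast two_mE_le (Vset R)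
  have h8 : 2 * (mO (Vset R) : ℝ) ≤ (od (Vset R)).card + 1 := by exact_mod_cast two_mO_le (Vset R)
  have h9 : (0 : ℝ) ≤ ((R.image Prod.snd) \ Vset R).card := by positivity
  have := h.ve
  have := h.vo
  have := h.rve
  have := h.rvo
  constructor <;> linarith

/-- Choice of a window around a real number. -/
lemma window {u0 u1 : ℤ} {l : ℕ} (hl : 3 * (l : ℤ) ≤ u1 - u0) {s : ℝ} (h0 : (u0 : ℝ) ≤ s)
    (h1 : s ≤ u1) : ∃ a : ℤ, u0 ≤ a ∧ a + 3 * l ≤ u1 ∧ (a : ℝ) ≤ s ∧ s ≤ a + 3 * l + 1 := by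
  have hf1 := Int.floor_le s
  have hf2 := Int.lt_floor_add_one s
  have hf3 : u0 ≤ ⌊s⌋ := Int.le_floor.2 h0
  by_cases h : ⌊s⌋ ≤ u1 - 3 * l
  · refine ⟨⌊s⌋, hf3, by omega, hf1, ?_⟩
    have : (0 : ℝ) ≤ 3 * l := by positivity
    linarith
  · push Not at h
    refine ⟨u1 - 3 * l, by omega, by omega, ?_, ?_⟩
    · have : ((u1 - 3 * l : ℤ) : ℝ) ≤ (⌊s⌋ : ℝ) := by exact_mod_cast h.le
      linarith
    · push_cast
      linarith

/-- Good ranges are close to a diamond. -/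
theorem geo_good {d N : ℝ} (hd0 : 0 < d) (hd1 : d ≤ 1 / 130) (hN : 100 / d ≤ N) {R : Finset W}
    (hR : RangeProp 0 R) (hG : GoodR d N R) :
    hausTrans (scaled (pull R)) diamond ≤ ENNReal.ofReal (26 * d) := by
  classical
  obtain ⟨hG3, hD⟩ := hG
  obtain ⟨u0, u1, hu, hIu⟩ := image_fst_interval hR
  obtain ⟨v0, v1, hv, hIv⟩ := image_snd_interval hR
  obtain ⟨lu1, lu2⟩ := length_fst hG3 hu hIu
  obtain ⟨lv1, lv2⟩ := length_snd hG3 hv hIv
  have h100 : 0 < 100 / d := by positivity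
  have hN0 : 0 < N := by linarith
  have hNd : 100 ≤ N * d := by
    rwa [div_le_iff₀ hd0] at hN
  have hdN : N * d ≤ N / 130 := by
    have := mul_le_mul_of_nonneg_left hd1 hN0.le
    linarith
  set l := ⌈4 * d * N⌉₊ with hl
  have hl1 : (l : ℝ) ≤ 4 * d * N + 1 := (Nat.ceil_lt_add_one (by positivity)).le
  have h3lu : 3 * (l : ℤ) ≤ u1 - u0 := by
    have : 3 * (l : ℝ) ≤ (u1 : ℝ) - u0 := by nlinarith
    exact_mod_cast this
  have h3lv : 3 * (l : ℤ) ≤ v1 - v0 := by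
    have : 3 * (l : ℝ) ≤ (v1 : ℝ) - v0 := by nlinarith
    exact_mod_cast this
  have hmain := hausTrans_le (R := R) (u0 := u0) (u1 := u1) (v0 := v0) (v1 := v1) (N := N)
    (δ := 13 * d) (h := 3 * l + 1) hR.subset_range hN0 (by positivity) (by linarith)
    (by nlinarith) (by
      intro x hx
      have m1 : x.1 ∈ R.image Prod.fst := Finset.mem_image.2 ⟨x, hx, rfl⟩
      have m2 : x.2 ∈ R.image Prod.snd := Finset.mem_image.2 ⟨x, hx, rfl⟩
      rw [hIu, Finset.mem_Icc] at m1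
      rw [hIv, Finset.mem_Icc] at m2
      exact ⟨m1, m2⟩) (by
      intro s t hs0 hs1 ht0 ht1
      obtain ⟨a, ha0, ha1, ha2, ha3⟩ := window h3lu hs0 hs1
      obtain ⟨b, hb0, hb1, hb2, hb3⟩ := window h3lv ht0 ht1
      obtain ⟨x, hx, hx1, hx2⟩ := hD a b
        (by rw [hIu]; intro z hz; rw [Finset.mem_Icc] at hz ⊢; omega)
        (by rw [hIv]; intro z hz; rw [Finset.mem_Icc] at hz ⊢; omega)
      rw [Finset.mem_Icc] at hx1 hx2
      have e1 : (a : ℝ) ≤ x.1 := by exact_mod_cast hx1.1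
      have e2 : (x.1 : ℝ) ≤ a + 3 * l := by exact_mod_cast hx1.2
      have e3 : (b : ℝ) ≤ x.2 := by exact_mod_cast hx2.1
      have e4 : (x.2 : ℝ) ≤ b + 3 * l := by exact_mod_cast hx2.2
      refine ⟨x, hx, ?_, ?_⟩
      · rw [abs_le]
        constructor <;> linarith
      · rw [abs_le]
        constructor <;> linarith)
    (by rw [abs_le]; constructor <;> nlinarith) (by rw [abs_le]; constructor <;> nlinarith)
  have e : 2 * (13 * d) = 26 * d := by ring
  rwa [e] at hmain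

end Pool.Agent.Helper92.Diamond
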