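import Pool.Agent.Helper92_Diamond.Upper

set_option autoImplicit false

open Finset Real

namespace Pool.Agent.Helper92.Diamond

/-- Even elements. -/
def ev (T : Finset ℤ) : Finset ℤ := T.filter (fun z => z % 2 = 0)

/-- Odd elements. -/
def od (T : Finset ℤ) : Finset ℤ := T.filter (fun z => ¬ z % 2 = 0)

lemma dW_le_ev (U : Finset ℤ) (u : ℤ) (hu : u % 2 = 0) : 2 * dW U u ≤ (ev U).card + 1 := by
  refine dW_card _ fun i hi => ?_
  rw [ev, Finset.mem_filter]
  exact ⟨dW_mem_run hi, by omega⟩

lemma dW_le_od (U : Finset ℤ) (u : ℤ) (hu : ¬ u % 2 = 0) : 2 * dW U u ≤ (od U).card + 1 := by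
  refine dW_card _ fun i hi => ?_
  rw [od, Finset.mem_filter]
  exact ⟨dW_mem_run hi, by omega⟩

/-- After erasing the even point `j`, runs through even points are shorter. -/
lemma dW_erase_le (V : Finset ℤ) (j u : ℤ) (hj : j % 2 = 0) (hu : u % 2 = 0) {m : ℕ}
    (h1 : ((ev V).filter (fun z => z < j)).card ≤ m)
    (h2 : ((ev V).filter (fun z => j < z)).card ≤ m) : 2 * dW (V.erase j) u ≤ m + 1 := by
  rcases lt_trichotomy u j with hlt | heq | hgt
  · refine (dW_card ((ev V).filter (fun z => z < j)) fun i hi => ?_).trans (by omega)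
    have hmem := dW_mem_run hi
    rw [Finset.mem_filter, ev, Finset.mem_filter]
    refine ⟨⟨Finset.mem_of_mem_erase hmem, by omega⟩, ?_⟩
    by_contra hcon
    -- the run crosses `j`
    have hk : |(j - u) / 2| < (dW (V.erase j) u : ℤ) := by
      rw [abs_of_nonneg (by omega)]
      rw [abs_lt] at hi
      omega
    have := dW_mem_run hk
    have e : u + 2 * ((j - u) / 2) = j := by omega
    rw [e] at this
    exact absurd rfl (Finset.ne_of_mem_erase this)
  · subst heq
    rw [dW_eq_zero (Finset.notMem_erase _ _)]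
    omega
  · refine (dW_card ((ev V).filter (fun z => j < z)) fun i hi => ?_).trans (by omega)
    have hmem := dW_mem_run hi
    rw [Finset.mem_filter, ev, Finset.mem_filter]
    refine ⟨⟨Finset.mem_of_mem_erase hmem, by omega⟩, ?_⟩
    by_contra hcon
    have hk : |(j - u) / 2| < (dW (V.erase j) u : ℤ) := by
      rw [abs_of_nonpos (by omega)]
      rw [abs_lt] at hi
      omega
    have := dW_mem_run hk
    have e : u + 2 * ((j - u) / 2) = j := by omega
    rw [e] at this
    exact absurd rfl (Finset.ne_of_mem_erase this)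

/-- Mass on even points of the strip `J`. -/
noncomputable def wJ (J : Finset ℤ) (f : W → ℝ) : ℝ :=
  S (fun x => ind (x.2 ∈ ev J) * f x ^ 2)

lemma S_comb4 {F G H K : W → ℝ} (hF : FS F) (hG : FS G) (hH : FS H) (hK : FS K) (a b c d : ℝ) :
    S (fun x => a * F x + b * G x - c * H x + d * K x)
      = a * S F + b * S G - c * S H + d * S K := by
  rw [S_add (F := fun x => a * F x + b * G x - c * H x) (G := fun x => d * K x)
    ((hF.mul_left.add hG.mul_left).sub hH.mul_left) hK.mul_left, S_comb3 hF hG hH, S_mul_left]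

/-- First direction, gaining on the strip `Jm` from a missing rectangle `Ju × Jv`. -/
lemma hole_fst {al : W → Fin 4 → Prop} {A : Finset W} (hpar : Par A) {U V : Finset ℤ}
    (hpen : Penal al A U V) {Ju Jv Jm : Finset ℤ} (hJ : Jm ⊆ Jv)
    (hq : ∀ x ∈ A, ¬ (x.1 ∈ Ju ∧ x.2 ∈ Jv))
    {f : W → ℝ} (hf : FS f) (hfA : ∀ x, x ∉ A → f x = 0) {κ : ℝ} (hκ : 0 < κ) {g : ℕ}
    (hg : g ≤ (ev (U ∩ Ju)).card) {nue nuo : ℕ} (hnue : (ev U).card ≤ nue)
    (hnuo : (od U).card ≤ nuo) :
    hh nue κ * nE f + hh nuo κ * nO f - 3 / κ * pen al f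
      + (hh (nue - g) κ - hh nue κ) * wJ Jm f ≤ Q f (2, 0) := by
  classical
  have hgU : (ev (U ∩ Ju)).card + (ev (U \ Ju)).card = (ev U).card := by
    unfold ev
    rw [← Finset.card_union_of_disjoint]
    · congr 1
      ext z
      simp only [Finset.mem_union, Finset.mem_filter, Finset.mem_inter, Finset.mem_sdiff]
      tauto
    · rw [Finset.disjoint_left]
      intro z hz1 hz2
      simp only [Finset.mem_filter, Finset.mem_inter, Finset.mem_sdiff] at hz1 hz2
      exact hz2.1.2 hz1.1.2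
  have hgn : (g : ℝ) ≤ nue := by
    have : g ≤ nue := by omega
    exact_mod_cast this
  have key := line_fst' hf (fun v => if v ∈ ev Jm then U \ Ju else U)
    (fun v p => if v ∈ ev Jm then (nue : ℝ) - g else if p = 0 then nue else nuo)
    (fun _ _ => κ)
    (fun v p => by
      split_ifs
      · linarith
      · positivity
      · positivity) (fun _ _ => hκ) (by
      intro x hx0
      have hxp := hpar x (not_mem_of_ne hfA hx0)
      by_cases hx : x.2 ∈ ev Jm
      · simp only [if_pos hx]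
        have hx1 : x.1 % 2 = 0 := by
          rw [hxp]
          exact (Finset.mem_filter.1 hx).2
        have h1 := dW_le_ev (U \ Ju) x.1 hx1
        have h2 : 2 * dW (U \ Ju) x.1 + g ≤ nue + 1 := by omega
        have h3 : (2 * dW (U \ Ju) x.1 + g : ℝ) ≤ nue + 1 := by exact_mod_cast h2
        linarith
      · simp only [if_neg hx]
        by_cases hp : x.1 % 2 = 0
        · simp only [if_pos hp]
          have h1 := dW_le_ev U x.1 hp
          have h2 : 2 * dW U x.1 ≤ nue + 1 := by omega
          exact_mod_cast h2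
        · simp only [if_neg hp]
          have h1 := dW_le_od U x.1 hp
          have h2 : 2 * dW U x.1 ≤ nuo + 1 := by omega
          exact_mod_cast h2)
  refine le_trans ?_ key
  unfold nE nO pen wJ
  rw [← S_comb4 hf.sq.mul_left hf.sq.mul_left hf.sq.mul_left hf.sq.mul_left]
  refine S_mono (((hf.sq.mul_left.mul_left.add hf.sq.mul_left.mul_left).sub
    hf.sq.mul_left.mul_left).add hf.sq.mul_left.mul_left) hf.sq.mul_left fun x => ?_
  by_cases hx0 : f x = 0
  · simp [hx0]
  have hxA := not_mem_of_ne hfA hx0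
  have hxp := hpar x hxA
  have hk : 0 < 3 / κ := by positivity
  have hsq := sq_nonneg (f x)
  by_cases hx : x.2 ∈ ev Jm
  · have hx1 : x.1 % 2 = 0 := by
      rw [hxp]
      exact (Finset.mem_filter.1 hx).2
    have hxJ : x.1 ∉ Ju := fun h => hq x hxA ⟨h, hJ (Finset.mem_filter.1 hx).1⟩
    have h3 : ind (x.1 ∉ U \ Ju) ≤ ind (∃ i, ¬ al x i) :=
      ind_mono fun h => hpen x hxA (Or.inl fun hU => h (Finset.mem_sdiff.2 ⟨hU, hxJ⟩))
    have h4 := mul_le_mul_of_nonneg_left h3 hk.le
    simp only [hx1, if_pos hx]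
    rw [ind_true hx, ind_true trivial, ind_false (not_not.2 trivial)]
    nlinarith
  · have h3 : ind (x.1 ∉ U) ≤ ind (∃ i, ¬ al x i) := ind_mono fun h => hpen x hxA (Or.inl h)
    have h4 := mul_le_mul_of_nonneg_left h3 hk.le
    by_cases hp : x.1 % 2 = 0
    · simp only [hp, if_true, if_neg hx]
      rw [ind_true trivial, ind_false (not_not.2 trivial), ind_false hx]
      nlinarith
    · simp only [hp, if_false, if_neg hx]
      rw [ind_false (not_false), ind_true not_false, ind_false hx]
      nlinarith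

/-- Mass on a graph is controlled by the mass on a strip. -/
lemma graph_mass {f : W → ℝ} (hf : FS f) (J : Finset ℤ) (j0 : ℤ → ℤ)
    (hmin : ∀ u, ∀ j ∈ ev J, f (u, j0 u) ^ 2 ≤ f (u, j) ^ 2) :
    (ev J).card * S (fun x => ind (x.2 = j0 x.1) * f x ^ 2) ≤ wJ J f := by
  classical
  have h1 : ∀ j ∈ ev J, S (fun x => ind (x.2 = j0 x.1) * f x ^ 2)
      ≤ S (fun x => ind (x.2 = j) * f x ^ 2) := by
    intro j hj
    let e : W ≃ W :=
      { toFun := fun x => (x.1, x.2 + (j0 x.1 - j))
        invFun := fun x => (x.1, x.2 - (j0 x.1 - j))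
        left_inv := fun x => by ext <;> simp
        right_inv := fun x => by ext <;> simp }
    have he : S (fun x => ind (x.2 = j0 x.1) * f x ^ 2)
        = S (fun x => ind ((e x).2 = j0 (e x).1) * f (e x) ^ 2) :=
      (e.tsum_eq (fun x => ind (x.2 = j0 x.1) * f x ^ 2)).symm
    rw [he]
    refine S_mono ?_ hf.sq.mul_left fun x => ?_
    · have : FS (fun x => f (e x)) := by
        have h2 : Function.support (fun x => f (e x)) = e ⁻¹' (Function.support f) := rfl
        unfold FS
        rw [h2]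
        exact Set.Finite.preimage e.injective.injOn hf
      exact this.sq.mul_left
    · have e1 : (e x).1 = x.1 := rfl
      have e2 : (e x).2 = x.2 + (j0 x.1 - j) := rfl
      by_cases hx : x.2 = j
      · have h3 : (e x).2 = j0 (e x).1 := by rw [e1, e2, hx]; ring
        have h4 : e x = (x.1, j0 x.1) := by
          ext
          · rfl
          · rw [e2, hx]; ring
        have h5 : x = (x.1, j) := by
          ext
          · rfl
          · exact hx
        rw [ind_true h3, ind_true hx, one_mul, one_mul, h4]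
        conv_rhs => rw [h5]
        exact hmin x.1 j hj
      · have h3 : ¬ (e x).2 = j0 (e x).1 := by
          rw [e1, e2]
          intro h
          apply hx
          linarith
        rw [ind_false h3, ind_false hx]
        simp
  have h2 : ∑ j ∈ ev J, S (fun x => ind (x.2 = j) * f x ^ 2) = wJ J f := by
    rw [← S_sum fun j _ => hf.sq.mul_left]
    unfold wJ
    congr 1
    funext x
    rw [← Finset.sum_mul]
    congr 1
    by_cases hx : x.2 ∈ ev J
    · rw [ind_true hx, Finset.sum_eq_single x.2]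
      · exact ind_true rfl
      · intro b _ hb
        exact ind_false (fun h => hb h.symm)
      · intro h
        exact absurd hx h
    · rw [ind_false hx]
      refine Finset.sum_eq_zero fun j hj => ind_false ?_
      rintro rfl
      exact hx hj
  rw [← h2]
  have := Finset.card_nsmul_le_sum (ev J) (fun j => S (fun x => ind (x.2 = j) * f x ^ 2))
    (S (fun x => ind (x.2 = j0 x.1) * f x ^ 2)) h1
  simpa [nsmul_eq_mul] using this

/-- Second direction: cut along a curve in the strip `J`. -/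
lemma cut_snd {al : W → Fin 4 → Prop} {A : Finset W} (hpar : Par A) {U V : Finset ℤ}
    (hpen : Penal al A U V)
    {f : W → ℝ} (hf : FS f) (hfA : ∀ x, x ∉ A → f x = 0) {κ κ₁ : ℝ} (hκ : 0 < κ) (hκ₁ : κ ≤ κ₁)
    (j0 : ℤ → ℤ) {mB nvo : ℕ} (hj0 : ∀ u, j0 u % 2 = 0)
    (hB1 : ∀ u, ((ev V).filter (fun z => z < j0 u)).card ≤ mB)
    (hB2 : ∀ u, ((ev V).filter (fun z => j0 u < z)).card ≤ mB)
    (hnvo : (od V).card ≤ nvo) :
    hh mB κ₁ * nE f + hh nvo κ * nO f - 3 / κ * pen al f
      + (-(3 / κ₁)) * S (fun x => ind (x.2 = j0 x.1) * f x ^ 2) ≤ Q f (0, 2) := by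
  classical
  have hκ₁0 : 0 < κ₁ := lt_of_lt_of_le hκ hκ₁
  have key := line_snd' hf (fun u => if u % 2 = 0 then V.erase (j0 u) else V)
    (fun u _ => if u % 2 = 0 then (mB : ℝ) else nvo)
    (fun u _ => if u % 2 = 0 then κ₁ else κ)
    (fun u p => by split_ifs <;> positivity)
    (fun u p => by
      split_ifs
      · exact hκ₁0
      · exact hκ) (by
      intro x hx0
      have hxp := hpar x (not_mem_of_ne hfA hx0)
      by_cases hx : x.1 % 2 = 0
      · simp only [if_pos hx]
        have h1 := dW_erase_le V (j0 x.1) x.2 (hj0 _) (by omega) (hB1 _) (hB2 _)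
        exact_mod_cast h1
      · simp only [if_neg hx]
        have h1 := dW_le_od V x.2 (by omega)
        have h2 : 2 * dW V x.2 ≤ nvo + 1 := by omega
        exact_mod_cast h2)
  refine le_trans ?_ key
  unfold nE nO pen
  rw [← S_comb4 hf.sq.mul_left hf.sq.mul_left hf.sq.mul_left hf.sq.mul_left]
  refine S_mono (((hf.sq.mul_left.mul_left.add hf.sq.mul_left.mul_left).sub
    hf.sq.mul_left.mul_left).add hf.sq.mul_left.mul_left) hf.sq.mul_left fun x => ?_
  by_cases hx0 : f x = 0
  · simp [hx0]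
  have hxA := not_mem_of_ne hfA hx0
  have hk : 0 < 3 / κ := by positivity
  have hk1 : 0 < 3 / κ₁ := by positivity
  have hk2 : 3 / κ₁ ≤ 3 / κ := by
    apply div_le_div_of_nonneg_left (by norm_num) hκ hκ₁
  have hsq := sq_nonneg (f x)
  have h3 : ind (x.2 ∉ V) ≤ ind (∃ i, ¬ al x i) := ind_mono fun h => hpen x hxA (Or.inr h)
  have h30 := ind_nonneg (x.2 ∉ V)
  by_cases hp : x.1 % 2 = 0
  · simp only [hp, if_true]
    rw [ind_true trivial, ind_false (not_not.2 trivial)]
    have h5 : ind (x.2 ∉ V.erase (j0 x.1)) ≤ ind (x.2 ∉ V) + ind (x.2 = j0 x.1) := by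
      by_cases h : x.2 = j0 x.1
      · rw [ind_true h]
        linarith [ind_le_one (x.2 ∉ V.erase (j0 x.1))]
      · rw [ind_false h, add_zero]
        exact ind_mono fun h6 h7 => h6 (Finset.mem_erase.2 ⟨h, h7⟩)
    have h6 : 3 / κ₁ * ind (x.2 ∉ V.erase (j0 x.1))
        ≤ 3 / κ * ind (∃ i, ¬ al x i) + 3 / κ₁ * ind (x.2 = j0 x.1) := by
      calc 3 / κ₁ * ind (x.2 ∉ V.erase (j0 x.1))
          ≤ 3 / κ₁ * (ind (x.2 ∉ V) + ind (x.2 = j0 x.1)) :=
            mul_le_mul_of_nonneg_left h5 hk1.le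
        _ = 3 / κ₁ * ind (x.2 ∉ V) + 3 / κ₁ * ind (x.2 = j0 x.1) := by ring
        _ ≤ 3 / κ * ind (∃ i, ¬ al x i) + 3 / κ₁ * ind (x.2 = j0 x.1) := by
            have : 3 / κ₁ * ind (x.2 ∉ V) ≤ 3 / κ * ind (∃ i, ¬ al x i) :=
              mul_le_mul hk2 h3 h30 hk.le
            linarith
    nlinarith
  · simp only [hp, if_false]
    rw [ind_false (not_false), ind_true not_false]
    have h4 := mul_le_mul_of_nonneg_left h3 hk.le
    have h7 : 0 ≤ 3 / κ₁ * (ind (x.2 = j0 x.1) * f x ^ 2) :=
      mul_nonneg hk1.le (mul_nonneg (ind_nonneg _) hsq)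
    nlinarith

/-- Bound in the presence of a missing rectangle. -/
theorem quadBound_hole {al : W → Fin 4 → Prop} {A : Finset W} (hpar : Par A) {U V : Finset ℤ}
    (hpen : Penal al A U V) {Ju Jv Jm : Finset ℤ} (hJ : Jm ⊆ Jv)
    (hq : ∀ x ∈ A, ¬ (x.1 ∈ Ju ∧ x.2 ∈ Jv)) {κ κ₁ θ Δ : ℝ} (hκ : 0 < κ) (hκ₁ : κ ≤ κ₁)
    (hθ : 0 < θ) (hΔ0 : 0 ≤ Δ) {g : ℕ} (hg : g ≤ (ev (U ∩ Ju)).card)
    {nue nuo nve nvo mB : ℕ} (hnue : (ev U).card ≤ nue)
    (hnuo : (od U).card ≤ nuo) (hnve : (ev V).card ≤ nve) (hnvo : (od V).card ≤ nvo)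
    (hne : (ev Jm).Nonempty)
    (hB1 : ∀ j ∈ ev Jm, ((ev V).filter (fun z => z < j)).card ≤ mB)
    (hB2 : ∀ j ∈ ev Jm, ((ev V).filter (fun z => j < z)).card ≤ mB)
    (hΔ1 : Δ ≤ θ * (hh (nue - g) κ - hh nue κ))
    (hΔ2 : Δ ≤ hh mB κ₁ - hh nve κ - 3 / κ₁ * (θ / (ev Jm).card)) :
    QuadBound al A
      (1 - (hh nue κ + hh nuo κ + hh nve κ + hh nvo κ + Δ) / (16 * (1 + 6 / κ))) := by
  classical
  have hκ₁0 : 0 < κ₁ := lt_of_lt_of_le hκ hκ₁
  have hκ6 : 0 < 6 / κ := by positivity
  have hcJ : 0 < ((ev Jm).card : ℝ) := by exact_mod_cast hne.card_pos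
  refine quadBound_of_balanced ?_ ?_
  · rw [sub_nonneg, div_le_one (by positivity)]
    have a1 := hh_le (m := nue) (by positivity) hκ
    have a2 := hh_le (m := nuo) (by positivity) hκ
    have a3 := hh_le (m := nve) (by positivity) hκ
    have a4 := hh_le (m := nvo) (by positivity) hκ
    have a5 := hh_le (m := mB) (by positivity) hκ₁0
    have a6 := hh_nonneg nve κ
    have a7 : 1 / κ₁ ≤ 1 / κ := div_le_div_of_nonneg_left (by norm_num) hκ hκ₁
    have a8 : 0 ≤ 3 / κ₁ * (θ / (ev Jm).card) := by positivity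
    have e : 6 / κ = 6 * (1 / κ) := by ring
    rw [e]
    have : 0 < 1 / κ := by positivity
    linarith
  · intro f hf hf0 hfA hbal
    refine form_le_of_energy hf hf0 hκ hbal ?_
    have hnE := nE_nonneg f
    have hb1 := base_fst (me := nue) (mo := nuo) hpen hf hfA (by positivity) (by positivity) hκ
      (fun u hu => by
        have h1 := dW_le_ev U u hu
        have h2 : 2 * dW U u ≤ nue + 1 := by omega
        exact_mod_cast h2)
      (fun u hu => by
        have h1 := dW_le_od U u hu
        have h2 : 2 * dW U u ≤ nuo + 1 := by omega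
        exact_mod_cast h2)
    have hb2 := base_snd (me := nve) (mo := nvo) hpar hpen hf hfA (by positivity) (by positivity) hκ
      (fun u hu => by
        have h1 := dW_le_ev V u hu
        have h2 : 2 * dW V u ≤ nve + 1 := by omega
        exact_mod_cast h2)
      (fun u hu => by
        have h1 := dW_le_od V u hu
        have h2 : 2 * dW V u ≤ nvo + 1 := by omega
        exact_mod_cast h2)
    rw [← hbal] at hb1 hb2
    have e : 6 / κ = 3 / κ + 3 / κ := by ring
    rw [e]
    rcases le_total (θ * nE f) (wJ Jm f) with hcase | hcase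
    · -- large mass on the strip
      have h1 := hole_fst hpar hpen hJ hq hf hfA hκ hg hnue hnuo
      rw [← hbal] at h1
      have h2 : 0 ≤ hh (nue - g) κ - hh nue κ := by
        by_contra hcon
        push Not at hcon
        have : θ * (hh (nue - g) κ - hh nue κ) < 0 := mul_neg_of_pos_of_neg hθ hcon
        linarith
      have h3 := mul_le_mul_of_nonneg_left hcase h2
      have h4 := mul_le_mul_of_nonneg_right hΔ1 hnE
      nlinarith
    · -- small mass on the strip: cut
      have hmin : ∀ u : ℤ, ∃ j ∈ ev Jm, ∀ j' ∈ ev Jm, f (u, j) ^ 2 ≤ f (u, j') ^ 2 :=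
        fun u => Finset.exists_min_image (ev Jm) (fun j => f (u, j) ^ 2) hne
      choose j0 hj0 hj0min using hmin
      have h1 := cut_snd (U := U) (nvo := nvo) hpar hpen hf hfA hκ hκ₁ j0
        (fun u => (Finset.mem_filter.1 (hj0 u)).2) (fun u => hB1 _ (hj0 u))
        (fun u => hB2 _ (hj0 u)) hnvo
      rw [← hbal] at h1
      have h2 := graph_mass hf Jm j0 hj0min
      set X := S (fun x => ind (x.2 = j0 x.1) * f x ^ 2) with hX
      have h3 : X ≤ θ / (ev Jm).card * nE f := by
        rw [div_mul_eq_mul_div, le_div_iff₀ hcJ]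
        linarith
      have h4 : 3 / κ₁ * X ≤ 3 / κ₁ * (θ / (ev Jm).card * nE f) :=
        mul_le_mul_of_nonneg_left h3 (by positivity)
      have h5 := mul_le_mul_of_nonneg_right hΔ2 hnE
      nlinarith

end Pool.Agent.Helper92.Diamond
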