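import Pool.Agent.Helper92_Diamond.Gap2
import Pool.Agent.Helper92_Diamond.Cov

set_option autoImplicit false

open Finset Real

namespace Pool.Agent.Helper92.Diamond

/-- Principal eigenvalue of the diamond. -/
noncomputable def rho (m : ℕ) : ℝ := cos (π / (2 * (m + 1))) ^ 2

/-- Principal eigenfunction. -/
noncomputable def phi (m : ℕ) (x : W) : ℝ :=
  cos (π / (2 * (m + 1)) * x.1) * cos (π / (2 * (m + 1)) * x.2)

lemma phi_avg (m : ℕ) (x : W) :
    (1 / 4) * ∑ i : Fin 4, phi m (x + dir i) = rho m * phi m x := by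
  rw [sum_dir (fun y => phi m (x + y))]
  unfold phi rho
  have e : ∀ a b : ℤ, cos (π / (2 * (m + 1)) * ((x + ((a, b) : W)).1 : ℤ))
      = cos (π / (2 * (m + 1)) * x.1 + π / (2 * (m + 1)) * a) := by
    intro a b
    congr 1
    have : (x + ((a, b) : W)).1 = x.1 + a := rfl
    rw [this]
    push_cast
    ring
  have e' : ∀ a b : ℤ, cos (π / (2 * (m + 1)) * ((x + ((a, b) : W)).2 : ℤ))
      = cos (π / (2 * (m + 1)) * x.2 + π / (2 * (m + 1)) * b) := by
    intro a b
    congr 1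
    have : (x + ((a, b) : W)).2 = x.2 + b := rfl
    rw [this]
    push_cast
    ring
  simp only [e, e', Int.cast_neg, Int.cast_one, mul_neg, mul_one]
  simp only [cos_add, cos_neg, sin_neg]
  ring

lemma abs_arg_le {m : ℕ} {u : ℤ} (h1 : -((m : ℤ) + 1) ≤ u) (h2 : u ≤ m + 1) :
    |π / (2 * (m + 1)) * (u : ℝ)| ≤ π / 2 := by
  have hm : (0 : ℝ) < 2 * (m + 1) := by positivity
  rw [abs_mul, abs_of_pos (by positivity : 0 < π / (2 * ((m : ℝ) + 1)))]
  have h3 : |(u : ℝ)| ≤ m + 1 := by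
    rw [abs_le]
    constructor
    · exact_mod_cast h1
    · exact_mod_cast h2
  calc π / (2 * (m + 1)) * |(u : ℝ)| ≤ π / (2 * (m + 1)) * (m + 1) :=
        mul_le_mul_of_nonneg_left h3 (by positivity)
    _ = π / 2 := by field_simp

lemma cos_arg_nonneg {m : ℕ} {u : ℤ} (h1 : -((m : ℤ) + 1) ≤ u) (h2 : u ≤ m + 1) :
    0 ≤ cos (π / (2 * (m + 1)) * (u : ℝ)) := by
  have h := abs_arg_le h1 h2
  rw [abs_le] at h
  exact cos_nonneg_of_neg_pi_div_two_le_of_le (by linarith [h.1]) h.2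

lemma cos_arg_zero {m : ℕ} {u : ℤ} (h : u = m + 1 ∨ u = -((m : ℤ) + 1)) :
    cos (π / (2 * (m + 1)) * (u : ℝ)) = 0 := by
  rcases h with rfl | rfl
  · have : π / (2 * ((m : ℝ) + 1)) * (((m : ℤ) + 1 : ℤ) : ℝ) = π / 2 := by
      push_cast
      field_simp
    rw [this, cos_pi_div_two]
  · have : π / (2 * ((m : ℝ) + 1)) * ((-((m : ℤ) + 1) : ℤ) : ℝ) = -(π / 2) := by
      push_cast
      field_simp
    rw [this, cos_neg, cos_pi_div_two]

lemma phi_le_one (m : ℕ) {x : W}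
    (h3 : -((m : ℤ) + 1) ≤ x.2) (h4 : x.2 ≤ m + 1) : phi m x ≤ 1 := by
  unfold phi
  exact mul_le_one₀ (cos_le_one _) (cos_arg_nonneg h3 h4) (cos_le_one _)

lemma rho_nonneg (m : ℕ) : 0 ≤ rho m := sq_nonneg _

lemma rho_le_one (m : ℕ) : rho m ≤ 1 := by
  unfold rho
  nlinarith [cos_le_one (π / (2 * ((m : ℝ) + 1))), neg_one_le_cos (π / (2 * ((m : ℝ) + 1)))]

lemma stay_ge_aux (m j : ℕ) (x : W) (h1 : -((m : ℤ) + 1) ≤ x.1) (h2 : x.1 ≤ m + 1)
    (h3 : -((m : ℤ) + 1) ≤ x.2) (h4 : x.2 ≤ m + 1) (hp : x.1 % 2 = x.2 % 2) :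
    rho m ^ j * phi m x ≤ stay (Dm m) j x := by
  induction j generalizing x with
  | zero =>
    by_cases hx : x ∈ Dm m
    · rw [stay_zero, ind_true hx, pow_zero, one_mul]
      exact phi_le_one m h3 h4
    · have : phi m x = 0 := by
        unfold phi
        rw [mem_Dm] at hx
        by_cases hu : x.1 = m + 1 ∨ x.1 = -((m : ℤ) + 1)
        · rw [cos_arg_zero hu, zero_mul]
        · have hv : x.2 = m + 1 ∨ x.2 = -((m : ℤ) + 1) := by omega
          rw [cos_arg_zero hv, mul_zero]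
      rw [this, mul_zero]
      exact stay_nonneg _ _ _
  | succ j ih =>
    by_cases hx : x ∈ Dm m
    · rw [stay_succ_mem hx, pow_succ, mul_assoc, ← phi_avg, mul_left_comm, Finset.mul_sum]
      refine mul_le_mul_of_nonneg_left (Finset.sum_le_sum fun i _ => ?_) (by norm_num)
      rw [mem_Dm] at hx
      have hd := dir_cases i
      have e1 : (x + dir i).1 = x.1 + (dir i).1 := rfl
      have e2 : (x + dir i).2 = x.2 + (dir i).2 := rfl
      apply ih
      · omega
      · omega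
      · omega
      · omega
      · omega
    · have : phi m x = 0 := by
        unfold phi
        rw [mem_Dm] at hx
        by_cases hu : x.1 = m + 1 ∨ x.1 = -((m : ℤ) + 1)
        · rw [cos_arg_zero hu, zero_mul]
        · have hv : x.2 = m + 1 ∨ x.2 = -((m : ℤ) + 1) := by omega
          rw [cos_arg_zero hv, mul_zero]
      rw [this, mul_zero]
      exact stay_nonneg _ _ _

lemma cos_arg_ge {m : ℕ} {u : ℤ} (h1 : -(m : ℤ) ≤ u) (h2 : u ≤ m) :
    1 / ((m : ℝ) + 1) ≤ cos (π / (2 * (m + 1)) * (u : ℝ)) := by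
  rw [← cos_abs]
  have hm : (0 : ℝ) < 2 * (m + 1) := by positivity
  have h3 : |(u : ℝ)| ≤ m := by
    rw [abs_le]
    constructor
    · exact_mod_cast h1
    · exact_mod_cast h2
  have h4 : |π / (2 * (m + 1)) * (u : ℝ)| = π / (2 * (m + 1)) * |(u : ℝ)| := by
    rw [abs_mul, abs_of_pos (by positivity : 0 < π / (2 * ((m : ℝ) + 1)))]
  rw [h4]
  have h5 : π / (2 * (m + 1)) * |(u : ℝ)| ≤ π / (2 * (m + 1)) * m :=
    mul_le_mul_of_nonneg_left h3 (by positivity)
  have h6 : π / (2 * (m + 1)) * (m : ℝ) = π / 2 - π / 2 * (1 / (m + 1)) := by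
    field_simp
    ring
  have h7 : 1 / ((m : ℝ) + 1) ≤ 1 := by
    rw [div_le_one (by positivity)]
    have : (0 : ℝ) ≤ m := by positivity
    linarith
  have h8 : (0 : ℝ) < 1 / (m + 1) := by positivity
  rw [← sin_pi_div_two_sub]
  have h9 := mul_le_sin (x := π / 2 * (1 / ((m : ℝ) + 1))) (by positivity)
    (by nlinarith [pi_pos])
  have h10 : 2 / π * (π / 2 * (1 / ((m : ℝ) + 1))) = 1 / (m + 1) := by
    have := pi_ne_zero
    field_simp
  rw [h10] at h9
  refine h9.trans ?_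
  apply sin_le_sin_of_le_of_le_pi_div_two
  · have : 0 ≤ π / 2 * (1 / ((m : ℝ) + 1)) := by positivity
    linarith [pi_pos]
  · have : 0 ≤ π / (2 * (m + 1)) * |(u : ℝ)| := by positivity
    linarith
  · linarith

/-- Lower bound on the survival probability. -/
lemma stay_ge (m j : ℕ) {x : W} (hx : x ∈ Dm m) :
    rho m ^ j * (1 / ((m : ℝ) + 1) ^ 2) ≤ stay (Dm m) j x := by
  have h := stay_ge_aux m j x (by rw [mem_Dm] at hx; omega) (by rw [mem_Dm] at hx; omega)
    (by rw [mem_Dm] at hx; omega) (by rw [mem_Dm] at hx; omega) (by rw [mem_Dm] at hx; exact hx.2.2)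
  refine le_trans (mul_le_mul_of_nonneg_left ?_ (pow_nonneg (rho_nonneg m) j)) h
  rw [mem_Dm] at hx
  unfold phi
  have a1 := cos_arg_ge (m := m) (u := x.1) hx.1.1 hx.1.2
  have a2 := cos_arg_ge (m := m) (u := x.2) hx.2.1.1 hx.2.1.2
  have e : 1 / ((m : ℝ) + 1) ^ 2 = 1 / ((m : ℝ) + 1) * (1 / ((m : ℝ) + 1)) := by
    rw [sq, one_div_mul_one_div]
  rw [e]
  exact mul_le_mul a1 a2 (by positivity) (le_trans (by positivity) a1)

lemma stay_ge_zero (m j : ℕ) : rho m ^ j ≤ stay (Dm m) j (0 : W) := by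
  have hz1 : (0 : W).1 = 0 := rfl
  have hz2 : (0 : W).2 = 0 := rfl
  have h := stay_ge_aux m j 0 (by rw [hz1]; omega) (by rw [hz1]; omega) (by rw [hz2]; omega)
    (by rw [hz2]; omega) rfl
  have : phi m 0 = 1 := by simp [phi]
  rwa [this, mul_one] at h

lemma rho_eq (m : ℕ) : rho m = 1 - (2 - 2 * cos (π / (m + 1))) / 4 := by
  unfold rho
  have : π / ((m : ℝ) + 1) = 2 * (π / (2 * (m + 1))) := by field_simp
  rw [this, cos_two_mul]
  ring

lemma rho_ge (m : ℕ) (hm : 1 ≤ m) : 1 - 5 / 2 / (m : ℝ) ^ 2 ≤ rho m := by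
  rw [rho_eq]
  have h1 := two_sub_two_cos_le (π / ((m : ℝ) + 1))
  have hm' : (0 : ℝ) < m := by exact_mod_cast hm
  have h2 : (π / ((m : ℝ) + 1)) ^ 2 ≤ 10 / (m : ℝ) ^ 2 := by
    rw [div_pow, div_le_div_iff₀ (by positivity) (by positivity)]
    have := sq_pi_le
    nlinarith [sq_nonneg (m : ℝ)]
  have e : 5 / 2 / (m : ℝ) ^ 2 = 10 / (m : ℝ) ^ 2 / 4 := by ring
  rw [e]
  linarith

/-- Gap for the box with a central point removed. -/
lemma quadBound_erase {m : ℕ} (hm : 10 ^ 20 ≤ m) {y : W} (hy : y ∈ Cm m) :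
    QuadBound (fun _ _ => True) ((Dm m).erase y)
      (rho m - cgap / (32 * ((m : ℝ) ^ 2 * Real.sqrt m))) := by
  set M : ℝ := (m : ℝ) with hM
  have hMge : (10 : ℝ) ^ 20 ≤ M := by
    rw [hM]
    exact_mod_cast hm
  have hM0 : 0 < M := by linarith [show (0 : ℝ) < 10 ^ 20 by norm_num]
  set s := Real.sqrt M with hs
  have hss : s * s = M := Real.mul_self_sqrt hM0.le
  have hs10 : (10 : ℝ) ^ 10 ≤ s := by
    rw [hs]
    apply Real.le_sqrt_of_sq_le
    norm_num at hMge ⊢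
    exact hMge
  have hs0 : 0 < s := by linarith [show (0 : ℝ) < 10 ^ 10 by norm_num]
  set ρ' := rho m - cgap / (32 * (M ^ 2 * s)) with hρ'
  have hc0 : 0 < cgap := by unfold cgap; norm_num
  -- comparison of the eigenvalues
  have hcmp : 1 - (4 * hh (M + 1) 1 + cgap / (M ^ 2 * s)) / 16 ≤ ρ' := by
    have h1 : 2 * cos (π / (M + 1 + 3 + 2 * 1)) - 2 * cos (π / (M + 1)) ≤ 100 / M ^ 3 := by
      refine (cos_sub_cos_le (by positivity) ?_).trans ?_
      · apply div_le_div_of_nonneg_left pi_pos.le (by positivity)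
        linarith
      · have e : (π / (M + 1)) ^ 2 - (π / (M + 1 + 3 + 2 * 1)) ^ 2
            = π ^ 2 * (5 * (2 * M + 7)) / ((M + 1) ^ 2 * (M + 6) ^ 2) := by
          have : M + 1 + 3 + 2 * 1 = M + 6 := by ring
          rw [this]
          have h6 : M + 6 ≠ 0 := by positivity
          have h7 : M + 1 ≠ 0 := by positivity
          field_simp
          ring
        rw [e, div_le_div_iff₀ (by positivity) (by positivity)]
        have hpi := sq_pi_le
        have h8 : π ^ 2 * (5 * (2 * M + 7)) ≤ 100 * (M + 6) := by nlinarith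
        have h9 : M ^ 3 ≤ (M + 1) ^ 2 * (M + 6) := by
          nlinarith [sq_nonneg M]
        calc π ^ 2 * (5 * (2 * M + 7)) * M ^ 3 ≤ (100 * (M + 6)) * M ^ 3 :=
              mul_le_mul_of_nonneg_right h8 (by positivity)
          _ ≤ (100 * (M + 6)) * ((M + 1) ^ 2 * (M + 6)) :=
              mul_le_mul_of_nonneg_left h9 (by positivity)
          _ = 100 * ((M + 1) ^ 2 * (M + 6) ^ 2) := by ring
    have h2 : 25 / M ^ 3 ≤ cgap / (32 * (M ^ 2 * s)) := by
      rw [div_le_div_iff₀ (by positivity) (by positivity)]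
      have h3 : 800 ≤ cgap * s := by
        unfold cgap
        have : (800 : ℝ) * 4800000 ≤ 10 ^ 10 := by norm_num
        linarith
      have h4 : M ^ 3 = M ^ 2 * (s * s) := by rw [hss]; ring
      rw [h4]
      have h5 : 0 < M ^ 2 * s := by positivity
      nlinarith
    have h3 : hh (M + 1) 1 = 2 - 2 * cos (π / (M + 1 + 3 + 2 * 1)) := rfl
    have h4 : rho m = 1 - (2 - 2 * cos (π / (M + 1))) / 4 := rho_eq m
    rw [hρ', h4, h3]
    have h5 : cgap / (M ^ 2 * s) = 32 * (cgap / (32 * (M ^ 2 * s))) := by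
      field_simp
    have h6 : (100 : ℝ) / M ^ 3 = 4 * (25 / M ^ 3) := by ring
    rw [h5]
    rw [h6] at h1
    linarith
  have hρ0 : 0 ≤ ρ' := by
    refine le_trans ?_ hcmp
    have h1 := (hh_gap (m := M) (by linarith [show (10000 : ℝ) ≤ 10 ^ 20 by norm_num])).1
    have h2 : 9.87 / M ^ 2 ≤ 1 := by
      rw [div_le_one (by positivity)]
      nlinarith
    have h3 : cgap / (M ^ 2 * s) ≤ 1 := by
      rw [div_le_one (by positivity)]
      have : cgap ≤ 1 := by unfold cgap; norm_num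
      have h4 : 1 ≤ M ^ 2 * s := by
        have h5 : (1 : ℝ) ≤ M ^ 2 := by nlinarith
        have h6 : (1 : ℝ) ≤ s := by linarith [show (1 : ℝ) ≤ 10 ^ 10 by norm_num]
        nlinarith
      linarith
    linarith
  refine quadBound_of_balanced hρ0 fun f hf hf0 hfA hbal => ?_
  rw [mem_Cm] at hy
  have hfA' : ∀ x, x ∉ Dm m → f x = 0 := fun x hx =>
    hfA x fun h => hx (Finset.mem_of_mem_erase h)
  have hfy : f y = 0 := hfA y (Finset.notMem_erase _ _)
  have hen := gap_energy hm hy.1.2 hy.1.1 hy.2.1.2 hy.2.1.1 hy.2.2 hf hfA' hfy hbal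
  rw [← hM] at hen
  have h1 := Bf_le_full (al := fun _ _ => True) hf hf0
  have h2 := slicing hf
  have hn := nsq_eq hf
  have hnE := nE_nonneg f
  have h3 : (1 - (4 * hh (M + 1) 1 + cgap / (M ^ 2 * s)) / 16) * nsq f ≤ ρ' * nsq f :=
    mul_le_mul_of_nonneg_right hcmp (nsq_nonneg f)
  refine le_trans ?_ h3
  rw [← hbal] at hn
  have h4 : nsq f = 2 * nE f := by linarith
  rw [h4] at h1 ⊢
  linarith

lemma stay_eq_Ex (A : Finset W) (j : ℕ) (x : W) :
    stay A j x
      = Ex j x (fun R => ind (R ⊆ A ∧ ∀ y ∈ R, ∀ i : Fin 4, ¬ True → y + dir i ∉ R)) := by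
  unfold stay
  congr 1
  funext R
  exact ind_congr (by simp)

lemma stay_erase_le {m : ℕ} (hm : 10 ^ 20 ≤ m) {y : W} (hy : y ∈ Cm m) (j : ℕ) (x : W) :
    stay ((Dm m).erase y) j x
      ≤ (rho m * exp (-(cgap / (32 * ((m : ℝ) ^ 2 * Real.sqrt m))))) ^ j * (2 * m + 1) := by
  have hM0 : (0 : ℝ) < m := by
    have : 0 < m := lt_of_lt_of_le (by norm_num) hm
    exact_mod_cast this
  have hs0 : 0 < Real.sqrt m := Real.sqrt_pos.2 hM0
  have hc0 : 0 < cgap := by unfold cgap; norm_num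
  set δ := cgap / (32 * ((m : ℝ) ^ 2 * Real.sqrt m)) with hδ
  have hδ0 : 0 < δ := by positivity
  have hr0 := rho_nonneg m
  have hr1 := rho_le_one m
  have hq := quadBound_erase hm hy
  rw [← hδ] at hq
  have hle : rho m - δ ≤ rho m * exp (-δ) := by
    have h1 : 1 - δ ≤ exp (-δ) := by
      have := add_one_le_exp (-δ)
      linarith
    nlinarith [mul_le_mul_of_nonneg_left h1 hr0]
  have hq' : QuadBound (fun _ _ => True) ((Dm m).erase y) (rho m * exp (-δ)) := by
    intro f hf hf0 hfA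
    exact (hq f hf hf0 hfA).trans (mul_le_mul_of_nonneg_right hle (nsq_nonneg f))
  rw [stay_eq_Ex]
  refine (Ex_le_of_quadBound (al := fun _ _ => True) (fun x i => Iff.rfl)
    (mul_nonneg hr0 (exp_pos _).le) hq' j x).trans ?_
  refine mul_le_mul_of_nonneg_left ?_ (pow_nonneg (mul_nonneg hr0 (exp_pos _).le) j)
  rw [Real.sqrt_le_left (by positivity)]
  have h1 : ((Dm m).erase y).card ≤ (2 * m + 1) ^ 2 :=
    (Finset.card_le_card (Finset.erase_subset _ _)).trans (card_Dm_le m)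
  exact_mod_cast h1

end Pool.Agent.Helper92.Diamond
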