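import Mathlib

set_option autoImplicit false

open MeasureTheory ProbabilityTheory Filter Topology
open scoped ENNReal

namespace Pool.Agent.Helper92.Diamond.Model

/-- Nearest-neighbour adjacency in the square lattice. -/
def Adj (x y : ℤ × ℤ) : Prop := |x.1 - y.1| + |x.2 - y.2| = 1

/-- The inner vertex boundary of a set of lattice points. -/
def innerBoundary (G : Set (ℤ × ℤ)) : Set (ℤ × ℤ) := {x | x ∈ G ∧ ∃ y, Adj x y ∧ y ∉ G}

/-- The four unit steps. -/
def unitStep : Fin 4 → ℤ × ℤ := ![(1, 0), (-1, 0), (0, 1), (0, -1)]

/-- A sample point: the sequence of jump directions and the sequence of waiting times. -/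
abbrev Sample := (ℕ → Fin 4) × (ℕ → ℝ)

/-- The law of the walk: the directions are independent and uniform, the waiting times are
independent exponential variables of rate one, and the two sequences are independent. -/
noncomputable def Pr : Measure Sample :=
  (Measure.infinitePi fun _ : ℕ => uniformOn (Set.univ : Set (Fin 4))).prod
    (Measure.infinitePi fun _ : ℕ => expMeasure 1)

/-- The time of the `n`-th jump. -/
noncomputable def jumpTime (ω : Sample) (n : ℕ) : ℝ := ∑ i ∈ Finset.range n, ω.2 i

/-- The position after `n` jumps. -/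
def skeleton (ω : Sample) (n : ℕ) : ℤ × ℤ := ∑ i ∈ Finset.range n, unitStep (ω.1 i)

/-- The continuous-time simple random walk with jump rate one started at the origin. -/
noncomputable def X (ω : Sample) (s : ℝ) : ℤ × ℤ := skeleton ω (sSup {n : ℕ | jumpTime ω n ≤ s})

/-- The range of the walk at time `t`. -/
def walkRange (ω : Sample) (t : ℝ) : Set (ℤ × ℤ) := {v | ∃ s : ℝ, 0 ≤ s ∧ s ≤ t ∧ X ω s = v}

/-- The Gibbs measure: the law `Pr` reweighted by `exp (-β * |∂ R_t|)` and normalised. -/
noncomputable def gibbs (β t : ℝ) : Measure Sample :=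
  Pr.tilted fun ω => -β * ((innerBoundary (walkRange ω t)).ncard : ℝ)

/-- The Euclidean plane. -/
abbrev Plane := EuclideanSpace ℝ (Fin 2)

/-- The embedding of the lattice in the plane. -/
noncomputable def toPlane (v : ℤ × ℤ) : Plane := !₂[(v.1 : ℝ), (v.2 : ℝ)]

/-- A set of lattice points divided by its Euclidean diameter. -/
noncomputable def scaled (G : Set (ℤ × ℤ)) : Set Plane :=
  (fun p => (Metric.diam (toPlane '' G))⁻¹ • p) '' (toPlane '' G)

/-- Hausdorff distance of `A` to the translates of `B`, infimum over all translations. -/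
noncomputable def hausTrans (A B : Set Plane) : ℝ≥0∞ :=
  ⨅ z : Plane, Metric.hausdorffEDist A ((fun p => z + p) '' B)

/-- `S` is a limiting shape for `β`: the Hausdorff distance modulo translations between the
rescaled range and `S` tends to zero in probability under the Gibbs measure. -/
def IsLimitingShape (β : ℝ) (S : Set Plane) : Prop :=
  ∀ ε : ℝ≥0∞, 0 < ε →
    Tendsto (fun t : ℝ => gibbs β t {ω | ε ≤ hausTrans (scaled (walkRange ω t)) S}) atTop (𝓝 0)

/-- The diamond of unit diameter. -/
def diamond : Set Plane := {p | |p 0| + |p 1| ≤ 1 / 2}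

end Pool.Agent.Helper92.Diamond.Model
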