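import Pool.Agent.Helper92_Diamond.Walk

set_option autoImplicit false

open Finset

namespace Pool.Agent.Helper92.Diamond

/-- Poisson weights. -/
noncomputable def pw (t : ℝ) (j : ℕ) : ℝ := Real.exp (-t) * (t ^ j / j.factorial)

lemma pw_nonneg {t : ℝ} (ht : 0 ≤ t) (j : ℕ) : 0 ≤ pw t j := by
  unfold pw
  positivity

lemma hasSum_pw_mul (t ρ : ℝ) : HasSum (fun j => pw t j * ρ ^ j) (Real.exp (-(t * (1 - ρ)))) := by
  have h1 : HasSum (fun j : ℕ => (t * ρ) ^ j / (j.factorial : ℝ)) (Real.exp (t * ρ)) := by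
    have := NormedSpace.expSeries_div_hasSum_exp (t * ρ)
    rwa [← Real.exp_eq_exp_ℝ] at this
  have h2 := h1.mul_left (Real.exp (-t))
  have e1 : (fun j : ℕ => Real.exp (-t) * ((t * ρ) ^ j / (j.factorial : ℝ)))
      = fun j => pw t j * ρ ^ j := by
    funext j
    unfold pw
    rw [mul_pow]
    ring
  have e2 : Real.exp (-t) * Real.exp (t * ρ) = Real.exp (-(t * (1 - ρ))) := by
    rw [← Real.exp_add]
    congr 1
    ring
  rwa [e1, e2] at h2

lemma hasSum_pw (t : ℝ) : HasSum (fun j => pw t j) 1 := by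
  have := hasSum_pw_mul t 1
  simpa using this

/-- Boundedness of functionals. -/
def Bd (F : Finset W → ℝ) : Prop := ∃ C : ℝ, ∀ R, |F R| ≤ C

lemma Bd.add {F G : Finset W → ℝ} (hF : Bd F) (hG : Bd G) : Bd (fun R => F R + G R) := by
  obtain ⟨C, hC⟩ := hF
  obtain ⟨D, hD⟩ := hG
  exact ⟨C + D, fun R => (abs_add_le _ _).trans (add_le_add (hC R) (hD R))⟩

lemma Bd.mul_left {F : Finset W → ℝ} (hF : Bd F) (c : ℝ) : Bd (fun R => c * F R) := by
  obtain ⟨C, hC⟩ := hF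
  refine ⟨|c| * C, fun R => ?_⟩
  rw [abs_mul]
  exact mul_le_mul_of_nonneg_left (hC R) (abs_nonneg _)

lemma Bd.ind (E : Finset W → Prop) : Bd (fun R => ind (E R)) :=
  ⟨1, fun R => by rw [abs_of_nonneg (ind_nonneg _)]; exact ind_le_one _⟩

lemma Bd.const (c : ℝ) : Bd (fun _ => c) := ⟨|c|, fun _ => le_rfl⟩

lemma Bd.sum {ι : Type*} {s : Finset ι} {F : ι → Finset W → ℝ} (h : ∀ i ∈ s, Bd (F i)) :
    Bd (fun R => ∑ i ∈ s, F i R) := by
  classical
  induction s using Finset.induction_on with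
  | empty => simpa using Bd.const 0
  | insert a s ha ih =>
    have := (h a (by simp)).add (ih fun i hi => h i (by simp [hi]))
    simpa [Finset.sum_insert ha] using this

lemma Bd.of_le_one {F : Finset W → ℝ} (h0 : ∀ R, 0 ≤ F R) (h1 : ∀ R, F R ≤ 1) : Bd F :=
  ⟨1, fun R => by rw [abs_of_nonneg (h0 R)]; exact h1 R⟩

/-- Expectation at time `t`. -/
noncomputable def Et (t : ℝ) (F : Finset W → ℝ) : ℝ := ∑' j : ℕ, pw t j * Ex j 0 F

lemma Bd.abs_Ex {F : Finset W → ℝ} {C : ℝ} (hC : ∀ R, |F R| ≤ C) (j : ℕ) (x : W) :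
    |Ex j x F| ≤ C := by
  rw [abs_le]
  constructor
  · rw [← Ex_const j x (-C)]
    exact Ex_mono fun R => (abs_le.1 (hC R)).1
  · rw [← Ex_const j x C]
    exact Ex_mono fun R => (abs_le.1 (hC R)).2

lemma Bd.summable {F : Finset W → ℝ} (hF : Bd F) {t : ℝ} (ht : 0 ≤ t) :
    Summable (fun j : ℕ => pw t j * Ex j 0 F) := by
  obtain ⟨C, hC⟩ := hF
  refine Summable.of_norm_bounded (g := fun j => pw t j * C)
    ((hasSum_pw t).summable.mul_right C) fun j => ?_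
  rw [Real.norm_eq_abs, abs_mul, abs_of_nonneg (pw_nonneg ht j)]
  exact mul_le_mul_of_nonneg_left (Bd.abs_Ex hC j 0) (pw_nonneg ht j)

lemma Et_mono_on {F G : Finset W → ℝ} (hF : Bd F) (hG : Bd G) {t : ℝ} (ht : 0 ≤ t)
    (h : ∀ R, RangeProp 0 R → F R ≤ G R) : Et t F ≤ Et t G :=
  (hF.summable ht).tsum_le_tsum (fun j => mul_le_mul_of_nonneg_left (Ex_mono_on h)
    (pw_nonneg ht j)) (hG.summable ht)

lemma Et_add {F G : Finset W → ℝ} (hF : Bd F) (hG : Bd G) {t : ℝ} (ht : 0 ≤ t) :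
    Et t (fun R => F R + G R) = Et t F + Et t G := by
  unfold Et
  rw [← (hF.summable ht).tsum_add (hG.summable ht)]
  congr 1
  funext j
  rw [Ex_add, mul_add]

lemma Et_mul_left (F : Finset W → ℝ) (c t : ℝ) :
    Et t (fun R => c * F R) = c * Et t F := by
  unfold Et
  rw [← tsum_mul_left]
  congr 1
  funext j
  rw [Ex_mul_left]
  ring

lemma Et_const (c : ℝ) (t : ℝ) : Et t (fun _ => c) = c := by
  unfold Et
  simp_rw [Ex_const]
  rw [tsum_mul_right, (hasSum_pw t).tsum_eq, one_mul]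

lemma Et_sum {ι : Type*} {s : Finset ι} {F : ι → Finset W → ℝ} (h : ∀ i ∈ s, Bd (F i)) {t : ℝ}
    (ht : 0 ≤ t) : Et t (fun R => ∑ i ∈ s, F i R) = ∑ i ∈ s, Et t (F i) := by
  classical
  induction s using Finset.induction_on with
  | empty => simpa using Et_const 0 t
  | insert a s ha ih =>
    have h1 := Et_add (h a (by simp)) (Bd.sum (s := s) (F := F) fun i hi => h i (by simp [hi])) ht
    rw [Finset.sum_insert ha, ← ih fun i hi => h i (by simp [hi]), ← h1]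
    congr 1
    funext R
    rw [Finset.sum_insert ha]

lemma Et_nonneg {F : Finset W → ℝ} {t : ℝ} (ht : 0 ≤ t) (h : ∀ R, 0 ≤ F R) : 0 ≤ Et t F :=
  tsum_nonneg fun j => mul_nonneg (pw_nonneg ht j) (Ex_nonneg h)

/-- Upper bound from an exponential bound on the number of steps. -/
lemma Et_le_of_Ex_le {F : Finset W → ℝ} (hF : Bd F) {t C ρ : ℝ} (ht : 0 ≤ t)
    (h : ∀ j, Ex j 0 F ≤ C * ρ ^ j) : Et t F ≤ C * Real.exp (-(t * (1 - ρ))) := by
  have h1 := (hasSum_pw_mul t ρ).mul_left C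
  rw [← h1.tsum_eq]
  refine (hF.summable ht).tsum_le_tsum (fun j => ?_) h1.summable
  calc pw t j * Ex j 0 F ≤ pw t j * (C * ρ ^ j) := mul_le_mul_of_nonneg_left (h j) (pw_nonneg ht j)
    _ = C * (pw t j * ρ ^ j) := by ring

/-- Lower bound when the estimate holds from time `T` on. -/
lemma Et_ge_of_le_Ex {F : Finset W → ℝ} (hF : Bd F) (hF0 : ∀ R, 0 ≤ F R) {t c ρ : ℝ} {T : ℕ}
    (ht : 0 ≤ t) (hc : 0 ≤ c) (hρ0 : 0 ≤ ρ) (hρ1 : ρ ≤ 1) (h : ∀ j, T ≤ j → c * ρ ^ j ≤ Ex j 0 F) :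
    c * (Real.exp (-(t * (1 - ρ))) - Real.exp (T - t / 2)) ≤ Et t F := by
  have h1 := (hasSum_pw_mul t ρ)
  have h2 := (hasSum_pw_mul t (1 / 2)).mul_left ((2 : ℝ) ^ T)
  have h3 := (h1.sub h2).mul_left c
  have h4 : c * (Real.exp (-(t * (1 - ρ))) - Real.exp (T - t / 2))
      ≤ c * (Real.exp (-(t * (1 - ρ))) - 2 ^ T * Real.exp (-(t * (1 - 1 / 2)))) := by
    apply mul_le_mul_of_nonneg_left _ hc
    have h5 : (2 : ℝ) ^ T ≤ Real.exp T := by
      have : (2 : ℝ) ≤ Real.exp 1 := by linarith [Real.add_one_le_exp (1 : ℝ)]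
      calc (2 : ℝ) ^ T ≤ Real.exp 1 ^ T := pow_le_pow_left₀ (by norm_num) this T
        _ = Real.exp T := by rw [← Real.exp_nat_mul, mul_one]
    have h6 : Real.exp (T - t / 2) = Real.exp T * Real.exp (-(t * (1 - 1 / 2))) := by
      rw [← Real.exp_add]
      congr 1
      ring
    rw [h6]
    have := mul_le_mul_of_nonneg_right h5 (Real.exp_pos (-(t * (1 - 1 / 2)))).le
    linarith
  refine h4.trans ?_
  rw [← h3.tsum_eq]
  refine h3.summable.tsum_le_tsum (fun j => ?_) (hF.summable ht)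
  have hp := pw_nonneg ht j
  by_cases hj : T ≤ j
  · have h5 : pw t j * ρ ^ j - 2 ^ T * (pw t j * (1 / 2) ^ j) ≤ pw t j * ρ ^ j := by
      have : 0 ≤ (2 : ℝ) ^ T * (pw t j * (1 / 2) ^ j) := by positivity
      linarith
    calc c * (pw t j * ρ ^ j - 2 ^ T * (pw t j * (1 / 2) ^ j)) ≤ c * (pw t j * ρ ^ j) :=
          mul_le_mul_of_nonneg_left h5 hc
      _ = pw t j * (c * ρ ^ j) := by ring
      _ ≤ pw t j * Ex j 0 F := mul_le_mul_of_nonneg_left (h j hj) hp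
  · push Not at hj
    have h5 : pw t j * ρ ^ j - 2 ^ T * (pw t j * (1 / 2) ^ j) ≤ 0 := by
      have h6 : (1 : ℝ) ≤ 2 ^ T * (1 / 2) ^ j := by
        have h7 : (2 : ℝ) ^ j * (1 / 2) ^ j = 1 := by
          rw [← mul_pow]
          norm_num
        refine h7.symm.le.trans ?_
        apply mul_le_mul_of_nonneg_right _ (by positivity)
        exact pow_le_pow_right₀ (by norm_num) hj.le
      have h7 : ρ ^ j ≤ 1 := pow_le_one₀ hρ0 hρ1
      have h8 : pw t j * ρ ^ j ≤ pw t j * (2 ^ T * (1 / 2) ^ j) :=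
        mul_le_mul_of_nonneg_left (h7.trans h6) hp
      have h9 : 2 ^ T * (pw t j * (1 / 2) ^ j) = pw t j * (2 ^ T * (1 / 2) ^ j) := by ring
      rw [h9]
      linarith
    have h6 : 0 ≤ pw t j * Ex j 0 F := mul_nonneg hp (Ex_nonneg hF0)
    have h7 : c * (pw t j * ρ ^ j - 2 ^ T * (pw t j * (1 / 2) ^ j)) ≤ 0 :=
      mul_nonpos_of_nonneg_of_nonpos hc h5
    linarith

end Pool.Agent.Helper92.Diamond
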