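import Pool.Agent.Helper92_Diamond.Walk

set_option autoImplicit false

open Finset

namespace Pool.Agent.Helper92.Diamond

/-- Finitely supported function. -/
def FS (f : W → ℝ) : Prop := (Function.support f).Finite

lemma FS.shift {f : W → ℝ} (hf : FS f) (a : W) : FS (fun x => f (x + a)) := by
  have : Function.support (fun x => f (x + a)) = (fun x => x + a) ⁻¹' (Function.support f) := rfl
  unfold FS
  rw [this]
  exact Set.Finite.preimage ((add_left_injective a).injOn) hf

lemma FS.of_imp {f g : W → ℝ} (hf : FS f) (h : ∀ x, g x ≠ 0 → f x ≠ 0) : FS g :=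
  Set.Finite.subset hf fun x hx => h x hx

lemma FS.summable {f : W → ℝ} (hf : FS f) : Summable f :=
  summable_of_hasFiniteSupport hf

lemma FS.add {f g : W → ℝ} (hf : FS f) (hg : FS g) : FS (fun x => f x + g x) := by
  refine Set.Finite.subset (hf.union hg) fun x hx => ?_
  by_contra h
  simp only [Set.mem_union, Function.mem_support, not_or, not_not] at h
  exact hx (by simp [h.1, h.2])

lemma FS.mul_left {f g : W → ℝ} (hf : FS f) : FS (fun x => g x * f x) :=
  hf.of_imp fun x hx h => hx (by simp [h])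

lemma FS.mul_right {f g : W → ℝ} (hf : FS f) : FS (fun x => f x * g x) :=
  hf.of_imp fun x hx h => hx (by simp [h])

lemma FS.sub {f g : W → ℝ} (hf : FS f) (hg : FS g) : FS (fun x => f x - g x) := by
  refine Set.Finite.subset (hf.union hg) fun x hx => ?_
  by_contra h
  simp only [Set.mem_union, Function.mem_support, not_or, not_not] at h
  exact hx (by simp [h.1, h.2])

lemma FS.sq {f : W → ℝ} (hf : FS f) : FS (fun x => f x ^ 2) :=
  hf.of_imp fun x hx h => hx (by simp [h])

lemma FS.sum {ι : Type*} {s : Finset ι} {f : ι → W → ℝ} (h : ∀ i ∈ s, FS (f i)) :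
    FS (fun x => ∑ i ∈ s, f i x) := by
  classical
  induction s using Finset.induction_on with
  | empty =>
    simp [FS]
  | insert a s ha ih =>
    have := (h a (by simp)).add (ih fun i hi => h i (by simp [hi]))
    simpa [Finset.sum_insert ha] using this

/-- Sum over the lattice. -/
noncomputable def S (F : W → ℝ) : ℝ := ∑' x : W, F x

lemma S_shift (F : W → ℝ) (a : W) : S (fun x => F (x + a)) = S F :=
  (Equiv.addRight a).tsum_eq F

lemma S_add {F G : W → ℝ} (hF : FS F) (hG : FS G) : S (fun x => F x + G x) = S F + S G :=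
  Summable.tsum_add hF.summable hG.summable

lemma S_sub {F G : W → ℝ} (hF : FS F) (hG : FS G) : S (fun x => F x - G x) = S F - S G :=
  Summable.tsum_sub hF.summable hG.summable

lemma S_mul_left (c : ℝ) (F : W → ℝ) : S (fun x => c * F x) = c * S F := tsum_mul_left

lemma S_mono {F G : W → ℝ} (hF : FS F) (hG : FS G) (h : ∀ x, F x ≤ G x) : S F ≤ S G :=
  Summable.tsum_le_tsum h hF.summable hG.summable

lemma S_nonneg {F : W → ℝ} (h : ∀ x, 0 ≤ F x) : 0 ≤ S F := tsum_nonneg h

lemma S_sum {ι : Type*} {s : Finset ι} {F : ι → W → ℝ} (h : ∀ i ∈ s, FS (F i)) :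
    S (fun x => ∑ i ∈ s, F i x) = ∑ i ∈ s, S (F i) :=
  Summable.tsum_finsetSum fun i hi => (h i hi).summable

lemma S_le_of_single {F : W → ℝ} (hF : FS F) (h : ∀ x, 0 ≤ F x) (x : W) : F x ≤ S F :=
  hF.summable.le_tsum x fun y _ => h y

/-- Squared norm. -/
noncomputable def nsq (f : W → ℝ) : ℝ := S (fun x => f x ^ 2)

/-- Energy in the direction `a`. -/
noncomputable def Q (f : W → ℝ) (a : W) : ℝ := S (fun x => (f (x + a) - f x) ^ 2)

lemma nsq_nonneg (f : W → ℝ) : 0 ≤ nsq f := S_nonneg fun _ => sq_nonneg _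

lemma Q_nonneg (f : W → ℝ) (a : W) : 0 ≤ Q f a := S_nonneg fun _ => sq_nonneg _

lemma FS.Q {f : W → ℝ} (hf : FS f) (a b : W) : FS (fun x => (f (x + a) - f (x + b)) ^ 2) :=
  ((hf.shift a).sub (hf.shift b)).sq

lemma Q_eq_shift {f : W → ℝ} (a b : W) :
    S (fun x => (f (x + a) - f (x + b)) ^ 2) = Q f (a - b) := by
  unfold Q
  rw [← S_shift (fun x => (f (x + (a - b)) - f x) ^ 2) b]
  congr 1
  funext x
  have : x + b + (a - b) = x + a := by abel
  rw [this]

lemma Q_expand {f : W → ℝ} (hf : FS f) (a : W) :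
    Q f a = 2 * nsq f - 2 * S (fun x => f x * f (x + a)) := by
  unfold Q nsq
  have h1 : (fun x => (f (x + a) - f x) ^ 2)
      = fun x => (f (x + a) ^ 2 + f x ^ 2) - 2 * (f x * f (x + a)) := by
    funext x
    ring
  rw [h1, S_sub ((hf.shift a).sq.add hf.sq) (FS.mul_left hf.mul_right),
    S_add (hf.shift a).sq hf.sq, S_mul_left, S_shift (fun x => f x ^ 2) a]
  ring

/-- The slicing inequality. -/
lemma slicing {f : W → ℝ} (hf : FS f) :
    Q f (2, 0) + Q f (0, 2) ≤ ∑ i : Fin 4, Q f (dir i) := by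
  have e1 : Q f (2, 0) = S (fun x => (f (x + (1, 0)) - f (x + (-1, 0))) ^ 2) := by
    rw [Q_eq_shift]; norm_num
  have e2 : Q f (0, 2) = S (fun x => (f (x + (0, 1)) - f (x + (0, -1))) ^ 2) := by
    rw [Q_eq_shift]; norm_num
  have e3 : Q f (1, -1) = S (fun x => (f (x + (1, 0)) - f (x + (0, 1))) ^ 2) := by
    rw [Q_eq_shift]; norm_num
  have e4 : Q f (1, 1) = S (fun x => (f (x + (1, 0)) - f (x + (0, -1))) ^ 2) := by
    rw [Q_eq_shift]; norm_num
  have e5 : Q f (-1, -1) = S (fun x => (f (x + (-1, 0)) - f (x + (0, 1))) ^ 2) := by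
    rw [Q_eq_shift]; norm_num
  have e6 : Q f (-1, 1) = S (fun x => (f (x + (-1, 0)) - f (x + (0, -1))) ^ 2) := by
    rw [Q_eq_shift]; norm_num
  rw [sum_dir (fun a => Q f a), e1, e2, e3, e4, e5, e6]
  rw [← S_add (hf.Q _ _) (hf.Q _ _), ← S_add (hf.Q _ _) (hf.Q _ _),
    ← S_add ((hf.Q _ _).add (hf.Q _ _)) (hf.Q _ _),
    ← S_add (((hf.Q _ _).add (hf.Q _ _)).add (hf.Q _ _)) (hf.Q _ _)]
  refine S_mono ((hf.Q _ _).add (hf.Q _ _))
    ((((hf.Q _ _).add (hf.Q _ _)).add (hf.Q _ _)).add (hf.Q _ _)) fun x => ?_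
  nlinarith [sq_nonneg (f (x + (1, 0)) + f (x + (-1, 0)) - f (x + (0, 1)) - f (x + (0, -1)))]

/-- Ground state inequality. -/
lemma ground_state {f : W → ℝ} (hf : FS f) (a : W) (ψ c : W → ℝ) (hψ : ∀ x, 0 < ψ x)
    (hc : ∀ x, f x ≠ 0 → c x * ψ x ≤ 2 * ψ x - ψ (x + a) - ψ (x - a)) :
    S (fun x => c x * f x ^ 2) ≤ Q f a := by
  -- intermediate function
  have h1 : S (fun x => c x * f x ^ 2) ≤
      S (fun x => f x ^ 2 * (1 - ψ (x - a) / ψ x) + f x ^ 2 * (1 - ψ (x + a) / ψ x)) := by
    refine S_mono (FS.mul_left hf.sq) (hf.sq.mul_right.add hf.sq.mul_right) fun x => ?_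
    by_cases hx : f x = 0
    · simp [hx]
    · have h := hc x hx
      have hp := hψ x
      have h2 : c x ≤ (1 - ψ (x - a) / ψ x) + (1 - ψ (x + a) / ψ x) := by
        rw [show (1 - ψ (x - a) / ψ x) + (1 - ψ (x + a) / ψ x)
          = (2 * ψ x - ψ (x + a) - ψ (x - a)) / ψ x by field_simp; ring]
        rw [le_div_iff₀ hp]
        exact h
      nlinarith [sq_nonneg (f x), mul_le_mul_of_nonneg_right h2 (sq_nonneg (f x))]
  refine h1.trans ?_
  rw [S_add hf.sq.mul_right hf.sq.mul_right,
    ← S_shift (fun x => f x ^ 2 * (1 - ψ (x - a) / ψ x)) a,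
    ← S_add]
  · unfold Q
    refine S_mono ?_ ?_ fun x => ?_
    · refine FS.add ?_ hf.sq.mul_right
      exact (hf.shift a).sq.mul_right
    · simpa using hf.Q a 0
    · have e : x + a - a = x := by abel
      simp only [e]
      have hp := hψ x
      have hp' := hψ (x + a)
      have key : (f (x + a) - f x) ^ 2 -
          (f (x + a) ^ 2 * (1 - ψ x / ψ (x + a)) + f x ^ 2 * (1 - ψ (x + a) / ψ x))
          = (f (x + a) * ψ x - f x * ψ (x + a)) ^ 2 / (ψ x * ψ (x + a)) := by
        field_simp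
        ring
      have : 0 ≤ (f (x + a) * ψ x - f x * ψ (x + a)) ^ 2 / (ψ x * ψ (x + a)) := by positivity
      linarith
  · exact (hf.shift a).sq.mul_right
  · exact hf.sq.mul_right

/-- Bilinear form with allowed edges. -/
noncomputable def Bf (al : W → Fin 4 → Prop) (f g : W → ℝ) : ℝ :=
  (1 / 4) * S (fun x => ∑ i : Fin 4, ind (al x i) * (f x * g (x + dir i)))

/-- Symmetry of the set of allowed edges. -/
def SymAl (al : W → Fin 4 → Prop) : Prop := ∀ x i, al x i ↔ al (x + dir i) (opp i)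

lemma FS_Bterm {al : W → Fin 4 → Prop} {f g : W → ℝ} (hf : FS f) (i : Fin 4) :
    FS (fun x => ind (al x i) * (f x * g (x + dir i))) :=
  hf.of_imp fun x hx h => hx (by simp [h])

lemma Bf_symm {al : W → Fin 4 → Prop} (hal : SymAl al) {f g : W → ℝ} (hf : FS f) (hg : FS g) :
    Bf al f g = Bf al g f := by
  unfold Bf
  rw [S_sum fun i _ => FS_Bterm hf i, S_sum fun i _ => FS_Bterm hg i]
  congr 1
  -- reindex by `opp`
  have hinv : Function.Involutive opp := opp_opp
  rw [← Equiv.sum_comp (Function.Involutive.toPerm opp hinv)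
    (fun i => S (fun x => ind (al x i) * (g x * f (x + dir i))))]
  refine Finset.sum_congr rfl fun i _ => ?_
  have e : (Function.Involutive.toPerm opp hinv) i = opp i := rfl
  rw [e, ← S_shift (fun x => ind (al x (opp i)) * (g x * f (x + dir (opp i)))) (dir i)]
  congr 1
  funext x
  have e2 : x + dir i + dir (opp i) = x := by
    rw [dir_opp]; abel
  rw [e2, ind_congr (hal x i)]
  ring

lemma Bf_add_left {al : W → Fin 4 → Prop} {f f' g : W → ℝ} (hf : FS f) (hf' : FS f') :
    Bf al (fun x => f x + f' x) g = Bf al f g + Bf al f' g := by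
  unfold Bf
  rw [← mul_add, ← S_add (FS.sum fun i _ => FS_Bterm hf i) (FS.sum fun i _ => FS_Bterm hf' i)]
  congr 2
  funext x
  rw [← Finset.sum_add_distrib]
  refine Finset.sum_congr rfl fun i _ => ?_
  ring

lemma Bf_smul_left {al : W → Fin 4 → Prop} (c : ℝ) (f g : W → ℝ) :
    Bf al (fun x => c * f x) g = c * Bf al f g := by
  have h : S (fun x => ∑ i : Fin 4, ind (al x i) * (c * f x * g (x + dir i)))
      = c * S (fun x => ∑ i : Fin 4, ind (al x i) * (f x * g (x + dir i))) := by
    rw [← S_mul_left]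
    congr 1
    funext x
    rw [Finset.mul_sum]
    refine Finset.sum_congr rfl fun i _ => ?_
    ring
  unfold Bf
  rw [h]
  ring

lemma Bf_smul_right {al : W → Fin 4 → Prop} (c : ℝ) (f g : W → ℝ) :
    Bf al f (fun x => c * g x) = c * Bf al f g := by
  have h : S (fun x => ∑ i : Fin 4, ind (al x i) * (f x * (c * g (x + dir i))))
      = c * S (fun x => ∑ i : Fin 4, ind (al x i) * (f x * g (x + dir i))) := by
    rw [← S_mul_left]
    congr 1
    funext x
    rw [Finset.mul_sum]
    refine Finset.sum_congr rfl fun i _ => ?_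
    ring
  unfold Bf
  rw [h]
  ring

lemma abs_Bf_le {al : W → Fin 4 → Prop} {f : W → ℝ} (hf : FS f) :
    |Bf al f f| ≤ Bf al (fun x => |f x|) (fun x => |f x|) := by
  have hf' : FS (fun x => |f x|) := hf.of_imp fun x hx h => hx (by simp [h])
  have h1 : FS (fun x => ∑ i : Fin 4, ind (al x i) * (f x * f (x + dir i))) :=
    FS.sum fun i _ => FS_Bterm hf i
  have h2 : FS (fun x => ∑ i : Fin 4, ind (al x i) * (|f x| * |f (x + dir i)|)) :=
    FS.sum fun i _ => FS_Bterm (g := fun x => |f x|) hf' i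
  have habs : ∀ x, |∑ i : Fin 4, ind (al x i) * (f x * f (x + dir i))|
      ≤ ∑ i : Fin 4, ind (al x i) * (|f x| * |f (x + dir i)|) := by
    intro x
    refine (Finset.abs_sum_le_sum_abs _ _).trans (Finset.sum_le_sum fun i _ => ?_)
    rw [abs_mul, abs_mul, abs_of_nonneg (ind_nonneg _)]
  have hneg : FS (fun x => (-1 : ℝ) * ∑ i : Fin 4, ind (al x i) * (|f x| * |f (x + dir i)|)) :=
    h2.mul_left
  unfold Bf
  rw [abs_mul, abs_of_pos (by norm_num : (0 : ℝ) < 1 / 4)]
  refine mul_le_mul_of_nonneg_left ?_ (by norm_num)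
  rw [abs_le]
  constructor
  · have := S_mono hneg h1 fun x => by
      have := neg_abs_le (∑ i : Fin 4, ind (al x i) * (f x * f (x + dir i)))
      have := habs x
      linarith
    rw [S_mul_left] at this
    linarith
  · exact S_mono h1 h2 fun x => (le_abs_self _).trans (habs x)

/-- Cauchy-Schwarz type bound obtained by polarization. -/
lemma Bf_le_of_quad {al : W → Fin 4 → Prop} (hal : SymAl al) {A : Set W} {ρ : ℝ}
    (H : ∀ f : W → ℝ, FS f → (∀ x, 0 ≤ f x) → (∀ x, x ∉ A → f x = 0) → Bf al f f ≤ ρ * nsq f)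
    {f g : W → ℝ} (hf : FS f) (hg : FS g) (hfA : ∀ x, x ∉ A → f x = 0)
    (hgA : ∀ x, x ∉ A → g x = 0) :
    Bf al f g ≤ ρ * (nsq f + nsq g) / 2 := by
  have hsum : FS (fun x => f x + g x) := hf.add hg
  have hdif : FS (fun x => f x + (-1) * g x) := hf.add hg.mul_left
  have e1 : Bf al (fun x => f x + g x) (fun x => f x + g x)
      = Bf al f f + 2 * Bf al f g + Bf al g g := by
    rw [Bf_add_left hf hg, Bf_symm hal hf hsum, Bf_symm hal hg hsum, Bf_add_left hf hg,
      Bf_add_left hf hg, Bf_symm hal hg hf]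
    ring
  have e2 : Bf al (fun x => f x + (-1) * g x) (fun x => f x + (-1) * g x)
      = Bf al f f - 2 * Bf al f g + Bf al g g := by
    rw [Bf_add_left hf hg.mul_left, Bf_symm hal hf hdif, Bf_symm hal hg.mul_left hdif,
      Bf_add_left hf hg.mul_left, Bf_add_left hf hg.mul_left, Bf_smul_left, Bf_smul_left,
      Bf_smul_right, Bf_smul_right, Bf_symm hal hg hf]
    ring
  have b1 : Bf al (fun x => f x + g x) (fun x => f x + g x)
      ≤ ρ * nsq (fun x => |f x + g x|) := by
    refine (le_abs_self _).trans ((abs_Bf_le hsum).trans (H _ ?_ (fun x => abs_nonneg _) ?_))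
    · exact hsum.of_imp fun x hx h => hx (by rw [h, abs_zero])
    · intro x hx
      simp [hfA x hx, hgA x hx]
  have b2 : -Bf al (fun x => f x + (-1) * g x) (fun x => f x + (-1) * g x)
      ≤ ρ * nsq (fun x => |f x + (-1) * g x|) := by
    refine (neg_le_abs _).trans ((abs_Bf_le hdif).trans (H _ ?_ (fun x => abs_nonneg _) ?_))
    · exact hdif.of_imp fun x hx h => hx (by rw [h, abs_zero])
    · intro x hx
      simp [hfA x hx, hgA x hx]
  have n : nsq (fun x => |f x + g x|) + nsq (fun x => |f x + (-1) * g x|)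
      = 2 * (nsq f + nsq g) := by
    unfold nsq
    rw [← S_add, ← S_add hf.sq hg.sq, ← S_mul_left]
    · congr 1
      funext x
      rw [sq_abs, sq_abs]
      ring
    · exact (hsum.of_imp fun x hx h => hx (by simp [h]))
    · exact (hdif.of_imp fun x hx h => hx (by simp only [h]; simp))
  have n' : ρ * nsq (fun x => |f x + g x|) + ρ * nsq (fun x => |f x + (-1) * g x|)
      = ρ * (2 * (nsq f + nsq g)) := by rw [← mul_add, n]
  linarith

/-- If `f x ≠ 0` forces membership in the finite set `A`, then `f` is finitely supported. -/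
lemma FS.of_finset {f : W → ℝ} (A : Finset W) (h : ∀ x, x ∉ A → f x = 0) : FS f :=
  Set.Finite.subset A.finite_toSet fun x hx => by
    by_contra hxA
    exact hx (h x hxA)

lemma Bf_le_mul {al : W → Fin 4 → Prop} (hal : SymAl al) {A : Set W} {ρ : ℝ} (hρ : 0 ≤ ρ)
    (H : ∀ f : W → ℝ, FS f → (∀ x, 0 ≤ f x) → (∀ x, x ∉ A → f x = 0) → Bf al f f ≤ ρ * nsq f)
    {f g : W → ℝ} (hf : FS f) (hg : FS g) (hfA : ∀ x, x ∉ A → f x = 0)
    (hgA : ∀ x, x ∉ A → g x = 0) :
    Bf al f g ≤ ρ * (Real.sqrt (nsq f) * Real.sqrt (nsq g)) := by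
  have hnf := nsq_nonneg f
  have hng := nsq_nonneg g
  -- scale by `s`
  have hs : ∀ s : ℝ, 0 < s → Bf al f g ≤ ρ * (s * nsq f + s⁻¹ * nsq g) / 2 := by
    intro s hs
    set r := Real.sqrt s with hr
    have hr0 : 0 < r := Real.sqrt_pos.2 hs
    have hrr : r * r = s := Real.mul_self_sqrt hs.le
    have h := Bf_le_of_quad hal H (f := fun x => r * f x) (g := fun x => r⁻¹ * g x)
      hf.mul_left hg.mul_left (fun x hx => by simp [hfA x hx]) (fun x hx => by simp [hgA x hx])
    rw [Bf_smul_left, Bf_smul_right] at h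
    have n1 : nsq (fun x => r * f x) = s * nsq f := by
      unfold nsq
      rw [← S_mul_left]
      congr 1
      funext x
      rw [mul_pow, sq r, hrr]
    have n2 : nsq (fun x => r⁻¹ * g x) = s⁻¹ * nsq g := by
      unfold nsq
      rw [← S_mul_left]
      congr 1
      funext x
      rw [mul_pow, sq r⁻¹, ← mul_inv, hrr]
    rw [n1, n2, ← mul_assoc, mul_inv_cancel₀ hr0.ne', one_mul] at h
    exact h
  rcases eq_or_lt_of_le hng with h0 | hgpos
  · -- `nsq g = 0`
    have : Bf al f g ≤ 0 := by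
      by_contra hcon
      push Not at hcon
      rcases eq_or_lt_of_le hρ with hρ0 | hρpos
      · have := hs 1 one_pos
        rw [← hρ0] at this
        linarith
      · have hpos : 0 < Bf al f g / (ρ * (nsq f + 1)) := by positivity
        have := hs _ hpos
        rw [← h0] at this
        have e : ρ * (Bf al f g / (ρ * (nsq f + 1)) * nsq f + (Bf al f g / (ρ * (nsq f + 1)))⁻¹ * 0) / 2
            = Bf al f g * (nsq f / (nsq f + 1)) / 2 := by
          field_simp
          ring
        rw [e] at this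
        have h1 : nsq f / (nsq f + 1) ≤ 1 := by
          rw [div_le_one (by positivity)]
          linarith
        nlinarith
    rw [← h0, Real.sqrt_zero, mul_zero, mul_zero]
    exact this
  rcases eq_or_lt_of_le hnf with h0 | hfpos
  · have : Bf al f g ≤ 0 := by
      by_contra hcon
      push Not at hcon
      rcases eq_or_lt_of_le hρ with hρ0 | hρpos
      · have := hs 1 one_pos
        rw [← hρ0] at this
        linarith
      · have hpos : 0 < (Bf al f g / (ρ * (nsq g + 1)))⁻¹ := by positivity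
        have := hs _ hpos
        rw [← h0, inv_inv] at this
        have e : ρ * ((Bf al f g / (ρ * (nsq g + 1)))⁻¹ * 0 + Bf al f g / (ρ * (nsq g + 1)) * nsq g) / 2
            = Bf al f g * (nsq g / (nsq g + 1)) / 2 := by
          field_simp
          ring
        rw [e] at this
        have h1 : nsq g / (nsq g + 1) ≤ 1 := by
          rw [div_le_one (by positivity)]
          linarith
        nlinarith
    rw [← h0, Real.sqrt_zero, zero_mul, mul_zero]
    exact this
  have ha : 0 < Real.sqrt (nsq f) := Real.sqrt_pos.2 hfpos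
  have hb : 0 < Real.sqrt (nsq g) := Real.sqrt_pos.2 hgpos
  have h := hs (Real.sqrt (nsq g) / Real.sqrt (nsq f)) (by positivity)
  have e1 : Real.sqrt (nsq f) * Real.sqrt (nsq f) = nsq f := Real.mul_self_sqrt hnf
  have e2 : Real.sqrt (nsq g) * Real.sqrt (nsq g) = nsq g := Real.mul_self_sqrt hng
  refine h.trans (le_of_eq ?_)
  rw [← e1, ← e2]
  simp only [Real.sqrt_mul_self ha.le, Real.sqrt_mul_self hb.le]
  field_simp
  ring

end Pool.Agent.Helper92.Diamond
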