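import Pool.Agent.Helper92_Diamond.Comb
import Pool.Agent.Helper92_Diamond.Model

set_option autoImplicit false

open Finset

namespace Pool.Agent.Helper92.Diamond

open Model

/-- Rotated coordinates. -/
def rot (p : ℤ × ℤ) : W := (p.1 + p.2, p.1 - p.2)

lemma rot_add (p q : ℤ × ℤ) : rot (p + q) = rot p + rot q := by
  unfold rot
  ext
  · simp only [Prod.fst_add, Prod.snd_add]; ring
  · simp only [Prod.fst_add, Prod.snd_add]; ring

lemma rot_zero : rot 0 = 0 := by
  simp [rot]

lemma rot_injective : Function.Injective rot := by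
  intro p q h
  unfold rot at h
  have h1 := congrArg Prod.fst h
  have h2 := congrArg Prod.snd h
  simp only at h1 h2
  ext <;> omega

lemma rot_unitStep (i : Fin 4) : rot (unitStep i) = dir i := by
  fin_cases i <;> simp [rot, unitStep, dir]

lemma rot_sum (k : ℕ) (a : ℕ → Fin 4) :
    rot (∑ i ∈ range k, unitStep (a i)) = ∑ i ∈ range k, dir (a i) := by
  induction k with
  | zero => simp [rot_zero]
  | succ k ih => rw [Finset.sum_range_succ, Finset.sum_range_succ, rot_add, ih, rot_unitStep]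

/-- Range of the walk with given steps. -/
def rngN : ℕ → W → (ℕ → Fin 4) → Finset W
  | 0, x, _ => {x}
  | (j + 1), x, a => insert x (rngN j (x + dir (a 0)) (fun i => a (i + 1)))

lemma mem_rngN (j : ℕ) (x y : W) (a : ℕ → Fin 4) :
    y ∈ rngN j x a ↔ ∃ k, k ≤ j ∧ y = x + ∑ i ∈ range k, dir (a i) := by
  induction j generalizing x a with
  | zero =>
    simp only [rngN, Finset.mem_singleton, Nat.le_zero]
    constructor
    · rintro rfl
      exact ⟨0, rfl, by simp⟩
    · rintro ⟨k, rfl, rfl⟩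
      simp
  | succ j ih =>
    simp only [rngN, Finset.mem_insert]
    rw [ih]
    constructor
    · rintro (rfl | ⟨k, hk, rfl⟩)
      · exact ⟨0, Nat.zero_le _, by simp⟩
      · refine ⟨k + 1, by omega, ?_⟩
        rw [Finset.sum_range_succ']
        abel
    · rintro ⟨k, hk, rfl⟩
      rcases Nat.eq_zero_or_pos k with rfl | hpos
      · left; simp
      · right
        obtain ⟨m, rfl⟩ := Nat.exists_eq_succ_of_ne_zero hpos.ne'
        refine ⟨m, by omega, ?_⟩
        rw [Nat.succ_eq_add_one, Finset.sum_range_succ']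
        abel

lemma rngN_congr (j : ℕ) (x : W) {a b : ℕ → Fin 4} (h : ∀ i, i < j → a i = b i) :
    rngN j x a = rngN j x b := by
  ext y
  rw [mem_rngN, mem_rngN]
  constructor
  · rintro ⟨k, hk, rfl⟩
    refine ⟨k, hk, ?_⟩
    congr 1
    exact Finset.sum_congr rfl fun i hi => by rw [h i (by rw [Finset.mem_range] at hi; omega)]
  · rintro ⟨k, hk, rfl⟩
    refine ⟨k, hk, ?_⟩
    congr 1
    exact Finset.sum_congr rfl fun i hi => by rw [h i (by rw [Finset.mem_range] at hi; omega)]

/-- Extension of a finite sequence by zero. -/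
def ext4 (j : ℕ) (c : Fin j → Fin 4) : ℕ → Fin 4 := fun i => if h : i < j then c ⟨i, h⟩ else 0

lemma Ex_eq_sum (j : ℕ) (x : W) (F : Finset W → ℝ) :
    Ex j x F = (1 / 4) ^ j * ∑ c : Fin j → Fin 4, F (rngN j x (ext4 j c)) := by
  induction j generalizing x F with
  | zero => simp [rngN]
  | succ j ih =>
    rw [Ex_succ]
    simp only [ih]
    rw [← Finset.mul_sum, ← mul_assoc, ← pow_succ']
    congr 1
    rw [← (Fin.consEquiv (fun _ : Fin (j + 1) => Fin 4)).sum_comp, Fintype.sum_prod_type]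
    refine Finset.sum_congr rfl fun i _ => Finset.sum_congr rfl fun c _ => ?_
    congr 1
    have e0 : ext4 (j + 1) (Fin.consEquiv (fun _ : Fin (j + 1) => Fin 4) (i, c)) 0 = i := by
      simp [ext4, Fin.consEquiv]
    have e1 : (fun k => ext4 (j + 1) (Fin.consEquiv (fun _ : Fin (j + 1) => Fin 4) (i, c)) (k + 1))
        = ext4 j c := by
      funext k
      unfold ext4
      by_cases hk : k < j
      · rw [dif_pos hk, dif_pos (by omega : k + 1 < j + 1)]
        exact Fin.cons_succ (α := fun _ => Fin 4) i c ⟨k, hk⟩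
      · rw [dif_neg hk, dif_neg (by omega : ¬ k + 1 < j + 1)]
    simp only [rngN]
    rw [e0, e1]

/-- Pull back of a set of rotated points. -/
def pull (R : Finset W) : Set (ℤ × ℤ) := {p | rot p ∈ R}

lemma pull_rngN (j : ℕ) (a : ℕ → Fin 4) :
    pull (rngN j 0 a) = {v | ∃ k, k ≤ j ∧ v = ∑ i ∈ range k, unitStep (a i)} := by
  ext p
  unfold pull
  rw [Set.mem_ofPred_eq, Set.mem_ofPred_eq, mem_rngN]
  constructor
  · rintro ⟨k, hk, h⟩
    refine ⟨k, hk, rot_injective ?_⟩
    rw [h, zero_add, rot_sum]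
  · rintro ⟨k, hk, rfl⟩
    exact ⟨k, hk, by rw [zero_add, rot_sum]⟩

lemma adj_iff (p y : ℤ × ℤ) : Adj p y ↔ ∃ i : Fin 4, y = p + unitStep i := by
  unfold Adj
  constructor
  · intro h
    have hcases : (y.1 = p.1 + 1 ∧ y.2 = p.2) ∨ (y.1 = p.1 - 1 ∧ y.2 = p.2) ∨
        (y.1 = p.1 ∧ y.2 = p.2 + 1) ∨ (y.1 = p.1 ∧ y.2 = p.2 - 1) := by
      rcases abs_cases (p.1 - y.1) with h1 | h1 <;> rcases abs_cases (p.2 - y.2) with h2 | h2 <;>
        omega
    rcases hcases with ⟨h1, h2⟩ | ⟨h1, h2⟩ | ⟨h1, h2⟩ | ⟨h1, h2⟩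
    · exact ⟨0, by ext <;> simp [unitStep, h1, h2]⟩
    · exact ⟨1, by ext <;> simp [unitStep, h1, h2, sub_eq_add_neg]⟩
    · exact ⟨2, by ext <;> simp [unitStep, h1, h2]⟩
    · exact ⟨3, by ext <;> simp [unitStep, h1, h2, sub_eq_add_neg]⟩
  · rintro ⟨i, rfl⟩
    fin_cases i <;> simp [unitStep]

lemma innerBoundary_pull (R : Finset W) : innerBoundary (pull R) = rot ⁻¹' (bd R : Set W) := by
  ext p
  unfold innerBoundary pull
  rw [Set.mem_ofPred_eq, Set.mem_preimage, Finset.mem_coe, mem_bd]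
  simp only [Set.mem_ofPred_eq]
  constructor
  · rintro ⟨h1, y, hy, h2⟩
    rw [adj_iff] at hy
    obtain ⟨i, rfl⟩ := hy
    rw [rot_add, rot_unitStep] at h2
    exact ⟨h1, i, h2⟩
  · rintro ⟨h1, i, h2⟩
    refine ⟨h1, p + unitStep i, (adj_iff _ _).2 ⟨i, rfl⟩, ?_⟩
    rw [rot_add, rot_unitStep]
    exact h2

lemma mem_range_rot {x : W} (h : (2 : ℤ) ∣ x.1 - x.2) : x ∈ Set.range rot := by
  refine ⟨((x.1 + x.2) / 2, (x.1 - x.2) / 2), ?_⟩
  unfold rot
  ext
  · simp only
    omega
  · simp only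
    omega

lemma RangeProp.subset_range {R : Finset W} (hR : RangeProp 0 R) :
    (R : Set W) ⊆ Set.range rot := by
  intro y hy
  apply mem_range_rot
  have := hR.par y hy
  simpa using this

lemma ncard_innerBoundary_pull {R : Finset W} (hR : RangeProp 0 R) :
    (innerBoundary (pull R)).ncard = (bd R).card := by
  rw [innerBoundary_pull, Set.ncard_preimage_of_injective_subset_range rot_injective,
    Set.ncard_coe_finset]
  exact fun y hy => hR.subset_range (Finset.mem_filter.1 hy).1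

lemma rangeProp_rngN (j : ℕ) (x : W) (a : ℕ → Fin 4) : RangeProp x (rngN j x a) := by
  induction j generalizing x a with
  | zero => exact RangeProp.singleton x
  | succ j ih => exact (ih (x + dir (a 0)) (fun i => a (i + 1))).insert

end Pool.Agent.Helper92.Diamond
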