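import Pool.Agent.Helper92_Diamond.Cov
import Pool.Agent.Helper92_Diamond.Box

set_option autoImplicit false

open Finset

namespace Pool.Agent.Helper92.Diamond

/-- Translation of a finite set. -/
def tr (z : W) (A : Finset W) : Finset W := A.image (fun y => y + z)

lemma mem_tr {z y : W} {A : Finset W} : y ∈ tr z A ↔ y - z ∈ A := by
  unfold tr
  rw [Finset.mem_image]
  constructor
  · rintro ⟨x, hx, rfl⟩
    simpa using hx
  · intro h
    exact ⟨y - z, h, by simp⟩

lemma tr_erase (z x : W) (A : Finset W) : (tr z A).erase (x + z) = tr z (A.erase x) := by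
  ext y
  rw [Finset.mem_erase, mem_tr, mem_tr, Finset.mem_erase]
  constructor
  · rintro ⟨h1, h2⟩
    exact ⟨fun h => h1 (by rw [← h]; simp), h2⟩
  · rintro ⟨h1, h2⟩
    exact ⟨fun h => h1 (by rw [h]; simp), h2⟩

lemma tr_subset_singleton (z x : W) (C : Finset W) : tr z C ⊆ {x + z} ↔ C ⊆ {x} := by
  constructor
  · intro h y hy
    have : y + z ∈ tr z C := mem_tr.2 (by simpa using hy)
    have := h this
    rw [Finset.mem_singleton] at this ⊢
    exact add_right_cancel this
  · intro h y hy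
    rw [mem_tr] at hy
    have := h hy
    rw [Finset.mem_singleton] at this ⊢
    rw [← this]
    simp

lemma cov_tr (A : Finset W) (z : W) (j : ℕ) (x : W) (C : Finset W) (w : W) :
    cov (tr z A) j (x + z) (tr z C) (w + z) = cov A j x C w := by
  have hmem : x + z ∈ tr z A ↔ x ∈ A := by rw [mem_tr]; simp
  have hw : ∀ x : W, x + z = w + z ↔ x = w := fun x => add_left_inj z
  induction j generalizing x C with
  | zero =>
    rw [cov_zero, cov_zero]
    apply ind_congr
    rw [mem_tr, tr_subset_singleton, hw]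
    simp
  | succ j ih =>
    by_cases hx : x ∈ A
    · have hx' : x + z ∈ tr z A := by rw [mem_tr]; simpa using hx
      by_cases h : C ⊆ {x} ∧ x = w
      · obtain ⟨h1, rfl⟩ := h
        rw [cov_stop hx _ h1, cov_stop hx' _ ((tr_subset_singleton z x C).2 h1)]
      · have h' : ¬ (tr z C ⊆ {x + z} ∧ x + z = w + z) := fun h2 =>
          h ⟨(tr_subset_singleton z x C).1 h2.1, (hw x).1 h2.2⟩
        rw [cov_step hx j h, cov_step hx' j h']
        congr 1
        refine Finset.sum_congr rfl fun i _ => ?_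
        rw [tr_erase, add_right_comm]
        exact ih (x + dir i) (C.erase x) (by rw [mem_tr]; simp)
    · have hx' : x + z ∉ tr z A := fun h => hx (by rw [mem_tr] at h; simpa using h)
      rw [cov_of_not_mem hx, cov_of_not_mem hx']

/-- Reachability inside `A`. -/
def Reach (A : Finset W) (x w : W) : Prop := ∃ j, 0 < cov A j x ∅ w

lemma Reach.refl {A : Finset W} {x : W} (hx : x ∈ A) : Reach A x x :=
  ⟨0, by rw [cov_stop hx _ (Finset.empty_subset _)]; exact one_pos⟩

lemma Reach.trans {A : Finset W} {x y z : W} (h1 : Reach A x y) (h2 : Reach A y z) :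
    Reach A x z := by
  obtain ⟨j1, h1⟩ := h1
  obtain ⟨j2, h2⟩ := h2
  refine ⟨j1 + j2, ?_⟩
  have := cov_comp A j1 j2 x y z ∅ ∅
  rw [Finset.union_empty] at this
  exact lt_of_lt_of_le (mul_pos h1 h2) this

lemma Reach.step {A : Finset W} {x : W} (i : Fin 4) (hx : x ∈ A) (hy : x + dir i ∈ A) :
    Reach A x (x + dir i) := by
  refine ⟨1, ?_⟩
  have hne : ¬ ((∅ : Finset W) ⊆ {x} ∧ x = x + dir i) := by
    rintro ⟨_, h⟩
    have h1 : x.1 = x.1 + (dir i).1 := congrArg Prod.fst h
    have := (dir_cases i).1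
    omega
  rw [cov_step hx 0 hne]
  apply mul_pos (by norm_num)
  refine lt_of_lt_of_le ?_ (Finset.single_le_sum (f := fun k : Fin 4 =>
    cov A 0 (x + dir k) ((∅ : Finset W).erase x) (x + dir i)) (fun k _ => cov_nonneg _ _ _ _ _)
    (Finset.mem_univ i))
  simp only [Finset.erase_empty]
  rw [cov_stop hy _ (Finset.empty_subset _)]
  exact one_pos

lemma exists_dir (a b : ℤ) (ha : a = 1 ∨ a = -1) (hb : b = 1 ∨ b = -1) :
    ∃ i : Fin 4, dir i = (a, b) := by
  rcases ha with rfl | rfl <;> rcases hb with rfl | rfl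
  · exact ⟨0, rfl⟩
  · exact ⟨2, rfl⟩
  · exact ⟨3, rfl⟩
  · exact ⟨1, rfl⟩

lemma Reach.step' {A : Finset W} {x y : W} (hx : x ∈ A) (hy : y ∈ A)
    (h1 : y.1 - x.1 = 1 ∨ y.1 - x.1 = -1) (h2 : y.2 - x.2 = 1 ∨ y.2 - x.2 = -1) :
    Reach A x y ∧ Reach A y x := by
  constructor
  · obtain ⟨i, hi⟩ := exists_dir _ _ h1 h2
    have e : x + dir i = y := by
      rw [hi]
      ext
      · simp
      · simp
    rw [← e]
    exact Reach.step i hx (e ▸ hy)
  · obtain ⟨i, hi⟩ := exists_dir (x.1 - y.1) (x.2 - y.2) (by omega) (by omega)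
    have e : y + dir i = x := by
      rw [hi]
      ext
      · simp
      · simp
    rw [← e]
    exact Reach.step i hy (e ▸ hx)

lemma reach_zero (m : ℕ) (s : ℕ) (x : W) (hx : x ∈ Dm m) (hs : x.1.natAbs + x.2.natAbs ≤ s) :
    Reach (Dm m) x 0 ∧ Reach (Dm m) 0 x := by
  induction s using Nat.strong_induction_on generalizing x with
  | _ s ih =>
    have hx' := mem_Dm.1 hx
    by_cases h0 : x = 0
    · subst h0
      exact ⟨Reach.refl hx, Reach.refl hx⟩
    by_cases h1 : x.1 = 0
    · have h2 : x.2 ≠ 0 := fun h => h0 (Prod.ext h1 h)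
      rcases lt_or_gt_of_ne h2 with h3 | h3
      · -- x.2 < 0
        have hy : ((1, x.2 + 1) : W) ∈ Dm m := by rw [mem_Dm]; simp only; omega
        have hz : ((0, x.2 + 2) : W) ∈ Dm m := by rw [mem_Dm]; simp only; omega
        have r1 := Reach.step' hx hy (by simp only; omega) (by simp only; omega)
        have r2 := Reach.step' hy hz (by simp only; omega) (by simp only; omega)
        have r3 := ih (s - 1) (by omega) (0, x.2 + 2) hz (by simp only; omega)
        exact ⟨(r1.1.trans r2.1).trans r3.1, r3.2.trans (r2.2.trans r1.2)⟩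
      · have hy : ((1, x.2 - 1) : W) ∈ Dm m := by rw [mem_Dm]; simp only; omega
        have hz : ((0, x.2 - 2) : W) ∈ Dm m := by rw [mem_Dm]; simp only; omega
        have r1 := Reach.step' hx hy (by simp only; omega) (by simp only; omega)
        have r2 := Reach.step' hy hz (by simp only; omega) (by simp only; omega)
        have r3 := ih (s - 1) (by omega) (0, x.2 - 2) hz (by simp only; omega)
        exact ⟨(r1.1.trans r2.1).trans r3.1, r3.2.trans (r2.2.trans r1.2)⟩
    by_cases h2 : x.2 = 0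
    · rcases lt_or_gt_of_ne h1 with h3 | h3
      · have hy : ((x.1 + 1, 1) : W) ∈ Dm m := by rw [mem_Dm]; simp only; omega
        have hz : ((x.1 + 2, 0) : W) ∈ Dm m := by rw [mem_Dm]; simp only; omega
        have r1 := Reach.step' hx hy (by simp only; omega) (by simp only; omega)
        have r2 := Reach.step' hy hz (by simp only; omega) (by simp only; omega)
        have r3 := ih (s - 1) (by omega) (x.1 + 2, 0) hz (by simp only; omega)
        exact ⟨(r1.1.trans r2.1).trans r3.1, r3.2.trans (r2.2.trans r1.2)⟩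
      · have hy : ((x.1 - 1, 1) : W) ∈ Dm m := by rw [mem_Dm]; simp only; omega
        have hz : ((x.1 - 2, 0) : W) ∈ Dm m := by rw [mem_Dm]; simp only; omega
        have r1 := Reach.step' hx hy (by simp only; omega) (by simp only; omega)
        have r2 := Reach.step' hy hz (by simp only; omega) (by simp only; omega)
        have r3 := ih (s - 1) (by omega) (x.1 - 2, 0) hz (by simp only; omega)
        exact ⟨(r1.1.trans r2.1).trans r3.1, r3.2.trans (r2.2.trans r1.2)⟩
    · obtain ⟨a, ha, ha'⟩ : ∃ a : ℤ, (a = 1 ∨ a = -1) ∧ (x.1 + a).natAbs + 1 = x.1.natAbs := by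
        rcases lt_or_gt_of_ne h1 with h3 | h3
        · exact ⟨1, Or.inl rfl, by omega⟩
        · exact ⟨-1, Or.inr rfl, by omega⟩
      obtain ⟨b, hb, hb'⟩ : ∃ b : ℤ, (b = 1 ∨ b = -1) ∧ (x.2 + b).natAbs + 1 = x.2.natAbs := by
        rcases lt_or_gt_of_ne h2 with h3 | h3
        · exact ⟨1, Or.inl rfl, by omega⟩
        · exact ⟨-1, Or.inr rfl, by omega⟩
      have hy : ((x.1 + a, x.2 + b) : W) ∈ Dm m := by rw [mem_Dm]; simp only; omega
      have r1 := Reach.step' hx hy (by simp only; omega) (by simp only; omega)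
      have r3 := ih (s - 1) (by omega) (x.1 + a, x.2 + b) hy (by simp only; omega)
      exact ⟨r1.1.trans r3.1, r3.2.trans r1.2⟩

lemma reach_all (m : ℕ) {x w : W} (hx : x ∈ Dm m) (hw : w ∈ Dm m) : Reach (Dm m) x w :=
  (reach_zero m _ x hx le_rfl).1.trans (reach_zero m _ w hw le_rfl).2

lemma cover_pos (m : ℕ) (C : Finset W) (hC : C ⊆ Dm m) {x w : W} (hx : x ∈ Dm m)
    (hw : w ∈ Dm m) : ∃ j, 0 < cov (Dm m) j x C w := by
  classical
  induction C using Finset.induction_on generalizing x with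
  | empty => exact reach_all m hx hw
  | insert a C ha ih =>
    have haD : a ∈ Dm m := hC (Finset.mem_insert_self _ _)
    have hCD : C ⊆ Dm m := fun y hy => hC (Finset.mem_insert_of_mem hy)
    obtain ⟨j1, h1⟩ := reach_all m hx haD
    obtain ⟨j2, h2⟩ := ih hCD haD
    refine ⟨j1 + (0 + j2), ?_⟩
    have h3 : 1 * cov (Dm m) j2 a C w ≤ cov (Dm m) (0 + j2) a (insert a C) w := by
      have := cov_comp (Dm m) 0 j2 a a w {a} C
      rw [cov_stop haD _ (Finset.Subset.refl _)] at this
      rw [← Finset.insert_eq] at this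
      exact this
    have h4 := cov_comp (Dm m) j1 (0 + j2) x a w ∅ (insert a C)
    rw [Finset.empty_union] at h4
    refine lt_of_lt_of_le ?_ h4
    refine mul_pos h1 (lt_of_lt_of_le ?_ h3)
    rw [one_mul]
    exact h2

/-- Full cover of a box of fixed size. -/
theorem small_cover (m : ℕ) : ∃ (T : ℕ) (κ : ℝ), 0 ≤ κ ∧ ∀ x ∈ Dm m, ∀ w ∈ Dm m,
    Real.exp (-κ) ≤ cov (Dm m) T x (Dm m) w := by
  classical
  have h : ∀ p : {x // x ∈ Dm m} × {x // x ∈ Dm m},
      ∃ j, 0 < cov (Dm m) j p.1 (Dm m) p.2 := fun p =>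
    cover_pos m (Dm m) (Finset.Subset.refl _) p.1.2 p.2.2
  choose J hJ using h
  set T := Finset.univ.sup J with hT
  have hpos : ∀ p : {x // x ∈ Dm m} × {x // x ∈ Dm m}, 0 < cov (Dm m) T p.1 (Dm m) p.2 :=
    fun p => lt_of_lt_of_le (hJ p) (cov_mono_time (Finset.le_sup (Finset.mem_univ p)) _ _ _)
  have hne : (Finset.univ : Finset ({x // x ∈ Dm m} × {x // x ∈ Dm m})).Nonempty := by
    have h0 : (0 : W) ∈ Dm m := by
      rw [mem_Dm]
      simp
    exact ⟨(⟨0, h0⟩, ⟨0, h0⟩), Finset.mem_univ _⟩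
  obtain ⟨p, _, hp⟩ := Finset.exists_min_image Finset.univ
    (fun p : {x // x ∈ Dm m} × {x // x ∈ Dm m} => cov (Dm m) T p.1 (Dm m) p.2) hne
  refine ⟨T, -Real.log (cov (Dm m) T p.1 (Dm m) p.2), ?_, ?_⟩
  · rw [neg_nonneg]
    exact Real.log_nonpos (cov_nonneg _ _ _ _ _) (cov_le_one _ _ _ _ _)
  · intro x hx w hw
    rw [neg_neg, Real.exp_log (hpos p)]
    exact hp (⟨x, hx⟩, ⟨w, hw⟩) (Finset.mem_univ _)

end Pool.Agent.Helper92.Diamond
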