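import Mathlib

set_option autoImplicit false

open Finset

namespace Pool.Agent.Helper92.Diamond

/-- Rotated lattice coordinates `(u,v) = (x+y, x-y)`. -/
abbrev W := ℤ × ℤ

/-- The four steps of the walk in rotated coordinates. -/
def dir : Fin 4 → W := ![(1, 1), (-1, -1), (1, -1), (-1, 1)]

/-- The opposite direction. -/
def opp : Fin 4 → Fin 4 := ![1, 0, 3, 2]

lemma dir_opp (i : Fin 4) : dir (opp i) = -dir i := by
  fin_cases i <;> simp [dir, opp]

lemma opp_opp (i : Fin 4) : opp (opp i) = i := by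
  fin_cases i <;> simp [opp]

lemma dir_cases (i : Fin 4) :
    ((dir i).1 = 1 ∨ (dir i).1 = -1) ∧ ((dir i).2 = 1 ∨ (dir i).2 = -1) := by
  fin_cases i <;> simp [dir]

lemma sum_dir {M : Type*} [AddCommMonoid M] (f : W → M) :
    ∑ i : Fin 4, f (dir i) = f (1, 1) + f (-1, -1) + f (1, -1) + f (-1, 1) := by
  simp [Fin.sum_univ_four, dir]

/-- Expectation of a functional of the range of the `j`-step walk started at `x`. -/
noncomputable def Ex : ℕ → W → (Finset W → ℝ) → ℝ
  | 0, x, F => F {x}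
  | (j + 1), x, F => (1 / 4) * ∑ i : Fin 4, Ex j (x + dir i) (fun R => F (insert x R))

@[simp] lemma Ex_zero (x : W) (F : Finset W → ℝ) : Ex 0 x F = F {x} := rfl

lemma Ex_succ (j : ℕ) (x : W) (F : Finset W → ℝ) :
    Ex (j + 1) x F = (1 / 4) * ∑ i : Fin 4, Ex j (x + dir i) (fun R => F (insert x R)) := rfl

/-- Structural property of the range of a nearest neighbour path started at `x`. -/
structure RangeProp (x : W) (R : Finset W) : Prop where
  mem : x ∈ R
  par : ∀ y ∈ R, (2 : ℤ) ∣ (y.1 - x.1) - (y.2 - x.2)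
  fst : ∀ y ∈ R, ∀ c : ℤ, (x.1 ≤ c ∧ c ≤ y.1) ∨ (y.1 ≤ c ∧ c ≤ x.1) → ∃ z ∈ R, z.1 = c
  snd : ∀ y ∈ R, ∀ c : ℤ, (x.2 ≤ c ∧ c ≤ y.2) ∨ (y.2 ≤ c ∧ c ≤ x.2) → ∃ z ∈ R, z.2 = c

lemma RangeProp.singleton (x : W) : RangeProp x {x} := by
  refine ⟨by simp, by simp, ?_, ?_⟩
  · intro y hy c hc
    rw [Finset.mem_singleton] at hy
    subst hy
    exact ⟨y, by simp, by omega⟩
  · intro y hy c hc
    rw [Finset.mem_singleton] at hy
    subst hy
    exact ⟨y, by simp, by omega⟩

lemma RangeProp.insert {x : W} {i : Fin 4} {R : Finset W} (h : RangeProp (x + dir i) R) :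
    RangeProp x (insert x R) := by
  have hd := dir_cases i
  have h1 : (x + dir i).1 = x.1 + (dir i).1 := rfl
  have h2 : (x + dir i).2 = x.2 + (dir i).2 := rfl
  refine ⟨by simp, ?_, ?_, ?_⟩
  · intro y hy
    rw [Finset.mem_insert] at hy
    rcases hy with rfl | hy
    · simp
    · have := h.par y hy
      rw [h1, h2] at this
      omega
  · intro y hy c hc
    rw [Finset.mem_insert] at hy
    by_cases hcx : c = x.1
    · exact ⟨x, by simp, hcx.symm⟩
    rcases hy with rfl | hy
    · omega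
    · obtain ⟨z, hz, hzc⟩ := h.fst y hy c (by rw [h1]; omega)
      exact ⟨z, by simp [hz], hzc⟩
  · intro y hy c hc
    rw [Finset.mem_insert] at hy
    by_cases hcx : c = x.2
    · exact ⟨x, by simp, hcx.symm⟩
    rcases hy with rfl | hy
    · omega
    · obtain ⟨z, hz, hzc⟩ := h.snd y hy c (by rw [h2]; omega)
      exact ⟨z, by simp [hz], hzc⟩

lemma Ex_mono_on {j : ℕ} {x : W} {F G : Finset W → ℝ} (h : ∀ R, RangeProp x R → F R ≤ G R) :
    Ex j x F ≤ Ex j x G := by
  induction j generalizing x F G with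
  | zero => exact h _ (RangeProp.singleton x)
  | succ j ih =>
    rw [Ex_succ, Ex_succ]
    refine mul_le_mul_of_nonneg_left ?_ (by norm_num)
    refine Finset.sum_le_sum fun i _ => ?_
    exact ih fun R hR => h _ hR.insert

lemma Ex_mono {j : ℕ} {x : W} {F G : Finset W → ℝ} (h : ∀ R, F R ≤ G R) :
    Ex j x F ≤ Ex j x G := Ex_mono_on fun R _ => h R

lemma Ex_congr_on {j : ℕ} {x : W} {F G : Finset W → ℝ} (h : ∀ R, RangeProp x R → F R = G R) :
    Ex j x F = Ex j x G :=
  le_antisymm (Ex_mono_on fun R hR => (h R hR).le) (Ex_mono_on fun R hR => (h R hR).ge)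

lemma Ex_const (j : ℕ) (x : W) (c : ℝ) : Ex j x (fun _ => c) = c := by
  induction j generalizing x with
  | zero => rfl
  | succ j ih =>
    rw [Ex_succ]
    simp [ih]

lemma Ex_add (j : ℕ) (x : W) (F G : Finset W → ℝ) :
    Ex j x (fun R => F R + G R) = Ex j x F + Ex j x G := by
  induction j generalizing x F G with
  | zero => rfl
  | succ j ih =>
    rw [Ex_succ, Ex_succ, Ex_succ, ← mul_add, ← Finset.sum_add_distrib]
    congr 1
    exact Finset.sum_congr rfl fun i _ => ih _ _ _

lemma Ex_mul_left (j : ℕ) (x : W) (c : ℝ) (F : Finset W → ℝ) :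
    Ex j x (fun R => c * F R) = c * Ex j x F := by
  induction j generalizing x F with
  | zero => rfl
  | succ j ih =>
    rw [Ex_succ, Ex_succ]
    simp only [ih, ← Finset.mul_sum]
    ring

lemma Ex_sub (j : ℕ) (x : W) (F G : Finset W → ℝ) :
    Ex j x (fun R => F R - G R) = Ex j x F - Ex j x G := by
  have h := Ex_add j x F (fun R => (-1) * G R)
  rw [Ex_mul_left] at h
  have : (fun R => F R - G R) = fun R => F R + (-1) * G R := by
    funext R
    ring
  rw [this, h]
  ring

lemma Ex_sum {ι : Type*} (s : Finset ι) (j : ℕ) (x : W) (F : ι → Finset W → ℝ) :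
    Ex j x (fun R => ∑ a ∈ s, F a R) = ∑ a ∈ s, Ex j x (F a) := by
  classical
  induction s using Finset.induction_on with
  | empty => simpa using Ex_const j x 0
  | insert a s ha ih =>
    rw [Finset.sum_insert ha, ← ih, ← Ex_add]
    congr 1
    funext R
    rw [Finset.sum_insert ha]

lemma Ex_nonneg_on {j : ℕ} {x : W} {F : Finset W → ℝ} (h : ∀ R, RangeProp x R → 0 ≤ F R) :
    0 ≤ Ex j x F := by
  rw [← Ex_const j x 0]
  exact Ex_mono_on h

lemma Ex_nonneg {j : ℕ} {x : W} {F : Finset W → ℝ} (h : ∀ R, 0 ≤ F R) :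
    0 ≤ Ex j x F := Ex_nonneg_on fun R _ => h R

lemma Ex_le_one_on {j : ℕ} {x : W} {F : Finset W → ℝ} (h : ∀ R, RangeProp x R → F R ≤ 1) :
    Ex j x F ≤ 1 := by
  rw [← Ex_const j x 1]
  exact Ex_mono_on h

/-- Translation invariance. -/
lemma Ex_translate (j : ℕ) (x z : W) (F : Finset W → ℝ) :
    Ex j (x + z) F = Ex j x (fun R => F (R.image (fun y => y + z))) := by
  induction j generalizing x F with
  | zero => simp
  | succ j ih =>
    rw [Ex_succ, Ex_succ]
    congr 1
    refine Finset.sum_congr rfl fun i _ => ?_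
    rw [add_right_comm, ih]
    congr 1
    funext R
    rw [Finset.image_insert]

/-- Indicator of a proposition, as a real number. -/
noncomputable def ind (p : Prop) : ℝ := by
  classical
  exact if p then 1 else 0

lemma ind_true {p : Prop} (h : p) : ind p = 1 := by
  simp [ind, h]

lemma ind_false {p : Prop} (h : ¬ p) : ind p = 0 := by
  simp [ind, h]

lemma ind_nonneg (p : Prop) : 0 ≤ ind p := by
  by_cases h : p
  · simp [ind_true h]
  · simp [ind_false h]

lemma ind_le_one (p : Prop) : ind p ≤ 1 := by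
  by_cases h : p
  · simp [ind_true h]
  · simp [ind_false h]

lemma ind_mono {p q : Prop} (h : p → q) : ind p ≤ ind q := by
  by_cases hp : p
  · simp [ind_true hp, ind_true (h hp)]
  · simp [ind_false hp, ind_nonneg]

lemma ind_congr {p q : Prop} (h : p ↔ q) : ind p = ind q := by
  rw [propext h]

end Pool.Agent.Helper92.Diamond
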