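import Pool.Agent.Helper92_Diamond.Quad

set_option autoImplicit false

open Finset Real

namespace Pool.Agent.Helper92.Diamond

/-- Distance (in steps of size two) to the complement of `U`. -/
noncomputable def dW (U : Finset ℤ) (u : ℤ) : ℕ := sInf {j : ℕ | u - 2 * j ∉ U ∨ u + 2 * j ∉ U}

lemma dW_set_nonempty (U : Finset ℤ) (u : ℤ) :
    {j : ℕ | u - 2 * (j : ℤ) ∉ U ∨ u + 2 * (j : ℤ) ∉ U}.Nonempty := by
  by_contra h
  rw [Set.not_nonempty_iff_eq_empty, Set.eq_empty_iff_forall_notMem] at h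
  have h2 : ∀ j : ℕ, u + 2 * (j : ℤ) ∈ U := by
    intro j
    by_contra hj
    exact h j (Or.inr hj)
  have hinj : Function.Injective (fun j : ℕ => u + 2 * (j : ℤ)) := by
    intro a b hab
    simpa using hab
  exact Set.infinite_of_injective_forall_mem hinj (s := (U : Set ℤ)) (fun j => h2 j)
    U.finite_toSet

lemma dW_spec (U : Finset ℤ) (u : ℤ) :
    u - 2 * (dW U u : ℤ) ∉ U ∨ u + 2 * (dW U u : ℤ) ∉ U :=
  Nat.sInf_mem (dW_set_nonempty U u)

lemma dW_le {U : Finset ℤ} {u : ℤ} {j : ℕ} (h : u - 2 * (j : ℤ) ∉ U ∨ u + 2 * (j : ℤ) ∉ U) :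
    dW U u ≤ j := Nat.sInf_le h

lemma dW_lt {U : Finset ℤ} {u : ℤ} {i : ℕ} (h : i < dW U u) :
    u - 2 * (i : ℤ) ∈ U ∧ u + 2 * (i : ℤ) ∈ U := by
  by_contra hc
  rw [not_and_or] at hc
  exact absurd (dW_le hc) (by omega)

lemma dW_eq_zero {U : Finset ℤ} {u : ℤ} (h : u ∉ U) : dW U u = 0 := by
  have : dW U u ≤ 0 := dW_le (by left; simpa using h)
  omega

lemma one_le_dW {U : Finset ℤ} {u : ℤ} (h : u ∈ U) : 1 ≤ dW U u := by
  by_contra hc
  have h0 : dW U u = 0 := by omega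
  have := dW_spec U u
  rw [h0] at this
  simp at this
  exact this h

lemma dW_add_two_le (U : Finset ℤ) (u : ℤ) : dW U (u + 2) ≤ dW U u + 1 := by
  rcases dW_spec U u with h | h
  · apply dW_le
    left
    have : u + 2 - 2 * ((dW U u + 1 : ℕ) : ℤ) = u - 2 * (dW U u : ℤ) := by
      push_cast; ring
    rw [this]
    exact h
  · rcases Nat.eq_zero_or_pos (dW U u) with h0 | hpos
    · rw [h0] at h ⊢
      apply dW_le
      left
      have : u + 2 - 2 * ((0 + 1 : ℕ) : ℤ) = u := by push_cast; ring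
      rw [this]
      simpa using h
    · refine (dW_le (j := dW U u - 1) ?_).trans (by omega)
      right
      have : u + 2 + 2 * ((dW U u - 1 : ℕ) : ℤ) = u + 2 * (dW U u : ℤ) := by
        push_cast [Nat.cast_sub hpos]; ring
      rw [this]
      exact h

lemma dW_sub_two_le (U : Finset ℤ) (u : ℤ) : dW U (u - 2) ≤ dW U u + 1 := by
  rcases dW_spec U u with h | h
  · rcases Nat.eq_zero_or_pos (dW U u) with h0 | hpos
    · rw [h0] at h ⊢
      apply dW_le
      right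
      have : u - 2 + 2 * ((0 + 1 : ℕ) : ℤ) = u := by push_cast; ring
      rw [this]
      simpa using h
    · refine (dW_le (j := dW U u - 1) ?_).trans (by omega)
      left
      have : u - 2 - 2 * ((dW U u - 1 : ℕ) : ℤ) = u - 2 * (dW U u : ℤ) := by
        push_cast [Nat.cast_sub hpos]; ring
      rw [this]
      exact h
  · apply dW_le
    right
    have : u - 2 + 2 * ((dW U u + 1 : ℕ) : ℤ) = u + 2 * (dW U u : ℤ) := by
      push_cast; ring
    rw [this]
    exact h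

lemma dW_pred {U : Finset ℤ} {u : ℤ} (hpos : 1 ≤ dW U u) :
    dW U (u - 2) ≤ dW U u - 1 ∨ dW U (u + 2) ≤ dW U u - 1 := by
  rcases dW_spec U u with h | h
  · left
    apply dW_le
    left
    have : u - 2 - 2 * ((dW U u - 1 : ℕ) : ℤ) = u - 2 * (dW U u : ℤ) := by
      push_cast [Nat.cast_sub hpos]; ring
    rw [this]
    exact h
  · right
    apply dW_le
    right
    have : u + 2 + 2 * ((dW U u - 1 : ℕ) : ℤ) = u + 2 * (dW U u : ℤ) := by
      push_cast [Nat.cast_sub hpos]; ring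
    rw [this]
    exact h

/-- The run around `u` shows that the class of `u` contains at least `2 dW - 1` elements of any
set containing all of the run. -/
lemma dW_card {U : Finset ℤ} {u : ℤ} (T : Finset ℤ)
    (hT : ∀ i : ℤ, |i| < dW U u → u + 2 * i ∈ T) : 2 * dW U u ≤ T.card + 1 := by
  rcases Nat.eq_zero_or_pos (dW U u) with h0 | hpos
  · omega
  have hinj : Function.Injective (fun i : ℤ => u + 2 * i) := by
    intro a b hab
    simpa using hab
  have hsub : (Finset.Ioo (-(dW U u : ℤ)) (dW U u : ℤ)).image (fun i : ℤ => u + 2 * i) ⊆ T := by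
    intro z hz
    rw [Finset.mem_image] at hz
    obtain ⟨i, hi, rfl⟩ := hz
    rw [Finset.mem_Ioo] at hi
    exact hT i (abs_lt.2 hi)
  have h := Finset.card_le_card hsub
  rw [Finset.card_image_of_injective _ hinj, Int.card_Ioo] at h
  omega

lemma dW_mem_run {U : Finset ℤ} {u : ℤ} {i : ℤ} (h : |i| < dW U u) : u + 2 * i ∈ U := by
  rcases le_total 0 i with hi | hi
  · rw [abs_of_nonneg hi] at h
    obtain ⟨k, rfl⟩ := Int.eq_ofNat_of_zero_le hi
    exact (dW_lt (by exact_mod_cast h)).2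
  · rw [abs_of_nonpos hi] at h
    obtain ⟨k, hk⟩ := Int.eq_ofNat_of_zero_le (neg_nonneg.2 hi)
    rw [hk] at h
    have := (dW_lt (U := U) (u := u) (i := k) (by exact_mod_cast h)).1
    rw [← hk] at this
    convert this using 1
    ring

/-- The profile. -/
noncomputable def psi (ω κ : ℝ) (j : ℕ) : ℝ := sin (min (ω * (j + κ)) (π / 2))

lemma psi_pos {ω κ : ℝ} (hω : 0 < ω) (hκ : 0 < κ) (j : ℕ) : 0 < psi ω κ j := by
  unfold psi
  apply sin_pos_of_pos_of_lt_pi
  · apply lt_min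
    · positivity
    · positivity
  · exact lt_of_le_of_lt (min_le_right _ _) (by linarith [pi_pos])

lemma psi_mono {ω κ : ℝ} (hω : 0 < ω) (hκ : 0 < κ) {i j : ℕ} (h : i ≤ j) :
    psi ω κ i ≤ psi ω κ j := by
  unfold psi
  apply sin_le_sin_of_le_of_le_pi_div_two
  · have : 0 ≤ min (ω * (i + κ)) (π / 2) := le_min (by positivity) (by positivity)
    linarith [pi_pos]
  · exact min_le_right _ _
  · apply min_le_min_right
    have : (i : ℝ) ≤ j := by exact_mod_cast h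
    apply mul_le_mul_of_nonneg_left _ hω.le
    linarith

lemma psi_interior {ω κ : ℝ} (hω : 0 < ω) {j : ℕ} (hj : 1 ≤ j)
    (h : ω * (j + 1 + κ) ≤ π / 2) :
    psi ω κ (j - 1) + psi ω κ (j + 1) = 2 * cos ω * psi ω κ j := by
  have hc : ((j - 1 : ℕ) : ℝ) = (j : ℝ) - 1 := by
    push_cast [Nat.cast_sub hj]; ring
  have h1 : min (ω * (((j - 1 : ℕ) : ℝ) + κ)) (π / 2) = ω * (j + κ) - ω := by
    rw [hc, min_eq_left]
    · ring
    · nlinarith
  have h2 : min (ω * (((j + 1 : ℕ) : ℝ) + κ)) (π / 2) = ω * (j + κ) + ω := by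
    rw [min_eq_left]
    · push_cast; ring
    · push_cast; linarith
  have h3 : min (ω * ((j : ℝ) + κ)) (π / 2) = ω * (j + κ) := by
    rw [min_eq_left]
    nlinarith
  unfold psi
  rw [h1, h2, h3, sin_sub, sin_add]
  ring

lemma psi_wall {ω κ : ℝ} (hω : 0 < ω) (hκ : 0 < κ) (h : ω * (1 + κ) ≤ π / 2) :
    psi ω κ 1 ≤ (1 + 1 / κ) * psi ω κ 0 := by
  have h1 : min (ω * (((1 : ℕ) : ℝ) + κ)) (π / 2) = ω * (1 + κ) := by
    push_cast
    rw [min_eq_left h]
  have h0 : min (ω * (((0 : ℕ) : ℝ) + κ)) (π / 2) = ω * κ := by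
    push_cast
    rw [zero_add, min_eq_left]
    nlinarith
  unfold psi
  rw [h1, h0]
  have hconc := strictConcaveOn_sin_Icc.concaveOn
  have hmem0 : (0 : ℝ) ∈ Set.Icc 0 π := ⟨le_rfl, pi_pos.le⟩
  have hmem1 : ω * (1 + κ) ∈ Set.Icc 0 π := ⟨by positivity, by linarith [pi_pos]⟩
  have := hconc.2 hmem0 hmem1 (show (0 : ℝ) ≤ 1 / (1 + κ) by positivity)
    (show (0 : ℝ) ≤ κ / (1 + κ) by positivity) (by field_simp)
  simp only [smul_eq_mul, mul_zero, zero_add, sin_zero] at this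
  have e : κ / (1 + κ) * (ω * (1 + κ)) = ω * κ := by field_simp
  rw [e] at this
  have e2 : (1 + 1 / κ) * (κ / (1 + κ) * sin (ω * (1 + κ))) = sin (ω * (1 + κ)) := by
    field_simp
    ring
  calc sin (ω * (1 + κ)) = (1 + 1 / κ) * (κ / (1 + κ) * sin (ω * (1 + κ))) := e2.symm
    _ ≤ (1 + 1 / κ) * sin (ω * κ) := mul_le_mul_of_nonneg_left this (by positivity)

/-- Local coefficient in the one-dimensional inequality. -/
noncomputable def coef (U : Finset ℤ) (ω κ : ℝ) (u : ℤ) : ℝ :=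
  if u ∈ U then 2 - 2 * cos ω else -(2 / κ)

lemma coef_spec (U : Finset ℤ) {ω κ : ℝ} (hω : 0 < ω) (hκ : 0 < κ) (u : ℤ)
    (h : ω * (dW U u + 1 + κ) ≤ π / 2) :
    coef U ω κ u * psi ω κ (dW U u) ≤
      2 * psi ω κ (dW U u) - psi ω κ (dW U (u + 2)) - psi ω κ (dW U (u - 2)) := by
  unfold coef
  have hplus := psi_mono hω hκ (dW_add_two_le U u)
  have hminus := psi_mono hω hκ (dW_sub_two_le U u)
  by_cases hu : u ∈ U
  · rw [if_pos hu]
    have h1 := one_le_dW hu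
    have hint := psi_interior (κ := κ) hω h1 h
    rcases dW_pred h1 with h2 | h2
    · have := psi_mono hω hκ h2
      linarith
    · have := psi_mono hω hκ h2
      linarith
  · rw [if_neg hu]
    have h0 := dW_eq_zero hu
    rw [h0] at hplus hminus h ⊢
    have hw := psi_wall hω hκ (by simpa using h)
    simp only [zero_add] at hplus hminus
    have hp := psi_pos hω hκ 0
    have e : (1 + 1 / κ) * psi ω κ 0 = psi ω κ 0 + (1 / κ) * psi ω κ 0 := by ring
    have e2 : -(2 / κ) * psi ω κ 0 = -2 * ((1 / κ) * psi ω κ 0) := by ring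
    rw [e2]
    linarith

/-- Line energy inequality in the first direction. -/
lemma line_fst {f : W → ℝ} (hf : FS f) (U : ℤ → Finset ℤ) (ω κ : ℤ → ℤ → ℝ)
    (hω : ∀ v p, 0 < ω v p) (hκ : ∀ v p, 0 < κ v p)
    (h : ∀ x : W, f x ≠ 0 →
      ω x.2 (x.1 % 2) * (dW (U x.2) x.1 + 1 + κ x.2 (x.1 % 2)) ≤ π / 2) :
    S (fun x => coef (U x.2) (ω x.2 (x.1 % 2)) (κ x.2 (x.1 % 2)) x.1 * f x ^ 2) ≤ Q f (2, 0) := by
  refine ground_state hf (2, 0)
    (fun x => psi (ω x.2 (x.1 % 2)) (κ x.2 (x.1 % 2)) (dW (U x.2) x.1))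
    (fun x => coef (U x.2) (ω x.2 (x.1 % 2)) (κ x.2 (x.1 % 2)) x.1)
    (fun x => psi_pos (hω _ _) (hκ _ _) _) ?_
  intro x hx
  have e1 : (x + ((2, 0) : W)).1 = x.1 + 2 := rfl
  have e2 : (x + ((2, 0) : W)).2 = x.2 := by simp
  have e3 : (x - ((2, 0) : W)).1 = x.1 - 2 := rfl
  have e4 : (x - ((2, 0) : W)).2 = x.2 := by simp
  have m1 : (x.1 + 2) % 2 = x.1 % 2 := by omega
  have m2 : (x.1 - 2) % 2 = x.1 % 2 := by omega
  simp only [e1, e2, e3, e4, m1, m2]
  exact coef_spec _ (hω _ _) (hκ _ _) _ (h x hx)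

/-- Line energy inequality in the second direction. -/
lemma line_snd {f : W → ℝ} (hf : FS f) (U : ℤ → Finset ℤ) (ω κ : ℤ → ℤ → ℝ)
    (hω : ∀ v p, 0 < ω v p) (hκ : ∀ v p, 0 < κ v p)
    (h : ∀ x : W, f x ≠ 0 →
      ω x.1 (x.2 % 2) * (dW (U x.1) x.2 + 1 + κ x.1 (x.2 % 2)) ≤ π / 2) :
    S (fun x => coef (U x.1) (ω x.1 (x.2 % 2)) (κ x.1 (x.2 % 2)) x.2 * f x ^ 2) ≤ Q f (0, 2) := by
  refine ground_state hf (0, 2)
    (fun x => psi (ω x.1 (x.2 % 2)) (κ x.1 (x.2 % 2)) (dW (U x.1) x.2))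
    (fun x => coef (U x.1) (ω x.1 (x.2 % 2)) (κ x.1 (x.2 % 2)) x.2)
    (fun x => psi_pos (hω _ _) (hκ _ _) _) ?_
  intro x hx
  have e1 : (x + ((0, 2) : W)).2 = x.2 + 2 := rfl
  have e2 : (x + ((0, 2) : W)).1 = x.1 := by simp
  have e3 : (x - ((0, 2) : W)).2 = x.2 - 2 := rfl
  have e4 : (x - ((0, 2) : W)).1 = x.1 := by simp
  have m1 : (x.2 + 2) % 2 = x.2 % 2 := by omega
  have m2 : (x.2 - 2) % 2 = x.2 % 2 := by omega
  simp only [e1, e2, e3, e4, m1, m2]
  exact coef_spec _ (hω _ _) (hκ _ _) _ (h x hx)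

end Pool.Agent.Helper92.Diamond
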